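import Pool.Agent.H49SH.Main

/-!
Elementary facts on binary forms and on the data of an integral point.
-/

set_option autoImplicit false

open Polynomial

namespace Pool.Agent.H49TB

open Pool.Agent.H49SH Pool.Agent.H49TW

theorem hom_mul (f g : ℤ[X]) (x z : ℤ) : hom (f * g) x z = hom f x z * hom g x z := by
  unfold hom
  rw [mul_scaleRoots_of_noZeroDivisors, eval_mul]

theorem hom_one_right (f : ℤ[X]) (x : ℤ) : hom f x 1 = f.eval x := by
  unfold hom
  rw [scaleRoots_one]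

theorem hom_one (x z : ℤ) : hom 1 x z = 1 := by
  unfold hom
  rw [one_scaleRoots, eval_one]

theorem hom_prod {ι : Type*} (s : Finset ι) (f : ι → ℤ[X]) (x z : ℤ) :
    hom (∏ i ∈ s, f i) x z = ∏ i ∈ s, hom (f i) x z := by
  classical
  induction s using Finset.induction_on with
  | empty => rw [Finset.prod_empty, Finset.prod_empty, hom_one]
  | insert a s ha ih => rw [Finset.prod_insert ha, Finset.prod_insert ha, hom_mul, ih]

/-- the value is `x ^ n` modulo `z` -/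
theorem dvd_hom_sub {f : ℤ[X]} (hm : f.Monic) (x z : ℤ) : z ∣ hom f x z - x ^ f.natDegree := by
  rw [hom_eq_sum, Finset.sum_range_succ, hm.coeff_natDegree, Nat.sub_self, pow_zero]
  simp only [one_mul, add_sub_cancel_right]
  refine Finset.dvd_sum fun i hi => ?_
  have h1 : f.natDegree - i = f.natDegree - i - 1 + 1 := by
    have := Finset.mem_range.1 hi
    omega
  rw [h1, pow_succ]
  exact ⟨f.coeff i * z ^ (f.natDegree - i - 1) * x ^ i, by ring⟩

/-- a prime dividing a value at coprime arguments gives a root modulo the prime -/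
theorem exists_z {f : ℤ[X]} (hm : f.Monic) {ξ m : ℤ} (hc : IsCoprime ξ m) {p : ℕ} (hp : p.Prime)
    (hd : (p : ℤ) ∣ hom f ξ m) : ∃ z : ℤ, ∀ q : ℤ[X], (p : ℤ) ∣ hom q ξ m → (p : ℤ) ∣ q.eval z := by
  have hpi := Nat.prime_iff_prime_int.1 hp
  have hpm : ¬ (p : ℤ) ∣ m := by
    intro h
    have h1 := h.trans (dvd_hom_sub hm ξ m)
    have h2 : (p : ℤ) ∣ ξ ^ f.natDegree := by
      have := dvd_sub hd h1
      rwa [sub_sub_cancel] at this
    have h3 := hc.isUnit_of_dvd' (hpi.dvd_of_dvd_pow h2) h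
    rw [Int.isUnit_iff] at h3
    have := hp.one_lt
    omega
  have hcop : IsCoprime (p : ℤ) m := (Prime.coprime_iff_not_dvd hpi).2 hpm
  obtain ⟨u, v, huv⟩ := hcop
  refine ⟨v * ξ, fun q hq => ?_⟩
  -- `m * (v ξ) ≡ ξ`
  have h1 : (p : ℤ) ∣ hom q ξ m - hom q (m * (v * ξ)) (m * 1) := by
    rw [mul_one]
    have h2 : (p : ℤ) ∣ ξ - m * (v * ξ) := ⟨u * ξ, by linear_combination (-ξ) * huv⟩
    exact h2.trans (sub_dvd_eval_sub _ _ _)
  rw [hom_smul, hom_one_right] at h1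
  have h3 : (p : ℤ) ∣ m ^ q.natDegree * q.eval (v * ξ) := by
    have := dvd_sub hq h1
    rwa [sub_sub_cancel] at this
  rcases hpi.dvd_or_dvd h3 with h4 | h4
  · exact absurd (hpi.dvd_of_dvd_pow h4) hpm
  · exact h4

/-- Bezout with integer coefficients -/
theorem bezout {f g : ℤ[X]} (h : IsCoprime (f.map (Int.castRingHom ℚ)) (g.map (Int.castRingHom ℚ))) :
    ∃ (c : ℕ) (u v : ℤ[X]), 0 < c ∧ u * f + v * g = C (c : ℤ) := by
  obtain ⟨u, v, huv⟩ := h
  obtain ⟨a, ha, ha2⟩ := IsLocalization.integerNormalization_spec (nonZeroDivisors ℤ) u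
  obtain ⟨b, hb, hb2⟩ := IsLocalization.integerNormalization_spec (nonZeroDivisors ℤ) v
  have ha0 : a ≠ 0 := nonZeroDivisors.ne_zero ha
  have hb0 : b ≠ 0 := nonZeroDivisors.ne_zero hb
  set U := IsLocalization.integerNormalization (nonZeroDivisors ℤ) u
  set V := IsLocalization.integerNormalization (nonZeroDivisors ℤ) v
  have ha3 : U.map (Int.castRingHom ℚ) = a • u := ha2
  have hb3 : V.map (Int.castRingHom ℚ) = b • v := hb2
  have key : (C b * U) * f + (C a * V) * g = C (a * b) := by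
    apply Polynomial.map_injective (Int.castRingHom ℚ) (RingHom.injective_int _)
    rw [Polynomial.map_add, Polynomial.map_mul, Polynomial.map_mul, Polynomial.map_mul,
      Polynomial.map_mul, ha3, hb3, map_C, map_C, map_C]
    simp only [eq_intCast]
    push_cast
    rw [zsmul_eq_mul, zsmul_eq_mul]
    have e1 : ((a : ℤ) : ℚ[X]) = C (a : ℚ) := by simp
    have e2 : ((b : ℤ) : ℚ[X]) = C (b : ℚ) := by simp
    rw [e1, e2]
    rw [C_mul]
    linear_combination (C (a : ℚ) * C (b : ℚ)) * huv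
  have hab : (a * b) ^ 2 = (((a * b).natAbs ^ 2 : ℕ) : ℤ) := by
    push_cast
    rw [sq_abs]
  refine ⟨(a * b).natAbs ^ 2, C (a * b) * (C b * U), C (a * b) * (C a * V), ?_, ?_⟩
  · exact pow_pos (Int.natAbs_pos.2 (mul_ne_zero ha0 hb0)) 2
  · rw [← hab, sq, C_mul (a := a * b), ← key]
    ring

/-- the common prime divisors of the values of two coprime polynomials -/
theorem exists_res {f g : ℤ[X]} (hm : f.Monic)
    (h : IsCoprime (f.map (Int.castRingHom ℚ)) (g.map (Int.castRingHom ℚ))) :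
    ∃ c : ℕ, 0 < c ∧ ∀ ξ m : ℤ, IsCoprime ξ m → ∀ p : ℕ, p.Prime → (p : ℤ) ∣ hom f ξ m →
      (p : ℤ) ∣ hom g ξ m → p ∣ c := by
  obtain ⟨c, u, v, hc, huv⟩ := bezout h
  refine ⟨c, hc, fun ξ m hcop p hp h1 h2 => ?_⟩
  obtain ⟨z, hz⟩ := exists_z hm hcop hp h1
  have h3 := congrArg (fun q : ℤ[X] => q.eval z) huv
  simp only [eval_add, eval_mul, eval_C] at h3
  have h4 : (p : ℤ) ∣ (c : ℤ) := by
    rw [← h3]
    exact dvd_add ((hz f h1).mul_left _) ((hz g h2).mul_left _)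
  exact_mod_cast h4

/-- the size of the values -/
theorem hom_size {f : ℤ[X]} (hm : f.Monic) : ∃ S : ℕ, 1 ≤ S ∧ ∀ x z : ℤ, |z| ≤ |x| → z ≠ 0 →
    |hom f x z - x ^ f.natDegree| ≤ S * |z| * |x| ^ (f.natDegree - 1) := by
  refine ⟨1 + ∑ i ∈ Finset.range f.natDegree, (f.coeff i).natAbs, by omega, fun x z hzx hz => ?_⟩
  rw [hom_eq_sum, Finset.sum_range_succ, hm.coeff_natDegree, Nat.sub_self, pow_zero]
  simp only [one_mul, add_sub_cancel_right]
  refine (Finset.abs_sum_le_sum_abs _ _).trans ?_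
  have hz1 : 1 ≤ |z| := Int.one_le_abs hz
  have hx1 : 1 ≤ |x| := hz1.trans hzx
  have h1 : ∀ i ∈ Finset.range f.natDegree, |f.coeff i * z ^ (f.natDegree - i) * x ^ i| ≤
      ((f.coeff i).natAbs : ℤ) * (|z| * |x| ^ (f.natDegree - 1)) := by
    intro i hi
    have hi' := Finset.mem_range.1 hi
    rw [abs_mul, abs_mul, abs_pow, abs_pow, Int.natCast_natAbs, mul_assoc]
    refine mul_le_mul_of_nonneg_left ?_ (abs_nonneg _)
    have e1 : f.natDegree - i = f.natDegree - i - 1 + 1 := by omega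
    have e2 : f.natDegree - 1 = (f.natDegree - i - 1) + i := by omega
    rw [e1, pow_succ, e2, pow_add]
    have h2 : |z| ^ (f.natDegree - i - 1) ≤ |x| ^ (f.natDegree - i - 1) :=
      pow_le_pow_left₀ (abs_nonneg _) hzx _
    have h3 : 0 ≤ |z| * |x| ^ i := by positivity
    calc |z| ^ (f.natDegree - i - 1) * |z| * |x| ^ i = |z| ^ (f.natDegree - i - 1) * (|z| * |x| ^ i) := by ring
      _ ≤ |x| ^ (f.natDegree - i - 1) * (|z| * |x| ^ i) := mul_le_mul_of_nonneg_right h2 h3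
      _ = _ := by ring
  refine (Finset.sum_le_sum h1).trans ?_
  rw [← Finset.sum_mul]
  push_cast
  have h3 : 0 ≤ |z| * |x| ^ (f.natDegree - 1) := by positivity
  nlinarith

/-- the data attached to an integral point -/
structure Pd (f : ℤ[X]) (D ξ m : ℤ) (g : ℕ) : Prop where
  hD : D = g * m
  sqf : Squarefree D
  g0 : 0 < g
  cop : IsCoprime ξ m
  sq : ∃ w : ℤ, w ≠ 0 ∧ (g : ℤ) * hom f ξ m = w ^ 2

theorem Pd.gsq {f : ℤ[X]} {D ξ m : ℤ} {g : ℕ} (h : Pd f D ξ m g) : Squarefree g := by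
  have h1 : (g : ℤ) ∣ D := ⟨m, h.hD⟩
  exact Int.squarefree_natCast.1 (h.sqf.squarefree_of_dvd h1)

theorem Pd.m0 {f : ℤ[X]} {D ξ m : ℤ} {g : ℕ} (h : Pd f D ξ m g) : m ≠ 0 := by
  rintro rfl
  exact h.sqf.ne_zero (by rw [h.hD, mul_zero])

theorem Pd.hom0 {f : ℤ[X]} {D ξ m : ℤ} {g : ℕ} (h : Pd f D ξ m g) : hom f ξ m ≠ 0 := by
  intro h0
  obtain ⟨w, hw0, hw⟩ := h.sq
  rw [h0, mul_zero] at hw
  exact hw0 (pow_eq_zero_iff two_ne_zero |>.1 hw.symm)

/-- `D` is determined by `(ξ, m)` -/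
theorem Pd.unique {f : ℤ[X]} {D D' ξ m : ℤ} {g g' : ℕ} (h : Pd f D ξ m g) (h' : Pd f D' ξ m g') :
    D = D' := by
  obtain ⟨w, hw0, hw⟩ := h.sq
  obtain ⟨w', hw0', hw'⟩ := h'.sq
  have h1 : (g : ℤ) * w' ^ 2 = g' * w ^ 2 := by
    rw [← hw, ← hw']; ring
  have h2 : g * w'.natAbs ^ 2 = g' * w.natAbs ^ 2 := by
    have := congrArg Int.natAbs h1
    rw [Int.natAbs_mul, Int.natAbs_mul, Int.natAbs_pow, Int.natAbs_pow, Int.natAbs_natCast,
      Int.natAbs_natCast] at this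
    exact this
  have h3 : g = g' := sqf_unique h.gsq h'.gsq (Int.natAbs_ne_zero.2 hw0') (Int.natAbs_ne_zero.2 hw0) h2
  rw [h.hD, h'.hD, h3]

theorem exists_pd {f : ℤ[X]} (hf : Odd f.natDegree) {D x y : ℤ} (hD : Squarefree D) (hy : y ≠ 0)
    (hxy : y ^ 2 = hom f x D) : ∃ (g : ℕ) (ξ m : ℤ), x = g * ξ ∧ Pd f D ξ m g := by
  have hD0 : D ≠ 0 := hD.ne_zero
  obtain ⟨g, hg⟩ : ∃ g, g = Int.gcd x D := ⟨_, rfl⟩
  have hg0 : 0 < g := by rw [hg]; exact Int.gcd_pos_of_ne_zero_right _ hD0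
  obtain ⟨ξ, hξ⟩ : (g : ℤ) ∣ x := by rw [hg]; exact Int.gcd_dvd_left _ _
  obtain ⟨m, hm⟩ : (g : ℤ) ∣ D := by rw [hg]; exact Int.gcd_dvd_right _ _
  have hcop : IsCoprime ξ m := by
    rw [Int.isCoprime_iff_gcd_eq_one]
    have h1 : Int.gcd ((g : ℤ) * ξ) ((g : ℤ) * m) = g := by rw [← hξ, ← hm, ← hg]
    rw [Int.gcd_mul_left, Int.natAbs_natCast] at h1
    have h2 : g * Int.gcd ξ m = g * 1 := by rw [h1, mul_one]
    exact Nat.eq_of_mul_eq_mul_left hg0 h2
  refine ⟨g, ξ, m, hξ, hm, hD, hg0, hcop, ?_⟩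
  apply sq_root hg0 hf hy
  rw [hxy, hξ, hm, hom_smul]

/-- a prime dividing a factor of the form to an odd power divides `g` -/
theorem odd_dvd_g {g F F' w : ℤ} {p : ℕ} (hp : p.Prime) (hg : g ≠ 0) (hF : F ≠ 0) (hF' : F' ≠ 0)
    (h : g * (F * F') = w ^ 2) (hodd : Odd (padicValNat p F.natAbs)) (hpF' : ¬ (p : ℤ) ∣ F') :
    (p : ℤ) ∣ g := by
  have hfac : Fact p.Prime := ⟨hp⟩
  by_contra hpg
  have h1 := congrArg Int.natAbs h
  rw [Int.natAbs_mul, Int.natAbs_mul, Int.natAbs_pow] at h1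
  have h2 := congrArg (padicValNat p) h1
  rw [padicValNat.mul (Int.natAbs_ne_zero.2 hg) (mul_ne_zero (Int.natAbs_ne_zero.2 hF)
    (Int.natAbs_ne_zero.2 hF')), padicValNat.mul (Int.natAbs_ne_zero.2 hF) (Int.natAbs_ne_zero.2 hF'),
    padicValNat.pow] at h2
  have h3 : padicValNat p g.natAbs = 0 :=
    padicValNat.eq_zero_of_not_dvd fun h => hpg (Int.natCast_dvd.2 h)
  have h4 : padicValNat p F'.natAbs = 0 :=
    padicValNat.eq_zero_of_not_dvd fun h => hpF' (Int.natCast_dvd.2 h)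
  obtain ⟨k, hk⟩ := hodd
  omega

end Pool.Agent.H49TB
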