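import Pool.Agent.H49TB.Idl4
import Pool.Agent.H49TB.Asm1

/-!
Class polynomials for a product of irreducible polynomials.
-/

set_option autoImplicit false

open Polynomial

namespace Pool.Agent.H49TB

open Pool.Agent.H49SH

/-- class polynomials for one irreducible polynomial -/
structure Cls1 (h : ℤ[X]) (f₀ : ℕ) (B : ℝ) (A : ℝ → Finset ℤ[X]) (n : ℤ → ℤ → ℕ) : Prop where
  f0 : 0 < f₀
  hB : 1 ≤ B
  card : ∀ T : ℝ, 1 ≤ T → ((A T).card : ℝ) ≤ B * T
  deg : ∀ T : ℝ, 1 ≤ T → ∀ a ∈ A T, a.natDegree < h.natDegree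
  coef : ∀ T : ℝ, 1 ≤ T → ∀ a ∈ A T, ∀ k, |(a.coeff k : ℝ)| ≤ B * T
  ne : ∀ T : ℝ, 1 ≤ T → ∀ a ∈ A T, a ≠ 0
  sqf : ∀ ξ m : ℤ, IsCoprime ξ m → hom h ξ m ≠ 0 → Squarefree (n ξ m)
  odd : ∀ ξ m : ℤ, IsCoprime ξ m → hom h ξ m ≠ 0 → ∀ p : ℕ, p.Prime → p ∣ n ξ m → ¬ p ∣ f₀ →
    Odd (padicValNat p (hom h ξ m).natAbs)
  cls : ∀ ξ m : ℤ, IsCoprime ξ m → hom h ξ m ≠ 0 → ∀ T : ℝ, 1 ≤ T → (n ξ m : ℝ) ≤ T →
    ∃ a ∈ A T, ∃ b : ℤ[X], h ∣ b ^ 2 - a * (C ξ - C m * X)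

theorem exists_cls1 (h : ℤ[X]) (hm : h.Monic) (hirr : Irreducible (h.map (Int.castRingHom ℚ)))
    (hr : 0 < h.natDegree) : ∃ (f₀ : ℕ) (B : ℝ) (A : ℝ → Finset ℤ[X]) (n : ℤ → ℤ → ℕ),
    Cls1 h f₀ B A n := by
  obtain ⟨K, i1, i2, ⟨G⟩⟩ := exists_gen h hm hirr
  obtain ⟨B, A, hB, hA, hn⟩ := G.idl hr
  choose! n hn1 hn2 hn3 using hn
  exact ⟨G.f, B, A, n, G.fpos, hB, fun T hT => (hA T hT).1, fun T hT a ha => ((hA T hT).2 a ha).1,
    fun T hT a ha => ((hA T hT).2 a ha).2.1, fun T hT a ha => ((hA T hT).2 a ha).2.2,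
    fun ξ m h1 h2 => hn1 ξ m h1 h2, fun ξ m h1 h2 => hn2 ξ m h1 h2, fun ξ m h1 h2 => hn3 ξ m h1 h2⟩

/-- class polynomials for a product -/
structure ClsN {ι : Type} [Fintype ι] (h : ι → ℤ[X]) (f₀ : ℕ) (B : ℝ) (A : (ι → ℝ) → Finset ℤ[X])
    (n : ι → ℤ → ℤ → ℕ) : Prop where
  f0 : 0 < f₀
  hB : 1 ≤ B
  card : ∀ T : ι → ℝ, (∀ i, 1 ≤ T i) → ((A T).card : ℝ) ≤ B * ∏ i, T i
  deg : ∀ T : ι → ℝ, (∀ i, 1 ≤ T i) → ∀ a ∈ A T, a.natDegree < (∏ i, h i).natDegree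
  coef : ∀ T : ι → ℝ, (∀ i, 1 ≤ T i) → ∀ a ∈ A T, ∀ k, |(a.coeff k : ℝ)| ≤ B * ∏ i, T i
  cop : ∀ T : ι → ℝ, (∀ i, 1 ≤ T i) → ∀ a ∈ A T,
    IsCoprime ((∏ i, h i).map (Int.castRingHom ℚ)) (a.map (Int.castRingHom ℚ))
  sqf : ∀ i, ∀ ξ m : ℤ, IsCoprime ξ m → hom (h i) ξ m ≠ 0 → Squarefree (n i ξ m)
  odd : ∀ i, ∀ ξ m : ℤ, IsCoprime ξ m → hom (h i) ξ m ≠ 0 → ∀ p : ℕ, p.Prime → p ∣ n i ξ m →
    ¬ p ∣ f₀ → Odd (padicValNat p (hom (h i) ξ m).natAbs)
  cls : ∀ ξ m : ℤ, IsCoprime ξ m → (∀ i, hom (h i) ξ m ≠ 0) → ∀ T : ι → ℝ, (∀ i, 1 ≤ T i) →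
    (∀ i, (n i ξ m : ℝ) ≤ T i) → ∃ a ∈ A T, ∃ b : ℤ[X], (∏ i, h i) ∣ b ^ 2 - a * (C ξ - C m * X)

theorem le_prod {ι : Type} [Fintype ι] {T : ι → ℝ} (hT : ∀ i, 1 ≤ T i) (i : ι) : T i ≤ ∏ j, T j := by
  classical
  rw [← Finset.mul_prod_erase Finset.univ T (Finset.mem_univ i)]
  have h1 : 1 ≤ ∏ j ∈ Finset.univ.erase i, T j := Finset.one_le_prod fun j _ => hT j
  have h2 := hT i
  nlinarith

/-- divisibility by a product of polynomials coprime over the rationals -/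
theorem prod_dvd {ι : Type} [Fintype ι] {h : ι → ℤ[X]} (hm : ∀ i, (h i).Monic)
    (hc : ∀ i j, i ≠ j → IsCoprime ((h i).map (Int.castRingHom ℚ)) ((h j).map (Int.castRingHom ℚ)))
    {P : ℤ[X]} (hP : ∀ i, h i ∣ P) : (∏ i, h i) ∣ P := by
  rw [← map_dvd_map _ (RingHom.injective_int (Int.castRingHom ℚ)) (monic_prod_of_monic _ _ fun i _ => hm i),
    Polynomial.map_prod]
  exact Fintype.prod_dvd_of_coprime (fun i j hij => hc i j hij) (fun i => Polynomial.map_dvd _ (hP i))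

theorem clsN_of_cls1 {ι : Type} [Fintype ι] (h : ι → ℤ[X]) (hm : ∀ i, (h i).Monic)
    (hirr : ∀ i, Irreducible ((h i).map (Int.castRingHom ℚ))) (hr : ∀ i, 0 < (h i).natDegree)
    (hc : ∀ i j, i ≠ j → IsCoprime ((h i).map (Int.castRingHom ℚ)) ((h j).map (Int.castRingHom ℚ)))
    (hne : Nonempty ι) {f₀ : ι → ℕ} {B : ι → ℝ} {A : ι → ℝ → Finset ℤ[X]} {n : ι → ℤ → ℤ → ℕ}
    (hA : ∀ i, Cls1 (h i) (f₀ i) (B i) (A i) (n i)) :
    ∃ (B' : ℝ) (A' : (ι → ℝ) → Finset ℤ[X]), ClsN h (∏ i, f₀ i) B' A' n := by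
  classical
  -- idempotents
  have hco : ∀ i, IsCoprime ((h i).map (Int.castRingHom ℚ))
      ((∏ j ∈ Finset.univ.erase i, h j).map (Int.castRingHom ℚ)) := by
    intro i
    rw [Polynomial.map_prod]
    exact IsCoprime.prod_right fun j hj => hc i j (Finset.ne_of_mem_erase hj).symm
  choose c u v hc0 huv using fun i => bezout (hco i)
  let E : ι → ℤ[X] := fun i => v i * ∏ j ∈ Finset.univ.erase i, h j
  have hE1 : ∀ i, h i ∣ E i - C (c i : ℤ) := fun i => ⟨-u i, by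
    simp only [E]; linear_combination huv i⟩
  have hE2 : ∀ i l, i ≠ l → h l ∣ E i := fun i l hil =>
    (Finset.dvd_prod_of_mem h (Finset.mem_erase.2 ⟨hil.symm, Finset.mem_univ _⟩)).mul_left _
  set H : ℤ[X] := ∏ i, h i with hH
  have hHm : H.Monic := monic_prod_of_monic _ _ fun i _ => hm i
  have hdeg : ∀ i, (h i).natDegree ≤ H.natDegree := by
    intro i
    rw [hH, natDegree_prod_of_monic _ _ fun i _ => hm i]
    exact Finset.single_le_sum (f := fun i => (h i).natDegree) (fun _ _ => Nat.zero_le _) (Finset.mem_univ i)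
  have hH1 : H ≠ 1 := by
    intro h1
    obtain ⟨i⟩ := hne
    have h2 := hdeg i
    rw [h1, natDegree_one] at h2
    have := hr i
    omega
  choose M hM1 hM2 using fun i => mod_bound H hHm (E i ^ 2)
  let pol : (ι → ℤ[X]) → ℤ[X] := fun a => (∑ i, E i ^ 2 * a i) %ₘ H
  have hpol : ∀ a, H ∣ pol a - ∑ i, E i ^ 2 * a i := by
    intro a
    have h2 := modByMonic_add_div (∑ i, E i ^ 2 * a i) H
    exact ⟨-((∑ i, E i ^ 2 * a i) /ₘ H), by simp only [pol]; linear_combination h2⟩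
  have hdvdH : ∀ l, h l ∣ H := fun l => Finset.dvd_prod_of_mem h (Finset.mem_univ l)
  -- modulo `h l`
  have hsum : ∀ (a : ι → ℤ[X]) (l : ι), h l ∣ (∑ i, E i ^ 2 * a i) - E l ^ 2 * a l := by
    intro a l
    rw [← Finset.add_sum_erase Finset.univ _ (Finset.mem_univ l), add_sub_cancel_left]
    refine Finset.dvd_sum fun i hi => ?_
    exact (dvd_pow (hE2 i l (Finset.ne_of_mem_erase hi)) two_ne_zero).mul_right _
  have hpolA : ∀ (T : ι → ℝ), (∀ i, 1 ≤ T i) → ∀ a ∈ Fintype.piFinset fun i => A i (T i),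
      (∀ k, |((pol a).coeff k : ℝ)| ≤ (∑ i, M i * B i) * ∏ i, T i) ∧
      IsCoprime (H.map (Int.castRingHom ℚ)) ((pol a).map (Int.castRingHom ℚ)) := by
    intro T hT a ha
    rw [Fintype.mem_piFinset] at ha
    constructor
    · intro k
      have h1 : pol a = ∑ i, (E i ^ 2 * a i) %ₘ H := by
        have h2 := map_sum (modByMonicHom H) (fun i => E i ^ 2 * a i) Finset.univ
        simp only [modByMonicHom_apply] at h2
        exact h2
      rw [h1, finsetSum_coeff]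
      push_cast
      refine (Finset.abs_sum_le_sum_abs _ _).trans ?_
      rw [Finset.sum_mul]
      refine Finset.sum_le_sum fun i _ => ?_
      have h3 := hM2 i (a i) (B i * T i) (((hA i).deg _ (hT i) _ (ha i)).trans_le (hdeg i))
        ((hA i).coef _ (hT i) _ (ha i)) k
      refine h3.trans ?_
      rw [mul_assoc]
      refine mul_le_mul_of_nonneg_left ?_ (zero_le_one.trans (hM1 i))
      exact mul_le_mul_of_nonneg_left (le_prod hT i) (zero_le_one.trans (hA i).hB)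
    · rw [hH, Polynomial.map_prod]
      refine IsCoprime.prod_left fun l _ => ?_
      rw [(hirr l).coprime_iff_not_dvd]
      intro hd
      rw [map_dvd_map _ (RingHom.injective_int (Int.castRingHom ℚ)) (hm l)] at hd
      have h1 : h l ∣ ∑ i, E i ^ 2 * a i := by
        have := dvd_sub hd ((hdvdH l).trans (hpol a))
        rwa [sub_sub_cancel] at this
      have h2 : h l ∣ E l ^ 2 * a l := by
        have := dvd_sub h1 (hsum a l)
        rwa [sub_sub_cancel] at this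
      have h3 : h l ∣ C ((c l : ℤ) ^ 2) * a l := by
        have h4 : h l ∣ E l ^ 2 * a l - C ((c l : ℤ) ^ 2) * a l := by
          have e : E l ^ 2 * a l - C ((c l : ℤ) ^ 2) * a l =
              (E l - C (c l : ℤ)) * ((E l + C (c l : ℤ)) * a l) := by
            rw [C_pow]; ring
          rw [e]
          exact (hE1 l).mul_right _
        have := dvd_sub h2 h4
        rwa [sub_sub_cancel] at this
      have h5 : C ((c l : ℤ) ^ 2) * a l ≠ 0 := by
        refine mul_ne_zero ?_ ((hA l).ne _ (hT l) _ (ha l))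
        rw [Ne, C_eq_zero]
        have := hc0 l
        positivity
      have h6 : (C ((c l : ℤ) ^ 2) * a l).natDegree < (h l).natDegree := by
        have h7 := (hA l).deg _ (hT l) _ (ha l)
        have h8 := natDegree_C_mul_le ((c l : ℤ) ^ 2) (a l)
        omega
      exact h5 (eq_zero_of_dvd_of_natDegree_lt h3 h6)
  refine ⟨max (∏ i, B i) (∑ i, M i * B i),
    fun T => (Fintype.piFinset fun i => A i (T i)).image pol, ?_⟩
  have hBp : 1 ≤ ∏ i, B i := Finset.one_le_prod fun i _ => (hA i).hB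
  have hTp : ∀ T : ι → ℝ, (∀ i, 1 ≤ T i) → 0 ≤ ∏ i, T i := fun T hT =>
    Finset.prod_nonneg fun i _ => zero_le_one.trans (hT i)
  refine ⟨Finset.prod_pos fun i _ => (hA i).f0, hBp.trans (le_max_left _ _), ?_, ?_, ?_, ?_, ?_, ?_, ?_⟩
  · intro T hT
    have h1 : ((((Fintype.piFinset fun i => A i (T i)).image pol).card : ℕ) : ℝ) ≤
        ∏ i, ((A i (T i)).card : ℝ) := by
      have h2 := Finset.card_image_le (s := Fintype.piFinset fun i => A i (T i)) (f := pol)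
      rw [Fintype.card_piFinset] at h2
      exact_mod_cast h2
    refine h1.trans ?_
    calc ∏ i, ((A i (T i)).card : ℝ) ≤ ∏ i, (B i * T i) :=
          Finset.prod_le_prod (fun _ _ => by positivity) fun i _ => (hA i).card _ (hT i)
      _ = (∏ i, B i) * ∏ i, T i := Finset.prod_mul_distrib
      _ ≤ _ := mul_le_mul_of_nonneg_right (le_max_left _ _) (hTp T hT)
  · intro T hT a ha
    obtain ⟨a, ha', rfl⟩ := Finset.mem_image.1 ha
    exact natDegree_modByMonic_lt _ hHm hH1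
  · intro T hT a ha k
    obtain ⟨a, ha', rfl⟩ := Finset.mem_image.1 ha
    exact ((hpolA T hT a ha').1 k).trans (mul_le_mul_of_nonneg_right (le_max_right _ _) (hTp T hT))
  · intro T hT a ha
    obtain ⟨a, ha', rfl⟩ := Finset.mem_image.1 ha
    exact (hpolA T hT a ha').2
  · intro i ξ m h1 h2
    exact (hA i).sqf ξ m h1 h2
  · intro i ξ m h1 h2 p hp hpn hpf
    exact (hA i).odd ξ m h1 h2 p hp hpn
      (fun h3 => hpf (h3.trans (Finset.dvd_prod_of_mem f₀ (Finset.mem_univ i))))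
  · intro ξ m h1 h2 T hT hn
    choose a ha b hb using fun i => (hA i).cls ξ m h1 (h2 i) (T i) (hT i) (hn i)
    refine ⟨pol a, Finset.mem_image_of_mem _ (Fintype.mem_piFinset.2 ha), ∑ i, E i * b i, ?_⟩
    refine prod_dvd hm hc fun l => ?_
    have e1 : h l ∣ (∑ i, E i * b i) - E l * b l := by
      rw [← Finset.add_sum_erase Finset.univ _ (Finset.mem_univ l), add_sub_cancel_left]
      exact Finset.dvd_sum fun i hi => (hE2 i l (Finset.ne_of_mem_erase hi)).mul_right _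
    have e2 : h l ∣ pol a - E l ^ 2 * a l := by
      have := dvd_add ((hdvdH l).trans (hpol a)) (hsum a l)
      rwa [sub_add_sub_cancel] at this
    have e3 : (∑ i, E i * b i) ^ 2 - pol a * (C ξ - C m * X) =
        ((∑ i, E i * b i) - E l * b l) * ((∑ i, E i * b i) + E l * b l) -
        (pol a - E l ^ 2 * a l) * (C ξ - C m * X) + E l ^ 2 * (b l ^ 2 - a l * (C ξ - C m * X)) := by
      ring
    rw [e3]
    exact dvd_add (dvd_sub (e1.mul_right _) (e2.mul_right _)) ((hb l).mul_left _)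

theorem exists_clsN {ι : Type} [Fintype ι] (h : ι → ℤ[X]) (hm : ∀ i, (h i).Monic)
    (hirr : ∀ i, Irreducible ((h i).map (Int.castRingHom ℚ))) (hr : ∀ i, 0 < (h i).natDegree)
    (hc : ∀ i j, i ≠ j → IsCoprime ((h i).map (Int.castRingHom ℚ)) ((h j).map (Int.castRingHom ℚ)))
    (hne : Nonempty ι) :
    ∃ (f₀ : ℕ) (B : ℝ) (A : (ι → ℝ) → Finset ℤ[X]) (n : ι → ℤ → ℤ → ℕ), ClsN h f₀ B A n := by
  choose f₀ B A n hA using fun i => exists_cls1 (h i) (hm i) (hirr i) (hr i)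
  obtain ⟨B', A', h'⟩ := clsN_of_cls1 h hm hirr hr hc hne hA
  exact ⟨_, B', A', n, h'⟩

end Pool.Agent.H49TB
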