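import Pool.Agent.H49TB.Cls

/-!
The number of the large points of one class: conclusion.
-/

set_option autoImplicit false

namespace Pool.Agent.H49TB

open Polynomial Finset
open Pool.Agent.H322R2 Pool.Agent.W257

/-- the exponent -/
def kx (r : ℕ) : ℕ := 4352 * (2 ^ (r - 1)) ^ 8 + 128 * (2 ^ (r - 1)) ^ 4 * kap (2 ^ (r - 1)) + 2 * r + 4

/-- the number -/
def cx (r : ℕ) : ℕ := (2 * kap (2 ^ (r - 1)) + 1) * (2 ^ (r - 1) * 2 ^ r)

lemma one_le_kap (d : ℕ) : 1 ≤ kap d := by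
  unfold kap
  exact Nat.one_le_iff_ne_zero.2 (by positivity)

lemma pow_bounds {d : ℕ} (hd : 1 ≤ d) {A K C R : ℝ} (hA : 0 ≤ A) (hK : 0 ≤ K) (hR : 1 ≤ R)
    (hC : 9 * (1 + A) * (1 + K) ≤ C) :
    2 + (2 + (1 + A) * (1 + K * R ^ 2) ^ d) ^ d ≤ (C * R) ^ (2 * d * d) := by
  obtain ⟨H, hH⟩ : ∃ H, H = (1 + A) * (1 + K * R ^ 2) ^ d := ⟨_, rfl⟩
  rw [← hH]
  have hR2 : 1 ≤ R ^ 2 := one_le_pow₀ hR
  have h1 : 1 ≤ H := by
    rw [hH]
    have : 1 ≤ (1 + K * R ^ 2) ^ d := one_le_pow₀ (by nlinarith)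
    nlinarith
  have h2 : 9 * H ≤ (C * R) ^ (2 * d) := by
    have e1 : (1 + A) ≤ (1 + A) ^ d := by
      calc (1 + A) = (1 + A) ^ 1 := (pow_one _).symm
        _ ≤ (1 + A) ^ d := pow_le_pow_right₀ (by linarith) hd
    have e2 : (9 : ℝ) ≤ 9 ^ d := by
      calc (9 : ℝ) = 9 ^ 1 := (pow_one _).symm
        _ ≤ 9 ^ d := pow_le_pow_right₀ (by norm_num) hd
    have e3 : 1 + K * R ^ 2 ≤ (1 + K) * R ^ 2 := by nlinarith
    have e4 : (1 + K * R ^ 2) ^ d ≤ ((1 + K) * R ^ 2) ^ d := pow_le_pow_left₀ (by positivity) e3 d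
    calc 9 * H = 9 * (1 + A) * (1 + K * R ^ 2) ^ d := by rw [hH]; ring
      _ ≤ 9 ^ d * (1 + A) ^ d * ((1 + K) * R ^ 2) ^ d := by gcongr
      _ = (9 * (1 + A) * (1 + K) * R ^ 2) ^ d := by rw [← mul_pow, ← mul_pow]; ring
      _ ≤ (C * R ^ 2) ^ d := by gcongr
      _ ≤ ((C * R) ^ 2) ^ d := by
          have hC1 : 1 ≤ C := by nlinarith [mul_nonneg hA hK]
          have hC0 : 0 ≤ C := by linarith
          apply pow_le_pow_left₀ (by positivity)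
          nlinarith [mul_nonneg (by linarith : (0 : ℝ) ≤ C - 1) (by positivity : (0 : ℝ) ≤ C * R ^ 2)]
      _ = (C * R) ^ (2 * d) := by rw [← pow_mul]
  calc 2 + (2 + H) ^ d ≤ 2 * (3 * H) ^ d + (3 * H) ^ d := by
        have e1 : 1 ≤ (3 * H) ^ d := one_le_pow₀ (by linarith)
        have e2 : (2 + H) ^ d ≤ (3 * H) ^ d := pow_le_pow_left₀ (by linarith) (by linarith) d
        linarith
    _ = 3 * (3 * H) ^ d := by ring
    _ ≤ 3 ^ d * (3 * H) ^ d := by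
        apply mul_le_mul_of_nonneg_right _ (by positivity)
        calc (3 : ℝ) = 3 ^ 1 := (pow_one _).symm
          _ ≤ 3 ^ d := pow_le_pow_right₀ (by norm_num) hd
    _ = (9 * H) ^ d := by rw [← mul_pow]; ring
    _ ≤ ((C * R) ^ (2 * d)) ^ d := pow_le_pow_left₀ (by linarith) h2 d
    _ = _ := by rw [← pow_mul]

/-- for given `η` and signs -/
lemma card_fiber {r : ℕ} (hr : 3 ≤ r) (T : Finset (ℤ × ℤ)) (η H : ℝ) (B : ℝ) (hB1 : 1 ≤ B)
    (hB : B = bB (2 ^ (r - 1)) H)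
    (hN : ∀ p ∈ T, ∃ (G : ℤ[X][X]) (w : ℤ), Nr (2 ^ (r - 1)) η H G p.1 w)
    (hpos : ∀ p ∈ T, 2 ≤ p.1) (hBl : ∀ p ∈ T, B ^ (kap (2 ^ (r - 1))) ≤ (p.1 : ℝ))
    (hgap : ∀ p ∈ T, ∀ q ∈ T, p.1 ≤ q.1 → (p.1 = q.1 ∧ p.2 = q.2) ∨ p.1 ^ 2 ≤ q.1) :
    T.card ≤ 2 * kap (2 ^ (r - 1)) + 1 := by
  classical
  have hd3 : 3 ≤ 2 ^ (r - 1) := by
    have : 2 ^ 2 ≤ 2 ^ (r - 1) := Nat.pow_le_pow_right (by norm_num) (by omega)
    omega
  have hinj : Set.InjOn (fun p : ℤ × ℤ => p.1.natAbs) T := by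
    intro p hp q hq hpq
    have h1 := hpos p hp
    have h2 := hpos q hq
    simp only at hpq
    have h3 : p.1 = q.1 := by omega
    rcases hgap p hp q hq h3.le with h | h
    · exact Prod.ext h.1 h.2
    · exfalso
      rw [← h3] at h
      nlinarith
  rw [← Finset.card_image_of_injOn hinj]
  rcases T.eq_empty_or_nonempty with h0 | h0
  · rw [h0]; simp
  obtain ⟨p₀, hp₀, hmin⟩ := Finset.exists_min_image T (fun p => p.1) h0
  have hp₀2 := hpos p₀ hp₀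
  apply Pool.Agent.H49SH.card_gap (2 * kap (2 ^ (r - 1))) p₀.1.natAbs
  · omega
  · intro t ht
    obtain ⟨q, hq, rfl⟩ := Finset.mem_image.1 ht
    have h1 := hmin q hq
    have h2 := hpos q hq
    refine ⟨by omega, ?_⟩
    obtain ⟨G, w, hG⟩ := hN p₀ hp₀
    obtain ⟨G', w', hG'⟩ := hN q hq
    have h3 : |(p₀.1 : ℝ)| = p₀.1 := abs_of_nonneg (by exact_mod_cast (by omega : (0 : ℤ) ≤ p₀.1))
    have h4 : |(q.1 : ℝ)| = q.1 := abs_of_nonneg (by exact_mod_cast (by omega : (0 : ℤ) ≤ q.1))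
    have h5 := two_nr hd3 hG hG' (by rw [h3, ← hB]; exact hBl p₀ hp₀)
    rw [h3, h4, ← hB] at h5
    have h6 : B ≤ p₀.1 := by
      refine le_trans ?_ (hBl p₀ hp₀)
      calc B = B ^ 1 := (pow_one B).symm
        _ ≤ _ := pow_le_pow_right₀ hB1 (one_le_kap _)
    have h7 : (q.1 : ℝ) ≤ (p₀.1 : ℝ) ^ (2 * kap (2 ^ (r - 1))) := by
      refine h5.trans ?_
      rw [pow_mul]
      apply pow_le_pow_left₀
      · have : (0 : ℝ) ≤ p₀.1 := by exact_mod_cast (by omega : (0 : ℤ) ≤ p₀.1)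
        positivity
      · have : (0 : ℝ) ≤ p₀.1 := by exact_mod_cast (by omega : (0 : ℤ) ≤ p₀.1)
        nlinarith
    have h8 : q.1 ≤ p₀.1 ^ (2 * kap (2 ^ (r - 1))) := by exact_mod_cast h7
    have h9 : (q.1.natAbs : ℤ) ≤ ((p₀.1.natAbs ^ (2 * kap (2 ^ (r - 1))) : ℕ) : ℤ) := by
      push_cast
      rw [abs_of_nonneg (by omega : (0 : ℤ) ≤ p₀.1), abs_of_nonneg (by omega : (0 : ℤ) ≤ q.1)]
      exact h8
    have h10 : q.1.natAbs ≤ p₀.1.natAbs ^ (2 * kap (2 ^ (r - 1))) := by exact_mod_cast h9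
    refine h10.trans ?_
    apply Nat.pow_le_pow_right (by omega)
    exact Nat.lt_two_pow_self.le
  · intro s hs t ht hst
    obtain ⟨p, hp, rfl⟩ := Finset.mem_image.1 hs
    obtain ⟨q, hq, rfl⟩ := Finset.mem_image.1 ht
    have h1 := hpos p hp
    have h2 := hpos q hq
    rcases hgap p hp q hq (by omega) with h | h
    · omega
    · have h3 : ((p.1.natAbs ^ 2 : ℕ) : ℤ) ≤ (q.1.natAbs : ℤ) := by
        push_cast
        rw [sq_abs, abs_of_nonneg (by omega : (0 : ℤ) ≤ q.1)]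
        exact h
      exact_mod_cast h3

theorem cls (r : ℕ) (hr : 3 ≤ r) (h : ℤ[X]) (hm : h.Monic) (hd : h.natDegree = r)
    (hsep : (h.map (Int.castRingHom ℚ)).Separable) : ∃ C : ℝ, 1 ≤ C ∧ ∀ R : ℝ, 1 ≤ R →
      ∀ a : ℤ[X], a.natDegree < r → (∀ k, |(a.coeff k : ℝ)| ≤ R) →
      IsCoprime (h.map (Int.castRingHom ℚ)) (a.map (Int.castRingHom ℚ)) →
      ∀ S : Finset (ℤ × ℤ), (∀ p ∈ S, IsCoprime p.1 p.2 ∧ p.2 ≠ 0 ∧ |(p.2 : ℝ)| ≤ R ∧
        (C * R) ^ kx r < (p.1 : ℝ) ∧ ∃ b : ℤ[X], h ∣ b ^ 2 - a * (Polynomial.C p.1 - Polynomial.C p.2 * X)) →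
      S.card ≤ cx r := by
  classical
  obtain ⟨θ, hθ⟩ := Pool.Agent.N302.SP.exists_roots (h.map (Int.castRingHom ℂ)) (hm.map _)
    (r := r) (by rw [natDegree_map_eq_of_injective Int.cast_injective, hd])
  have hcomp : (algebraMap ℚ ℂ).comp (Int.castRingHom ℚ) = Int.castRingHom ℂ := RingHom.ext_int _ _
  have hinj : Function.Injective θ := by
    have h1 : (h.map (Int.castRingHom ℂ)).Separable := by
      rw [← hcomp, ← Polynomial.map_map]
      exact hsep.map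
    rw [hθ] at h1
    exact separable_prod_X_sub_C_iff.1 h1
  obtain ⟨V, hV⟩ := exists_vand θ hinj
  obtain ⟨P, hP, hh, hsy⟩ := exists_P r (by omega)
  have hd3 : 3 ≤ 2 ^ (r - 1) := by
    have : 2 ^ 2 ≤ 2 ^ (r - 1) := Nat.pow_le_pow_right (by norm_num) (by omega)
    omega
  obtain ⟨M, hM⟩ : ∃ M : ℝ, M = 1 + ∑ i, ‖θ i‖ := ⟨_, rfl⟩
  have hM1 : 1 ≤ M := by
    rw [hM]
    have : 0 ≤ ∑ i, ‖θ i‖ := Finset.sum_nonneg (fun _ _ => norm_nonneg _)
    linarith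
  have hθM : ∀ i, ‖θ i‖ ≤ M := by
    intro i
    rw [hM]
    have := Finset.single_le_sum (f := fun i => ‖θ i‖) (fun _ _ => norm_nonneg _) (Finset.mem_univ i)
    linarith
  obtain ⟨K, hK⟩ : ∃ K : ℝ, K = ∑ k, ∑ i, ‖V k i‖ := ⟨_, rfl⟩
  have hKk : ∀ k, ∑ i, ‖V k i‖ ≤ K := by
    intro k
    rw [hK]
    exact Finset.single_le_sum (f := fun k => ∑ i, ‖V k i‖)
      (fun _ _ => Finset.sum_nonneg (fun _ _ => norm_nonneg _)) (Finset.mem_univ k)
  obtain ⟨A, hA⟩ : ∃ A : ℝ, A = ∑ s ∈ P.support, |((MvPolynomial.coeff s P : ℤ) : ℝ)| := ⟨_, rfl⟩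
  have hA0 : 0 ≤ A := by rw [hA]; exact Finset.sum_nonneg (fun _ _ => abs_nonneg _)
  have hK10 : 0 ≤ K1 r M := by unfold K1; positivity
  obtain ⟨C, hC⟩ : ∃ C : ℝ, C = 9 * (1 + A) * (1 + K1 r M) +
    16 * K ^ 2 * (r * M ^ r) ^ (2 * r) * M ^ 4 + 2 * M + 1 := ⟨_, rfl⟩
  have hc1 : 0 ≤ 9 * (1 + A) * (1 + K1 r M) := by positivity
  have hc2 : 0 ≤ 16 * K ^ 2 * (r * M ^ r) ^ (2 * r) * M ^ 4 := by positivity
  have hC1 : 1 ≤ C := by rw [hC]; linarith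
  refine ⟨C, hC1, ?_⟩
  intro R hR a hda haR hcop S hS
  have haev : ∀ (g : ℤ[X]) (z : ℂ), aeval z g = (g.map (Int.castRingHom ℂ)).eval z := by
    intro g z
    rw [aeval_def, eval₂_eq_eval_map]
    rfl
  have hroot : ∀ i, aeval (θ i) h = 0 := by
    intro i
    rw [haev, hθ, eval_prod]
    apply Finset.prod_eq_zero (Finset.mem_univ i)
    simp
  have ha0 : ∀ i, aeval (θ i) a ≠ 0 := by
    intro i h0
    obtain ⟨u, v, huv⟩ := hcop
    have h1 := congrArg (fun p => (p.map (algebraMap ℚ ℂ)).eval (θ i)) huv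
    simp only [Polynomial.map_add, Polynomial.map_mul, Polynomial.map_map, hcomp, eval_add, eval_mul,
      ← haev, hroot, h0, mul_zero, add_zero, Polynomial.map_one, eval_one] at h1
    exact zero_ne_one h1
  have hCR : 1 ≤ C * R := by nlinarith
  obtain ⟨H, hH⟩ : ∃ H : ℝ, H = (1 + A) * (1 + K1 r M * R ^ 2) ^ (2 ^ (r - 1)) := ⟨_, rfl⟩
  have hHb := pow_bounds (d := 2 ^ (r - 1)) (by omega) hA0 hK10 hR (C := C) (by rw [hC]; linarith)
  rw [← hH] at hHb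
  have hH0 : 0 ≤ H := by rw [hH]; positivity
  obtain ⟨Z, hZc, hZ⟩ := class_nr hr hP hh hsy h θ hθ hinj M hM1 hθM R hR a hda haR ha0 H
    (by rw [hH, hA])
  choose s hs using fun i => IsAlgClosed.exists_pow_nat_eq (aeval (θ i) a) (n := 2) (by norm_num)
  have hs0 : ∀ i, s i ≠ 0 := by
    intro i h0
    have := hs i
    rw [h0] at this
    exact ha0 i (by rw [← this]; norm_num)
  have hbase : 0 ≤ 2 + (2 + H) ^ (2 ^ (r - 1)) := by positivity
  -- consequences of largeness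
  have hT1 : (2 + (2 + H) ^ (2 ^ (r - 1))) ^ (2176 * (2 ^ (r - 1)) ^ 6) ≤ (C * R) ^ kx r := by
    refine (pow_le_pow_left₀ hbase hHb _).trans ?_
    rw [← pow_mul]
    apply pow_le_pow_right₀ hCR
    unfold kx
    have : 2 * 2 ^ (r - 1) * 2 ^ (r - 1) * (2176 * (2 ^ (r - 1)) ^ 6) = 4352 * (2 ^ (r - 1)) ^ 8 := by ring
    omega
  obtain ⟨B, hB⟩ : ∃ B : ℝ, B = bB (2 ^ (r - 1)) ((2 + H) ^ (2 ^ (r - 1))) := ⟨_, rfl⟩
  have hB1 : 1 ≤ B := by
    rw [hB, bB]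
    apply one_le_pow₀
    have : (0 : ℝ) ≤ (2 + H) ^ (2 ^ (r - 1)) := by positivity
    linarith
  have hT2 : B ^ kap (2 ^ (r - 1)) ≤ (C * R) ^ kx r := by
    rw [hB, bB, ← pow_mul]
    refine (pow_le_pow_left₀ hbase hHb _).trans ?_
    rw [← pow_mul]
    apply pow_le_pow_right₀ hCR
    unfold kx
    have : 2 * 2 ^ (r - 1) * 2 ^ (r - 1) * (64 * (2 ^ (r - 1)) ^ 2 * kap (2 ^ (r - 1))) =
      128 * (2 ^ (r - 1)) ^ 4 * kap (2 ^ (r - 1)) := by ring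
    omega
  have hT3 : 2 * M * R ≤ (C * R) ^ kx r := by
    calc 2 * M * R ≤ C * R := by
          apply mul_le_mul_of_nonneg_right _ (by linarith)
          rw [hC]; linarith
      _ = (C * R) ^ 1 := (pow_one _).symm
      _ ≤ _ := pow_le_pow_right₀ hCR (by unfold kx; omega)
  have hT4 : 16 * K ^ 2 * ((r * R * M ^ r) ^ r) ^ 2 * M ^ 4 * R ^ 4 ≤ (C * R) ^ kx r := by
    have e1 : 16 * K ^ 2 * ((r * R * M ^ r) ^ r) ^ 2 * M ^ 4 * R ^ 4 =
      (16 * K ^ 2 * (r * M ^ r) ^ (2 * r) * M ^ 4) * R ^ (2 * r + 4) := by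
      rw [← pow_mul, mul_comm r 2, pow_add, show (r : ℝ) * R * M ^ r = (r * M ^ r) * R by ring,
        mul_pow (↑r * M ^ r) R (2 * r)]
      ring
    rw [e1]
    calc (16 * K ^ 2 * (r * M ^ r) ^ (2 * r) * M ^ 4) * R ^ (2 * r + 4) ≤ C * R ^ (2 * r + 4) := by
          apply mul_le_mul_of_nonneg_right _ (by positivity)
          rw [hC]; linarith
      _ ≤ C ^ (2 * r + 4) * R ^ (2 * r + 4) := by
          apply mul_le_mul_of_nonneg_right _ (by positivity)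
          calc C = C ^ 1 := (pow_one _).symm
            _ ≤ _ := pow_le_pow_right₀ hC1 (by omega)
      _ = (C * R) ^ (2 * r + 4) := by rw [mul_pow]
      _ ≤ _ := pow_le_pow_right₀ hCR (by unfold kx; omega)
  have hpos : ∀ p ∈ S, 2 ≤ p.1 := by
    intro p hp
    have h1 := (hS p hp).2.2.2.1
    have h2 : (1 : ℝ) ≤ (C * R) ^ kx r := one_le_pow₀ hCR
    have h3 : (1 : ℝ) < p.1 := lt_of_le_of_lt h2 h1
    have h4 : (1 : ℤ) < p.1 := by exact_mod_cast h3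
    omega
  have key : ∀ p ∈ S, ∃ ησ : ℝ × (Fin r → Bool), ησ.1 ∈ Z ∧ (∃ (G : ℤ[X][X]) (w : ℤ),
      Nr (2 ^ (r - 1)) ησ.1 ((2 + H) ^ (2 ^ (r - 1))) G p.1 w) ∧ Pnt θ s ησ.2 p.1 p.2 := by
    intro p hp
    obtain ⟨c1, c2, c3, c4, b, hb⟩ := hS p hp
    have hb' : ∀ i, aeval (θ i) b ^ 2 = aeval (θ i) a * (p.1 - p.2 * θ i) := by
      intro i
      obtain ⟨q, hq⟩ := hb
      have := congrArg (aeval (θ i)) hq
      rw [map_sub, map_pow, map_mul, map_mul, hroot, zero_mul, map_sub, map_mul, aeval_X, aeval_C,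
        aeval_C] at this
      simp only [eq_intCast] at this
      linear_combination this
    have hp2 := hpos p hp
    have habs : |(p.1 : ℝ)| = p.1 := abs_of_nonneg (by exact_mod_cast (by omega : (0 : ℤ) ≤ p.1))
    obtain ⟨η, hη, G, w, hN⟩ := hZ p.1 p.2 c2 c3 (by rw [habs]; exact lt_of_le_of_lt hT1 c4) b hb'
    obtain ⟨σ, hσ⟩ := pnt_of_b hs hθM (by omega) c3 (hT3.trans c4.le) hb'
    exact ⟨(η, σ), hη, ⟨G, w, hN⟩, hσ⟩
  choose! F hF1 hF2 hF3 using key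
  have hmaps : ∀ p ∈ S, F p ∈ Z ×ˢ (univ : Finset (Fin r → Bool)) := by
    intro p hp
    rw [Finset.mem_product]
    exact ⟨hF1 p hp, Finset.mem_univ _⟩
  have hfib : ∀ q ∈ Z ×ˢ (univ : Finset (Fin r → Bool)), (S.filter (fun p => F p = q)).card ≤
      2 * kap (2 ^ (r - 1)) + 1 := by
    intro q _
    apply card_fiber hr _ q.1 ((2 + H) ^ (2 ^ (r - 1))) B hB1 hB
    · intro p hp
      rw [Finset.mem_filter] at hp
      rw [← hp.2]
      exact hF2 p hp.1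
    · intro p hp
      rw [Finset.mem_filter] at hp
      exact hpos p hp.1
    · intro p hp
      rw [Finset.mem_filter] at hp
      exact hT2.trans (hS p hp.1).2.2.2.1.le
    · intro p hp p' hp' hle
      rw [Finset.mem_filter] at hp hp'
      obtain ⟨c1, c2, c3, c4, -⟩ := hS p hp.1
      obtain ⟨c1', c2', c3', c4', -⟩ := hS p' hp'.1
      have e1 := hF3 p hp.1
      have e2 := hF3 p' hp'.1
      rw [hp.2] at e1
      rw [hp'.2] at e2
      have := hpos p hp.1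
      refine gap hr h hm hd θ hθ hinj a s hs hs0 V hV K M ((r * R * M ^ r) ^ r) R hKk hM1 hθM ?_ hR q.2
        p.1 p.2 p'.1 p'.2 c1 c1' c3 c3' (by omega) hle (hT3.trans c4.le) (lt_of_le_of_lt hT4 c4) e1 e2
      rw [norm_prod]
      calc ∏ i, ‖aeval (θ i) a‖ ≤ ∏ _i : Fin r, (r * R * M ^ r) :=
            Finset.prod_le_prod (fun _ _ => norm_nonneg _)
              (fun i _ => norm_aeval_le a hda haR hM1 (θ i) (hθM i))
        _ = _ := by rw [Finset.prod_const, Finset.card_univ, Fintype.card_fin]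
  refine (Finset.card_le_mul_card_image_of_maps_to hmaps _ hfib).trans ?_
  unfold cx
  apply Nat.mul_le_mul_left
  rw [Finset.card_product, Finset.card_univ, Fintype.card_fun, Fintype.card_bool, Fintype.card_fin]
  exact Nat.mul_le_mul_right _ hZc

end Pool.Agent.H49TB
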