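import Pool.Agent.H49TB.Asm2
import Pool.Agent.H49TB.Cls2

/-!
The number of the `D` with a large point in given classes.
-/

set_option autoImplicit false

open Polynomial

namespace Pool.Agent.H49TB

open Pool.Agent.H49SH

theorem sep_prod {ι : Type} [Fintype ι] {h : ι → ℤ[X]}
    (hirr : ∀ i, Irreducible ((h i).map (Int.castRingHom ℚ)))
    (hc : ∀ i j, i ≠ j → IsCoprime ((h i).map (Int.castRingHom ℚ)) ((h j).map (Int.castRingHom ℚ))) :
    ((∏ i, h i).map (Int.castRingHom ℚ)).Separable := by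
  rw [Polynomial.map_prod]
  exact separable_prod (fun i j hij => hc i j hij) fun i => (hirr i).separable

theorem count {ι : Type} [Fintype ι] {h : ι → ℤ[X]} {f₀ : ℕ} {B : ℝ} {A : (ι → ℝ) → Finset ℤ[X]}
    {n : ι → ℤ → ℤ → ℕ} (hA : ClsN h f₀ B A n) (hm : ∀ i, (h i).Monic)
    (hirr : ∀ i, Irreducible ((h i).map (Int.castRingHom ℚ)))
    (hc : ∀ i j, i ≠ j → IsCoprime ((h i).map (Int.castRingHom ℚ)) ((h j).map (Int.castRingHom ℚ)))
    (hr : 3 ≤ (∏ i, h i).natDegree) {f : ℤ[X]} (hf : (∏ i, h i) ∣ f) (C₁ : ℝ) (hC₁ : 1 ≤ C₁) :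
    ∃ C₂ : ℝ, 1 ≤ C₂ ∧ ∀ N : ℝ, 1 ≤ N → ∀ T : ι → ℝ, (∀ i, 1 ≤ T i) → ∏ i, T i ≤ C₁ * N →
      ∀ S : Finset ℤ, (∀ D ∈ S, ∃ (ξ m : ℤ) (g : ℕ), Pd f D ξ m g ∧ |(m : ℝ)| ≤ N ∧
        (C₂ * N) ^ kx (∏ i, h i).natDegree < (ξ : ℝ) ∧ ∀ i, (n i ξ m : ℝ) ≤ T i) →
      (S.card : ℝ) ≤ B * cx (∏ i, h i).natDegree * ∏ i, T i := by
  classical
  obtain ⟨C, hC, hcls⟩ := cls _ hr (∏ i, h i) (monic_prod_of_monic _ _ fun i _ => hm i) rfl
    (sep_prod hirr hc)
  set r := (∏ i, h i).natDegree with hrdef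
  have hB := hA.hB
  refine ⟨C * (B * C₁), by nlinarith [mul_le_mul hB hC₁ zero_le_one (by linarith : (0:ℝ) ≤ B)], ?_⟩
  intro N hN T hT hTN S hS
  set R : ℝ := B * C₁ * N with hR
  have hBC : 1 ≤ B * C₁ := by nlinarith
  have hR1 : 1 ≤ R := by rw [hR]; nlinarith
  have hNR : N ≤ R := by rw [hR]; nlinarith
  have hTR : B * ∏ i, T i ≤ R := by
    rw [hR, mul_assoc]
    exact mul_le_mul_of_nonneg_left hTN (by linarith)
  choose! ξ m g hpd hmN hξ hn using hS
  have hex : ∀ D ∈ S, ∃ a ∈ A T, ∃ b : ℤ[X], (∏ i, h i) ∣ b ^ 2 - a * (Polynomial.C (ξ D) - Polynomial.C (m D) * X) := by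
    intro D hD
    refine hA.cls _ _ (hpd D hD).cop (fun i h0 => ?_) T hT (hn D hD)
    obtain ⟨f', hf'⟩ := (Finset.dvd_prod_of_mem h (Finset.mem_univ i)).trans hf
    apply (hpd D hD).hom0
    rw [hf', hom_mul, h0, zero_mul]
  choose! a ha b hb using hex
  have h1 : S.card ≤ cx r * (A T).card := by
    refine Finset.card_le_mul_card_image_of_maps_to ha _ fun α hα => ?_
    -- the pairs of a class
    have hinj : Set.InjOn (fun D => (ξ D, m D)) (S.filter (fun D => a D = α) : Set ℤ) := by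
      intro D hD D' hD' he
      rw [Finset.mem_coe, Finset.mem_filter] at hD hD'
      simp only [Prod.mk.injEq] at he
      have h1 := hpd D hD.1
      have h2 := hpd D' hD'.1
      rw [he.1, he.2] at h1
      exact h1.unique h2
    rw [← Finset.card_image_of_injOn hinj]
    refine hcls R hR1 α (hA.deg T hT α hα) (fun k => (hA.coef T hT α hα k).trans hTR)
      (hA.cop T hT α hα) _ fun p hp => ?_
    obtain ⟨D, hD, rfl⟩ := Finset.mem_image.1 hp
    rw [Finset.mem_filter] at hD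
    refine ⟨(hpd D hD.1).cop, (hpd D hD.1).m0, (hmN D hD.1).trans hNR, ?_, b D, ?_⟩
    · have := hξ D hD.1
      rw [hR]
      calc (C * (B * C₁ * N)) ^ kx r = (C * (B * C₁) * N) ^ kx r := by ring
        _ < _ := this
    · rw [← hD.2]
      exact hb D hD.1
  calc (S.card : ℝ) ≤ cx r * (A T).card := by exact_mod_cast h1
    _ ≤ cx r * (B * ∏ i, T i) := mul_le_mul_of_nonneg_left (hA.card T hT) (by positivity)
    _ = _ := by ring

end Pool.Agent.H49TB
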