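import Pool.Agent.Y701.CH.Dens

/-!
The integers composed of primes modulo which an irreducible polynomial has a root have density zero.
-/

set_option autoImplicit false

open Polynomial NumberField Finset

namespace Pool.Agent.H49TB

open Pool.Agent.W401.Cheb Pool.Agent.TH888.B1 Pool.Agent.Y701.CH

theorem exists_galois' {F : Type} [Field F] [CharZero F] (f : F[X]) :
    ∃ (L : Type) (_ : Field L) (_ : Algebra F L) (_ : FiniteDimensional F L)
    (_ : IsGalois F L), (f.map (algebraMap F L)).Splits := by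
  have hnor : Normal F f.SplittingField := Normal.of_isSplittingField f
  exact ⟨f.SplittingField, inferInstance, inferInstance, inferInstance, { },
    SplittingField.splits f⟩

/-- (copied from `H294P.Glob`) -/
theorem exists_galois (f : ℚ[X]) : ∃ (L : Type) (_ : Field L) (_ : NumberField L)
    (_ : IsGalois ℚ L), (f.map (algebraMap ℚ L)).Splits := by
  obtain ⟨L, hL, hA, hfd, hG, hs⟩ := exists_galois' f
  have hc : CharZero L := charZero_of_injective_algebraMap (algebraMap ℚ L).injective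
  have h0 : hA = DivisionRing.toRatAlgebra := Subsingleton.elim _ _
  subst h0
  exact ⟨L, hL, ⟨⟩, hG, hs⟩

/-- an automorphism without fixed roots -/
theorem exists_fpf {L : Type} [Field L] [NumberField L] [IsGalois ℚ L] (q : ℚ[X])
    (hq : Irreducible q) (hm : q.Monic) (hd : 2 ≤ q.natDegree)
    (hs : (q.map (algebraMap ℚ L)).Splits) :
    ∃ σ : Gal(L/ℚ), ∀ α : L, aeval α q = 0 → σ α ≠ α := by
  classical
  obtain ⟨α, hα⟩ : ∃ α : L, aeval α q = 0 := by
    obtain ⟨α, hα⟩ := hs.exists_eval_eq_zero (by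
      rw [degree_map]
      intro h
      rw [degree_eq_natDegree hm.ne_zero] at h
      have : q.natDegree = 0 := by exact_mod_cast h
      omega)
    exact ⟨α, by rwa [eval_map_algebraMap] at hα⟩
  have hmin : ∀ β : L, aeval β q = 0 → minpoly ℚ β = q := fun β hβ =>
    (minpoly.eq_of_irreducible_of_monic hq hβ hm).symm
  by_contra hcon
  push Not at hcon
  have hfin : Finite (MulAction.orbit Gal(L/ℚ) α) :=
    (Set.finite_range (fun m : Gal(L/ℚ) => m • α)).to_subtype
  have := Fintype.ofFinite (MulAction.orbit Gal(L/ℚ) α)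
  have hmem : ∀ β : L, aeval β q = 0 → β ∈ MulAction.orbit Gal(L/ℚ) α := fun β hβ =>
    (Normal.minpoly_eq_iff_mem_orbit (F := ℚ) (E := L)).1 (by rw [hmin β hβ, hmin α hα])
  -- a second point
  have h2 : 2 ≤ Fintype.card (MulAction.orbit Gal(L/ℚ) α) := by
    by_contra hlt
    have h3 : Fintype.card (MulAction.orbit Gal(L/ℚ) α) ≤ 1 := by omega
    have h4 : Subsingleton (MulAction.orbit Gal(L/ℚ) α) := Fintype.card_le_one_iff_subsingleton.1 h3
    have h5 : ∀ σ : Gal(L/ℚ), σ α = α := by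
      intro σ
      have h6 : (⟨σ α, MulAction.mem_orbit _ σ⟩ : MulAction.orbit Gal(L/ℚ) α) =
        ⟨α, MulAction.mem_orbit_self _⟩ := Subsingleton.elim _ _
      exact congrArg Subtype.val h6
    have h6 : α ∈ (⊥ : IntermediateField ℚ L) := (IsGalois.mem_bot_iff_fixed α).2 h5
    rw [IntermediateField.mem_bot] at h6
    obtain ⟨c, hc⟩ := h6
    have h7 : minpoly ℚ α = X - C c := by rw [← hc]; exact minpoly.eq_X_sub_C L c
    rw [hmin α hα] at h7
    rw [h7, natDegree_X_sub_C] at hd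
    omega
  have hB := MulAction.sum_card_fixedBy_eq_card_orbits_mul_card_group Gal(L/ℚ)
    (MulAction.orbit Gal(L/ℚ) α)
  have hone : Fintype.card (Quotient (MulAction.orbitRel Gal(L/ℚ) (MulAction.orbit Gal(L/ℚ) α))) = 1 := by
    rw [Fintype.card_eq_one_iff_nonempty_unique]
    have hs : Subsingleton (Quotient (MulAction.orbitRel Gal(L/ℚ) (MulAction.orbit Gal(L/ℚ) α))) :=
      (MulAction.pretransitive_iff_subsingleton_quotient _ _).1 inferInstance
    exact ⟨⟨⟨Quotient.mk _ ⟨α, MulAction.mem_orbit_self _⟩⟩, fun x => Subsingleton.elim _ _⟩⟩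
  rw [hone, one_mul] at hB
  have hge : ∀ σ : Gal(L/ℚ), 1 ≤ Fintype.card (MulAction.fixedBy (MulAction.orbit Gal(L/ℚ) α) σ) := by
    intro σ
    obtain ⟨β, hβ, hfix⟩ := hcon σ
    exact Fintype.card_pos_iff.2 ⟨⟨⟨β, hmem β hβ⟩, Subtype.ext hfix⟩⟩
  have hid : 2 ≤ Fintype.card (MulAction.fixedBy (MulAction.orbit Gal(L/ℚ) α) (1 : Gal(L/ℚ))) := by
    have h3 : MulAction.fixedBy (MulAction.orbit Gal(L/ℚ) α) (1 : Gal(L/ℚ)) = Set.univ := by
      ext x
      simp
    rw [Fintype.card_congr (Equiv.setCongr h3), Fintype.card_congr (Equiv.Set.univ _)]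
    exact h2
  have hlt : ∑ _σ : Gal(L/ℚ), 1 <
      ∑ σ : Gal(L/ℚ), Fintype.card (MulAction.fixedBy (MulAction.orbit Gal(L/ℚ) α) σ) :=
    Finset.sum_lt_sum (fun σ _ => hge σ) ⟨1, Finset.mem_univ _, by omega⟩
  rw [hB] at hlt
  simp at hlt

/-- the primes modulo which `h` has no root -/
def NR (h : ℤ[X]) (p : ℕ) : Prop :=
  p.Prime ∧ ∀ z : ℤ, ¬ (p : ℤ) ∣ h.eval z

theorem nr_diverges (h : ℤ[X]) (hm : h.Monic) (hd : 2 ≤ h.natDegree)
    (hirr : Irreducible (h.map (Int.castRingHom ℚ))) :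
    ¬ Summable (fun n : ℕ => {p : ℕ | NR h p}.indicator (fun n : ℕ => (1 : ℝ) / n) n) := by
  classical
  obtain ⟨L, i1, i2, i3, hs⟩ := exists_galois (h.map (Int.castRingHom ℚ))
  have hco : (algebraMap ℚ L).comp (Int.castRingHom ℚ) = algebraMap ℤ L := RingHom.ext_int _ _
  obtain ⟨σ, hσ⟩ := exists_fpf _ hirr (hm.map _)
    (by rwa [natDegree_map_eq_of_injective (RingHom.injective_int _)]) hs
  rw [Polynomial.map_map, hco] at hs
  obtain ⟨D, hD0, hD⟩ := no_root σ h hm.ne_zero hs (fun α hα => hσ α (by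
    rw [aeval_def, eval₂_map, hco, ← aeval_def]; exact hα))
  intro hsum
  apply frob_diverges L σ
  -- add the finitely many primes dividing `D`
  have h1 : Summable (fun n : ℕ => {p : ℕ | p ≤ D}.indicator (fun n : ℕ => (1 : ℝ) / n) n) := by
    refine summable_of_ne_finset_zero (s := range (D + 1)) fun n hn => ?_
    rw [Set.indicator_of_notMem]
    intro h2
    exact hn (mem_range.2 (Nat.lt_succ_of_le h2))
  refine Summable.of_nonneg_of_le (fun n => Set.indicator_nonneg (fun _ _ => by positivity) _) ?_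
    (hsum.add h1)
  intro n
  by_cases hn : n ∈ {p : ℕ | p.Prime ∧ xp L σ p ≠ 0}
  · rw [Set.indicator_of_mem hn]
    obtain ⟨hp, hx⟩ := hn
    by_cases hnD : n ≤ D
    · rw [Set.indicator_of_mem (s := {p : ℕ | p ≤ D}) hnD]
      have : 0 ≤ {p : ℕ | NR h p}.indicator (fun n : ℕ => (1 : ℝ) / n) n :=
        Set.indicator_nonneg (fun _ _ => by positivity) _
      linarith
    · have hnr : n ∈ {p : ℕ | NR h p} := by
        refine ⟨hp, fun z hz => ?_⟩
        have hfact : Fact n.Prime := ⟨hp⟩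
        obtain ⟨φ, hφ⟩ := exists_hom σ hp hx
        have h2 : ¬ n ∣ D := fun h3 => hnD (Nat.le_of_dvd (Nat.pos_of_ne_zero hD0) h3)
        refine hD n φ hφ h2 (z : ZMod n) ?_
        rw [eval_map, ← eq_intCast (Int.castRingHom (ZMod n)) z, eval₂_at_apply, eq_intCast,
          ZMod.intCast_zmod_eq_zero_iff_dvd]
        exact hz
      rw [Set.indicator_of_mem hnr]
      have : 0 ≤ {p : ℕ | p ≤ D}.indicator (fun n : ℕ => (1 : ℝ) / n) n :=
        Set.indicator_nonneg (fun _ _ => by positivity) _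
      linarith
  · rw [Set.indicator_of_notMem hn]
    exact add_nonneg (Set.indicator_nonneg (fun _ _ => by positivity) _)
      (Set.indicator_nonneg (fun _ _ => by positivity) _)

/-- the totient of a product of distinct primes -/
theorem totient_prod (F : Finset ℕ) (hF : ∀ p ∈ F, p.Prime) :
    (Nat.totient (∏ p ∈ F, p) : ℝ) ≤ (∏ p ∈ F, p : ℕ) * Real.exp (-∑ p ∈ F, (1 : ℝ) / p) := by
  classical
  induction F using Finset.induction_on with
  | empty => simp
  | insert p F hp ih =>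
    have hpp := hF p (mem_insert_self _ _)
    have hF' : ∀ q ∈ F, q.Prime := fun q hq => hF q (mem_insert_of_mem hq)
    have hc : Nat.Coprime p (∏ q ∈ F, q) := by
      rw [Nat.coprime_prod_right_iff]
      intro q hq
      exact (Nat.coprime_primes hpp (hF' q hq)).2 (fun h => hp (h ▸ hq))
    rw [prod_insert hp, sum_insert hp, Nat.totient_mul hc, Nat.totient_prime hpp]
    have h1 : ((p - 1 : ℕ) : ℝ) ≤ p * Real.exp (-(1 / p)) := by
      have hp0 : (0 : ℝ) < p := by exact_mod_cast hpp.pos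
      have h2 := Real.add_one_le_exp (-(1 / (p : ℝ)))
      rw [Nat.cast_sub hpp.one_le]
      calc (p : ℝ) - (1 : ℕ) = p * (-(1 / (p : ℝ)) + 1) := by field_simp; push_cast; ring
        _ ≤ _ := mul_le_mul_of_nonneg_left h2 hp0.le
    have h3 := ih hF'
    push_cast at h3 ⊢
    calc ((p - 1 : ℕ) : ℝ) * (Nat.totient (∏ q ∈ F, q) : ℝ)
        ≤ (p * Real.exp (-(1 / p))) * ((∏ q ∈ F, (q : ℝ)) * Real.exp (-∑ q ∈ F, (1 : ℝ) / q)) := by
          refine mul_le_mul h1 ?_ (by positivity) (by positivity)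
          exact_mod_cast h3
      _ = _ := by
          rw [neg_add, Real.exp_add]
          ring

/-- integers without prime factors in a set with divergent sum of reciprocals -/
theorem sieve {P : Set ℕ} (hP : ∀ p ∈ P, p.Prime)
    (hdiv : ¬ Summable (fun n : ℕ => P.indicator (fun n : ℕ => (1 : ℝ) / n) n)) (ε : ℝ) (hε : 0 < ε) :
    ∃ N₀ : ℕ, ∀ N : ℕ, N₀ ≤ N → ∀ S : Finset ℕ, (∀ n ∈ S, 0 < n ∧ n ≤ N ∧ ∀ p ∈ P, ¬ p ∣ n) →
      (S.card : ℝ) ≤ ε * N := by
  classical
  have hex : ∃ u : Finset ℕ, (∀ p ∈ u, p ∈ P) ∧ Real.exp (-∑ p ∈ u, (1 : ℝ) / p) ≤ ε / 2 := by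
    by_contra hcon
    push Not at hcon
    apply hdiv
    refine summable_of_sum_le (c := -Real.log (ε / 2)) (fun n => Set.indicator_nonneg (fun _ _ => by positivity) _) ?_
    intro u
    have h1 := hcon (u.filter (fun p => p ∈ P)) (fun p hp => (mem_filter.1 hp).2)
    have h2 : ∑ n ∈ u, P.indicator (fun n : ℕ => (1 : ℝ) / n) n =
        ∑ n ∈ u.filter (fun p => p ∈ P), (1 : ℝ) / n := by
      rw [sum_filter]
      refine sum_congr rfl fun n _ => ?_
      rw [Set.indicator_apply]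
    rw [h2]
    have h3 := (Real.log_lt_log (by positivity) h1).le
    rw [Real.log_exp] at h3
    linarith
  obtain ⟨u, hu1, hu2⟩ := hex
  set Q : ℕ := ∏ p ∈ u, p with hQ
  have hQ0 : 0 < Q := prod_pos fun p hp => (hP p (hu1 p hp)).pos
  have htot := totient_prod u (fun p hp => hP p (hu1 p hp))
  rw [← hQ] at htot
  have hQr : (0 : ℝ) < Q := by exact_mod_cast hQ0
  refine ⟨Q, fun N hN S hS => ?_⟩
  have h1 : S ⊆ (Ico 1 (1 + N)).filter (fun x => Q.Coprime x) := by
    intro n hn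
    obtain ⟨hn0, hnN, hnP⟩ := hS n hn
    rw [mem_filter, mem_Ico]
    refine ⟨⟨hn0, by omega⟩, ?_⟩
    rw [hQ, Nat.coprime_prod_left_iff]
    intro p hp
    exact ((hP p (hu1 p hp)).coprime_iff_not_dvd).2 (hnP p (hu1 p hp))
  have h2 : S.card ≤ Nat.totient Q * (N / Q + 1) :=
    (card_le_card h1).trans (Nat.Ico_filter_coprime_le 1 N hQ0.ne')
  have h3 : (S.card : ℝ) ≤ Nat.totient Q * (N / Q + 1) := by
    calc (S.card : ℝ) ≤ ((Nat.totient Q * (N / Q + 1) : ℕ) : ℝ) := by exact_mod_cast h2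
      _ = Nat.totient Q * (((N / Q : ℕ) : ℝ) + 1) := by push_cast; ring
      _ ≤ _ := by
          have := Nat.cast_div_le (α := ℝ) (m := N) (n := Q)
          exact mul_le_mul_of_nonneg_left (by linarith) (by positivity)
  have h4 : (Nat.totient Q : ℝ) ≤ Q * (ε / 2) := htot.trans (mul_le_mul_of_nonneg_left hu2 hQr.le)
  have h5 : (Nat.totient Q : ℝ) * (N / Q + 1) ≤ (Q * (ε / 2)) * (N / Q + 1) :=
    mul_le_mul_of_nonneg_right h4 (by positivity)
  have h6 : (Q * (ε / 2)) * ((N : ℝ) / Q + 1) = ε / 2 * N + Q * (ε / 2) := by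
    field_simp
  have h7 : (Q : ℝ) ≤ N := by exact_mod_cast hN
  rw [h6] at h5
  nlinarith

end Pool.Agent.H49TB
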