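import Pool.Agent.H49TB.Asm3
import Pool.Agent.H49TB.NoRoot

/-!
Polynomials with an irreducible factor of degree at least three.
-/

set_option autoImplicit false

open Polynomial

namespace Pool.Agent.H49TB

open Pool.Agent.H49SH Pool.Agent.H49TW

theorem Pd.m_le {f : ℤ[X]} {D ξ m : ℤ} {g : ℕ} (h : Pd f D ξ m g) : |(m : ℝ)| ≤ |(D : ℝ)| := by
  have h1 := h.hD
  have h2 : |m| ≤ |D| := by
    rw [h1, abs_mul]
    have h3 : 1 ≤ |(g : ℤ)| := by
      have := h.g0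
      rw [abs_of_nonneg (by positivity)]
      exact_mod_cast this
    nlinarith [abs_nonneg m]
  exact_mod_cast h2

/-- the squarefree part away from the bad primes divides `g` -/
theorem part_dvd {f h h' : ℤ[X]} (hf : f = h * h') {c f₀ t : ℕ}
    (hc : ∀ ξ m : ℤ, IsCoprime ξ m → ∀ p : ℕ, p.Prime → (p : ℤ) ∣ hom h ξ m →
      (p : ℤ) ∣ hom h' ξ m → p ∣ c) {D ξ m : ℤ} {g : ℕ} (hpd : Pd f D ξ m g)
    (hodd : ∀ p : ℕ, p.Prime → p ∣ t → ¬ p ∣ f₀ → Odd (padicValNat p (hom h ξ m).natAbs))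
    {d : ℕ} (hdt : d ∣ t) (hd : Squarefree d) (hdp : ∀ p : ℕ, p.Prime → p ∣ d → ¬ p ∣ f₀ * c) :
    (d ∣ g) ∧ ∀ p : ℕ, p.Prime → p ∣ d → (p : ℤ) ∣ hom h ξ m ∧ ¬ (p : ℤ) ∣ hom h' ξ m := by
  have h0 := hpd.hom0
  rw [hf, hom_mul] at h0
  have h1 : hom h ξ m ≠ 0 := fun h2 => h0 (by rw [h2, zero_mul])
  have h2 : hom h' ξ m ≠ 0 := fun h2 => h0 (by rw [h2, mul_zero])
  have key : ∀ p : ℕ, p.Prime → p ∣ d → (p : ℤ) ∣ hom h ξ m ∧ ¬ (p : ℤ) ∣ hom h' ξ m ∧ p ∣ g := by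
    intro p hp hpd'
    have hpf : ¬ p ∣ f₀ := fun h3 => hdp p hp hpd' (h3.mul_right _)
    have hpc : ¬ p ∣ c := fun h3 => hdp p hp hpd' (h3.mul_left _)
    have ho := hodd p hp (hpd'.trans hdt) hpf
    have h3 : (p : ℤ) ∣ hom h ξ m := by
      have hfac : Fact p.Prime := ⟨hp⟩
      rw [Int.natCast_dvd]
      by_contra h4
      rw [padicValNat.eq_zero_of_not_dvd h4] at ho
      exact absurd ho (by decide)
    have h4 : ¬ (p : ℤ) ∣ hom h' ξ m := fun h4 => hpc (hc ξ m hpd.cop p hp h3 h4)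
    refine ⟨h3, h4, ?_⟩
    obtain ⟨w, hw0, hw⟩ := hpd.sq
    rw [hf, hom_mul] at hw
    have := odd_dvd_g hp (by have := hpd.g0; positivity) h1 h2 hw ho h4
    exact_mod_cast this
  refine ⟨?_, fun p hp hpd' => ⟨(key p hp hpd').1, (key p hp hpd').2.1⟩⟩
  have h3 : (d : ℤ) ∣ (g : ℤ) := dvd_of_primes hd fun p hp hpd' => by
    exact_mod_cast (key p hp hpd').2.2
  exact_mod_cast h3

theorem caseI {f h h' : ℤ[X]} (hf : f = h * h') (hm : h.Monic)
    (hirr : Irreducible (h.map (Int.castRingHom ℚ))) (hr : 3 ≤ h.natDegree)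
    (hcop : IsCoprime (h.map (Int.castRingHom ℚ)) (h'.map (Int.castRingHom ℚ))) :
    ∃ C : ℝ, 1 ≤ C ∧ ∀ ε : ℝ, 0 < ε → ∃ N₀ : ℕ, ∀ N : ℕ, N₀ ≤ N → ∀ S : Finset ℤ,
      (∀ D ∈ S, |(D : ℝ)| ≤ N ∧ ∃ (ξ m : ℤ) (g : ℕ), Pd f D ξ m g ∧
        (C * N) ^ kx h.natDegree < (ξ : ℝ)) → (S.card : ℝ) ≤ ε * N := by
  classical
  obtain ⟨c, hc0, hc⟩ := exists_res hm hcop
  have hnc : ∀ i j : Unit, i ≠ j → IsCoprime (((fun _ : Unit => h) i).map (Int.castRingHom ℚ))
      (((fun _ : Unit => h) j).map (Int.castRingHom ℚ)) := fun i j hij => absurd (Subsingleton.elim i j) hij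
  obtain ⟨f₀, B, A, n, hA⟩ := exists_clsN (fun _ : Unit => h) (fun _ => hm) (fun _ => hirr)
    (fun _ => by omega) hnc ⟨()⟩
  have hprod : (∏ _i : Unit, h) = h := by simp
  obtain ⟨C₂, hC₂, hcount⟩ := count hA (fun _ => hm) (fun _ => hirr) hnc (f := f)
    (by rw [hprod]; exact hr) (by rw [hprod]; exact ⟨h', hf⟩) 1 le_rfl
  rw [hprod] at hcount
  refine ⟨C₂, hC₂, fun ε hε => ?_⟩
  set β : ℝ := B * cx h.natDegree with hβ
  have hβ0 : 0 ≤ β := mul_nonneg (zero_le_one.trans hA.hB) (by positivity)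
  set δ : ℝ := min 1 (ε / (2 * (β + 1))) with hδ
  have hδ0 : 0 < δ := lt_min one_pos (by positivity)
  have hδ1 : δ ≤ 1 := min_le_left _ _
  have hβδ : β * δ ≤ ε / 2 := by
    have h1 : δ ≤ ε / (2 * (β + 1)) := min_le_right _ _
    have h2 : β * (ε / (2 * (β + 1))) ≤ ε / 2 := by
      rw [mul_div_assoc', div_le_div_iff₀ (by positivity) (by positivity)]
      nlinarith
    exact (mul_le_mul_of_nonneg_left h1 hβ0).trans h2
  have hB0 : 0 < f₀ * c := Nat.mul_pos hA.f0 hc0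
  set M : ℕ := ⌈((f₀ * c : ℕ) : ℝ) / δ⌉₊ with hM
  obtain ⟨N₁, hN₁⟩ := sieve (P := {p | NR h p}) (fun p hp => hp.1)
    (nr_diverges h hm (by omega) hirr) (ε / (2 * (2 * M + 1))) (by positivity)
  refine ⟨max (N₁ + 1) ⌈1 / δ⌉₊, fun N hN S hS => ?_⟩
  have hN1 : N₁ ≤ N := by have := (le_max_left _ _).trans hN; omega
  have hNpos : 1 ≤ N := by have := (le_max_left _ _).trans hN; omega
  have hNr : (1 : ℝ) ≤ N := by exact_mod_cast hNpos
  have hNδ : 1 ≤ δ * N := by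
    have h1 : 1 / δ ≤ N := (Nat.le_ceil _).trans (by exact_mod_cast (le_max_right _ _).trans hN)
    rw [div_le_iff₀ hδ0] at h1
    linarith
  let Q : ℤ → Prop := fun D => ∃ (ξ m : ℤ) (g : ℕ), Pd f D ξ m g ∧
    (C₂ * N) ^ kx h.natDegree < (ξ : ℝ) ∧ (n () ξ m : ℝ) ≤ δ * N
  have hS1 : ((S.filter Q).card : ℝ) ≤ ε / 2 * N := by
    have h1 := hcount N hNr (fun _ => δ * N) (fun _ => hNδ) (by simp; nlinarith) (S.filter Q)
      (fun D hD => by
        rw [Finset.mem_filter] at hD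
        obtain ⟨ξ, m, g, h1, h2, h3⟩ := hD.2
        exact ⟨ξ, m, g, h1, h1.m_le.trans (hS D hD.1).1, h2, fun _ => h3⟩)
    simp only [Finset.univ_unique, Finset.prod_const, Finset.card_singleton, pow_one] at h1
    calc ((S.filter Q).card : ℝ) ≤ β * (δ * N) := h1
      _ = (β * δ) * N := by ring
      _ ≤ _ := mul_le_mul_of_nonneg_right hβδ (by positivity)
  let G : Finset ℕ := (Finset.Icc 1 N).filter (fun d => ∀ p ∈ {p | NR h p}, ¬ p ∣ d)
  have hG : (G.card : ℝ) ≤ ε / (2 * (2 * M + 1)) * N := hN₁ N hN1 G fun d hd => by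
    simp only [G, Finset.mem_filter, Finset.mem_Icc] at hd
    exact ⟨by omega, hd.1.2, hd.2⟩
  have hS2 : ((S.filter (fun D => ¬ Q D)).card : ℝ) ≤ ε / 2 * N := by
    have hsub : S.filter (fun D => ¬ Q D) ⊆
        ((Finset.Icc (-(M : ℤ)) M) ×ˢ G).image (fun q => q.1 * (q.2 : ℤ)) := by
      intro D hD
      rw [Finset.mem_filter] at hD
      obtain ⟨hDS, hQ⟩ := hD
      obtain ⟨hDN, ξ, m, g, hpd, hξ⟩ := hS D hDS
      have hn : δ * N < n () ξ m := by
        by_contra h1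
        exact hQ ⟨ξ, m, g, hpd, hξ, not_lt.1 h1⟩
      have h0 := hpd.hom0
      rw [hf, hom_mul] at h0
      have h1 : hom h ξ m ≠ 0 := fun h2 => h0 (by rw [h2, zero_mul])
      have hsq := hA.sqf () ξ m hpd.cop h1
      obtain ⟨d, hd1, hd2, hd3⟩ := split_t hsq hB0.ne'
      have hdt : d ∣ n () ξ m := ⟨Nat.gcd (n () ξ m) (f₀ * c), by rw [mul_comm]; exact hd1⟩
      obtain ⟨hdg, hdp⟩ := part_dvd hf hc hpd (hA.odd () ξ m hpd.cop h1) hdt hd2 hd3
      obtain ⟨e, he⟩ := hdg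
      have hd0 : 0 < d := Nat.pos_of_ne_zero hd2.ne_zero
      have he0 : 0 < e := by
        have := hpd.g0
        rw [he] at this
        exact Nat.pos_of_mul_pos_left this |> fun _ => by
          rcases Nat.eq_zero_or_pos e with h5 | h5
          · rw [h5, mul_zero] at this; omega
          · exact h5
      have hDd : D = (e * m) * (d : ℤ) := by
        rw [hpd.hD, he]; push_cast; ring
      have hm0 := hpd.m0
      -- size of `d`
      have hdlow : δ * N / (f₀ * c : ℕ) < d := by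
        rw [div_lt_iff₀ (by exact_mod_cast hB0)]
        have h5 : n () ξ m ≤ d * (f₀ * c) := by
          conv_lhs => rw [hd1]
          rw [mul_comm]
          exact Nat.mul_le_mul_left _ (Nat.gcd_le_right _ hB0)
        calc δ * N < n () ξ m := hn
          _ ≤ _ := by exact_mod_cast h5
      have habs : |(D : ℝ)| = |((e * m : ℤ) : ℝ)| * d := by
        rw [hDd]; push_cast; rw [abs_mul, Nat.abs_cast]
      have hk : |((e * m : ℤ) : ℝ)| ≤ M := by
        have h6 : |((e * m : ℤ) : ℝ)| * d ≤ N := by rw [← habs]; exact hDN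
        have h7 : |((e * m : ℤ) : ℝ)| * (δ * N / (f₀ * c : ℕ)) ≤ N :=
          (mul_le_mul_of_nonneg_left hdlow.le (abs_nonneg _)).trans h6
        have h8 : |((e * m : ℤ) : ℝ)| ≤ ((f₀ * c : ℕ) : ℝ) / δ := by
          rw [le_div_iff₀ hδ0]
          have hB0r : (0 : ℝ) < (f₀ * c : ℕ) := by exact_mod_cast hB0
          rw [mul_div_assoc', div_le_iff₀ hB0r] at h7
          have h9 : |((e * m : ℤ) : ℝ)| * δ * N ≤ ((f₀ * c : ℕ) : ℝ) * N := by linarith
          exact le_of_mul_le_mul_right h9 (by linarith)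
        exact h8.trans (Nat.le_ceil _)
      have hdN : d ≤ N := by
        have h6 : (1 : ℝ) ≤ |((e * m : ℤ) : ℝ)| := by
          have h7 : (e * m : ℤ) ≠ 0 := mul_ne_zero (by positivity) hm0
          exact_mod_cast Int.one_le_abs h7
        have h8 : (d : ℝ) ≤ N := by
          have : |((e * m : ℤ) : ℝ)| * d ≤ N := by rw [← habs]; exact hDN
          nlinarith [Nat.cast_nonneg (α := ℝ) d]
        exact_mod_cast h8
      refine Finset.mem_image.2 ⟨(e * m, d), ?_, hDd.symm⟩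
      rw [Finset.mem_product, Finset.mem_Icc]
      constructor
      · have h6 : |(e * m : ℤ)| ≤ (M : ℤ) := by exact_mod_cast hk
        exact abs_le.1 h6
      · simp only [G, Finset.mem_filter, Finset.mem_Icc]
        refine ⟨⟨hd0, hdN⟩, fun p hp hpd' => ?_⟩
        obtain ⟨z, hz⟩ := exists_z hm hpd.cop hp.1 (hdp p hp.1 hpd').1
        exact hp.2 z (hz h (hdp p hp.1 hpd').1)
    have h1 : ((S.filter (fun D => ¬ Q D)).card : ℝ) ≤ (2 * M + 1) * G.card := by
      have h2 := (Finset.card_le_card hsub).trans Finset.card_image_le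
      rw [Finset.card_product, Int.card_Icc] at h2
      have h3 : ((M : ℤ) + 1 - -(M : ℤ)).toNat = 2 * M + 1 := by omega
      rw [h3] at h2
      exact_mod_cast h2
    calc ((S.filter (fun D => ¬ Q D)).card : ℝ) ≤ (2 * M + 1) * G.card := h1
      _ ≤ (2 * M + 1) * (ε / (2 * (2 * M + 1)) * N) := mul_le_mul_of_nonneg_left hG (by positivity)
      _ = _ := by field_simp
  have h3 := Finset.card_filter_add_card_filter_not (s := S) Q
  have h4 : (S.card : ℝ) = (S.filter Q).card + (S.filter (fun D => ¬ Q D)).card := by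
    exact_mod_cast h3.symm
  rw [h4]
  linarith

end Pool.Agent.H49TB
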