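import Pool.Agent.H49TB.Asm4

/-!
Polynomials with several factors.
-/

set_option autoImplicit false

open Polynomial

namespace Pool.Agent.H49TB

open Pool.Agent.H49SH Pool.Agent.H49TW

theorem prod_sub {k : ℕ} {M : Type*} [CommMonoid M] (j : Fin k) (F : Fin k → M) :
    ∏ i : {i : Fin k // i ≠ j}, F i.1 = ∏ i ∈ Finset.univ.erase j, F i := by
  classical
  exact (Finset.prod_subtype (Finset.univ.erase j) (by simp) F).symm

/-- the product of all but the largest -/
theorem prod_erase_pow {k : ℕ} (t : Fin k → ℕ) (j : Fin k) (hj : ∀ i, t i ≤ t j) :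
    (∏ i ∈ Finset.univ.erase j, t i) ^ k ≤ (∏ i, t i) ^ (k - 1) := by
  classical
  have hk : 0 < k := j.pos
  have h1 : ∏ i ∈ Finset.univ.erase j, t i ≤ t j ^ (k - 1) := by
    have h2 := Finset.prod_le_pow_card (Finset.univ.erase j) t (t j) (fun i _ => hj i)
    rwa [Finset.card_erase_of_mem (Finset.mem_univ j), Finset.card_univ, Fintype.card_fin] at h2
  rw [← Finset.mul_prod_erase Finset.univ t (Finset.mem_univ j)]
  set P := ∏ i ∈ Finset.univ.erase j, t i with hP
  rw [← pow_sub_one_mul hk.ne' P, mul_pow, mul_comm]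
  exact Nat.mul_le_mul_right _ h1

theorem caseII {k : ℕ} (hk : 0 < k) {h : Fin k → ℤ[X]} (hm : ∀ i, (h i).Monic)
    (hirr : ∀ i, Irreducible ((h i).map (Int.castRingHom ℚ))) (hr : ∀ i, 0 < (h i).natDegree)
    (hc : ∀ i j, i ≠ j → IsCoprime ((h i).map (Int.castRingHom ℚ)) ((h j).map (Int.castRingHom ℚ)))
    (h3 : ∀ j, 3 ≤ (∏ i ∈ Finset.univ.erase j, h i).natDegree) (E : ℕ)
    (hE : ∀ j, kx (∏ i ∈ Finset.univ.erase j, h i).natDegree ≤ E) :
    ∃ C : ℝ, 1 ≤ C ∧ ∀ ε : ℝ, 0 < ε → ∃ N₀ : ℕ, ∀ N : ℕ, N₀ ≤ N → ∀ S : Finset ℤ,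
      (∀ D ∈ S, |(D : ℝ)| ≤ N ∧ ∃ (ξ m : ℤ) (g : ℕ), Pd (∏ i, h i) D ξ m g ∧
        (C * N) ^ E < (ξ : ℝ)) → (S.card : ℝ) ≤ ε * N := by
  classical
  choose f₀ B A n hA using fun i => exists_cls1 (h i) (hm i) (hirr i) (hr i)
  have hco : ∀ i, IsCoprime ((h i).map (Int.castRingHom ℚ))
      ((∏ j ∈ Finset.univ.erase i, h j).map (Int.castRingHom ℚ)) := by
    intro i
    rw [Polynomial.map_prod]
    exact IsCoprime.prod_right fun j hj => hc i j (Finset.ne_of_mem_erase hj).symm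
  choose c hc0 hcp using fun i => exists_res (hm i) (hco i)
  set B₀ : ℕ := (∏ i, f₀ i) * ∏ i, c i with hB₀
  have hB0 : 0 < B₀ := Nat.mul_pos (Finset.prod_pos fun i _ => (hA i).f0) (Finset.prod_pos fun i _ => hc0 i)
  set C₀ : ℝ := (B₀ : ℝ) ^ k with hC₀
  have hB0r : (1 : ℝ) ≤ B₀ := by exact_mod_cast hB0
  have hC01 : 1 ≤ C₀ := one_le_pow₀ hB0r
  have hne : ∀ j : Fin k, Nonempty {i : Fin k // i ≠ j} := by
    intro j
    by_contra hcon
    rw [not_nonempty_iff] at hcon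
    have h1 := h3 j
    rw [← prod_sub j h, Finset.univ_eq_empty, Finset.prod_empty, natDegree_one] at h1
    omega
  choose B' A' hA' using fun j : Fin k => clsN_of_cls1 (fun i : {i : Fin k // i ≠ j} => h i.1)
    (fun i => hm i.1) (fun i => hirr i.1) (fun i => hr i.1)
    (fun i i' hii => hc i.1 i'.1 (fun he => hii (Subtype.ext he))) (hne j) (fun i => hA i.1)
  have hC₀k : 1 ≤ C₀ ^ k := one_le_pow₀ hC01
  choose C₂ hC₂ hcount using fun j : Fin k => count (hA' j) (fun i => hm i.1) (fun i => hirr i.1)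
    (fun i i' hii => hc i.1 i'.1 (fun he => hii (Subtype.ext he))) (f := ∏ i, h i)
    (by rw [prod_sub j h]; exact h3 j)
    (by rw [prod_sub j h]; exact Finset.prod_dvd_prod_of_subset _ _ _ (Finset.erase_subset _ _)) (C₀ ^ k) hC₀k
  have hC₂s : ∀ j, C₂ j ≤ ∏ j, C₂ j := fun j => le_prod (fun j => hC₂ j) j
  refine ⟨∏ j, C₂ j, Finset.one_le_prod fun j _ => hC₂ j, fun ε hε => ?_⟩
  set W : ℝ := ∑ j : Fin k, ∑ _τ : Fin k → Fin (k ^ 2 + 1),
    B' j * cx (∏ i : {i : Fin k // i ≠ j}, h i.1).natDegree with hW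
  have hW0 : 0 ≤ W := Finset.sum_nonneg fun j _ => Finset.sum_nonneg fun _ _ =>
    mul_nonneg (zero_le_one.trans (hA' j).hB) (by positivity)
  set N₁ : ℕ := ⌈(W * C₀ ^ k / ε) ^ (k ^ 2)⌉₊ with hN₁
  refine ⟨N₁ + 1, fun N hN S hS => ?_⟩
  have hNr : (1 : ℝ) ≤ N := by
    have : 1 ≤ N := by omega
    exact_mod_cast this
  -- the root
  set u : ℝ := (N : ℝ) ^ ((1 : ℝ) / (k ^ 2 : ℕ)) with hu
  have hk2 : (k ^ 2 : ℕ) ≠ 0 := by positivity
  have huN : u ^ (k ^ 2) = N := by
    rw [hu, ← Real.rpow_natCast, ← Real.rpow_mul (by linarith)]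
    rw [one_div, inv_mul_cancel₀ (by exact_mod_cast hk2), Real.rpow_one]
  have hu1 : 1 ≤ u := Real.one_le_rpow hNr (by positivity)
  have huW : W * C₀ ^ k / ε ≤ u := by
    have h1 : (W * C₀ ^ k / ε) ^ (k ^ 2) ≤ u ^ (k ^ 2) := by
      rw [huN]
      refine (Nat.le_ceil _).trans ?_
      have : N₁ ≤ N := by omega
      exact_mod_cast this
    exact (pow_le_pow_iff_left₀ (by positivity) (by linarith) hk2).1 h1
  set Y : ℝ := C₀ ^ k * u ^ (k ^ 2 - 1) with hY
  have hYu : Y * u = C₀ ^ k * N := by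
    rw [hY, mul_assoc, ← pow_succ, Nat.sub_add_cancel (by omega : 1 ≤ k ^ 2), huN]
  have hY0 : 0 < Y := by positivity
  have hYN : Y ≤ C₀ ^ k * N := by
    rw [← hYu]; nlinarith
  let Tt : (Fin k → Fin (k ^ 2 + 1)) → Fin k → ℝ := fun τ i => C₀ * u ^ (τ i : ℕ)
  have hTt : ∀ τ i, 1 ≤ Tt τ i := fun τ i => by
    have h1 : 1 ≤ u ^ (τ i : ℕ) := one_le_pow₀ hu1
    simp only [Tt]
    nlinarith
  let Q : Fin k → (Fin k → Fin (k ^ 2 + 1)) → ℤ → Prop := fun j τ D =>
    ∏ i ∈ Finset.univ.erase j, Tt τ i ≤ Y ∧ ∃ (ξ m : ℤ) (g : ℕ), Pd (∏ i, h i) D ξ m g ∧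
      ((∏ j, C₂ j) * N) ^ E < (ξ : ℝ) ∧ ∀ i, i ≠ j → (n i ξ m : ℝ) ≤ Tt τ i
  -- the pieces
  have hpiece : ∀ j τ, ((S.filter (Q j τ)).card : ℝ) ≤
      (B' j * cx (∏ i : {i : Fin k // i ≠ j}, h i.1).natDegree) * Y := by
    intro j τ
    by_cases hτ : ∏ i ∈ Finset.univ.erase j, Tt τ i ≤ Y
    · have h1 := hcount j N hNr (fun i => Tt τ i.1) (fun i => hTt τ i.1)
        (by rw [prod_sub j (Tt τ)]; exact hτ.trans hYN) (S.filter (Q j τ)) (fun D hD => by
          rw [Finset.mem_filter] at hD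
          obtain ⟨hDS, -, ξ, m, g, h1, h2, h4⟩ := hD
          refine ⟨ξ, m, g, h1, h1.m_le.trans (hS D hDS).1, ?_, fun i => h4 i.1 i.2⟩
          refine lt_of_le_of_lt ?_ h2
          have h5 := hE j
          rw [← prod_sub j h] at h5
          have h6 : 1 ≤ C₂ j * N := by nlinarith [hC₂ j]
          calc (C₂ j * (N : ℝ)) ^ kx (∏ i : {i : Fin k // i ≠ j}, h i.1).natDegree
              ≤ (C₂ j * (N : ℝ)) ^ E := pow_le_pow_right₀ h6 h5
            _ ≤ _ := pow_le_pow_left₀ (by linarith)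
              (mul_le_mul_of_nonneg_right (hC₂s j) (by linarith)) _)
      rw [prod_sub j (Tt τ)] at h1
      refine h1.trans (mul_le_mul_of_nonneg_left hτ ?_)
      exact mul_nonneg (zero_le_one.trans (hA' j).hB) (by positivity)
    · have h1 : S.filter (Q j τ) = ∅ := by
        rw [Finset.filter_eq_empty_iff]
        intro D _ hQ
        exact hτ hQ.1
      rw [h1, Finset.card_empty, Nat.cast_zero]
      exact mul_nonneg (mul_nonneg (zero_le_one.trans (hA' j).hB) (by positivity)) hY0.le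
  -- the covering
  have hcov : S ⊆ Finset.univ.biUnion fun j : Fin k =>
      Finset.univ.biUnion fun τ : Fin k → Fin (k ^ 2 + 1) => S.filter (Q j τ) := by
    intro D hD
    obtain ⟨hDN, ξ, m, g, hpd, hξ⟩ := hS D hD
    have h0 := hpd.hom0
    rw [hom_prod] at h0
    have hh : ∀ i, hom (h i) ξ m ≠ 0 := fun i => Finset.prod_ne_zero_iff.1 h0 i (Finset.mem_univ i)
    set t : Fin k → ℕ := fun i => n i ξ m with ht
    have hsq : ∀ i, Squarefree (t i) := fun i => (hA i).sqf ξ m hpd.cop (hh i)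
    choose d hd1 hd2 hd3 using fun i => split_t (hsq i) hB0.ne'
    have hdt : ∀ i, d i ∣ t i := fun i => ⟨Nat.gcd (t i) B₀, by rw [mul_comm]; exact hd1 i⟩
    have hprodi : ∀ i, ∏ j, h j = h i * ∏ j ∈ Finset.univ.erase i, h j := fun i =>
      (Finset.mul_prod_erase Finset.univ h (Finset.mem_univ i)).symm
    have hpart := fun i => part_dvd (f₀ := f₀ i) (hprodi i) (hcp i) hpd
      ((hA i).odd ξ m hpd.cop (hh i)) (hdt i) (hd2 i) (fun p hp hpd' h4 => hd3 i p hp hpd' (h4.trans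
        (by
          rw [hB₀]
          exact mul_dvd_mul (Finset.dvd_prod_of_mem f₀ (Finset.mem_univ i))
            (Finset.dvd_prod_of_mem c (Finset.mem_univ i)))))
    have hdcop : ∀ i j, i ≠ j → Nat.Coprime (d i) (d j) := by
      intro i j hij
      by_contra hnc
      obtain ⟨p, hp, hpi, hpj⟩ := Nat.Prime.not_coprime_iff_dvd.1 hnc
      have h4 := ((hpart i).2 p hp hpi).1
      have h5 := ((hpart j).2 p hp hpj).2
      apply h5
      obtain ⟨q, hq⟩ := Finset.dvd_prod_of_mem h (Finset.mem_erase.2 ⟨hij, Finset.mem_univ i⟩)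
      rw [hq, hom_mul]
      exact h4.mul_right _
    have hdg : (∏ i, d i) ∣ g := by
      have h4 : (∏ i, ((d i : ℕ) : ℤ)) ∣ (g : ℤ) :=
        Fintype.prod_dvd_of_coprime (fun i j hij => Nat.isCoprime_iff_coprime.2 (hdcop i j hij))
          (fun i => by exact_mod_cast (hpart i).1)
      exact_mod_cast h4
    have hgN : (g : ℝ) ≤ N := by
      have h4 : |(D : ℝ)| = g * |(m : ℝ)| := by
        rw [hpd.hD]; push_cast; rw [abs_mul, Nat.abs_cast]
      have h5 : (1 : ℝ) ≤ |(m : ℝ)| := by exact_mod_cast Int.one_le_abs hpd.m0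
      rw [h4] at hDN
      nlinarith [Nat.cast_nonneg (α := ℝ) g]
    have htprod : ((∏ i, t i : ℕ) : ℝ) ≤ C₀ * N := by
      have h4 : ∏ i, t i ≤ B₀ ^ k * g := by
        calc ∏ i, t i ≤ ∏ i, (B₀ * d i) := Finset.prod_le_prod' fun i _ => by
              conv_lhs => rw [hd1 i]
              exact Nat.mul_le_mul_right _ (Nat.gcd_le_right _ hB0)
          _ = B₀ ^ k * ∏ i, d i := by
              rw [Finset.prod_mul_distrib, Finset.prod_const, Finset.card_univ, Fintype.card_fin]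
          _ ≤ _ := Nat.mul_le_mul_left _ (Nat.le_of_dvd hpd.g0 hdg)
      calc ((∏ i, t i : ℕ) : ℝ) ≤ ((B₀ ^ k * g : ℕ) : ℝ) := by exact_mod_cast h4
        _ = C₀ * g := by rw [hC₀]; push_cast; ring
        _ ≤ _ := mul_le_mul_of_nonneg_left hgN (by linarith)
    -- the largest
    obtain ⟨j, hj⟩ : ∃ j : Fin k, ∀ i, t i ≤ t j := by
      have : Nonempty (Fin k) := ⟨⟨0, hk⟩⟩
      exact Finite.exists_max t
    have ht1 : ∀ i, 1 ≤ t i := fun i => Nat.pos_of_ne_zero (hsq i).ne_zero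
    have hti : ∀ i, (t i : ℝ) ≤ C₀ * u ^ (k ^ 2) := by
      intro i
      rw [huN]
      refine le_trans ?_ htprod
      have h4 : t i ≤ ∏ i, t i := Nat.le_of_dvd (Finset.prod_pos fun i _ => ht1 i)
        (Finset.dvd_prod_of_mem t (Finset.mem_univ i))
      exact_mod_cast h4
    -- exponents
    have hτex : ∀ i, ∃ e : ℕ, e < k ^ 2 + 1 ∧ (t i : ℝ) ≤ C₀ * u ^ e ∧ C₀ * u ^ e ≤ (C₀ * u) * t i := by
      intro i
      have hex : ∃ e : ℕ, (t i : ℝ) ≤ C₀ * u ^ e := ⟨k ^ 2, hti i⟩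
      have htr : (1 : ℝ) ≤ t i := by exact_mod_cast ht1 i
      refine ⟨Nat.find hex, Nat.lt_succ_of_le (Nat.find_min' hex (hti i)), Nat.find_spec hex, ?_⟩
      rcases Nat.eq_zero_or_pos (Nat.find hex) with h4 | h4
      · rw [h4, pow_zero, mul_one]
        have h5 : C₀ ≤ C₀ * u := by nlinarith
        nlinarith
      · have h5 := Nat.find_min hex (m := Nat.find hex - 1) (by omega)
        have h6 : Nat.find hex = (Nat.find hex - 1) + 1 := by omega
        rw [not_le] at h5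
        rw [h6, pow_succ]
        have h7 : (t i : ℝ) * u ≤ C₀ * u * t i := by
          have h8 : 0 ≤ (t i : ℝ) * u := by positivity
          nlinarith
        calc C₀ * (u ^ (Nat.find hex - 1) * u) = (C₀ * u ^ (Nat.find hex - 1)) * u := by ring
          _ ≤ t i * u := mul_le_mul_of_nonneg_right h5.le (by linarith)
          _ ≤ _ := h7
    choose e he1 he2 he3 using hτex
    let τ : Fin k → Fin (k ^ 2 + 1) := fun i => ⟨e i, he1 i⟩
    have hP : ∏ i ∈ Finset.univ.erase j, Tt τ i ≤ Y := by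
      set P : ℕ := ∏ i ∈ Finset.univ.erase j, t i with hPdef
      have h4 : ∏ i ∈ Finset.univ.erase j, Tt τ i ≤ (C₀ * u) ^ (k - 1) * P := by
        calc ∏ i ∈ Finset.univ.erase j, Tt τ i ≤ ∏ i ∈ Finset.univ.erase j, ((C₀ * u) * (t i : ℝ)) :=
              Finset.prod_le_prod (fun i _ => zero_le_one.trans (hTt τ i)) fun i _ => he3 i
          _ = (C₀ * u) ^ (k - 1) * P := by
              rw [Finset.prod_mul_distrib, Finset.prod_const,
                Finset.card_erase_of_mem (Finset.mem_univ j), Finset.card_univ, Fintype.card_fin, hPdef]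
              push_cast
              rfl
      have h5 : (P : ℝ) ≤ C₀ * u ^ (k * (k - 1)) := by
        have h6 := prod_erase_pow t j hj
        have h7 : (P : ℝ) ^ k ≤ (C₀ * N) ^ (k - 1) := by
          calc (P : ℝ) ^ k ≤ ((∏ i, t i : ℕ) : ℝ) ^ (k - 1) := by exact_mod_cast h6
            _ ≤ _ := pow_le_pow_left₀ (by positivity) htprod _
        have h8 : (C₀ * (N : ℝ)) ^ (k - 1) ≤ (C₀ * u ^ (k * (k - 1))) ^ k := by
          have e1 : (u ^ (k ^ 2)) ^ (k - 1) = (u ^ (k * (k - 1))) ^ k := by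
            rw [← pow_mul, ← pow_mul]
            congr 1
            ring
          rw [mul_pow, mul_pow, ← huN, e1]
          exact mul_le_mul_of_nonneg_right (pow_le_pow_right₀ hC01 (Nat.sub_le _ _)) (by positivity)
        exact (pow_le_pow_iff_left₀ (by positivity) (by positivity) hk.ne').1 (h7.trans h8)
      refine h4.trans ?_
      calc (C₀ * u) ^ (k - 1) * P ≤ (C₀ * u) ^ (k - 1) * (C₀ * u ^ (k * (k - 1))) :=
            mul_le_mul_of_nonneg_left h5 (by positivity)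
        _ = C₀ ^ ((k - 1) + 1) * u ^ ((k - 1) + k * (k - 1)) := by ring
        _ = Y := by
            have e1 : (k - 1) + 1 = k := by omega
            have e2 : (k - 1) + k * (k - 1) = k ^ 2 - 1 := by
              obtain ⟨l, rfl⟩ : ∃ l, k = l + 1 := ⟨k - 1, by omega⟩
              have : (l + 1) ^ 2 = l + (l + 1) * l + 1 := by ring
              rw [this, Nat.add_sub_cancel, Nat.add_sub_cancel]
            rw [e1, e2, hY]
    rw [Finset.mem_biUnion]
    refine ⟨j, Finset.mem_univ _, ?_⟩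
    rw [Finset.mem_biUnion]
    refine ⟨τ, Finset.mem_univ _, ?_⟩
    rw [Finset.mem_filter]
    exact ⟨hD, hP, ξ, m, g, hpd, hξ, fun i _ => he2 i⟩
  have h1 : (S.card : ℝ) ≤ W * Y := by
    have h2 := (Finset.card_le_card hcov).trans (Finset.card_biUnion_le.trans
      (Finset.sum_le_sum fun j _ => Finset.card_biUnion_le))
    calc (S.card : ℝ) ≤ ∑ j : Fin k, ∑ τ : Fin k → Fin (k ^ 2 + 1), ((S.filter (Q j τ)).card : ℝ) := by
          exact_mod_cast h2
      _ ≤ ∑ j : Fin k, ∑ _τ : Fin k → Fin (k ^ 2 + 1),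
          (B' j * cx (∏ i : {i : Fin k // i ≠ j}, h i.1).natDegree) * Y :=
          Finset.sum_le_sum fun j _ => Finset.sum_le_sum fun τ _ => hpiece j τ
      _ = W * Y := by
          rw [hW, Finset.sum_mul]
          refine Finset.sum_congr rfl fun j _ => ?_
          rw [Finset.sum_mul]
  refine h1.trans ?_
  rw [div_le_iff₀ hε] at huW
  have h2 : W * Y * u ≤ ε * N * u := by
    calc W * Y * u = W * (C₀ ^ k * N) := by rw [← hYu]; ring
      _ = (W * C₀ ^ k) * N := by ring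
      _ ≤ (u * ε) * N := mul_le_mul_of_nonneg_right huW (by linarith)
      _ = _ := by ring
  exact le_of_mul_le_mul_right h2 (by linarith)

end Pool.Agent.H49TB
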