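import Pool.Agent.H49TB.Asm5

/-!
All squarefree polynomials of odd degree at least five.
-/

set_option autoImplicit false

open Polynomial

namespace Pool.Agent.H49TB

open Pool.Agent.H49SH Pool.Agent.H49TW

/-- factorisation of a monic polynomial -/
theorem exists_factors : ∀ (n : ℕ) (f : ℤ[X]), f.Monic → f.natDegree = n →
    ∃ l : List ℤ[X], (∀ h ∈ l, h.Monic ∧ Irreducible (h.map (Int.castRingHom ℚ))) ∧ l.prod = f := by
  intro n
  induction n using Nat.strong_induction_on with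
  | _ n ih =>
    intro f hm hn
    rcases Nat.eq_zero_or_pos n with h0 | h0
    · refine ⟨[], by simp, ?_⟩
      rw [h0] at hn
      rw [List.prod_nil, hm.natDegree_eq_zero.1 hn]
    · by_cases hirr : Irreducible (f.map (Int.castRingHom ℚ))
      · exact ⟨[f], by simpa using ⟨hm, hirr⟩, by simp⟩
      · have hf1 : f ≠ 1 := by
          rintro rfl
          rw [natDegree_one] at hn
          omega
        have h1 : ¬ Irreducible f := fun h2 => hirr
          ((Monic.irreducible_iff_irreducible_map_fraction_map (K := ℚ) hm).1 h2)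
        rw [hm.irreducible_iff_natDegree] at h1
        push Not at h1
        obtain ⟨g, g', hg, hg', hgg, hd, hd'⟩ := h1 hf1
        have h2 : f.natDegree = g.natDegree + g'.natDegree := by rw [← hgg, hg.natDegree_mul hg']
        obtain ⟨l, hl, hl'⟩ := ih g.natDegree (by omega) g hg rfl
        obtain ⟨l', hl2, hl2'⟩ := ih g'.natDegree (by omega) g' hg' rfl
        refine ⟨l ++ l', fun h hh => ?_, by rw [List.prod_append, hl', hl2', hgg]⟩
        rcases List.mem_append.1 hh with h3 | h3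
        · exact hl h h3
        · exact hl2 h h3

theorem monic_main (n : ℕ) (h5 : 5 ≤ n) : ∃ E : ℕ, ∀ f : ℤ[X], f.Monic → f.natDegree = n →
    (f.map (Int.castRingHom ℚ)).Separable →
    ∃ C : ℝ, 1 ≤ C ∧ ∀ ε : ℝ, 0 < ε → ∃ N₀ : ℕ, ∀ N : ℕ, N₀ ≤ N → ∀ S : Finset ℤ,
      (∀ D ∈ S, |(D : ℝ)| ≤ N ∧ ∃ (ξ m : ℤ) (g : ℕ), Pd f D ξ m g ∧ (C * N) ^ E < (ξ : ℝ)) →
      (S.card : ℝ) ≤ ε * N := by
  classical
  refine ⟨∑ r ∈ Finset.range (n + 1), kx r, fun f hm hn hsep => ?_⟩
  have hkx : ∀ r ≤ n, kx r ≤ ∑ r ∈ Finset.range (n + 1), kx r := fun r hr =>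
    Finset.single_le_sum (f := kx) (fun _ _ => Nat.zero_le _) (Finset.mem_range.2 (by omega))
  obtain ⟨l, hl, hlp⟩ := exists_factors n f hm hn
  set k := l.length with hk
  let h : Fin k → ℤ[X] := fun i => l.get i
  have hh : ∀ i, (h i).Monic ∧ Irreducible ((h i).map (Int.castRingHom ℚ)) := fun i =>
    hl _ (List.get_mem l i)
  have hprod : ∏ i, h i = f := by
    rw [← hlp, ← List.prod_ofFn, List.ofFn_get]
  have hpos : ∀ i, 0 < (h i).natDegree := by
    intro i
    have h1 := (hh i).2.natDegree_pos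
    rwa [natDegree_map_eq_of_injective (RingHom.injective_int _)] at h1
  have hc : ∀ i j, i ≠ j → IsCoprime ((h i).map (Int.castRingHom ℚ)) ((h j).map (Int.castRingHom ℚ)) := by
    intro i j hij
    apply Separable.isCoprime
    refine hsep.of_dvd ?_
    rw [← Polynomial.map_mul, ← hprod]
    apply Polynomial.map_dvd
    rw [← Finset.mul_prod_erase Finset.univ h (Finset.mem_univ i)]
    exact mul_dvd_mul_left _ (Finset.dvd_prod_of_mem h (Finset.mem_erase.2 ⟨hij.symm, Finset.mem_univ j⟩))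
  have hdeg : ∀ j, (h j).natDegree + (∏ i ∈ Finset.univ.erase j, h i).natDegree = n := by
    intro j
    rw [← hn, ← hprod, ← Finset.mul_prod_erase Finset.univ h (Finset.mem_univ j),
      (hh j).1.natDegree_mul (monic_prod_of_monic _ _ fun i _ => (hh i).1)]
  by_cases hcase : ∃ i, 3 ≤ (h i).natDegree
  · obtain ⟨i, hi⟩ := hcase
    have hco : IsCoprime ((h i).map (Int.castRingHom ℚ))
        ((∏ j ∈ Finset.univ.erase i, h j).map (Int.castRingHom ℚ)) := by
      rw [Polynomial.map_prod]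
      exact IsCoprime.prod_right fun j hj => hc i j (Finset.ne_of_mem_erase hj).symm
    obtain ⟨C, hC, hmain⟩ := caseI (f := f) (h' := ∏ j ∈ Finset.univ.erase i, h j)
      (by rw [← hprod]; exact (Finset.mul_prod_erase Finset.univ h (Finset.mem_univ i)).symm)
      (hh i).1 (hh i).2 hi hco
    refine ⟨C, hC, fun ε hε => ?_⟩
    obtain ⟨N₀, hN₀⟩ := hmain ε hε
    refine ⟨N₀ + 1, fun N hN S hS => hN₀ N (by omega) S fun D hD => ?_⟩
    obtain ⟨h1, ξ, m, g, h2, h3⟩ := hS D hD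
    refine ⟨h1, ξ, m, g, h2, lt_of_le_of_lt ?_ h3⟩
    have hN1 : (1 : ℝ) ≤ N := by
      have : 1 ≤ N := by omega
      exact_mod_cast this
    exact pow_le_pow_right₀ (by nlinarith) (hkx _ (by have := hdeg i; omega))
  · push Not at hcase
    have hk0 : 0 < k := by
      by_contra hcon
      have hk1 : k = 0 := by omega
      have : IsEmpty (Fin k) := by rw [hk1]; infer_instance
      rw [Finset.univ_eq_empty, Finset.prod_empty] at hprod
      rw [← hprod, natDegree_one] at hn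
      omega
    obtain ⟨C, hC, hmain⟩ := caseII hk0 (fun i => (hh i).1) (fun i => (hh i).2) hpos hc
      (fun j => by have := hdeg j; have := hcase j; omega) (∑ r ∈ Finset.range (n + 1), kx r)
      (fun j => hkx _ (by have := hdeg j; omega))
    rw [hprod] at hmain
    exact ⟨C, hC, hmain⟩

/-- in terms of the points -/
theorem monic_pts (n : ℕ) (hodd : Odd n) (h5 : 5 ≤ n) : ∃ E : ℕ, 1 ≤ E ∧ ∀ f : ℤ[X], f.Monic →
    f.natDegree = n → (f.map (Int.castRingHom ℚ)).Separable →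
    ∃ C : ℝ, 1 ≤ C ∧ ∀ ε : ℝ, 0 < ε → ∃ N₀ : ℕ, ∀ N : ℕ, N₀ ≤ N → ∀ S : Finset ℤ,
      (∀ D ∈ S, Squarefree D ∧ |(D : ℝ)| ≤ N ∧ ∃ x y : ℤ, y ^ 2 = hom f x D ∧
        (C * N) ^ E < |(x : ℝ)|) → (S.card : ℝ) ≤ ε * N := by
  obtain ⟨E, hE⟩ := monic_main n h5
  refine ⟨E + 1, by omega, fun f hm hn hsep => ?_⟩
  obtain ⟨C, hC, hmain⟩ := hE f hm hn hsep
  obtain ⟨s, hs1, hs⟩ := hom_size hm
  have hs1r : (1 : ℝ) ≤ s := by exact_mod_cast hs1
  refine ⟨C * s, by nlinarith, fun ε hε => ?_⟩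
  obtain ⟨N₀, hN₀⟩ := hmain ε hε
  refine ⟨N₀ + 1, fun N hN S hS => hN₀ N (by omega) S fun D hD => ?_⟩
  obtain ⟨hsq, hDN, x, y, hxy, hx⟩ := hS D hD
  refine ⟨hDN, ?_⟩
  have hN1 : (1 : ℝ) ≤ N := by
    have : 1 ≤ N := by omega
    exact_mod_cast this
  have hCN : 1 ≤ C * s * N := by
    have : 1 ≤ C * s := by nlinarith
    nlinarith
  have hD0 : D ≠ 0 := hsq.ne_zero
  have h1 : C * s * N < |(x : ℝ)| := lt_of_le_of_lt (by
    calc C * s * N = (C * s * N) ^ 1 := (pow_one _).symm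
      _ ≤ (C * s * N) ^ (E + 1) := pow_le_pow_right₀ hCN (by omega)) hx
  have h2 : (s : ℝ) * |(D : ℝ)| < |(x : ℝ)| := by
    refine lt_of_le_of_lt ?_ h1
    have h3 : (s : ℝ) * |(D : ℝ)| ≤ s * N := mul_le_mul_of_nonneg_left hDN (by linarith)
    have h4 : (s : ℝ) * N ≤ C * (s * N) := le_mul_of_one_le_left (by positivity) hC
    linarith
  have h2z : (s : ℤ) * |D| < |x| := by exact_mod_cast h2
  have hDx : |D| ≤ |x| := by nlinarith [abs_nonneg D]
  have h3 := hs x D hDx hD0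
  rw [hn] at h3
  have hx0 : 0 < |x| := by
    have : 0 ≤ |D| := abs_nonneg D
    nlinarith
  have h4 : |hom f x D - x ^ n| < |x| ^ n := by
    have e1 : |x| ^ n = |x| * |x| ^ (n - 1) := by
      rw [← pow_succ']
      congr 1
      omega
    rw [e1]
    refine lt_of_le_of_lt h3 ?_
    exact mul_lt_mul_of_pos_right h2z (pow_pos hx0 _)
  have hxpos : 0 < x := by
    by_contra hneg
    have h5 : x < 0 := by
      rcases lt_trichotomy x 0 with h6 | h6 | h6
      · exact h6
      · rw [h6, abs_zero] at hx0; omega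
      · exact absurd h6 hneg
    have h6 : x ^ n = -|x| ^ n := by
      rw [abs_of_neg h5, hodd.neg_pow, neg_neg]
    rw [h6, ← hxy] at h4
    have h7 := (abs_lt.1 h4).2
    have h8 : 0 ≤ y ^ 2 := sq_nonneg y
    linarith
  have hy : y ≠ 0 := by
    rintro rfl
    rw [← hxy] at h4
    rw [abs_of_pos hxpos] at h4
    have h7 := (abs_lt.1 h4).1
    simp at h7
  obtain ⟨g, ξ, m, hxg, hpd⟩ := exists_pd (by rw [hn]; exact hodd) hsq hy hxy
  refine ⟨ξ, m, g, hpd, ?_⟩
  have hgN : (g : ℝ) ≤ N := by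
    have h4 : |(D : ℝ)| = g * |(m : ℝ)| := by
      rw [hpd.hD]; push_cast; rw [abs_mul, Nat.abs_cast]
    have h5 : (1 : ℝ) ≤ |(m : ℝ)| := by exact_mod_cast Int.one_le_abs hpd.m0
    rw [h4] at hDN
    nlinarith [Nat.cast_nonneg (α := ℝ) g]
  have hg1 : (1 : ℝ) ≤ g := by exact_mod_cast hpd.g0
  have hxr : (x : ℝ) = g * ξ := by rw [hxg]; push_cast; ring
  rw [abs_of_pos (by exact_mod_cast hxpos : (0 : ℝ) < x), hxr] at hx
  have hξ0 : 0 < (ξ : ℝ) := by
    have h6 : (0 : ℝ) < g * ξ := lt_of_le_of_lt (by positivity) hx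
    exact (mul_pos_iff_of_pos_left (by linarith)).1 h6
  have h6 : (C * s * N) ^ (E + 1) < N * ξ := lt_of_lt_of_le hx (mul_le_mul_of_nonneg_right hgN hξ0.le)
  have h7 : N * (C * N) ^ E ≤ (C * s * N) ^ (E + 1) := by
    rw [pow_succ, mul_comm]
    have h8 : C * N ≤ C * s * N := by
      have : C ≤ C * s := le_mul_of_one_le_right (by linarith) hs1r
      exact mul_le_mul_of_nonneg_right this (by linarith)
    have h9 : (N : ℝ) ≤ C * s * N := le_mul_of_one_le_left (by linarith) (by nlinarith)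
    exact mul_le_mul (pow_le_pow_left₀ (by positivity) h8 _) h9 (by positivity) (by positivity)
  have h8 : N * (C * N) ^ E < N * (ξ : ℝ) := lt_of_le_of_lt h7 h6
  exact lt_of_mul_lt_mul_left h8 (by linarith)

end Pool.Agent.H49TB
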