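import Pool.Agent.H49TB.Asm6

/-!
Reduction to monic polynomials; the result.
-/

set_option autoImplicit false

open Polynomial Filter Topology

namespace Pool.Agent.H49TB

open Pool.Agent.H49SH Pool.Agent.H49TW

/-- the monic polynomial `a^(n-1) f(X/a)` -/
theorem hom_integralNormalization {f : ℤ[X]} (hf : 1 ≤ f.natDegree) (x z : ℤ) :
    hom f.integralNormalization (f.leadingCoeff * x) z =
      f.leadingCoeff ^ (f.natDegree - 1) * hom f x z := by
  have ha : f.leadingCoeff ≠ 0 := by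
    rw [Ne, leadingCoeff_eq_zero]
    rintro rfl
    simp at hf
  apply mul_right_cancel₀ ha
  have h1 := congrArg (fun p : ℤ[X] => hom p (f.leadingCoeff * x) z) (integralNormalization_mul_C_leadingCoeff f)
  simp only [hom_mul] at h1
  have h2 : hom (C f.leadingCoeff) (f.leadingCoeff * x) z = f.leadingCoeff := by
    unfold hom
    rw [scaleRoots_C, eval_C]
  rw [h2] at h1
  rw [h1]
  unfold hom
  rw [← scaleRoots_mul, mul_comm f.leadingCoeff z, scaleRoots_mul, scaleRoots_eval_mul,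
    natDegree_scaleRoots]
  have e : f.leadingCoeff ^ f.natDegree = f.leadingCoeff ^ (f.natDegree - 1) * f.leadingCoeff := by
    rw [← pow_succ]
    congr 1
    omega
  rw [e]
  ring

theorem squarefree_scaleRoots {p : ℚ[X]} (hp : Squarefree p) {a : ℚ} (ha : a ≠ 0) :
    Squarefree (p.scaleRoots a) := by
  intro d hd
  have hu : IsUnit a⁻¹ := (inv_ne_zero ha).isUnit
  have h1 := scaleRoots_dvd (r := a⁻¹) _ _ hd
  rw [← scaleRoots_mul, mul_inv_cancel₀ ha, scaleRoots_one, mul_scaleRoots_of_noZeroDivisors] at h1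
  have h2 := hp _ h1
  have h3 : d ≠ 0 := by
    rintro rfl
    rw [zero_scaleRoots] at h2
    exact not_isUnit_zero h2
  have h4 := natDegree_eq_zero_of_isUnit h2
  rw [natDegree_scaleRoots] at h4
  rw [eq_C_of_natDegree_eq_zero h4] at h3 ⊢
  rw [Ne, C_eq_zero] at h3
  exact isUnit_C.2 (isUnit_iff_ne_zero.2 h3)

theorem sep_integralNormalization {f : ℤ[X]} (hf : 1 ≤ f.natDegree)
    (hs : Squarefree (f.map (Int.castRingHom ℚ))) :
    (f.integralNormalization.map (Int.castRingHom ℚ)).Separable := by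
  rw [PerfectField.separable_iff_squarefree]
  have ha : f.leadingCoeff ≠ 0 := by
    rw [Ne, leadingCoeff_eq_zero]
    rintro rfl
    simp at hf
  have haq : (f.leadingCoeff : ℚ) ≠ 0 := by exact_mod_cast ha
  have h1 := congrArg (Polynomial.map (Int.castRingHom ℚ)) (integralNormalization_mul_C_leadingCoeff f)
  rw [Polynomial.map_mul, map_C] at h1
  have h2 : (f.scaleRoots f.leadingCoeff).map (Int.castRingHom ℚ) =
      (f.map (Int.castRingHom ℚ)).scaleRoots (f.leadingCoeff : ℚ) := by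
    rw [map_scaleRoots]
    · simp
    · simpa using ha
  rw [h2] at h1
  refine (squarefree_scaleRoots hs haq).squarefree_of_dvd ⟨C ((f.leadingCoeff : ℤ) : ℚ), ?_⟩
  rw [← h1]
  simp

/-- a crude upper bound for the values -/
theorem hom_le (f : ℤ[X]) : ∃ s : ℝ, 1 ≤ s ∧ ∀ (x z : ℤ) (R : ℝ), |(x : ℝ)| ≤ R → |(z : ℝ)| ≤ R →
    |(hom f x z : ℝ)| ≤ s * R ^ f.natDegree := by
  refine ⟨1 + ∑ i ∈ Finset.range (f.natDegree + 1), |(f.coeff i : ℝ)|, by
    have := Finset.sum_nonneg (s := Finset.range (f.natDegree + 1)) fun i _ => abs_nonneg (f.coeff i : ℝ)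
    linarith, fun x z R hx hz => ?_⟩
  have hR : 0 ≤ R := (abs_nonneg _).trans hx
  rw [hom_eq_sum]
  push_cast
  refine (Finset.abs_sum_le_sum_abs _ _).trans ?_
  have h1 : ∀ i ∈ Finset.range (f.natDegree + 1),
      |(f.coeff i : ℝ) * (z : ℝ) ^ (f.natDegree - i) * (x : ℝ) ^ i| ≤ |(f.coeff i : ℝ)| * R ^ f.natDegree := by
    intro i hi
    have hi' := Finset.mem_range.1 hi
    rw [abs_mul, abs_mul, abs_pow, abs_pow, mul_assoc]
    refine mul_le_mul_of_nonneg_left ?_ (abs_nonneg _)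
    calc |(z : ℝ)| ^ (f.natDegree - i) * |(x : ℝ)| ^ i ≤ R ^ (f.natDegree - i) * R ^ i :=
          mul_le_mul (pow_le_pow_left₀ (abs_nonneg _) hz _) (pow_le_pow_left₀ (abs_nonneg _) hx _)
            (by positivity) (by positivity)
      _ = R ^ f.natDegree := by
          rw [← pow_add]
          congr 1
          omega
  refine (Finset.sum_le_sum h1).trans ?_
  rw [← Finset.sum_mul]
  have : 0 ≤ R ^ f.natDegree := by positivity
  nlinarith

/-- in terms of finite sets -/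
theorem main_fin (n : ℕ) (hodd : Odd n) (h5 : 5 ≤ n) : ∃ κ : ℕ, ∀ f : ℤ[X],
    f.natDegree = n → Squarefree (f.map (Int.castRingHom ℚ)) →
    ∀ ε : ℝ, 0 < ε → ∃ N₀ : ℕ, ∀ N : ℕ, N₀ ≤ N → ∀ S : Finset ℤ,
      (∀ D ∈ S, |D| ≤ N ∧ Squarefree D ∧ ∃ x y : ℤ, y ^ 2 = hom f x D ∧
        |D| ^ κ < max |x| |y|) → (S.card : ℝ) ≤ ε * N := by
  classical
  obtain ⟨E, hE1, hE⟩ := monic_pts n hodd h5
  refine ⟨n * E, fun f hn hsq ε hε => ?_⟩
  have hf1 : 1 ≤ f.natDegree := by omega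
  have ha : f.leadingCoeff ≠ 0 := by
    rw [Ne, leadingCoeff_eq_zero]
    rintro rfl
    simp at hf1
  have hf0 : f ≠ 0 := by
    rintro rfl
    simp at hf1
  obtain ⟨C, hC, hmain⟩ := hE f.integralNormalization (monic_integralNormalization hf0)
    (by rw [natDegree_integralNormalization, hn]) (sep_integralNormalization hf1 hsq)
  obtain ⟨N₁, hN₁⟩ := hmain (ε / 2) (by positivity)
  obtain ⟨s, hs1, hs⟩ := hom_le f
  rw [hn] at hs
  set δ : ℝ := ε / 8 with hδ
  have hδ0 : 0 < δ := by positivity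
  refine ⟨N₁ + ⌈4 / ε⌉₊ + ⌈s * C / δ ^ 2⌉₊ + 1, fun N hN S hS => ?_⟩
  have hN1 : (1 : ℝ) ≤ N := by
    have : 1 ≤ N := by omega
    exact_mod_cast this
  have hNε : 4 / ε ≤ N := (Nat.le_ceil _).trans (by
    have : ⌈4 / ε⌉₊ ≤ N := by omega
    exact_mod_cast this)
  have hNδ : s * C / δ ^ 2 ≤ N := (Nat.le_ceil _).trans (by
    have : ⌈s * C / δ ^ 2⌉₊ ≤ N := by omega
    exact_mod_cast this)
  rw [div_le_iff₀ (by positivity)] at hNε hNδ
  have hsC : s * C * N ≤ (δ * N) ^ 2 := by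
    calc s * C * N ≤ (N * δ ^ 2) * N := mul_le_mul_of_nonneg_right hNδ (by linarith)
      _ = _ := by ring
  have hCN1 : 1 ≤ C * N := by nlinarith
  -- small `D`
  have hsmall : ((S.filter (fun D : ℤ => |(D : ℝ)| < δ * N)).card : ℝ) ≤ 2 * (δ * N) + 1 := by
    have hsub : S.filter (fun D : ℤ => |(D : ℝ)| < δ * N) ⊆ Finset.Icc (-(⌊δ * N⌋₊ : ℤ)) ⌊δ * N⌋₊ := by
      intro D hD
      rw [Finset.mem_filter] at hD
      rw [Finset.mem_Icc, ← abs_le]
      have h1 : ((D.natAbs : ℕ) : ℝ) ≤ δ * N := by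
        rw [Nat.cast_natAbs]
        push_cast
        exact hD.2.le
      have h2 : D.natAbs ≤ ⌊δ * N⌋₊ := Nat.le_floor h1
      rw [Int.abs_eq_natAbs]
      exact_mod_cast h2
    have h1 := Finset.card_le_card hsub
    rw [Int.card_Icc] at h1
    have h2 : ((⌊δ * N⌋₊ : ℤ) + 1 - -(⌊δ * N⌋₊ : ℤ)).toNat = 2 * ⌊δ * N⌋₊ + 1 := by omega
    rw [h2] at h1
    have h3 : (⌊δ * N⌋₊ : ℝ) ≤ δ * N := Nat.floor_le (by positivity)
    calc ((S.filter (fun D : ℤ => |(D : ℝ)| < δ * N)).card : ℝ) ≤ ((2 * ⌊δ * N⌋₊ + 1 : ℕ) : ℝ) := by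
          exact_mod_cast h1
      _ = 2 * (⌊δ * N⌋₊ : ℝ) + 1 := by push_cast; ring
      _ ≤ _ := by linarith
  -- large `D`
  have hlarge : ((S.filter (fun D : ℤ => ¬ |(D : ℝ)| < δ * N)).card : ℝ) ≤ ε / 2 * N := by
    refine hN₁ N (by omega) _ fun D hD => ?_
    rw [Finset.mem_filter, not_lt] at hD
    obtain ⟨hDS, hDδ⟩ := hD
    obtain ⟨h1, h2, x, y, hxy, hmax⟩ := hS D hDS
    have h1r : |(D : ℝ)| ≤ N := by exact_mod_cast h1
    refine ⟨h2, h1r, f.leadingCoeff * x, f.leadingCoeff ^ ((n - 1) / 2) * y, ?_, ?_⟩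
    · rw [hom_integralNormalization hf1, mul_pow, hxy, ← pow_mul, hn]
      congr 2
      obtain ⟨k, hk⟩ := hodd
      omega
    · -- the size of `x`
      have hax : |(x : ℝ)| ≤ |((f.leadingCoeff * x : ℤ) : ℝ)| := by
        push_cast
        rw [abs_mul]
        have h3 : (1 : ℝ) ≤ |((f.leadingCoeff : ℤ) : ℝ)| := by exact_mod_cast Int.one_le_abs ha
        exact le_mul_of_one_le_left (abs_nonneg _) h3
      refine lt_of_lt_of_le ?_ hax
      by_contra hcon
      rw [not_lt] at hcon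
      have hmaxr : |(D : ℝ)| ^ (n * E) < max |(x : ℝ)| |(y : ℝ)| := by exact_mod_cast hmax
      have hDlow : (s * (C * N)) ^ (n * E) ≤ (|(D : ℝ)| ^ (n * E)) ^ 2 := by
        have e1 : (|(D : ℝ)| ^ (n * E)) ^ 2 = (|(D : ℝ)| ^ 2) ^ (n * E) := by
          rw [← pow_mul, ← pow_mul, mul_comm]
        rw [e1]
        have e2 : s * (C * N) ≤ |(D : ℝ)| ^ 2 := by
          calc s * (C * N) = s * C * N := by ring
            _ ≤ (δ * N) ^ 2 := hsC
            _ ≤ _ := pow_le_pow_left₀ (by positivity) hDδ _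
        have e3 : 0 ≤ s * (C * (N : ℝ)) := by positivity
        exact pow_le_pow_left₀ e3 e2 _
      have hnE : n * E ≠ 0 := Nat.mul_ne_zero (by omega) (by omega)
      have hsn : s ≤ s ^ (n * E) := le_self_pow₀ hs1 hnE
      have hkey : s * ((C * N) ^ E) ^ n ≤ (|(D : ℝ)| ^ (n * E)) ^ 2 := by
        calc s * ((C * N) ^ E) ^ n = s * (C * N) ^ (n * E) := by rw [← pow_mul, mul_comm E n]
          _ ≤ s ^ (n * E) * (C * N) ^ (n * E) := mul_le_mul_of_nonneg_right hsn (by positivity)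
          _ = (s * (C * N)) ^ (n * E) := (mul_pow _ _ _).symm
          _ ≤ _ := hDlow
      have hCE : 1 ≤ (C * (N : ℝ)) ^ E := one_le_pow₀ hCN1
      have hDp : 0 ≤ |(D : ℝ)| ^ (n * E) := by positivity
      rcases lt_max_iff.1 hmaxr with h3 | h3
      · -- `x` is large
        have h4 : (C * (N : ℝ)) ^ E ≤ s * ((C * N) ^ E) ^ n := by
          calc (C * (N : ℝ)) ^ E ≤ ((C * N) ^ E) ^ n := le_self_pow₀ hCE (by omega)
            _ ≤ _ := le_mul_of_one_le_left (by positivity) hs1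
        have h5 : |(D : ℝ)| ^ (n * E) < (C * N) ^ E := lt_of_lt_of_le h3 hcon
        have h6 : (|(D : ℝ)| ^ (n * E)) ^ 2 < ((C * (N : ℝ)) ^ E) ^ 2 :=
          pow_lt_pow_left₀ h5 hDp two_ne_zero
        have h7 : ((C * (N : ℝ)) ^ E) ^ 2 ≤ s * ((C * N) ^ E) ^ n := by
          calc ((C * (N : ℝ)) ^ E) ^ 2 ≤ ((C * N) ^ E) ^ n := pow_le_pow_right₀ hCE (by omega)
            _ ≤ _ := le_mul_of_one_le_left (by positivity) hs1
        linarith
      · -- `y` is large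
        have h4 : (y : ℝ) ^ 2 ≤ s * ((C * N) ^ E) ^ n := by
          have h5 : (y : ℝ) ^ 2 = (hom f x D : ℝ) := by exact_mod_cast hxy
          rw [h5]
          refine (le_abs_self _).trans (hs x D _ hcon (h1r.trans ?_))
          calc (N : ℝ) ≤ C * N := le_mul_of_one_le_left (by linarith) hC
            _ ≤ _ := le_self_pow₀ hCN1 (by omega)
        have h5 : (|(D : ℝ)| ^ (n * E)) ^ 2 < |(y : ℝ)| ^ 2 := pow_lt_pow_left₀ h3 hDp two_ne_zero
        rw [sq_abs] at h5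
        linarith
  have h3 := Finset.card_filter_add_card_filter_not (s := S) (fun D : ℤ => |(D : ℝ)| < δ * N)
  have h4 : (S.card : ℝ) = (S.filter (fun D : ℤ => |(D : ℝ)| < δ * N)).card +
      (S.filter (fun D : ℤ => ¬ |(D : ℝ)| < δ * N)).card := by
    exact_mod_cast h3.symm
  rw [h4]
  have h5 : 2 * (δ * N) + 1 ≤ ε / 2 * N := by
    rw [hδ]
    nlinarith
  linarith

/-- **Theorem.** -/
theorem main (n : ℕ) (hodd : Odd n) (h5 : 5 ≤ n) : ∃ κ : ℕ, ∀ f : ℤ[X],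
    f.natDegree = n → Squarefree (f.map (Int.castRingHom ℚ)) →
    Tendsto (fun N : ℕ => (({D : ℤ | |D| ≤ N ∧ Squarefree D ∧ ∃ x y : ℤ,
      y ^ 2 = ∑ k ∈ Finset.range (n + 1), f.coeff k * D ^ (n - k) * x ^ k ∧
        |D| ^ κ < max |x| |y|}.ncard : ℕ) : ℝ) / N) atTop (𝓝 0) := by
  obtain ⟨κ, hκ⟩ := main_fin n hodd h5
  refine ⟨κ, fun f hn hsq => ?_⟩
  rw [Metric.tendsto_atTop]
  intro ε hε
  obtain ⟨N₀, hN₀⟩ := hκ f hn hsq (ε / 2) (by positivity)
  refine ⟨N₀ + 1, fun N hN => ?_⟩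
  set S : Set ℤ := {D : ℤ | |D| ≤ N ∧ Squarefree D ∧ ∃ x y : ℤ,
      y ^ 2 = ∑ k ∈ Finset.range (n + 1), f.coeff k * D ^ (n - k) * x ^ k ∧
        |D| ^ κ < max |x| |y|} with hS
  have hfin : S.Finite := (Set.finite_Icc (-(N : ℤ)) N).subset fun D hD => abs_le.1 hD.1
  have h1 := hN₀ N (by omega) hfin.toFinset (fun D hD => by
    rw [Set.Finite.mem_toFinset] at hD
    obtain ⟨h1, h2, x, y, h3, h4⟩ := hD
    refine ⟨h1, h2, x, y, ?_, h4⟩
    rw [hom_eq_sum, hn]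
    exact h3)
  rw [← Set.ncard_eq_toFinset_card S hfin] at h1
  have hN1 : (0 : ℝ) < N := by
    have : 0 < N := by omega
    exact_mod_cast this
  rw [Real.dist_eq, sub_zero, abs_of_nonneg (by positivity), div_lt_iff₀ hN1]
  nlinarith

end Pool.Agent.H49TB
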