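import Mathlib

/-!
The polynomial `P (T², u_i²) = ∏ (T - ∑ ± u_i)`.
-/

set_option autoImplicit false

namespace Pool.Agent.H49TB

open MvPolynomial Finset

/-- sign -/
def sg (b : Bool) : ℤ := if b then 1 else -1

lemma sg_not (b : Bool) : sg (!b) = -sg b := by cases b <;> simp [sg]

lemma sg_mul_self (b : Bool) : sg b * sg b = 1 := by cases b <;> simp [sg]

/-- product of all `T - ∑ ± u i` -/
noncomputable def pf (r : ℕ) : MvPolynomial (Option (Fin r)) ℤ :=
  ∏ ε : Fin r → Bool, (X none - ∑ i, C (sg (ε i)) * X (some i))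

/-- change of the sign of one variable -/
noncomputable def flip {σ : Type} [DecidableEq σ] (o : σ) : MvPolynomial σ ℤ →ₐ[ℤ] MvPolynomial σ ℤ :=
  aeval (fun j => if j = o then -X j else X j)

lemma flip_monomial {σ : Type} [DecidableEq σ] (o : σ) (s : σ →₀ ℕ) (c : ℤ) :
    flip o (monomial s c) = monomial s ((-1) ^ (s o) * c) := by
  rw [flip, aeval_monomial]
  have h : s.prod (fun i k => (if i = o then -X i else X i : MvPolynomial σ ℤ) ^ k)
      = C ((-1) ^ (s o)) * s.prod (fun i k => (X i : MvPolynomial σ ℤ) ^ k) := by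
    by_cases ho : o ∈ s.support
    · rw [Finsupp.prod, Finsupp.prod, ← Finset.mul_prod_erase _ _ ho, ← Finset.mul_prod_erase _ _ ho]
      rw [if_pos rfl, neg_pow (X o : MvPolynomial σ ℤ), map_pow, map_neg, map_one, ← mul_assoc]
      congr 1
      apply Finset.prod_congr rfl
      intro i hi
      rw [if_neg (Finset.ne_of_mem_erase hi)]
    · have h0 : s o = 0 := Finsupp.notMem_support_iff.1 ho
      rw [h0, pow_zero, map_one, one_mul]
      apply Finset.prod_congr rfl
      intro i hi
      have : i ≠ o := by
        rintro rfl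
        exact ho hi
      simp only [if_neg this]
  rw [h, monomial_eq, map_mul]
  have h2 : algebraMap ℤ (MvPolynomial σ ℤ) c = C c := rfl
  rw [h2]
  ring

lemma coeff_flip {σ : Type} [DecidableEq σ] (o : σ) (p : MvPolynomial σ ℤ) (s : σ →₀ ℕ) :
    coeff s (flip o p) = (-1) ^ (s o) * coeff s p := by
  induction p using MvPolynomial.induction_on' with
  | monomial u a =>
    rw [flip_monomial, coeff_monomial, coeff_monomial]
    split_ifs with h
    · subst h; rfl
    · simp
  | add p q h1 h2 =>
    rw [map_add, coeff_add, coeff_add, h1, h2]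
    ring

/-- half of an exponent -/
noncomputable def hf {σ : Type} (s : σ →₀ ℕ) : σ →₀ ℕ := s.mapRange (· / 2) (by norm_num)

lemma exists_expand {σ : Type} [DecidableEq σ] (p : MvPolynomial σ ℤ) (h : ∀ o, flip o p = p) :
    ∃ P : MvPolynomial σ ℤ, expand 2 P = p := by
  refine ⟨∑ s ∈ p.support, monomial (hf s) (coeff s p), ?_⟩
  rw [map_sum]
  conv_rhs => rw [p.as_sum]
  apply Finset.sum_congr rfl
  intro s hs
  rw [expand_monomial]
  suffices hh : 2 • hf s = s by rw [hh]
  ext o
  have h1 := coeff_flip o p s
  rw [h o] at h1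
  have h2 : coeff s p ≠ 0 := mem_support_iff.1 hs
  have h3 : Even (s o) := by
    by_contra hodd
    rw [Nat.not_even_iff_odd] at hodd
    rw [hodd.neg_one_pow] at h1
    omega
  simp only [hf, Finsupp.smul_apply, Finsupp.mapRange_apply, smul_eq_mul]
  obtain ⟨k, hk⟩ := h3
  omega

lemma flip_pf (r : ℕ) (hr : 1 ≤ r) (o : Option (Fin r)) : flip o (pf r) = pf r := by
  cases o with
  | none =>
    have h1 : flip none (pf r) = ∏ ε : Fin r → Bool, -(X none - ∑ i, C (sg (!(ε i))) * X (some i)) := by
      rw [pf, map_prod]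
      apply Finset.prod_congr rfl
      intro ε _
      simp only [flip, map_sub, aeval_X, map_sum, map_mul, if_true, sg_not]
      have : ∀ i : Fin r, (if (some i : Option (Fin r)) = none then -X (some i) else X (some i) :
          MvPolynomial (Option (Fin r)) ℤ) = X (some i) := fun i => if_neg (by simp)
      simp only [this, map_neg]
      have h3 : ∀ i : Fin r, (aeval (fun j => if j = none then -X j else X j) :
          MvPolynomial (Option (Fin r)) ℤ →ₐ[ℤ] MvPolynomial (Option (Fin r)) ℤ) (C (sg (ε i)))
          = C (sg (ε i)) := fun i => by simp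
      simp only [h3, neg_mul, Finset.sum_neg_distrib]
      ring
    rw [h1, Finset.prod_neg, pf]
    have h2 : Even (Fintype.card (Fin r → Bool)) := by
      rw [Fintype.card_fun, Fintype.card_bool, Fintype.card_fin]
      exact (Nat.even_pow.2 ⟨even_two, by omega⟩)
    rw [Finset.card_univ, h2.neg_one_pow, one_mul]
    exact Fintype.prod_equiv (Equiv.arrowCongr (Equiv.refl _) Equiv.boolNot) _ _ (fun ε => by
      simp [Equiv.arrowCongr])
  | some k =>
    rw [pf, map_prod]
    have hinv : Function.Involutive (fun ε : Fin r → Bool => Function.update ε k (!(ε k))) := by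
      intro ε
      simp
    have hco : ∀ ε : Fin r → Bool, (Function.Involutive.toPerm _ hinv) ε = Function.update ε k (!(ε k)) := fun ε => rfl
    refine Fintype.prod_equiv (Function.Involutive.toPerm _ hinv) _ _ (fun ε => ?_)
    rw [hco]
    simp only [flip, map_sub, aeval_X, map_sum, map_mul]
    rw [if_neg (by simp)]
    congr 1
    apply Finset.sum_congr rfl
    intro i _
    by_cases hik : i = k
    · subst hik
      rw [if_pos rfl, Function.update_self, sg_not]
      simp
    · rw [if_neg (by simpa using hik), Function.update_of_ne hik]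
      simp

/-- the polynomial `P (T², u_i²) = ∏ (T - ∑ ± u_i)` -/
theorem exists_P (r : ℕ) (hr : 1 ≤ r) : ∃ P : MvPolynomial (Option (Fin r)) ℤ,
    expand 2 P = pf r ∧ P.IsHomogeneous (2 ^ (r - 1)) ∧
    ∀ e : Equiv.Perm (Fin r), rename (Option.map e) P = P := by
  obtain ⟨P, hP⟩ := exists_expand (pf r) (flip_pf r hr)
  refine ⟨P, hP, ?_, ?_⟩
  · have h1 : (pf r).IsHomogeneous (2 ^ r) := by
      have h2 : (pf r).IsHomogeneous (∑ ε : Fin r → Bool, 1) := by
        apply MvPolynomial.IsHomogeneous.prod
        intro ε _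
        apply MvPolynomial.IsHomogeneous.sub (isHomogeneous_X _ _)
        apply MvPolynomial.IsHomogeneous.sum
        intro i _
        have := (isHomogeneous_C (Option (Fin r)) (sg (ε i))).mul (isHomogeneous_X ℤ (some i))
        rwa [zero_add] at this
      rw [Finset.sum_const, Finset.card_univ, Fintype.card_fun, Fintype.card_bool, Fintype.card_fin,
        smul_eq_mul, mul_one] at h2
      exact h2
    intro s hs
    have h3 : coeff (2 • s) (pf r) ≠ 0 := by
      rw [← hP, coeff_expand_smul 2 (by norm_num)]
      exact hs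
    have h4 := h1 h3
    have h5 : (Finsupp.weight 1 (2 • s) : ℕ) = 2 * Finsupp.weight 1 s := by
      rw [map_nsmul, smul_eq_mul]
    rw [h5] at h4
    have h6 : 2 ^ r = 2 * 2 ^ (r - 1) := by
      rw [← pow_succ']
      congr 1
      omega
    omega
  · intro e
    apply expand_injective (n := 2) (by norm_num)
    rw [← rename_expand, hP, pf, map_prod]
    refine Fintype.prod_equiv (Equiv.arrowCongr e (Equiv.refl _)) _ _ (fun ε => ?_)
    simp only [map_sub, rename_X, map_sum, map_mul, rename_C, Option.map_none, Option.map_some]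
    congr 1
    refine Fintype.sum_equiv e _ _ (fun i => ?_)
    simp [Equiv.arrowCongr]

end Pool.Agent.H49TB
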