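import Pool.Agent.H49TB.Sep
import Pool.Agent.H49TB.Sgn

/-!
Points of one class in a small cell.
-/

set_option autoImplicit false

namespace Pool.Agent.H49TB

open Polynomial Finset

variable {r : ℕ}

/-- the conclusion of `separation` -/
def Sep (θ : Fin r → ℂ) (κ₁ : ℝ) : Prop :=
  ∀ (a b b' : ℤ[X]) (s : Fin r → ℂ), (∀ i, s i ^ 2 = aeval (θ i) a) →
      (∀ i, s i ≠ 0) → ∀ ξ m ξ' m' : ℤ,
      (∀ i, aeval (θ i) b ^ 2 = aeval (θ i) a * (ξ - m * θ i)) →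
      (∀ i, aeval (θ i) b' ^ 2 = aeval (θ i) a * (ξ' - m' * θ i)) →
      ∀ l l' : ℝ, 0 < l → 0 < l' →
      (∀ i, ‖(l : ℂ) * (aeval (θ i) b / s i) - l' * (aeval (θ i) b' / s i)‖ ^ 2 < κ₁ * (l * l')) →
      ξ * m' - ξ' * m = 0

/-- a coprime point of the class -/
def Cp (θ : Fin r → ℂ) (a : ℤ[X]) (p : ℤ × ℤ) : Prop :=
  IsCoprime p.1 p.2 ∧ ∃ b : ℤ[X], ∀ i, aeval (θ i) b ^ 2 = aeval (θ i) a * (p.1 - p.2 * θ i)

theorem prop_eq {ξ m ξ' m' : ℤ} (hc : IsCoprime ξ m) (hc' : IsCoprime ξ' m')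
    (h : ξ * m' - ξ' * m = 0) : (ξ' = ξ ∧ m' = m) ∨ (ξ' = -ξ ∧ m' = -m) := by
  have g1 : ξ ∣ ξ' := hc.dvd_of_dvd_mul_right ⟨m', by linarith⟩
  have g2 : ξ' ∣ ξ := hc'.dvd_of_dvd_mul_right ⟨m, by linarith⟩
  have g3 : ξ.natAbs = ξ'.natAbs := Nat.dvd_antisymm (Int.natAbs_dvd_natAbs.2 g1) (Int.natAbs_dvd_natAbs.2 g2)
  rcases eq_or_ne ξ 0 with h0 | h0
  · have h1 : ξ' = 0 := by rw [h0] at g3; simpa using g3.symm
    rw [h0, isCoprime_zero_left, Int.isUnit_iff] at hc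
    rw [h1, isCoprime_zero_left, Int.isUnit_iff] at hc'
    rcases hc with h2 | h2 <;> rcases hc' with h3 | h3 <;> simp [h0, h1, h2, h3]
  · rcases Int.natAbs_eq_natAbs_iff.1 g3 with h1 | h1
    · left
      refine ⟨h1.symm, ?_⟩
      rw [← h1] at h
      have h2 : ξ * (m' - m) = 0 := by linear_combination h
      rcases mul_eq_zero.1 h2 with h3 | h3
      · exact absurd h3 h0
      · omega
    · right
      have h2 : ξ' = -ξ := by omega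
      refine ⟨h2, ?_⟩
      rw [h2] at h
      have h3 : ξ * (m' + m) = 0 := by linear_combination h
      rcases mul_eq_zero.1 h3 with h4 | h4
      · exact absurd h4 h0
      · omega

theorem aux_min {x y w q : ℝ} (hx : 0 ≤ x) (hxy : x ≤ y) (hw : 0 ≤ w) (hwy : w ≤ y) (hq : 0 ≤ q)
    (h : (x * y) ^ 2 ≤ q * w ^ 2) : x ^ 2 ≤ q := by
  rcases eq_or_lt_of_le (hx.trans hxy) with h0 | h0
  · have : x = 0 := by linarith
    rw [this]; simpa using hq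
  · have h1 : q * w ^ 2 ≤ q * y ^ 2 := mul_le_mul_of_nonneg_left (pow_le_pow_left₀ hw hwy 2) hq
    have h2 : x ^ 2 * y ^ 2 ≤ q * y ^ 2 := by rw [← mul_pow]; exact h.trans h1
    exact le_of_mul_le_mul_right h2 (by positivity)

/-- the choice of a sign -/
theorem sign_near {ρ w : ℂ} {q : ℝ} (hq : 0 ≤ q)
    (h : ‖ρ ^ 2 - w ^ 2‖ ≤ q ∨ ‖ρ ^ 2 - w ^ 2‖ ^ 2 ≤ q * ‖w ^ 2‖) :
    ∃ e : Bool, ‖ρ - (sg e : ℂ) * w‖ ^ 2 ≤ q := by
  have hfac : ‖ρ ^ 2 - w ^ 2‖ = ‖ρ - w‖ * ‖ρ + w‖ := by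
    rw [← norm_mul]; congr 1; ring
  rw [hfac, norm_pow] at h
  obtain ⟨A, hA⟩ : ∃ A, A = ‖ρ - w‖ := ⟨_, rfl⟩
  obtain ⟨B, hB⟩ : ∃ B, B = ‖ρ + w‖ := ⟨_, rfl⟩
  rw [← hA, ← hB] at h
  have hA0 : 0 ≤ A := hA ▸ norm_nonneg _
  have hB0 : 0 ≤ B := hB ▸ norm_nonneg _
  have hw0 : 0 ≤ ‖w‖ := norm_nonneg _
  have hAB : 2 * ‖w‖ ≤ A + B := by
    have h1 : ‖(2 : ℂ) * w‖ ≤ B + A := by
      have e : (2 : ℂ) * w = (ρ + w) - (ρ - w) := by ring
      rw [e, hA, hB]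
      exact norm_sub_le _ _
    rw [norm_mul, Complex.norm_ofNat] at h1
    linarith
  rcases le_total A B with h1 | h1
  · refine ⟨true, ?_⟩
    have h2 : A ^ 2 ≤ q := by
      rcases h with h | h
      · nlinarith
      · exact aux_min hA0 h1 hw0 (by linarith) hq h
    simpa [sg, hA] using h2
  · refine ⟨false, ?_⟩
    have h2 : B ^ 2 ≤ q := by
      rcases h with h | h
      · nlinarith
      · exact aux_min hB0 h1 hw0 (by linarith) hq (by rw [mul_comm B A]; exact h)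
    simpa [sg, hB] using h2

/-- points of one class in a small cell -/
theorem cell {θ : Fin r → ℂ} {κ₁ : ℝ} (hκ : 0 < κ₁) (hsep : Sep θ κ₁) (a : ℤ[X])
    (ha0 : ∀ i, aeval (θ i) a ≠ 0) (S : Finset (ℤ × ℤ)) (hS : ∀ p ∈ S, Cp θ a p)
    (l : ℤ × ℤ → ℝ) (lmin : ℝ) (hl0 : 0 < lmin) (hl : ∀ p ∈ S, lmin ≤ l p) (z₀ : Fin r → ℂ)
    (q : ℝ) (hq0 : 0 ≤ q) (hq : 4 * q < κ₁ * lmin ^ 2)
    (hz : ∀ p ∈ S, ∀ i, ‖(l p : ℂ) ^ 2 * (p.1 - p.2 * θ i) - z₀ i‖ ≤ q ∨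
      ‖(l p : ℂ) ^ 2 * (p.1 - p.2 * θ i) - z₀ i‖ ^ 2 ≤ q * ‖z₀ i‖)
    (hneg : ∀ p ∈ S, ∀ p' ∈ S, p'.1 = -p.1 → p'.2 ≠ -p.2) : S.card ≤ 2 ^ r := by
  classical
  choose s hs using fun i => IsAlgClosed.exists_pow_nat_eq (aeval (θ i) a) (n := 2) (by norm_num)
  choose w hw using fun i => IsAlgClosed.exists_pow_nat_eq (z₀ i) (n := 2) (by norm_num)
  have hs0 : ∀ i, s i ≠ 0 := by
    intro i h0
    have := hs i
    rw [h0] at this
    exact ha0 i (by rw [← this]; norm_num)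
  choose! hcop b hb using hS
  have hex : ∀ p ∈ S, ∃ e : Fin r → Bool, ∀ i,
      ‖(l p : ℂ) * (aeval (θ i) (b p) / s i) - (sg (e i) : ℂ) * w i‖ ^ 2 ≤ q := by
    intro p hp
    have h1 : ∀ i, ∃ e : Bool, ‖(l p : ℂ) * (aeval (θ i) (b p) / s i) - (sg e : ℂ) * w i‖ ^ 2 ≤ q := by
      intro i
      refine sign_near hq0 ?_
      have e1 : ((l p : ℂ) * (aeval (θ i) (b p) / s i)) ^ 2 = (l p : ℂ) ^ 2 * (p.1 - p.2 * θ i) := by
        rw [mul_pow, div_pow, hb p hp, ← hs, mul_div_cancel_left₀ _ (pow_ne_zero _ (hs0 i))]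
      rw [e1, hw]
      exact hz p hp i
    choose e he using h1
    exact ⟨e, he⟩
  choose! e he using hex
  by_contra hcon
  push Not at hcon
  have hcard : (Finset.univ : Finset (Fin r → Bool)).card < S.card := by
    rw [Finset.card_univ, Fintype.card_fun, Fintype.card_bool, Fintype.card_fin]
    exact hcon
  obtain ⟨p, hp, p', hp', hne, hee⟩ := Finset.exists_ne_map_eq_of_card_lt_of_maps_to hcard
    (f := e) (fun p _ => Finset.mem_univ _)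
  have hlp := hl p hp
  have hlp' := hl p' hp'
  have hdist : ∀ i, ‖(l p : ℂ) * (aeval (θ i) (b p) / s i) - l p' * (aeval (θ i) (b p') / s i)‖ ^ 2 <
      κ₁ * (l p * l p') := by
    intro i
    have h1 := he p hp i
    have h2 := he p' hp' i
    rw [← hee] at h2
    obtain ⟨x, hx⟩ : ∃ x, x = (l p : ℂ) * (aeval (θ i) (b p) / s i) - (sg (e p i) : ℂ) * w i := ⟨_, rfl⟩
    obtain ⟨y, hy⟩ : ∃ y, y = (l p' : ℂ) * (aeval (θ i) (b p') / s i) - (sg (e p i) : ℂ) * w i := ⟨_, rfl⟩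
    rw [← hx] at h1
    rw [← hy] at h2
    have e1 : (l p : ℂ) * (aeval (θ i) (b p) / s i) - l p' * (aeval (θ i) (b p') / s i) = x - y := by
      rw [hx, hy]; ring
    rw [e1]
    have h3 := norm_sub_le x y
    have h4 : ‖x - y‖ ^ 2 ≤ (‖x‖ + ‖y‖) ^ 2 := pow_le_pow_left₀ (norm_nonneg _) h3 2
    have h5 : (‖x‖ + ‖y‖) ^ 2 ≤ 4 * q := by nlinarith [sq_nonneg (‖x‖ - ‖y‖)]
    have h6 : lmin ^ 2 ≤ l p * l p' := by
      rw [sq]; exact mul_le_mul hlp hlp' hl0.le (hl0.le.trans hlp)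
    have h7 : κ₁ * lmin ^ 2 ≤ κ₁ * (l p * l p') := mul_le_mul_of_nonneg_left h6 hκ.le
    linarith
  have h0 := hsep a (b p) (b p') s hs hs0 p.1 p.2 p'.1 p'.2 (hb p hp) (hb p' hp') (l p) (l p')
    (by linarith) (by linarith) hdist
  rcases prop_eq (hcop p hp) (hcop p' hp') h0 with ⟨h1, h2⟩ | ⟨h1, h2⟩
  · exact hne (Prod.ext h1.symm h2.symm)
  · exact hneg p hp p' hp' h1 h2

/-- division into cells -/
theorem cells {α : Type*} (S : Finset α) (t : α → ℝ) (sgn : α → Bool) (ℓ x₀ R' : ℝ) (hℓ : 0 < ℓ)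
    (hR : 0 ≤ R') (ht : ∀ p ∈ S, |t p - x₀| ≤ R') (K : ℕ)
    (hK : ∀ (s : Bool) (j : ℤ), (S.filter (fun p => sgn p = s ∧ ⌊t p / ℓ⌋ = j)).card ≤ K) :
    (S.card : ℝ) ≤ 2 * K * (2 * R' / ℓ + 2) := by
  classical
  set I : Finset ℤ := Finset.Icc ⌊(x₀ - R') / ℓ⌋ ⌊(x₀ + R') / ℓ⌋ with hI
  have hmaps : ∀ p ∈ S, (sgn p, ⌊t p / ℓ⌋) ∈ (Finset.univ : Finset Bool) ×ˢ I := by
    intro p hp
    rw [Finset.mem_product]
    refine ⟨Finset.mem_univ _, ?_⟩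
    have h1 := abs_le.1 (ht p hp)
    rw [hI, Finset.mem_Icc]
    constructor
    · apply Int.floor_le_floor
      exact div_le_div_of_nonneg_right (by linarith) hℓ.le
    · apply Int.floor_le_floor
      exact div_le_div_of_nonneg_right (by linarith) hℓ.le
  have h1 := Finset.card_le_mul_card_image_of_maps_to hmaps K (by
    intro x _
    refine le_trans (Finset.card_le_card ?_) (hK x.1 x.2)
    intro p hp
    rw [Finset.mem_filter] at hp ⊢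
    refine ⟨hp.1, ?_, ?_⟩
    · exact congrArg Prod.fst hp.2
    · exact congrArg Prod.snd hp.2)
  rw [Finset.card_product, Finset.card_univ, Fintype.card_bool] at h1
  have h2 : (I.card : ℝ) ≤ 2 * R' / ℓ + 2 := by
    rw [hI, Int.card_Icc]
    have h3 : (⌊(x₀ + R') / ℓ⌋ : ℝ) ≤ (x₀ + R') / ℓ := Int.floor_le _
    have h4 : (x₀ - R') / ℓ < ⌊(x₀ - R') / ℓ⌋ + 1 := Int.lt_floor_add_one _
    have h5 : (x₀ + R') / ℓ - (x₀ - R') / ℓ = 2 * R' / ℓ := by ring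
    have h6 : 0 ≤ 2 * R' / ℓ := by positivity
    have h7 : (((⌊(x₀ + R') / ℓ⌋ + 1 - ⌊(x₀ - R') / ℓ⌋).toNat : ℤ) : ℝ) ≤ 2 * R' / ℓ + 2 := by
      rcases le_total 0 (⌊(x₀ + R') / ℓ⌋ + 1 - ⌊(x₀ - R') / ℓ⌋) with h8 | h8
      · rw [Int.toNat_of_nonneg h8]
        push_cast
        linarith
      · rw [Int.toNat_of_nonpos h8]
        push_cast
        linarith
    exact_mod_cast h7
  calc (S.card : ℝ) ≤ ((K * (2 * I.card) : ℕ) : ℝ) := by exact_mod_cast h1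
    _ = 2 * K * I.card := by push_cast; ring
    _ ≤ _ := mul_le_mul_of_nonneg_left h2 (by positivity)

end Pool.Agent.H49TB
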