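import Pool.Agent.H49TB.Gap
import Pool.Agent.H49TB.Sgn

/-!
The gap principle for two points of one class: conclusion.
-/

set_option autoImplicit false

namespace Pool.Agent.H49TB

open Polynomial Finset

variable {r : ℕ}

/-- `(ξ, m)` is a point of the class of `s_i ^ 2 = a(θ_i)` with the signs `σ` -/
def Pnt (θ s : Fin r → ℂ) (σ : Fin r → Bool) (ξ m : ℤ) : Prop :=
  ∃ (b : ℤ[X]) (φ : Fin r → ℂ), ∀ i, φ i ^ 2 = 1 - (m / ξ * θ i) ∧
    ‖φ i - (1 - (m / ξ * θ i) / 2)‖ ≤ ‖(m : ℂ) / ξ * θ i‖ ^ 2 ∧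
    aeval (θ i) b = (sg (σ i) : ℂ) * s i * (Real.sqrt ξ : ℂ) * φ i

theorem gap (hr : 3 ≤ r) (h : ℤ[X]) (hm : h.Monic) (hd : h.natDegree = r) (θ : Fin r → ℂ)
    (hθ : h.map (Int.castRingHom ℂ) = ∏ t, (X - C (θ t))) (hinj : Function.Injective θ)
    (a : ℤ[X]) (s : Fin r → ℂ) (hs : ∀ i, s i ^ 2 = aeval (θ i) a) (hs0 : ∀ i, s i ≠ 0)
    (V : Fin r → Fin r → ℂ)
    (hV : ∀ k j : Fin r, ∑ i, V k i * θ i ^ (j : ℕ) = if k = j then 1 else 0)
    (K M D₀ R : ℝ) (hK : ∀ k, ∑ i, ‖V k i‖ ≤ K) (hM : 1 ≤ M) (hθM : ∀ i, ‖θ i‖ ≤ M)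
    (hD₀ : ‖∏ i, aeval (θ i) a‖ ≤ D₀) (hR : 1 ≤ R) (σ : Fin r → Bool) (ξ m ξ' m' : ℤ)
    (hc : IsCoprime ξ m) (hc' : IsCoprime ξ' m') 
    (hmR : |(m : ℝ)| ≤ R) (hmR' : |(m' : ℝ)| ≤ R) (hξ : 0 < ξ) (hξξ' : ξ ≤ ξ')
    (h1 : 2 * M * R ≤ ξ) (h2 : 16 * K ^ 2 * D₀ ^ 2 * M ^ 4 * R ^ 4 < ξ)
    (hp : Pnt θ s σ ξ m) (hp' : Pnt θ s σ ξ' m') : (ξ = ξ' ∧ m = m') ∨ ξ ^ 2 ≤ ξ' := by
  by_cases hlt : ξ ^ 2 ≤ ξ'
  · exact Or.inr hlt
  left
  push Not at hlt
  obtain ⟨A, D, hD, hAD⟩ := exists_adj h hm hd (by omega) θ hθ a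
  obtain ⟨b, φ, hb⟩ := hp
  obtain ⟨b', φ', hb'⟩ := hp'
  have hξR : (0 : ℝ) < ξ := by exact_mod_cast hξ
  have hξR' : (0 : ℝ) < ξ' := by exact_mod_cast (lt_of_lt_of_le hξ hξξ')
  have hξξR : (ξ : ℝ) ≤ ξ' := by exact_mod_cast hξξ'
  have haev : ∀ (g : ℤ[X]) (z : ℂ), aeval z g = (g.map (Int.castRingHom ℂ)).eval z := by
    intro g z
    rw [aeval_def, eval₂_eq_eval_map]
    rfl
  have hroot : ∀ i, aeval (θ i) h = 0 := by
    intro i
    rw [haev, hθ, eval_prod]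
    apply Finset.prod_eq_zero (Finset.mem_univ i)
    simp
  have hh1 : h ≠ 1 := by
    rintro rfl
    rw [natDegree_one] at hd
    omega
  obtain ⟨B, hB⟩ : ∃ B, B = (A * b * b') %ₘ h := ⟨_, rfl⟩
  have hBd : B.natDegree < r := by
    rw [hB, ← hd]
    exact natDegree_modByMonic_lt _ hm hh1
  have hBv : ∀ i, aeval (θ i) B = D * ((Real.sqrt ξ : ℂ) * (Real.sqrt ξ' : ℂ)) * (φ i * φ' i) := by
    intro i
    have h3 : aeval (θ i) B = aeval (θ i) (A * b * b') := by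
      have h4 := modByMonic_add_div (A * b * b') h
      rw [← hB] at h4
      have h5 := congrArg (aeval (θ i)) h4
      rw [map_add, map_mul, hroot, zero_mul, add_zero] at h5
      exact h5
    rw [h3, map_mul, map_mul, (hb i).2.2, (hb' i).2.2, ← hAD i, ← hs i]
    have h6 : ((sg (σ i) : ℤ) : ℂ) * (sg (σ i) : ℤ) = 1 := by
      exact_mod_cast congrArg (Int.cast : ℤ → ℂ) (sg_mul_self (σ i))
    linear_combination (aeval (θ i) A * s i ^ 2 * (Real.sqrt ξ : ℂ) * φ i * (Real.sqrt ξ' : ℂ) * φ' i) * h6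
  have hz : ∀ i, ‖(m : ℂ) / ξ * θ i‖ ≤ M * R / ξ := by
    intro i
    rw [norm_mul, norm_div, Complex.norm_intCast, Complex.norm_intCast, abs_of_pos hξR]
    rw [div_mul_eq_mul_div, div_le_div_iff_of_pos_right hξR, mul_comm]
    exact mul_le_mul (hθM i) hmR (abs_nonneg _) (by linarith)
  have hz' : ∀ i, ‖(m' : ℂ) / ξ' * θ i‖ ≤ M * R / ξ := by
    intro i
    rw [norm_mul, norm_div, Complex.norm_intCast, Complex.norm_intCast, abs_of_pos hξR']
    rw [div_mul_eq_mul_div]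
    calc |(m' : ℝ)| * ‖θ i‖ / ξ' ≤ M * R / ξ' := by
          apply div_le_div_of_nonneg_right _ hξR'.le
          rw [mul_comm]
          exact mul_le_mul (hθM i) hmR' (abs_nonneg _) (by linarith)
      _ ≤ M * R / ξ := div_le_div_of_nonneg_left (by positivity) hξR hξξR
  have ht : M * R / ξ ≤ 1 / 2 := by
    rw [div_le_iff₀ hξR]
    linarith
  have hE : ∀ i, ‖φ i * φ' i - (1 - ((m : ℂ) / ξ * θ i + (m' : ℂ) / ξ' * θ i) / 2)‖ ≤ 4 * (M * R / ξ) ^ 2 :=
    fun i => phi_mul ht (hz i) (hz' i) (hb i).2.1 (hb' i).2.1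
  have hK0 : 0 ≤ K := (Finset.sum_nonneg (fun i _ => norm_nonneg _)).trans (hK ⟨0, by omega⟩)
  have hD1 : |(D : ℝ)| ≤ D₀ := by
    rw [← Complex.norm_intCast, hD]
    exact hD₀
  have hD₀0 : 0 ≤ D₀ := (abs_nonneg _).trans hD1
  have hck : ∀ k : Fin r, 2 ≤ (k : ℕ) → B.coeff k = 0 := by
    intro k hk
    have e1 := vand_coeff hV B hBd k
    have e2 : ∑ i, V k i * aeval (θ i) B = D * ((Real.sqrt ξ : ℂ) * (Real.sqrt ξ' : ℂ)) *
        ∑ i, V k i * (φ i * φ' i - (1 - ((m : ℂ) / ξ * θ i + (m' : ℂ) / ξ' * θ i) / 2)) := by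
      have e3 : ∑ i, V k i = 0 := by
        have := hV k ⟨0, by omega⟩
        rw [if_neg (by
          intro h0
          rw [h0] at hk
          simp at hk)] at this
        simpa using this
      have e4 : ∑ i, V k i * θ i = 0 := by
        have := hV k ⟨1, by omega⟩
        rw [if_neg (by
          intro h0
          rw [h0] at hk
          simp at hk)] at this
        simpa using this
      have e5 : ∑ i, V k i * (φ i * φ' i - (1 - ((m : ℂ) / ξ * θ i + (m' : ℂ) / ξ' * θ i) / 2)) =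
          ∑ i, V k i * (φ i * φ' i) - ∑ i, V k i + ((m : ℂ) / ξ + (m' : ℂ) / ξ') / 2 * ∑ i, V k i * θ i := by
        rw [Finset.mul_sum, ← Finset.sum_sub_distrib, ← Finset.sum_add_distrib]
        apply Finset.sum_congr rfl
        intro i _
        ring
      rw [e5, e3, e4, mul_zero, add_zero, sub_zero, Finset.mul_sum]
      apply Finset.sum_congr rfl
      intro i _
      rw [hBv]
      ring
    have e6 : |(B.coeff k : ℝ)| ≤ D₀ * (Real.sqrt ξ * Real.sqrt ξ') * (K * (4 * (M * R / ξ) ^ 2)) := by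
      rw [← Complex.norm_intCast, ← e1, e2, norm_mul, norm_mul, norm_mul, Complex.norm_intCast]
      rw [Complex.norm_real, Complex.norm_real, Real.norm_of_nonneg (Real.sqrt_nonneg _),
        Real.norm_of_nonneg (Real.sqrt_nonneg _)]
      apply mul_le_mul (mul_le_mul_of_nonneg_right hD1 (by positivity)) _ (norm_nonneg _) (by positivity)
      refine (norm_sum_le _ _).trans ?_
      calc ∑ i, ‖V k i * (φ i * φ' i - (1 - ((m : ℂ) / ξ * θ i + (m' : ℂ) / ξ' * θ i) / 2))‖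
          ≤ ∑ i, ‖V k i‖ * (4 * (M * R / ξ) ^ 2) := by
            apply Finset.sum_le_sum
            intro i _
            rw [norm_mul]
            exact mul_le_mul_of_nonneg_left (hE i) (norm_nonneg _)
        _ = (∑ i, ‖V k i‖) * (4 * (M * R / ξ) ^ 2) := by rw [Finset.sum_mul]
        _ ≤ _ := mul_le_mul_of_nonneg_right (hK k) (by positivity)
    have e7 : (B.coeff k : ℝ) ^ 2 < 1 := by
      have e8 : (B.coeff k : ℝ) ^ 2 ≤ (D₀ * (Real.sqrt ξ * Real.sqrt ξ') * (K * (4 * (M * R / ξ) ^ 2))) ^ 2 := by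
        rw [← sq_abs]
        exact pow_le_pow_left₀ (abs_nonneg _) e6 2
      have e9 : (D₀ * (Real.sqrt ξ * Real.sqrt ξ') * (K * (4 * (M * R / ξ) ^ 2))) ^ 2 =
          (16 * K ^ 2 * D₀ ^ 2 * M ^ 4 * R ^ 4) * (ξ' / ξ ^ 3) := by
        have q1 := Real.sq_sqrt hξR.le
        have q2 := Real.sq_sqrt hξR'.le
        have q3 : (D₀ * (Real.sqrt ξ * Real.sqrt ξ') * (K * (4 * (M * R / ξ) ^ 2))) ^ 2 =
          D₀ ^ 2 * ((Real.sqrt ξ) ^ 2 * (Real.sqrt ξ') ^ 2) * (K ^ 2 * (16 * (M * R / ξ) ^ 4)) := by ring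
        rw [q3, q1, q2]
        field_simp
      have e10 : (ξ' : ℝ) < (ξ : ℝ) ^ 2 := by exact_mod_cast hlt
      have e11 : (ξ' : ℝ) / ξ ^ 3 ≤ 1 / ξ := by
        rw [div_le_div_iff₀ (by positivity) hξR]
        nlinarith
      have e12 : 0 ≤ 16 * K ^ 2 * D₀ ^ 2 * M ^ 4 * R ^ 4 := by positivity
      calc (B.coeff k : ℝ) ^ 2 ≤ (16 * K ^ 2 * D₀ ^ 2 * M ^ 4 * R ^ 4) * (ξ' / ξ ^ 3) := by rw [← e9]; exact e8
        _ ≤ (16 * K ^ 2 * D₀ ^ 2 * M ^ 4 * R ^ 4) * (1 / ξ) := mul_le_mul_of_nonneg_left e11 e12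
        _ < 1 := by
          rw [mul_one_div, div_lt_one hξR]
          exact h2
    have e13 : (B.coeff k) ^ 2 < 1 := by exact_mod_cast e7
    have e14 : (B.coeff k) ^ 2 = 0 := by
      have := sq_nonneg (B.coeff k)
      omega
    exact pow_eq_zero_iff two_ne_zero |>.1 e14
  obtain ⟨c0, hc0⟩ : ∃ c0, c0 = B.coeff 0 := ⟨_, rfl⟩
  obtain ⟨c1, hc1⟩ : ∃ c1, c1 = B.coeff 1 := ⟨_, rfl⟩
  have hBe : B = C c0 + C c1 * X := by
    ext k
    rcases Nat.lt_or_ge k r with hk | hk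
    · rcases Nat.lt_or_ge k 2 with hk2 | hk2
      · interval_cases k
        · simp [hc0]
        · rw [coeff_add, coeff_C_mul, coeff_X_one, mul_one, coeff_C, if_neg one_ne_zero, zero_add, hc1]
      · rw [hck ⟨k, hk⟩ hk2]
        simp only [coeff_add, coeff_C_mul, coeff_X, coeff_C]
        rw [if_neg (by omega), if_neg (by omega)]
        simp
    · rw [coeff_eq_zero_of_natDegree_lt (lt_of_lt_of_le hBd hk)]
      simp only [coeff_add, coeff_C_mul, coeff_X, coeff_C]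
      rw [if_neg (by omega), if_neg (by omega)]
      simp
  obtain ⟨E, hEd⟩ : ∃ E : ℤ[X], E = B ^ 2 - C (D ^ 2) * ((C ξ - C m * X) * (C ξ' - C m' * X)) := ⟨_, rfl⟩
  have hE0 : E = 0 := by
    have e1 : E.natDegree ≤ 2 := by
      have l1 : (C c0 + C c1 * X).natDegree ≤ 1 := by
        refine natDegree_add_le_of_degree_le (by rw [natDegree_C]; omega) ?_
        exact (natDegree_C_mul_le _ _).trans natDegree_X_le
      have l2 : ∀ x y : ℤ, (C x - C y * X).natDegree ≤ 1 := by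
        intro x y
        refine (natDegree_sub_le _ _).trans (max_le (by rw [natDegree_C]; omega) ?_)
        exact (natDegree_C_mul_le _ _).trans natDegree_X_le
      rw [hEd, hBe]
      refine (natDegree_sub_le _ _).trans (max_le ?_ ?_)
      · have := natDegree_pow_le_of_le 2 l1
        simpa using this
      · refine (natDegree_C_mul_le _ _).trans ?_
        exact natDegree_mul_le_of_le (l2 _ _) (l2 _ _)
    have e2 : E.map (Int.castRingHom ℂ) = 0 := by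
      apply eq_zero_of_natDegree_lt_card_of_eval_eq_zero _ hinj
      · intro i
        rw [← haev, hEd]
        simp only [map_sub, map_mul, map_pow, aeval_C, aeval_X]
        rw [hBv]
        have q1 : ((Real.sqrt ξ : ℝ) : ℂ) ^ 2 = ξ := by
          rw [← Complex.ofReal_pow, Real.sq_sqrt hξR.le]
          simp
        have q2 : ((Real.sqrt ξ' : ℝ) : ℂ) ^ 2 = ξ' := by
          rw [← Complex.ofReal_pow, Real.sq_sqrt hξR'.le]
          simp
        have q3 : (ξ : ℂ) ≠ 0 := by exact_mod_cast hξ.ne'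
        have q4 : (ξ' : ℂ) ≠ 0 := by
          have : ξ' ≠ 0 := by omega
          exact_mod_cast this
        have q5 : (ξ : ℂ) * φ i ^ 2 = ξ - m * θ i := by
          rw [(hb i).1]
          field_simp
        have q6 : (ξ' : ℂ) * φ' i ^ 2 = ξ' - m' * θ i := by
          rw [(hb' i).1]
          field_simp
        have q7 : ((D : ℂ) * ((Real.sqrt ξ : ℂ) * (Real.sqrt ξ' : ℂ)) * (φ i * φ' i)) ^ 2 =
            (D : ℂ) ^ 2 * (((Real.sqrt ξ : ℂ) ^ 2 * φ i ^ 2) * ((Real.sqrt ξ' : ℂ) ^ 2 * φ' i ^ 2)) := by ring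
        rw [q7, q1, q2, q5, q6]
        simp
      · rw [Fintype.card_fin]
        exact lt_of_le_of_lt (natDegree_map_le.trans e1) (by omega)
    exact (map_injective _ Int.cast_injective) (by rw [e2, Polynomial.map_zero])
  have hD0 : D ≠ 0 := by
    intro h0
    rw [h0, Int.cast_zero, eq_comm, Finset.prod_eq_zero_iff] at hD
    obtain ⟨i, -, hi⟩ := hD
    rw [← hs i] at hi
    exact hs0 i (pow_eq_zero_iff two_ne_zero |>.1 hi)
  have f0 : c0 ^ 2 - D ^ 2 * (ξ * ξ') = 0 := by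
    have := congrArg (eval 0) (hEd.symm.trans hE0)
    rw [hBe] at this
    simpa using this
  have f1 : (c0 + c1) ^ 2 - D ^ 2 * ((ξ - m) * (ξ' - m')) = 0 := by
    have := congrArg (eval 1) (hEd.symm.trans hE0)
    rw [hBe] at this
    simpa using this
  have f2 : (c0 - c1) ^ 2 - D ^ 2 * ((ξ + m) * (ξ' + m')) = 0 := by
    have := congrArg (eval (-1)) (hEd.symm.trans hE0)
    rw [hBe] at this
    simp only [eval_sub, eval_pow, eval_add, eval_C, eval_mul, eval_X, eval_zero] at this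
    linear_combination this
  have f3 : D ^ 4 * (ξ * m' - ξ' * m) ^ 2 = 0 := by
    have g1 : 2 * (c0 * c1) = -(D ^ 2 * (ξ * m' + ξ' * m)) := by linarith
    have g2 : c1 ^ 2 = D ^ 2 * (m * m') := by linarith
    have g3 : c0 ^ 2 = D ^ 2 * (ξ * ξ') := by linarith
    have g4 : (2 * (c0 * c1)) ^ 2 = 4 * (c0 ^ 2 * c1 ^ 2) := by ring
    rw [g1, g2, g3] at g4
    linear_combination g4
  have f4 : ξ * m' - ξ' * m = 0 := by
    rcases mul_eq_zero.1 f3 with h0 | h0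
    · exact absurd (pow_eq_zero_iff (by norm_num) |>.1 h0) hD0
    · exact pow_eq_zero_iff two_ne_zero |>.1 h0
  have g1 : ξ ∣ ξ' := hc.dvd_of_dvd_mul_right ⟨m', by linarith⟩
  have g2 : ξ' ∣ ξ := hc'.dvd_of_dvd_mul_right ⟨m, by linarith⟩
  have g3 : ξ = ξ' := Int.dvd_antisymm hξ.le (by omega) g1 g2
  refine ⟨g3, ?_⟩
  rw [← g3] at f4
  have g4 : ξ * (m' - m) = 0 := by linear_combination f4
  rcases mul_eq_zero.1 g4 with h0 | h0
  · omega
  · omega

end Pool.Agent.H49TB
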