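import Pool.Agent.H49TB.Sgn

/-!
A small polynomial `q` such that no signed partial sum of the `q(θ_i) s_i` is zero.
-/

set_option autoImplicit false

namespace Pool.Agent.H49TB

open Polynomial Finset

/-- `∑ t ^ k X ^ k` -/
noncomputable def Qp (r t : ℕ) : ℤ[X] := ∑ k ∈ range r, C ((t : ℤ) ^ k) * X ^ k

lemma aeval_Qp (r t : ℕ) (z : ℂ) : aeval z (Qp r t) = ∑ k ∈ range r, (t : ℂ) ^ k * z ^ k := by
  simp [Qp]

theorem exists_q {r : ℕ} (θ : Fin r → ℂ) (hθ : Function.Injective θ) (s : Fin r → ℂ)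
    (hs : ∀ i, s i ≠ 0) : ∃ t : ℕ, t ≤ 4 ^ r * r ∧ ∀ T : Finset (Fin r), T.Nonempty →
      ∀ ε : Fin r → Bool, ∑ i ∈ T, (sg (ε i) : ℂ) * (aeval (θ i) (Qp r t) * s i) ≠ 0 := by
  classical
  obtain ⟨f, hf⟩ : ∃ f : Finset (Fin r) × (Fin r → Bool) → ℂ[X], f = fun p =>
      ∑ k ∈ range r, C (∑ i ∈ p.1, (sg (p.2 i) : ℂ) * s i * θ i ^ k) * X ^ k := ⟨_, rfl⟩
  have hev : ∀ p (t : ℕ), (f p).eval (t : ℂ) =
      ∑ i ∈ p.1, (sg (p.2 i) : ℂ) * (aeval (θ i) (Qp r t) * s i) := by
    intro p t
    rw [hf]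
    simp only [eval_finsetSum, eval_mul, eval_C, eval_pow, eval_X, aeval_Qp, Finset.sum_mul,
      Finset.mul_sum]
    rw [Finset.sum_comm]
    apply Finset.sum_congr rfl
    intro i _
    apply Finset.sum_congr rfl
    intro k _
    ring
  have hne : ∀ p : Finset (Fin r) × (Fin r → Bool), p.1.Nonempty → f p ≠ 0 := by
    intro p hp h0
    have h1 : (fun i => if i ∈ p.1 then (sg (p.2 i) : ℂ) * s i else 0) = 0 := by
      apply Matrix.eq_zero_of_forall_pow_sum_mul_pow_eq_zero hθ
      intro k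
      have h2 : (f p).coeff k = ∑ i ∈ p.1, (sg (p.2 i) : ℂ) * s i * θ i ^ (k : ℕ) := by
        rw [hf]
        simp only [finsetSum_coeff, coeff_C_mul_X_pow]
        rw [Finset.sum_ite_eq]
        simp
      rw [h0, coeff_zero] at h2
      refine Eq.trans ?_ h2.symm
      rw [← Finset.sum_filter_add_sum_filter_not univ (fun i => i ∈ p.1)]
      rw [Finset.sum_eq_zero (s := univ.filter (fun i => ¬ i ∈ p.1)), add_zero]
      · have h3 : univ.filter (fun i => i ∈ p.1) = p.1 := by ext i; simp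
        rw [h3]
        apply Finset.sum_congr rfl
        intro i hi
        rw [if_pos hi]
      · intro i hi
        rw [Finset.mem_filter] at hi
        rw [if_neg hi.2, zero_mul]
    obtain ⟨i, hi⟩ := hp
    have h4 := congrFun h1 i
    simp only [if_pos hi, Pi.zero_apply, mul_eq_zero] at h4
    rcases h4 with h4 | h4
    · have h5 := congrArg (Int.cast : ℤ → ℂ) (sg_mul_self (p.2 i))
      push_cast at h5
      rw [h4] at h5
      simp at h5
    · exact hs i h4
  obtain ⟨I, hI⟩ : ∃ I : Finset (Finset (Fin r) × (Fin r → Bool)), I = univ.filter (fun p => p.1.Nonempty) :=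
    ⟨_, rfl⟩
  have hprod : ∏ p ∈ I, f p ≠ 0 := by
    rw [Finset.prod_ne_zero_iff]
    intro p hp
    rw [hI, Finset.mem_filter] at hp
    exact hne p hp.2
  have hdeg : (∏ p ∈ I, f p).natDegree ≤ 4 ^ r * r := by
    refine (natDegree_prod_le _ _).trans ?_
    have h1 : ∀ p ∈ I, (f p).natDegree ≤ r := by
      intro p _
      rw [hf]
      apply natDegree_sum_le_of_forall_le
      intro k hk
      refine (natDegree_C_mul_X_pow_le _ _).trans ?_
      rw [Finset.mem_range] at hk
      exact hk.le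
    refine (Finset.sum_le_sum h1).trans ?_
    rw [Finset.sum_const, smul_eq_mul]
    apply Nat.mul_le_mul_right
    refine (Finset.card_le_univ _).trans ?_
    rw [Fintype.card_prod, Fintype.card_finset, Fintype.card_fin, Fintype.card_fun, Fintype.card_bool,
      Fintype.card_fin, ← mul_pow]
    norm_num
  by_contra hcon
  push Not at hcon
  apply hprod
  apply eq_zero_of_natDegree_lt_card_of_eval_eq_zero' _ ((range (4 ^ r * r + 1)).image (fun t : ℕ => (t : ℂ)))
  · intro z hz
    obtain ⟨t, ht, rfl⟩ := Finset.mem_image.1 hz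
    rw [Finset.mem_range] at ht
    obtain ⟨T, hT, ε, h0⟩ := hcon t (by omega)
    rw [eval_prod]
    apply Finset.prod_eq_zero (i := (T, ε))
    · rw [hI, Finset.mem_filter]
      exact ⟨Finset.mem_univ _, hT⟩
    · rw [hev]
      exact h0
  · rw [Finset.card_image_of_injective _ Nat.cast_injective, Finset.card_range]
    omega

end Pool.Agent.H49TB
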