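import Pool.Agent.W257.K8

/-!
Two large integer points near the same root at infinity.
-/

set_option autoImplicit false

open Polynomial Finset

namespace Pool.Agent.H49TB

open Pool.Agent.H322R2 Pool.Agent.W257

/-- the point `(a, b)` of `G = 0` is near the root `η` -/
def Nr (d : ℕ) (η H : ℝ) (G : ℤ[X][X]) (a b : ℤ) : Prop :=
  ∃ (h1 : (minpoly ℤ η).Monic) (h2 : evf η (minpoly ℤ η) = 0),
    0 < (minpoly ℤ η).natDegree ∧ (minpoly ℤ η).natDegree ≤ d ∧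
    Pt (os h1) (sR η h2) d G H (AdjoinRoot.root (minpoly ℤ η)) a b

theorem get_nr {d : ℕ} (hd : 3 ≤ d)
    (G : ℤ[X][X]) (hm : G.Monic) (hdeg : G.natDegree = d) (hp : Prime G)
    (hT : TD d G) (H : ℝ) (hH : 1 ≤ H) (hG : pn (pn zn) G ≤ H)
    (hn : nrm (lead d G) d (derivative (lead d G)) ≠ 0)
    (a b : ℤ) (hab : ev a b G = 0) (hlarge : (2 + (2 + H) ^ d) ^ (2176 * d ^ 6) < |(a : ℝ)|) :
    ∃ η : ℝ, evf η (lead d G) = 0 ∧ Nr d η ((2 + H) ^ d) G a b := by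
  have hd0 : 0 < d := by omega
  obtain ⟨H', hH'⟩ : ∃ H', H' = (2 + H) ^ d := ⟨_, rfl⟩
  rw [← hH'] at hlarge
  have hHH' : H ≤ H' := by
    rw [hH']
    calc H ≤ 2 + H := by linarith
      _ = (2 + H) ^ 1 := by rw [pow_one]
      _ ≤ _ := pow_le_pow_right₀ (by linarith) hd0
  have hH'1 : 1 ≤ H' := by linarith
  have h2H' : 1 ≤ 2 + H' := by linarith
  have hthr : cS d H' * (2 / cR d H') ^ d ≤ |(a : ℝ)| := by
    refine ((thr_le hd0 hH'1).trans (pow_le_pow_right₀ h2H' ?_)).trans hlarge.le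
    have : d ^ 3 ≤ d ^ 6 := Nat.pow_le_pow_right hd0 (by norm_num)
    omega
  have ha0 : a ≠ 0 := by
    rintro rfl
    simp only [Int.cast_zero, abs_zero] at hlarge
    have : (0 : ℝ) ≤ (2 + H') ^ (2176 * d ^ 6) := by positivity
    linarith
  obtain ⟨η, hη0, hnear, hder, hηH⟩ := root_sel hd0 hm hdeg hT hH'1 (hG.trans hHH') hn a b ha0 hab
    hthr
  obtain ⟨hgm, hgd⟩ := lead_monic hm hdeg
  have hpg : pn zn (lead d G) ≤ H := (pn_lead_le hdeg.le).trans hG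
  have hint : IsIntegral ℤ η := ⟨lead d G, hgm, hη0⟩
  have hg1m : (minpoly ℤ η).Monic := minpoly.monic hint
  have hevf : ∀ p : ℤ[X], evf η p = aeval η p := by
    intro p
    rw [aeval_def, evf, coe_eval₂RingHom]
    congr 1
  have hg1r : evf η (minpoly ℤ η) = 0 := by rw [hevf]; exact minpoly.aeval ℤ η
  have hg1d : (minpoly ℤ η) ∣ lead d G :=
    minpoly.isIntegrallyClosed_dvd hint (by rw [← hevf]; exact hη0)
  have hg1le : (minpoly ℤ η).natDegree ≤ d := by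
    rw [← hgd]; exact natDegree_le_of_dvd hg1d hgm.ne_zero
  have hg1pos : 0 < (minpoly ℤ η).natDegree := minpoly.natDegree_pos hint
  have hpg1 : pn zn (minpoly ℤ η) ≤ H' := by
    refine (pn_le_of_roots (minpoly ℤ η) hg1m H (by linarith) ?_).trans ?_
    · intro z hz
      apply root_norm_le (lead d G) hgm H hH hpg z
      obtain ⟨q, hq⟩ := hg1d
      rw [hq, map_mul, hz, zero_mul]
    · rw [hH']
      calc (1 + H) ^ (minpoly ℤ η).natDegree ≤ (2 + H) ^ (minpoly ℤ η).natDegree :=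
            pow_le_pow_left₀ (by linarith) (by linarith) _
        _ ≤ (2 + H) ^ d := pow_le_pow_right₀ (by linarith) hg1le
  refine ⟨η, hη0, hg1m, hg1r, hg1pos, hg1le, ?_⟩
  rw [← hH']
  refine ⟨hm, hdeg, hp, hT, hH'1, hG.trans hHH', ?_, ?_, ?_, ?_, hab, ?_⟩
  · obtain ⟨q, hq⟩ := hg1d
    rw [hq, map_mul, evf_root, zero_mul]
  · exact (os_root hg1m).trans (by linarith)
  · rw [sR_root]; exact hηH
  · rw [sR_root]; exact hder
  · rw [sR_root]; exact hnear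

theorem two_nr {d : ℕ} (hd : 3 ≤ d) {η H1 H2 : ℝ} {G1 G2 : ℤ[X][X]} {a1 b1 a2 b2 : ℤ}
    (h1 : Nr d η H1 G1 a1 b1) (h2 : Nr d η H2 G2 a2 b2) (ha : (bB d H1) ^ (kap d) ≤ |(a1 : ℝ)|) :
    |(a2 : ℝ)| ≤ (|(a1 : ℝ)| * bB d H2) ^ (kap d) := by
  obtain ⟨hm, hr, hpos, hle, P1⟩ := h1
  obtain ⟨hm', hr', -, -, P2⟩ := h2
  have h3 := two_int hd (os_one hm) (abs_sR_le hm hpos η hr)
    (AdjoinRoot.powerBasisAux' hm) 1 (le_refl _) (abs_repr_le hm hpos)
    (by rw [Fintype.card_fin]; exact hpos) (by rw [Fintype.card_fin]; exact hle) P1 P2 ha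
  rwa [mul_one] at h3

end Pool.Agent.H49TB
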