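import Pool.Agent.H49TB.Irr
import Pool.Agent.H49TB.Qs
import Pool.Agent.H49TB.Gap2
import Pool.Agent.H49TB.Rep
import Pool.Agent.H49SH.Gap

/-!
The number of the large points of one class.
-/

set_option autoImplicit false

namespace Pool.Agent.H49TB

open Polynomial Finset
open Pool.Agent.H322R2 Pool.Agent.W257

variable {r : ℕ}

lemma norm_aeval_le (a : ℤ[X]) (hd : a.natDegree < r) {R M : ℝ} (hR : ∀ k, |(a.coeff k : ℝ)| ≤ R)
    (hM : 1 ≤ M) (z : ℂ) (hz : ‖z‖ ≤ M) : ‖aeval z a‖ ≤ r * R * M ^ r := by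
  rw [aeval_eq_sum_range' hd]
  refine (norm_sum_le _ _).trans ?_
  have h1 : ∀ k ∈ range r, ‖a.coeff k • z ^ k‖ ≤ R * M ^ r := by
    intro k hk
    rw [Finset.mem_range] at hk
    rw [zsmul_eq_mul, norm_mul, norm_pow, Complex.norm_intCast]
    apply mul_le_mul (hR k) _ (by positivity) ((abs_nonneg _).trans (hR k))
    exact (pow_le_pow_left₀ (norm_nonneg _) hz k).trans (pow_le_pow_right₀ hM hk.le)
  refine (Finset.sum_le_sum h1).trans ?_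
  rw [Finset.sum_const, Finset.card_range, nsmul_eq_mul, mul_assoc]

lemma norm_Qp_le {t : ℕ} {T M : ℝ} (hT : 1 ≤ T) (ht : (t : ℝ) ≤ T) (hM : 1 ≤ M) (z : ℂ) (hz : ‖z‖ ≤ M) :
    ‖aeval z (Qp r t)‖ ≤ r * (T * M) ^ r := by
  rw [aeval_Qp]
  refine (norm_sum_le _ _).trans ?_
  have hTM : 1 ≤ T * M := by nlinarith
  have h1 : ∀ k ∈ range r, ‖(t : ℂ) ^ k * z ^ k‖ ≤ (T * M) ^ r := by
    intro k hk
    rw [Finset.mem_range] at hk
    rw [norm_mul, norm_pow, norm_pow, Complex.norm_natCast, ← mul_pow]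
    have h2 : (t : ℝ) * ‖z‖ ≤ T * M := mul_le_mul ht hz (norm_nonneg _) (by linarith)
    exact (pow_le_pow_left₀ (by positivity) h2 k).trans (pow_le_pow_right₀ hTM hk.le)
  refine (Finset.sum_le_sum h1).trans ?_
  rw [Finset.sum_const, Finset.card_range, nsmul_eq_mul]

/-- a solution of the class gives a point of the class, for some signs -/
lemma pnt_of_b {θ s : Fin r → ℂ} {a b : ℤ[X]} {M R : ℝ} (hs : ∀ i, s i ^ 2 = aeval (θ i) a)
    (hθM : ∀ i, ‖θ i‖ ≤ M) {ξ m : ℤ} (hξ : 0 < ξ) (hm : |(m : ℝ)| ≤ R)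
    (h1 : 2 * M * R ≤ ξ)
    (hb : ∀ i, aeval (θ i) b ^ 2 = aeval (θ i) a * (ξ - m * θ i)) : ∃ σ, Pnt θ s σ ξ m := by
  have hξR : (0 : ℝ) < ξ := by exact_mod_cast hξ
  have hR0 : 0 ≤ R := (abs_nonneg _).trans hm
  have hz : ∀ i, ‖(m : ℂ) / ξ * θ i‖ ≤ 1 / 2 := by
    intro i
    rw [norm_mul, norm_div, Complex.norm_intCast, Complex.norm_intCast, abs_of_pos hξR]
    rw [div_mul_eq_mul_div, div_le_iff₀ hξR]
    have : |(m : ℝ)| * ‖θ i‖ ≤ R * M := mul_le_mul hm (hθM i) (norm_nonneg _) hR0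
    linarith
  choose φ hφ using fun i => exists_phi _ (hz i)
  have q1 : ((Real.sqrt ξ : ℝ) : ℂ) ^ 2 = ξ := by
    rw [← Complex.ofReal_pow, Real.sq_sqrt hξR.le]
    simp
  have q3 : (ξ : ℂ) ≠ 0 := by exact_mod_cast hξ.ne'
  have hsq : ∀ i, aeval (θ i) b ^ 2 = (s i * (Real.sqrt ξ : ℂ) * φ i) ^ 2 := by
    intro i
    rw [hb, ← hs, mul_pow, mul_pow, q1, (hφ i).1]
    field_simp
  have hsg : ∀ i, ∃ e : Bool, aeval (θ i) b = (sg e : ℂ) * s i * (Real.sqrt ξ : ℂ) * φ i := by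
    intro i
    rcases sq_eq_sq_iff_eq_or_eq_neg.1 (hsq i) with h | h
    · exact ⟨true, by rw [h]; simp [sg]⟩
    · exact ⟨false, by rw [h]; simp [sg]⟩
  choose σ hσ using hsg
  exact ⟨σ, b, φ, fun i => ⟨(hφ i).1, (hφ i).2, hσ i⟩⟩

/-- the constant `K₁` -/
noncomputable def K1 (r : ℕ) (M : ℝ) : ℝ :=
  2 * (r * (((4 : ℝ) ^ r * r) * M) ^ r) ^ 2 * (r * M ^ r) * M

/-- all points of the class are near finitely many algebraic numbers -/
theorem class_nr (hr : 3 ≤ r) {P : MvPolynomial (Option (Fin r)) ℤ}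
    (hP : MvPolynomial.expand 2 P = pf r) (hh : P.IsHomogeneous (2 ^ (r - 1)))
    (hsy : ∀ e : Equiv.Perm (Fin r), MvPolynomial.rename (Option.map e) P = P)
    (h : ℤ[X]) (θ : Fin r → ℂ)
    (hθ : h.map (Int.castRingHom ℂ) = ∏ t, (X - C (θ t))) (hinj : Function.Injective θ)
    (M : ℝ) (hM : 1 ≤ M) (hθM : ∀ i, ‖θ i‖ ≤ M) (R : ℝ) (hR : 1 ≤ R)
    (a : ℤ[X]) (hda : a.natDegree < r) (haR : ∀ k, |(a.coeff k : ℝ)| ≤ R)
    (ha0 : ∀ i, aeval (θ i) a ≠ 0) (H : ℝ)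
    (hH : H = (1 + ∑ s ∈ P.support, |((MvPolynomial.coeff s P : ℤ) : ℝ)|) * (1 + K1 r M * R ^ 2) ^ (2 ^ (r - 1))) :
    ∃ Z : Finset ℝ, Z.card ≤ 2 ^ (r - 1) ∧ ∀ ξ m : ℤ, m ≠ 0 → |(m : ℝ)| ≤ R → 
      (2 + (2 + H) ^ (2 ^ (r - 1))) ^ (2176 * (2 ^ (r - 1)) ^ 6) < |(ξ : ℝ)| →
      ∀ b : ℤ[X], (∀ i, aeval (θ i) b ^ 2 = aeval (θ i) a * (ξ - m * θ i)) →
      ∃ η ∈ Z, ∃ (G : ℤ[X][X]) (w : ℤ), Nr (2 ^ (r - 1)) η ((2 + H) ^ (2 ^ (r - 1))) G ξ w := by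
  classical
  have hd3 : 3 ≤ 2 ^ (r - 1) := by
    have : 2 ^ 2 ≤ 2 ^ (r - 1) := Nat.pow_le_pow_right (by norm_num) (by omega)
    omega
  have hr1 : 1 ≤ r := by omega
  choose s hs using fun i => IsAlgClosed.exists_pow_nat_eq (aeval (θ i) a) (n := 2) (by norm_num)
  have hs0 : ∀ i, s i ≠ 0 := by
    intro i h0
    have := hs i
    rw [h0] at this
    exact ha0 i (by rw [← this]; norm_num)
  obtain ⟨t, ht, hsum⟩ := exists_q θ hinj s hs0
  obtain ⟨c, hc⟩ : ∃ c, c = (Qp r t) ^ 2 * a := ⟨_, rfl⟩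
  obtain ⟨δ, hδ⟩ : ∃ δ : Fin r → ℂ, δ = fun i => aeval (θ i) (Qp r t) * s i := ⟨_, rfl⟩
  have hδs : ∀ T : Finset (Fin r), T.Nonempty → ∀ ε : Fin r → Bool,
      ∑ i ∈ T, (sg (ε i) : ℂ) * δ i ≠ 0 := by
    rw [hδ]; exact hsum
  have hcδ : ∀ i, aeval (θ i) c = δ i ^ 2 := by
    intro i
    rw [hc, hδ, map_mul, map_pow, ← hs]
    ring
  have hδ0 : ∀ i, δ i ≠ 0 := by
    intro i h0
    apply hδs {i} (Finset.singleton_nonempty i) (fun _ => true)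
    simp [h0]
  choose G hG hGm hGd hGT hGl using fun m : ℤ => G_props hr1 hP hh hsy h θ hθ c m
  obtain ⟨L, hL⟩ : ∃ L, L = lead (2 ^ (r - 1)) (G 1) := ⟨_, rfl⟩
  have hLm : ∀ m, lead (2 ^ (r - 1)) (G m) = L := by
    intro m
    apply Polynomial.map_injective (Int.castRingHom ℂ) Int.cast_injective
    rw [hL, hGl, hGl]
  obtain ⟨hLmon, hLd⟩ := lead_monic (hGm 1) (hGd 1)
  rw [← hL] at hLmon hLd
  refine ⟨(L.map (Int.castRingHom ℝ)).roots.toFinset, ?_, ?_⟩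
  · refine (Multiset.toFinset_card_le _).trans ((card_roots' _).trans ?_)
    exact natDegree_map_le.trans hLd.le
  intro ξ m hm hmR hlarge b hb
  have hpr : Prime (G m) := by
    refine G_prime hr1 hP hh (fun i => aeval (θ i) c) (fun i => m * θ i) ?_ ?_ (G m) (hG m) (hGm m)
    · intro i
      simp only [hcδ]
      exact pow_ne_zero 2 (hδ0 i)
    · intro i j hij
      apply hinj
      have : (m : ℂ) ≠ 0 := by exact_mod_cast hm
      exact mul_left_cancel₀ this hij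
  have hnrm : nrm (lead (2 ^ (r - 1)) (G m)) (2 ^ (r - 1)) (derivative (lead (2 ^ (r - 1)) (G m))) ≠ 0 := by
    rw [hLm]
    apply nrm_ne_zero_of_coprime L _ hLmon hLd
    apply lead_coprime hr1 hP δ hδs L
    rw [hL, hGl]
    congr 1
    funext i
    exact hcδ i
  have hA0 : 0 ≤ ∑ s ∈ P.support, |((MvPolynomial.coeff s P : ℤ) : ℝ)| :=
    Finset.sum_nonneg (fun _ _ => abs_nonneg _)
  have hK0 : 0 ≤ K1 r M := by unfold K1; positivity
  have hB1 : 1 ≤ 1 + K1 r M * R ^ 2 := by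
    have : 0 ≤ K1 r M * R ^ 2 := by positivity
    linarith
  have hH1 : 1 ≤ H := by
    rw [hH]
    have h1 : 1 ≤ (1 + K1 r M * R ^ 2) ^ (2 ^ (r - 1)) := one_le_pow₀ hB1
    nlinarith
  have hT1 : (1 : ℝ) ≤ (4 : ℝ) ^ r * r := by
    have h1 : (1 : ℝ) ≤ (4 : ℝ) ^ r := one_le_pow₀ (by norm_num)
    have h2 : (1 : ℝ) ≤ r := by exact_mod_cast hr1
    nlinarith
  have hpn : pn (pn zn) (G m) ≤ H := by
    rw [← pn_io, hG, hH]
    have hY : ∀ i, pn cn (C (aeval (θ i) c) * (X - C ((m : ℂ) * θ i))) ≤ 1 + K1 r M * R ^ 2 := by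
      intro i
      refine (pn_lin _ _).trans ?_
      have n1 : ‖aeval (θ i) (Qp r t)‖ ≤ r * (((4 : ℝ) ^ r * r) * M) ^ r := by
        apply norm_Qp_le hT1 _ hM _ (hθM i)
        exact_mod_cast ht
      have n2 := norm_aeval_le a hda haR hM (θ i) (hθM i)
      have n3 : ‖aeval (θ i) c‖ ≤ (r * (((4 : ℝ) ^ r * r) * M) ^ r) ^ 2 * (r * R * M ^ r) := by
        rw [hc, map_mul, map_pow, norm_mul, norm_pow]
        exact mul_le_mul (pow_le_pow_left₀ (norm_nonneg _) n1 2) n2 (norm_nonneg _) (by positivity)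
      have n4 : 1 + ‖(m : ℂ) * θ i‖ ≤ 2 * M * R := by
        rw [norm_mul, Complex.norm_intCast]
        have h1 : |(m : ℝ)| * ‖θ i‖ ≤ R * M := mul_le_mul hmR (hθM i) (norm_nonneg _) (by linarith)
        nlinarith
      calc ‖aeval (θ i) c‖ * (1 + ‖(m : ℂ) * θ i‖)
          ≤ ((r * (((4 : ℝ) ^ r * r) * M) ^ r) ^ 2 * (r * R * M ^ r)) * (2 * M * R) :=
            mul_le_mul n3 n4 (by positivity) (by positivity)
        _ = K1 r M * R ^ 2 := by unfold K1; ring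
        _ ≤ _ := by linarith
    refine (pn_PV P hh _ _ hB1 hY).trans ?_
    apply mul_le_mul_of_nonneg_right _ (by positivity)
    linarith
  -- the integral point
  obtain ⟨w, hw⟩ := Pool.Agent.N302.SP.sum_in (B := ℤ) (R := ℂ) θ (by
    intro k
    rw [Pool.Agent.N302.SP.esymm_roots _ θ hθ]
    split_ifs with hk
    · exact ⟨(-1) ^ k * h.coeff (r - k), by simp⟩
    · exact ⟨0, by simp⟩) (Qp r t * b)
  have hw' : (w : ℂ) = ∑ i, aeval (θ i) (Qp r t * b) := by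
    rw [← hw]; rfl
  have hev : ev ξ (w ^ 2) (G m) = 0 := by
    apply ev_zero hr1 hP θ c m (G m) (hG m) (fun i => aeval (θ i) (Qp r t * b)) ξ (w ^ 2)
    · intro i
      rw [map_mul, mul_pow, hb, hc, map_mul, map_pow]
      ring
    · push_cast
      rw [hw']
  obtain ⟨η, hη, hN⟩ := get_nr hd3 (G m) (hGm m) (hGd m) hpr (hGT m) H hH1 hpn hnrm ξ (w ^ 2) hev hlarge
  refine ⟨η, ?_, G m, w ^ 2, hN⟩
  rw [Multiset.mem_toFinset, mem_roots', IsRoot.def]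
  refine ⟨(hLmon.map _).ne_zero, ?_⟩
  rw [hLm] at hη
  rw [eval_map]
  exact hη

end Pool.Agent.H49TB
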