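import Pool.Agent.H49TB.Fin

/-!
Polynomials of even degree.
-/

set_option autoImplicit false

open Polynomial Filter Topology

namespace Pool.Agent.H49TB

open Pool.Agent.H49SH Pool.Agent.H49TW

/-- monic polynomials of any degree at least five: all points with `0 ≤ ξ` -/
theorem pd_all (n : ℕ) (h5 : 5 ≤ n) (f : ℤ[X]) (hm : f.Monic)
    (hn : f.natDegree = n) (hsep : (f.map (Int.castRingHom ℚ)).Separable) :
    ∀ ε : ℝ, 0 < ε → ∃ N₀ : ℕ, ∀ N : ℕ, N₀ ≤ N → ∀ S : Finset ℤ,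
      (∀ D ∈ S, |(D : ℝ)| ≤ N ∧ ∃ (ξ m : ℤ) (g : ℕ), Pd f D ξ m g ∧ 0 ≤ ξ) →
      (S.card : ℝ) ≤ ε * N := by
  classical
  obtain ⟨E, hE⟩ := monic_main n h5
  obtain ⟨C, hC, hmain⟩ := hE f hm hn hsep
  intro ε hε
  obtain ⟨N₁, hN₁⟩ := hmain (ε / 2) (by positivity)
  obtain ⟨N₂, hN₂⟩ := mid_main n h5 f hm hn hsep (2 * E) (ε / 2) (by positivity)
  refine ⟨N₁ + N₂ + ⌈C⌉₊ + 1, fun N hN S hS => ?_⟩
  have hN1 : (1 : ℝ) ≤ N := by
    have : 1 ≤ N := by omega
    exact_mod_cast this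
  have hCN : C ≤ N := (Nat.le_ceil _).trans (by
    have : ⌈C⌉₊ ≤ N := by omega
    exact_mod_cast this)
  have hpow : (C * (N : ℝ)) ^ E ≤ ((N ^ (2 * E) : ℕ) : ℝ) := by
    push_cast
    rw [pow_mul, pow_two]
    exact pow_le_pow_left₀ (by positivity) (mul_le_mul_of_nonneg_right hCN (by linarith)) _
  let Q1 : ℤ → Prop := fun D => ∃ (ξ m : ℤ) (g : ℕ), Pd f D ξ m g ∧ ξ.natAbs ≤ N ^ (2 * E)
  have h1 : ((S.filter Q1).card : ℝ) ≤ ε / 2 * N := hN₂ N (by omega) _ fun D hD => by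
    obtain ⟨h1, h2⟩ := Finset.mem_filter.1 hD
    exact ⟨(hS D h1).1, h2⟩
  have h2 : ((S.filter (fun D => ¬ Q1 D)).card : ℝ) ≤ ε / 2 * N := hN₁ N (by omega) _ fun D hD => by
    obtain ⟨h1, h2⟩ := Finset.mem_filter.1 hD
    obtain ⟨h3, ξ, m, g, hpd, hξ⟩ := hS D h1
    refine ⟨h3, ξ, m, g, hpd, ?_⟩
    have h5 : N ^ (2 * E) < ξ.natAbs := by
      by_contra hcon
      rw [not_lt] at hcon
      exact h2 ⟨ξ, m, g, hpd, hcon⟩
    have h6 : ((N ^ (2 * E) : ℕ) : ℝ) < (ξ.natAbs : ℝ) := by exact_mod_cast h5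
    have h7 : ((ξ.natAbs : ℕ) : ℝ) = (ξ : ℝ) := by
      rw [Nat.cast_natAbs, abs_of_nonneg hξ]
    rw [h7] at h6
    exact lt_of_le_of_lt hpow h6
  have h3 := Finset.card_filter_add_card_filter_not (s := S) Q1
  have h4 : (S.card : ℝ) = (S.filter Q1).card + (S.filter (fun D => ¬ Q1 D)).card := by
    exact_mod_cast h3.symm
  rw [h4]
  linarith

/-- a squarefree integer is determined by its square class -/
theorem sqf_eq {D D' v w w' : ℤ} (hD : Squarefree D) (hD' : Squarefree D') (hw : w ≠ 0)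
    (hw' : w' ≠ 0) (h : D * v = w ^ 2) (h' : D' * v = w' ^ 2) : D = D' := by
  have h1 : D * w' ^ 2 = D' * w ^ 2 := by
    rw [← h, ← h']; ring
  have h2 : D.natAbs * w'.natAbs ^ 2 = D'.natAbs * w.natAbs ^ 2 := by
    have := congrArg Int.natAbs h1
    rwa [Int.natAbs_mul, Int.natAbs_mul, Int.natAbs_pow, Int.natAbs_pow] at this
  have h3 : D.natAbs = D'.natAbs := sqf_unique (Int.squarefree_natAbs.2 hD) (Int.squarefree_natAbs.2 hD')
    (Int.natAbs_ne_zero.2 hw') (Int.natAbs_ne_zero.2 hw) h2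
  rcases Int.natAbs_eq_natAbs_iff.1 h3 with h4 | h4
  · exact h4
  · exfalso
    rw [h4] at h1
    have hD0 : D' ≠ 0 := hD'.ne_zero
    have h5 : D' * (w' ^ 2 + w ^ 2) = 0 := by linear_combination -h1
    rcases mul_eq_zero.1 h5 with h6 | h6
    · exact hD0 h6
    · have h7 : 0 < w ^ 2 := by positivity
      have h8 : 0 < w' ^ 2 := by positivity
      linarith

/-- monic polynomials of even degree -/
theorem even_monic (n : ℕ) (heven : Even n) (h5 : 5 ≤ n) (f : ℤ[X]) (hm : f.Monic)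
    (hn : f.natDegree = n) (hsep : (f.map (Int.castRingHom ℚ)).Separable) :
    ∀ ε : ℝ, 0 < ε → ∃ N₀ : ℕ, ∀ N : ℕ, N₀ ≤ N → ∀ S : Finset ℤ,
      (∀ D ∈ S, |D| ≤ N ∧ Squarefree D ∧ ∃ x w : ℤ, w ≠ 0 ∧ D * f.eval x = w ^ 2) →
      (S.card : ℝ) ≤ ε * N := by
  classical
  obtain ⟨s, hs1, hs⟩ := hom_size hm
  intro ε hε
  obtain ⟨N₁, hN₁⟩ := pd_all n h5 f hm hn hsep (ε / 3) (by positivity)
  refine ⟨N₁ + ⌈(2 * s + 1) / (ε / 3)⌉₊, fun N hN S hS => ?_⟩
  have hNs : (2 * (s : ℝ) + 1) / (ε / 3) ≤ N := (Nat.le_ceil _).trans (by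
    have : ⌈(2 * (s : ℝ) + 1) / (ε / 3)⌉₊ ≤ N := by omega
    exact_mod_cast this)
  rw [div_le_iff₀ (by positivity)] at hNs
  choose! hDN hsqf x w hw hxw using hS
  -- negative `D`
  have hneg : ((S.filter (fun D => D < 0)).card : ℝ) ≤ 2 * s + 1 := by
    have hxs : ∀ D ∈ S.filter (fun D => D < 0), x D ∈ Finset.Icc (-(s : ℤ)) s := by
      intro D hD
      obtain ⟨hDS, hD0⟩ := Finset.mem_filter.1 hD
      rw [Finset.mem_Icc, ← abs_le]
      by_contra hcon
      rw [not_le] at hcon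
      have h1 := hs (x D) 1 (by rw [abs_one]; omega) one_ne_zero
      rw [hom_one_right, hn, abs_one, mul_one] at h1
      have hxp : 0 < |x D| := by omega
      have h2 : (s : ℤ) * |x D| ^ (n - 1) < |x D| ^ n := by
        have e1 : |x D| ^ n = |x D| * |x D| ^ (n - 1) := by
          rw [← pow_succ']
          congr 1
          omega
        rw [e1]
        exact mul_lt_mul_of_pos_right hcon (pow_pos hxp _)
      have h3 : 0 < f.eval (x D) := by
        have h4 := (abs_le.1 h1).1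
        rw [heven.pow_abs] at h2
        linarith
      have h5 := hxw D hDS
      have h6 : 0 < w D ^ 2 := by
        have := hw D hDS
        positivity
      nlinarith
    have h1 := Finset.card_le_card_of_injOn x hxs (by
      intro D hD D' hD' hxx
      have hDS := (Finset.mem_filter.1 hD).1
      have hDS' := (Finset.mem_filter.1 hD').1
      have h1 := hxw D hDS
      rw [hxx] at h1
      exact sqf_eq (hsqf D hDS) (hsqf D' hDS') (hw D hDS) (hw D' hDS') h1 (hxw D' hDS'))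
    rw [Int.card_Icc] at h1
    have h2 : ((s : ℤ) + 1 - -(s : ℤ)).toNat = 2 * s + 1 := by omega
    rw [h2] at h1
    exact_mod_cast h1
  -- positive `D`, nonnegative `x`
  have hpos1 : ((S.filter (fun D => 0 < D ∧ 0 ≤ x D)).card : ℝ) ≤ ε / 3 * N := by
    refine hN₁ N (by omega) _ fun D hD => ?_
    obtain ⟨hDS, hD0, hx0⟩ := Finset.mem_filter.1 hD
    refine ⟨by exact_mod_cast hDN D hDS, x D, 1, D.natAbs, ⟨?_, hsqf D hDS, Int.natAbs_pos.2 hD0.ne',
      isCoprime_one_right, w D, hw D hDS, ?_⟩, hx0⟩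
    · rw [mul_one, Int.natCast_natAbs, abs_of_pos hD0]
    · rw [hom_one_right, Int.natCast_natAbs, abs_of_pos hD0]
      exact hxw D hDS
  -- positive `D`, negative `x`
  have hpos2 : ((S.filter (fun D => 0 < D ∧ x D < 0)).card : ℝ) ≤ ε / 3 * N := by
    rw [← Finset.card_image_of_injective (S.filter (fun D => 0 < D ∧ x D < 0)) neg_injective]
    refine hN₁ N (by omega) _ fun D' hD' => ?_
    obtain ⟨D, hD, rfl⟩ := Finset.mem_image.1 hD'
    obtain ⟨hDS, hD0, hx0⟩ := Finset.mem_filter.1 hD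
    have hhom : hom f (-x D) (-1) = f.eval (x D) := by
      have h1 := hom_smul f (-1) (x D) 1
      rw [hom_one_right, hn, heven.neg_one_pow, one_mul] at h1
      rw [← h1]
      congr 1
      ring
    refine ⟨?_, -x D, -1, D.natAbs, ⟨?_, Int.squarefree_natAbs.1
      (by rw [Int.natAbs_neg]; exact Int.squarefree_natAbs.2 (hsqf D hDS)), Int.natAbs_pos.2 hD0.ne',
      isCoprime_one_right.neg_right, w D, hw D hDS, ?_⟩, by omega⟩
    · push_cast
      rw [abs_neg]
      exact_mod_cast hDN D hDS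
    · rw [Int.natCast_natAbs, abs_of_pos hD0]
      ring
    · rw [hhom, Int.natCast_natAbs, abs_of_pos hD0]
      exact hxw D hDS
  have hcov : S ⊆ S.filter (fun D => D < 0) ∪ (S.filter (fun D => 0 < D ∧ 0 ≤ x D) ∪
      S.filter (fun D => 0 < D ∧ x D < 0)) := by
    intro D hD
    rw [Finset.mem_union, Finset.mem_union]
    simp only [Finset.mem_filter, hD, true_and]
    have hD0 := (hsqf D hD).ne_zero
    omega
  have hcard : (S.card : ℝ) ≤ (S.filter (fun D => D < 0)).card +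
      ((S.filter (fun D => 0 < D ∧ 0 ≤ x D)).card + (S.filter (fun D => 0 < D ∧ x D < 0)).card) := by
    have h1 := Finset.card_le_card hcov
    have h2 := Finset.card_union_le (S.filter (fun D => D < 0)) (S.filter (fun D => 0 < D ∧ 0 ≤ x D) ∪
      S.filter (fun D => 0 < D ∧ x D < 0))
    have h3 := Finset.card_union_le (S.filter (fun D => 0 < D ∧ 0 ≤ x D)) (S.filter (fun D => 0 < D ∧ x D < 0))
    have h4 : S.card ≤ (S.filter (fun D => D < 0)).card +
      ((S.filter (fun D => 0 < D ∧ 0 ≤ x D)).card + (S.filter (fun D => 0 < D ∧ x D < 0)).card) := by omega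
    exact_mod_cast h4
  linarith

end Pool.Agent.H49TB
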