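import Pool.Agent.H49TB.Mid3
import Pool.Agent.H49TB.Asm7

/-!
Almost all quadratic twists of a hyperelliptic curve of odd degree at least five have no integral
points except those with `y = 0`.
-/

set_option autoImplicit false

open Polynomial Filter Topology

namespace Pool.Agent.H49TB

open Pool.Agent.H49SH Pool.Agent.H49TW

/-- the points of polynomial size -/
theorem mid_main (n : ℕ) (h5 : 5 ≤ n) (f : ℤ[X]) (hm : f.Monic) (hn : f.natDegree = n)
    (hsep : (f.map (Int.castRingHom ℚ)).Separable) (κ : ℕ) :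
    ∀ ε : ℝ, 0 < ε → ∃ N₀ : ℕ, ∀ N : ℕ, N₀ ≤ N → ∀ S : Finset ℤ,
      (∀ D ∈ S, |(D : ℝ)| ≤ N ∧ ∃ (ξ m : ℤ) (g : ℕ), Pd f D ξ m g ∧ ξ.natAbs ≤ N ^ κ) →
      (S.card : ℝ) ≤ ε * N := by
  classical
  obtain ⟨l, hl, hlp⟩ := exists_factors n f hm hn
  set k := l.length with hk
  let h : Fin k → ℤ[X] := fun i => l.get i
  have hh : ∀ i, (h i).Monic ∧ Irreducible ((h i).map (Int.castRingHom ℚ)) := fun i =>
    hl _ (List.get_mem l i)
  have hprod : ∏ i, h i = f := by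
    rw [← hlp, ← List.prod_ofFn, List.ofFn_get]
  have hpos : ∀ i, 0 < (h i).natDegree := by
    intro i
    have h1 := (hh i).2.natDegree_pos
    rwa [natDegree_map_eq_of_injective (RingHom.injective_int _)] at h1
  have hc : ∀ i j, i ≠ j → IsCoprime ((h i).map (Int.castRingHom ℚ)) ((h j).map (Int.castRingHom ℚ)) := by
    intro i j hij
    apply Separable.isCoprime
    refine hsep.of_dvd ?_
    rw [← Polynomial.map_mul, ← hprod]
    apply Polynomial.map_dvd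
    rw [← Finset.mul_prod_erase Finset.univ h (Finset.mem_univ i)]
    exact mul_dvd_mul_left _ (Finset.dvd_prod_of_mem h (Finset.mem_erase.2 ⟨hij.symm, Finset.mem_univ j⟩))
  have hdeg : ∀ j, (h j).natDegree + (∏ i ∈ Finset.univ.erase j, h i).natDegree = n := by
    intro j
    rw [← hn, ← hprod, ← Finset.mul_prod_erase Finset.univ h (Finset.mem_univ j),
      (hh j).1.natDegree_mul (monic_prod_of_monic _ _ fun i _ => (hh i).1)]
  by_cases hcase : ∃ i, 3 ≤ (h i).natDegree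
  · obtain ⟨i, hi⟩ := hcase
    have hco : IsCoprime ((h i).map (Int.castRingHom ℚ))
        ((∏ j ∈ Finset.univ.erase i, h j).map (Int.castRingHom ℚ)) := by
      rw [Polynomial.map_prod]
      exact IsCoprime.prod_right fun j hj => hc i j (Finset.ne_of_mem_erase hj).symm
    exact caseI_mid (f := f) (h' := ∏ j ∈ Finset.univ.erase i, h j)
      (by rw [← hprod]; exact (Finset.mul_prod_erase Finset.univ h (Finset.mem_univ i)).symm)
      (hh i).1 (hh i).2 hi hco κ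
  · push Not at hcase
    have hk0 : 0 < k := by
      by_contra hcon
      have hk1 : k = 0 := by omega
      have : IsEmpty (Fin k) := by rw [hk1]; infer_instance
      rw [Finset.univ_eq_empty, Finset.prod_empty] at hprod
      rw [← hprod, natDegree_one] at hn
      omega
    have hmain := caseII_mid hk0 (fun i => (hh i).1) (fun i => (hh i).2) hpos hc
      (fun j => by have := hdeg j; have := hcase j; omega) κ
    rw [hprod] at hmain
    exact hmain

/-- monic polynomials -/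
theorem monic_all (n : ℕ) (hodd : Odd n) (h5 : 5 ≤ n) (f : ℤ[X]) (hm : f.Monic)
    (hn : f.natDegree = n) (hsep : (f.map (Int.castRingHom ℚ)).Separable) :
    ∀ ε : ℝ, 0 < ε → ∃ N₀ : ℕ, ∀ N : ℕ, N₀ ≤ N → ∀ S : Finset ℤ,
      (∀ D ∈ S, Squarefree D ∧ |(D : ℝ)| ≤ N ∧ ∃ x y : ℤ, y ≠ 0 ∧ y ^ 2 = hom f x D) →
      (S.card : ℝ) ≤ ε * N := by
  classical
  obtain ⟨E, hE1, hE⟩ := monic_pts n hodd h5
  obtain ⟨C, hC, hmain⟩ := hE f hm hn hsep
  intro ε hε
  obtain ⟨N₁, hN₁⟩ := hmain (ε / 2) (by positivity)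
  obtain ⟨N₂, hN₂⟩ := mid_main n h5 f hm hn hsep (2 * E) (ε / 2) (by positivity)
  refine ⟨N₁ + N₂ + ⌈C⌉₊ + 1, fun N hN S hS => ?_⟩
  have hN1 : (1 : ℝ) ≤ N := by
    have : 1 ≤ N := by omega
    exact_mod_cast this
  have hCN : C ≤ N := (Nat.le_ceil _).trans (by
    have : ⌈C⌉₊ ≤ N := by omega
    exact_mod_cast this)
  have hpow : (C * (N : ℝ)) ^ E ≤ ((N ^ (2 * E) : ℕ) : ℝ) := by
    push_cast
    rw [pow_mul, pow_two]
    exact pow_le_pow_left₀ (by positivity) (mul_le_mul_of_nonneg_right hCN (by linarith)) _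
  let Q1 : ℤ → Prop := fun D => ∃ (ξ m : ℤ) (g : ℕ), Pd f D ξ m g ∧ ξ.natAbs ≤ N ^ (2 * E)
  have h1 : ((S.filter Q1).card : ℝ) ≤ ε / 2 * N := hN₂ N (by omega) _ fun D hD => by
    obtain ⟨h1, h2⟩ := Finset.mem_filter.1 hD
    exact ⟨(hS D h1).2.1, h2⟩
  have h2 : ((S.filter (fun D => ¬ Q1 D)).card : ℝ) ≤ ε / 2 * N := hN₁ N (by omega) _ fun D hD => by
    obtain ⟨h1, h2⟩ := Finset.mem_filter.1 hD
    obtain ⟨h3, h4, x, y, hy, hxy⟩ := hS D h1
    refine ⟨h3, h4, x, y, hxy, ?_⟩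
    obtain ⟨g, ξ, m, hxg, hpd⟩ := exists_pd (by rw [hn]; exact hodd) h3 hy hxy
    have h5 : N ^ (2 * E) < ξ.natAbs := by
      by_contra hcon
      rw [not_lt] at hcon
      exact h2 ⟨ξ, m, g, hpd, hcon⟩
    have h6 : ((N ^ (2 * E) : ℕ) : ℝ) < (ξ.natAbs : ℝ) := by exact_mod_cast h5
    have h7 : ((ξ.natAbs : ℕ) : ℝ) = |(ξ : ℝ)| := by
      rw [Nat.cast_natAbs]; push_cast; rfl
    rw [h7] at h6
    refine lt_of_le_of_lt hpow (lt_of_lt_of_le h6 ?_)
    have hxr : (x : ℝ) = g * ξ := by rw [hxg]; push_cast; ring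
    rw [hxr, abs_mul, Nat.abs_cast]
    have hg1 : (1 : ℝ) ≤ g := by exact_mod_cast hpd.g0
    exact le_mul_of_one_le_left (abs_nonneg _) hg1
  have h3 := Finset.card_filter_add_card_filter_not (s := S) Q1
  have h4 : (S.card : ℝ) = (S.filter Q1).card + (S.filter (fun D => ¬ Q1 D)).card := by
    exact_mod_cast h3.symm
  rw [h4]
  linarith

/-- in terms of finite sets -/
theorem all_fin (n : ℕ) (hodd : Odd n) (h5 : 5 ≤ n) (f : ℤ[X]) (hn : f.natDegree = n)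
    (hsq : Squarefree (f.map (Int.castRingHom ℚ))) :
    ∀ ε : ℝ, 0 < ε → ∃ N₀ : ℕ, ∀ N : ℕ, N₀ ≤ N → ∀ S : Finset ℤ,
      (∀ D ∈ S, |D| ≤ N ∧ Squarefree D ∧ ∃ x y : ℤ, y ≠ 0 ∧ y ^ 2 = hom f x D) →
      (S.card : ℝ) ≤ ε * N := by
  intro ε hε
  have hf1 : 1 ≤ f.natDegree := by omega
  have ha : f.leadingCoeff ≠ 0 := by
    rw [Ne, leadingCoeff_eq_zero]
    rintro rfl
    simp at hf1
  have hf0 : f ≠ 0 := by
    rintro rfl
    simp at hf1
  obtain ⟨N₀, hN₀⟩ := monic_all n hodd h5 f.integralNormalization (monic_integralNormalization hf0)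
    (by rw [natDegree_integralNormalization, hn]) (sep_integralNormalization hf1 hsq) ε hε
  refine ⟨N₀, fun N hN S hS => hN₀ N hN S fun D hD => ?_⟩
  obtain ⟨h1, h2, x, y, hy, hxy⟩ := hS D hD
  refine ⟨h2, by exact_mod_cast h1, f.leadingCoeff * x, f.leadingCoeff ^ ((n - 1) / 2) * y,
    mul_ne_zero (pow_ne_zero _ ha) hy, ?_⟩
  rw [hom_integralNormalization hf1, mul_pow, hxy, ← pow_mul, hn]
  congr 2
  obtain ⟨k, hk⟩ := hodd
  omega

/-- **Theorem.** -/
theorem all (n : ℕ) (hodd : Odd n) (h5 : 5 ≤ n) (f : ℤ[X]) (hn : f.natDegree = n)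
    (hsq : Squarefree (f.map (Int.castRingHom ℚ))) :
    Tendsto (fun N : ℕ => (({D : ℤ | |D| ≤ N ∧ Squarefree D ∧ ∃ x y : ℤ, y ≠ 0 ∧
      y ^ 2 = ∑ k ∈ Finset.range (n + 1), f.coeff k * D ^ (n - k) * x ^ k}.ncard : ℕ) : ℝ) / N)
      atTop (𝓝 0) := by
  rw [Metric.tendsto_atTop]
  intro ε hε
  obtain ⟨N₀, hN₀⟩ := all_fin n hodd h5 f hn hsq (ε / 2) (by positivity)
  refine ⟨N₀ + 1, fun N hN => ?_⟩
  set S : Set ℤ := {D : ℤ | |D| ≤ N ∧ Squarefree D ∧ ∃ x y : ℤ, y ≠ 0 ∧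
      y ^ 2 = ∑ k ∈ Finset.range (n + 1), f.coeff k * D ^ (n - k) * x ^ k} with hS
  have hfin : S.Finite := (Set.finite_Icc (-(N : ℤ)) N).subset fun D hD => abs_le.1 hD.1
  have h1 := hN₀ N (by omega) hfin.toFinset (fun D hD => by
    rw [Set.Finite.mem_toFinset] at hD
    obtain ⟨h1, h2, x, y, h3, h4⟩ := hD
    refine ⟨h1, h2, x, y, h3, ?_⟩
    rw [hom_eq_sum, hn]
    exact h4)
  rw [← Set.ncard_eq_toFinset_card S hfin] at h1
  have hN1 : (0 : ℝ) < N := by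
    have : 0 < N := by omega
    exact_mod_cast this
  rw [Real.dist_eq, sub_zero, abs_of_nonneg (by positivity), div_lt_iff₀ hN1]
  nlinarith

end Pool.Agent.H49TB
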