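import Pool.Agent.H49SH.Des

/-!
The field generated by a root of a monic irreducible integer polynomial.
-/

set_option autoImplicit false

open Polynomial NumberField

namespace Pool.Agent.H49TB

open Pool.Agent.H49SH

/-- norm of `x - y` for a power basis (after `H484R2.Start`) -/
theorem norm_sub_gen {K : Type} [Field K] [NumberField K] (B : PowerBasis ℚ K) (x : ℚ) :
    Algebra.norm ℚ (algebraMap ℚ K x - B.gen) = (minpoly ℚ B.gen).eval x := by
  classical
  rw [Algebra.norm_eq_matrix_det B.basis, map_sub, ← charpoly_leftMulMatrix B,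
    Matrix.eval_charpoly]
  congr 2
  rw [AlgHom.commutes]
  rfl

theorem change_alg {K : Type} [Field K] [CharZero K] (A : Algebra ℚ K) (q : ℚ[X])
    (h : ∃ B : @PowerBasis ℚ K _ _ A, @minpoly ℚ K _ _ A (@PowerBasis.gen ℚ K _ _ A B) = q) :
    ∃ B : @PowerBasis ℚ K _ _ DivisionRing.toRatAlgebra,
      @minpoly ℚ K _ _ DivisionRing.toRatAlgebra
        (@PowerBasis.gen ℚ K _ _ DivisionRing.toRatAlgebra B) = q := by
  obtain rfl : A = DivisionRing.toRatAlgebra := Subsingleton.elim _ _
  exact h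

/-- the root field of a monic irreducible polynomial (after `H484R2.Start`) -/
theorem exists_rf (q : ℚ[X]) (hq : Irreducible q) (hm : q.Monic) :
    ∃ (K : Type) (_ : Field K) (_ : NumberField K) (B : PowerBasis ℚ K), minpoly ℚ B.gen = q := by
  have : Fact (Irreducible q) := ⟨hq⟩
  have h0 : ∃ B : PowerBasis ℚ (AdjoinRoot q), minpoly ℚ B.gen = q := by
    refine ⟨AdjoinRoot.powerBasis hm.ne_zero, ?_⟩
    rw [AdjoinRoot.powerBasis_gen]
    refine (AdjoinRoot.minpoly_root hm.ne_zero).trans ?_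
    rw [hm.leadingCoeff]
    simp
  have hc : CharZero (AdjoinRoot q) :=
    charZero_of_injective_algebraMap (algebraMap ℚ (AdjoinRoot q)).injective
  obtain ⟨B', hB'⟩ := change_alg _ q h0
  have hfin : @Module.Finite ℚ (AdjoinRoot q) _ _ (@Algebra.toModule _ _ _ _ DivisionRing.toRatAlgebra) :=
    @PowerBasis.finite ℚ (AdjoinRoot q) _ _ DivisionRing.toRatAlgebra B'
  exact ⟨AdjoinRoot q, inferInstance, { to_charZero := hc, to_finiteDimensional := hfin }, B', hB'⟩

/-- a number field generated by an integral root of `h` -/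
structure Gen (K : Type) [Field K] [NumberField K] (h : ℤ[X]) where
  θ : 𝓞 K
  hm : h.Monic
  hz : ∀ p : ℤ[X], aeval θ p = 0 ↔ h ∣ p
  hrk : Module.finrank ℚ K = h.natDegree
  f : ℕ
  fpos : 0 < f
  hf : ∀ α : 𝓞 K, ∃ b : ℤ[X], (f : 𝓞 K) * α = aeval θ b
  norm_lin : ∀ x z : ℤ, Algebra.norm ℤ ((x : 𝓞 K) - z * θ) = hom h x z

theorem exists_gen (h : ℤ[X]) (hm : h.Monic) (hirr : Irreducible (h.map (Int.castRingHom ℚ))) :
    ∃ (K : Type) (_ : Field K) (_ : NumberField K), Nonempty (Gen K h) := by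
  obtain ⟨K, i1, i2, B, hB⟩ := exists_rf _ hirr (hm.map _)
  refine ⟨K, i1, i2, ?_⟩
  have hco : (algebraMap ℚ K).comp (Int.castRingHom ℚ) = algebraMap ℤ K := RingHom.ext_int _ _
  have hae : ∀ p : ℤ[X], aeval B.gen (p.map (Int.castRingHom ℚ)) = aeval B.gen p := by
    intro p
    rw [aeval_def, eval₂_map, hco, ← aeval_def]
  have hz0 : ∀ p : ℤ[X], aeval B.gen p = 0 ↔ h ∣ p := by
    intro p
    rw [← hae, ← minpoly.dvd_iff (A := ℚ), hB]
    exact map_dvd_map _ (RingHom.injective_int _) hm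
  have hint : IsIntegral ℤ B.gen := ⟨h, hm, by
    rw [← aeval_def, hz0]⟩
  let θ : 𝓞 K := ⟨B.gen, hint⟩
  have hθ : ∀ p : ℤ[X], ((aeval θ p : 𝓞 K) : K) = aeval B.gen p := by
    intro p
    exact (aeval_algebraMap_apply K θ p).symm
  have hinj : Function.Injective (algebraMap (𝓞 K) K) := RingOfIntegers.coe_injective
  have hz : ∀ p : ℤ[X], aeval θ p = 0 ↔ h ∣ p := by
    intro p
    rw [← hz0, ← hθ]
    exact ⟨fun h1 => by rw [h1]; exact map_zero _, fun h1 => hinj (by rw [map_zero]; exact h1)⟩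
  have hrk : Module.finrank ℚ K = h.natDegree := by
    rw [B.finrank, ← B.natDegree_minpoly, hB, natDegree_map_eq_of_injective (RingHom.injective_int _)]
  -- the index
  have hex : ∀ α : 𝓞 K, ∃ d : ℕ, 0 < d ∧ ∃ b : ℤ[X], (d : 𝓞 K) * α = aeval θ b := by
    intro α
    obtain ⟨p, hp⟩ := B.exists_eq_aeval' (α : K)
    obtain ⟨b, hb, hb2⟩ := IsLocalization.integerNormalization_spec (nonZeroDivisors ℤ) p
    have hb0 : b ≠ 0 := nonZeroDivisors.ne_zero hb
    set P := IsLocalization.integerNormalization (nonZeroDivisors ℤ) p with hP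
    have h1 : ((b : 𝓞 K) * α) = aeval θ P := by
      apply hinj
      have e1 : (algebraMap (𝓞 K) K) (aeval θ P) = aeval B.gen P := hθ P
      rw [e1, ← hae]
      have e2 : P.map (Int.castRingHom ℚ) = b • p := by
        have := hb2
        exact this
      rw [e2, map_zsmul, ← hp, map_mul, map_intCast, zsmul_eq_mul]
    refine ⟨b.natAbs, Int.natAbs_pos.2 hb0, ?_⟩
    rcases Int.natAbs_eq b with h2 | h2
    · refine ⟨P, ?_⟩
      rw [← h1, h2]
      simp
    · refine ⟨-P, ?_⟩
      rw [map_neg, ← h1, h2]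
      simp
  choose d hd P hP using hex
  let b := RingOfIntegers.basis K
  let f : ℕ := ∏ i, d (b i)
  refine ⟨⟨θ, hm, hz, hrk, f, Finset.prod_pos (fun i _ => hd _), ?_, ?_⟩⟩
  · intro α
    refine ⟨∑ i, C (b.repr α i * (∏ j ∈ Finset.univ.erase i, d (b j) : ℕ)) * P (b i), ?_⟩
    rw [map_sum]
    conv_lhs => rw [← b.sum_repr α]
    rw [Finset.mul_sum]
    refine Finset.sum_congr rfl fun i _ => ?_
    rw [map_mul, ← hP, aeval_C]
    have h3 : f = d (b i) * ∏ j ∈ Finset.univ.erase i, d (b j) :=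
      (Finset.mul_prod_erase Finset.univ _ (Finset.mem_univ i)).symm
    rw [h3, zsmul_eq_mul]
    push_cast
    simp only [eq_intCast]
    push_cast
    ring
  · intro x z
    have h1 : ((Algebra.norm ℤ ((x : 𝓞 K) - z * θ) : ℤ) : ℚ) = (hom h x z : ℚ) := by
      rw [Algebra.coe_norm_int]
      have h2 : (((x : 𝓞 K) - z * θ : 𝓞 K) : K) = x - z * B.gen := by
        push_cast
        rfl
      rw [h2]
      have h3 : (hom h x z : ℚ) = ((h.map (Int.castRingHom ℚ)).scaleRoots (z : ℚ)).eval (x : ℚ) := by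
        unfold hom
        have h4 : ((h.map (Int.castRingHom ℚ)).scaleRoots (z : ℚ)) =
            (h.scaleRoots z).map (Int.castRingHom ℚ) := by
          rw [map_scaleRoots]
          · simp
          · rw [hm.leadingCoeff]; simp
        rw [h4, eval_map, ← eq_intCast (Int.castRingHom ℚ) x, eval₂_at_apply, eq_intCast]
      rw [h3]
      rcases eq_or_ne z 0 with rfl | hz1
      · rw [Int.cast_zero, zero_mul, sub_zero, Int.cast_zero, scaleRoots_zero]
        have h5 : (x : K) = algebraMap ℚ K x := by simp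
        rw [h5, Algebra.norm_algebraMap, hrk, (hm.map _).leadingCoeff, one_smul, eval_pow, eval_X,
          natDegree_map_eq_of_injective (RingHom.injective_int _)]
      · have hz2 : (z : ℚ) ≠ 0 := by exact_mod_cast hz1
        have h6 : (x : K) - z * B.gen = algebraMap ℚ K z * (algebraMap ℚ K ((x : ℚ) / z) - B.gen) := by
          rw [mul_sub, ← map_mul, mul_div_cancel₀ _ hz2]
          simp
        rw [h6, map_mul, Algebra.norm_algebraMap, norm_sub_gen, hB, hrk]
        conv_rhs => rw [show (x : ℚ) = z * ((x : ℚ) / z) by field_simp]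
        rw [scaleRoots_eval_mul, natDegree_map_eq_of_injective (RingHom.injective_int _)]
    exact_mod_cast h1

end Pool.Agent.H49TB
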