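import Mathlib
import Pool.Agent.N302.SP.Sym

/-!
Values of symmetric polynomials at the roots of a polynomial.
-/

set_option autoImplicit false

namespace Pool.Agent.H49TB

open MvPolynomial

lemma sym_val {S S' : Type} [CommRing S] [CommRing S'] (f : S →+* S') {r : ℕ} (x : Fin r → S')
    (hx : ∀ k, ∃ s, f s = eval₂ f x (esymm (Fin r) S k)) (Ψ : MvPolynomial (Fin r) S)
    (hΨ : Ψ.IsSymmetric) : ∃ s, f s = eval₂ f x Ψ := by
  obtain ⟨Q, hQ⟩ := (esymmAlgEquiv (Fin r) S (Fintype.card_fin r)).surjective ⟨Ψ, hΨ⟩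
  have h1 : aeval (fun i : Fin r => esymm (Fin r) S (i + 1)) Q = Ψ := by
    rw [← esymmAlgHom_apply]
    exact congrArg Subtype.val hQ
  choose s hs using hx
  refine ⟨eval (fun i : Fin r => s (i + 1)) Q, ?_⟩
  have h3 : f.comp (eval (fun i : Fin r => s (i + 1))) =
      (eval₂Hom f x).comp (aeval (fun i : Fin r => esymm (Fin r) S (i + 1))).toRingHom := by
    apply ringHom_ext
    · intro c
      simp
    · intro i
      simp only [RingHom.comp_apply, eval_X, AlgHom.toRingHom_eq_coe, RingHom.coe_coe, aeval_X,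
        coe_eval₂Hom]
      exact hs _
  have h4 := congrArg (fun g => g Q) h3
  simp only [RingHom.comp_apply, AlgHom.toRingHom_eq_coe, RingHom.coe_coe, coe_eval₂Hom] at h4
  rw [h4, h1]

/-- the embedding of `ℤ[ξ][W]` in `ℂ[ξ][W]` -/
noncomputable def io : Polynomial (Polynomial ℤ) →+* Polynomial (Polynomial ℂ) :=
  Polynomial.mapRingHom (Polynomial.mapRingHom (Int.castRingHom ℂ))

/-- `P (W; Y)` -/
noncomputable def GC {r : ℕ} (P : MvPolynomial (Option (Fin r)) ℤ) (Y : Fin r → Polynomial ℂ) :
    Polynomial (Polynomial ℂ) :=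
  aeval (fun o => o.elim Polynomial.X (fun i => Polynomial.C (Y i))) P

/-- a polynomial with integral coefficients whose image is `P (W; c(θ_i) (ξ - m θ_i))` -/
theorem exists_G {r : ℕ} (h : Polynomial ℤ) (θ : Fin r → ℂ)
    (hθ : h.map (Int.castRingHom ℂ) = ∏ t, (Polynomial.X - Polynomial.C (θ t)))
    (P : MvPolynomial (Option (Fin r)) ℤ) (hP : ∀ e : Equiv.Perm (Fin r), rename (Option.map e) P = P)
    (c : Polynomial ℤ) (m : ℤ) :
    ∃ G : Polynomial (Polynomial ℤ), io G = GC P (fun i => Polynomial.C (Polynomial.aeval (θ i) c) *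
      (Polynomial.X - Polynomial.C (m * θ i))) := by
  obtain ⟨Ψ, hΨ⟩ : ∃ Ψ : MvPolynomial (Fin r) (Polynomial (Polynomial ℤ)),
      Ψ = aeval (fun o => o.elim (C Polynomial.X) (fun i => Polynomial.aeval (X i) c *
        (C (Polynomial.C Polynomial.X : Polynomial (Polynomial ℤ)) - (m : MvPolynomial (Fin r) (Polynomial (Polynomial ℤ))) * X i))) P :=
    ⟨_, rfl⟩
  have hsym : Ψ.IsSymmetric := by
    intro e
    conv_rhs => rw [hΨ, ← hP e, aeval_rename]
    rw [hΨ]
    have h1 := comp_aeval_apply (R := ℤ) (f := fun o : Option (Fin r) => o.elim (C Polynomial.X)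
      (fun i => Polynomial.aeval (X i) c * (C (Polynomial.C Polynomial.X : Polynomial (Polynomial ℤ)) -
        (m : MvPolynomial (Fin r) (Polynomial (Polynomial ℤ))) * X i)))
      (φ := (rename (R := Polynomial (Polynomial ℤ)) e).restrictScalars ℤ) P
    rw [AlgHom.restrictScalars_apply] at h1
    rw [h1]
    congr 2
    funext o
    cases o with
    | none => simp
    | some i =>
      simp only [Option.elim, AlgHom.restrictScalars_apply, map_mul, map_sub, rename_C, rename_X,
        Function.comp, Option.map, map_intCast]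
      congr 1
      have h2 := Polynomial.aeval_algHom_apply ((rename (R := Polynomial (Polynomial ℤ)) e).restrictScalars ℤ)
        (X i : MvPolynomial (Fin r) (Polynomial (Polynomial ℤ))) c
      rw [AlgHom.restrictScalars_apply, AlgHom.restrictScalars_apply, rename_X] at h2
      exact h2.symm
  obtain ⟨x, hx⟩ : ∃ x : Fin r → Polynomial (Polynomial ℂ), x = fun i => Polynomial.C (Polynomial.C (θ i)) :=
    ⟨_, rfl⟩
  have hsy : ∀ k, ∃ s, io s = eval₂ io x (esymm (Fin r) (Polynomial (Polynomial ℤ)) k) := by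
    intro k
    have h3 : eval₂ io x (esymm (Fin r) (Polynomial (Polynomial ℤ)) k) =
        Polynomial.C (Polynomial.C (aeval θ (esymm (Fin r) ℤ k))) := by
      rw [esymm, esymm, ← coe_eval₂Hom, map_sum, map_sum, map_sum, map_sum]
      apply Finset.sum_congr rfl
      intro t _
      rw [map_prod, map_prod, map_prod, map_prod]
      apply Finset.prod_congr rfl
      intro i _
      rw [coe_eval₂Hom, eval₂_X, aeval_X, hx]
    rw [h3, Pool.Agent.N302.SP.esymm_roots _ θ hθ]
    split_ifs with hk
    · refine ⟨Polynomial.C (Polynomial.C ((-1) ^ k * h.coeff (r - k))), ?_⟩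
      simp [io]
    · exact ⟨0, by simp⟩
  obtain ⟨G, hG⟩ := sym_val io x hsy Ψ hsym
  refine ⟨G, ?_⟩
  rw [hG, hΨ, GC]
  obtain ⟨φ, hφ⟩ : ∃ φ : MvPolynomial (Fin r) (Polynomial (Polynomial ℤ)) →ₐ[ℤ] Polynomial (Polynomial ℂ),
      ∀ y, φ y = eval₂ io x y :=
    ⟨{ toRingHom := eval₂Hom io x, commutes' := fun n => by
        change (eval₂Hom io x) _ = _
        rw [eq_intCast, eq_intCast, map_intCast] }, fun y => rfl⟩
  have h5 := comp_aeval_apply (R := ℤ) (f := fun o : Option (Fin r) => o.elim (C Polynomial.X)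
      (fun i => Polynomial.aeval (X i) c * (C (Polynomial.C Polynomial.X : Polynomial (Polynomial ℤ)) -
        (m : MvPolynomial (Fin r) (Polynomial (Polynomial ℤ))) * X i)))
      (φ := φ) P
  have h6 : ∀ y, φ y = eval₂ io x y := hφ
  rw [h6] at h5
  rw [h5]
  congr 2
  funext o
  cases o with
  | none =>
    simp only [Option.elim, h6, eval₂_C]
    simp [io]
  | some i =>
    simp only [Option.elim]
    rw [map_mul, map_sub, h6, h6, map_mul, h6, h6, eval₂_C, eval₂_X, map_mul, map_sub]
    have h7 := Polynomial.aeval_algHom_apply φ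
        (X i : MvPolynomial (Fin r) (Polynomial (Polynomial ℤ))) c
    rw [h6, h6, eval₂_X] at h7
    rw [← h7, hx]
    congr 1
    · have h8 := Polynomial.aeval_algHom_apply
        ((Polynomial.C.comp Polynomial.C : ℂ →+* Polynomial (Polynomial ℂ)).toIntAlgHom) (θ i) c
      exact h8
    · congr 1
      · simp [io]
      · rw [map_mul, map_mul]
        congr 1
        rw [← coe_eval₂Hom, map_intCast, map_intCast, map_intCast]

end Pool.Agent.H49TB
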