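import Pool.Agent.H49TB.Sgn
import Pool.Agent.H49TB.Sym
import Pool.Agent.H322R2.Anchor
import Pool.Agent.H322R2.Hmg

/-!
The polynomials `P (W; v)`.
-/

set_option autoImplicit false

namespace Pool.Agent.H49TB

open Polynomial Finset

variable {r : ℕ}

/-- `P (X; v)` -/
noncomputable def PV {R : Type} [CommRing R] (P : MvPolynomial (Option (Fin r)) ℤ) (v : Fin r → R) :
    R[X] := MvPolynomial.aeval (fun o => o.elim X (fun i => C (v i))) P

/-- signs, the first one positive -/
def half (hr : 1 ≤ r) : Finset (Fin r → Bool) := univ.filter (fun ε => ε ⟨0, hr⟩ = true)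

/-- signed sum -/
def ss {R : Type} [CommRing R] (ε : Fin r → Bool) (u : Fin r → R) : R := ∑ i, (sg (ε i) : R) * u i

lemma ss_not {R : Type} [CommRing R] (ε : Fin r → Bool) (u : Fin r → R) :
    ss (fun i => !(ε i)) u = -ss ε u := by
  unfold ss
  rw [← Finset.sum_neg_distrib]
  apply Finset.sum_congr rfl
  intro i _
  rw [sg_not]
  push_cast
  ring

lemma prod_all {M : Type} [CommMonoid M] (hr : 1 ≤ r) (F : (Fin r → Bool) → M) :
    ∏ ε, F ε = ∏ ε ∈ half hr, (F ε * F (fun i => !(ε i))) := by
  rw [Finset.prod_mul_distrib, ← Finset.prod_filter_mul_prod_filter_not univ (fun ε => ε ⟨0, hr⟩ = true)]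
  congr 1
  apply Finset.prod_bij' (fun ε _ i => !(ε i)) (fun ε _ i => !(ε i))
  · intro ε h
    simp only [Finset.mem_filter, Finset.mem_univ, true_and, half] at h ⊢
    simpa using h
  · intro ε h
    simp only [Finset.mem_filter, Finset.mem_univ, true_and, half] at h ⊢
    simpa using h
  · intro ε _
    simp
  · intro ε _
    simp
  · intro ε _
    simp

lemma card_half (hr : 1 ≤ r) : (half hr).card = 2 ^ (r - 1) := by
  have h := prod_all (M := Multiplicative ℕ) hr (fun _ => Multiplicative.ofAdd 1)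
  rw [Finset.prod_const, Finset.prod_const, Finset.card_univ, Fintype.card_fun, Fintype.card_bool,
    Fintype.card_fin] at h
  have h2 := congrArg Multiplicative.toAdd h
  simp only [toAdd_pow, toAdd_ofAdd, toAdd_mul, smul_eq_mul] at h2
  have h3 : 2 ^ r = 2 * 2 ^ (r - 1) := by
    rw [← pow_succ']
    congr 1
    omega
  omega

/-- a ring homomorphism as a homomorphism of `ℤ`-algebras -/
def toZ {A B : Type} [CommRing A] [CommRing B] [Algebra ℤ A] [Algebra ℤ B] (f : A →+* B) : A →ₐ[ℤ] B :=
  { f with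
    commutes' := fun n => by
      change f _ = _
      rw [eq_intCast, eq_intCast, map_intCast] }

lemma toZ_apply {A B : Type} [CommRing A] [CommRing B] [Algebra ℤ A] [Algebra ℤ B] (f : A →+* B) (a : A) :
    toZ f a = f a := rfl

lemma PV_map {R S : Type} [CommRing R] [CommRing S] (f : R →+* S)
    (P : MvPolynomial (Option (Fin r)) ℤ) (v : Fin r → R) :
    (PV P v).map f = PV P (fun i => f (v i)) := by
  unfold PV
  have h := MvPolynomial.comp_aeval_apply (R := ℤ) (f := fun o : Option (Fin r) => o.elim X (fun i => C (v i)))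
    (φ := (toZ (Polynomial.mapRingHom f) : R[X] →ₐ[ℤ] S[X])) P
  have h6 : ∀ y, (toZ (Polynomial.mapRingHom f) : R[X] →ₐ[ℤ] S[X]) y = y.map f := fun y => rfl
  rw [h6] at h
  rw [h]
  congr 2
  funext o
  cases o with
  | none => simp [h6]
  | some i => simp [h6]

lemma expand_PV {R : Type} [CommRing R] (P : MvPolynomial (Option (Fin r)) ℤ) (u : Fin r → R) :
    Polynomial.expand R 2 (PV P (fun i => u i ^ 2)) =
      MvPolynomial.aeval (fun o : Option (Fin r) => o.elim X (fun i => C (u i)))
        (MvPolynomial.expand 2 P) := by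
  unfold PV
  have h := MvPolynomial.comp_aeval_apply (R := ℤ) (f := fun o : Option (Fin r) => o.elim X (fun i => C (u i ^ 2)))
    (φ := ((Polynomial.expand R 2 : R[X] →ₐ[R] R[X]).restrictScalars ℤ)) P
  rw [AlgHom.restrictScalars_apply] at h
  rw [h, MvPolynomial.expand, MvPolynomial.aeval_bind₁]
  congr 2
  funext o
  cases o with
  | none => simp
  | some i => simp

lemma PV_sq {R : Type} [CommRing R] (hr : 1 ≤ r) {P : MvPolynomial (Option (Fin r)) ℤ}
    (hP : MvPolynomial.expand 2 P = pf r) (u : Fin r → R) :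
    PV P (fun i => u i ^ 2) = ∏ ε ∈ half hr, (X - C ((ss ε u) ^ 2)) := by
  apply Polynomial.expand_injective (R := R) (n := 2) (by norm_num)
  rw [expand_PV, hP, pf, map_prod, prod_all hr, map_prod]
  apply Finset.prod_congr rfl
  intro ε _
  have h1 : ∀ ε : Fin r → Bool, MvPolynomial.aeval (fun o : Option (Fin r) => o.elim X (fun i => C (u i)))
      (MvPolynomial.X none - ∑ i, MvPolynomial.C (sg (ε i)) * MvPolynomial.X (some i) :
        MvPolynomial (Option (Fin r)) ℤ) = X - C (ss ε u) := by
    intro ε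
    rw [map_sub, MvPolynomial.aeval_X, map_sum, ss, map_sum]
    congr 1
    apply Finset.sum_congr rfl
    intro i _
    rw [map_mul, MvPolynomial.aeval_X, MvPolynomial.aeval_C, map_mul]
    simp
  rw [h1, h1, ss_not]
  simp only [map_sub, expand_X, expand_C, map_neg, map_pow]
  ring

lemma PV_eq {R : Type} [CommRing R] (P : MvPolynomial (Option (Fin r)) ℤ) (v : Fin r → R) :
    PV P v = ∑ s ∈ P.support, C (((MvPolynomial.coeff s P : ℤ) : R) * ∏ i, v i ^ (s (some i))) * X ^ (s none) := by
  unfold PV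
  rw [MvPolynomial.aeval_def, MvPolynomial.eval₂_eq']
  apply Finset.sum_congr rfl
  intro s _
  rw [Fintype.prod_option]
  simp only [Option.elim, map_mul, map_prod, map_pow, map_intCast, eq_intCast]
  ring

lemma hom_sum {d : ℕ} {P : MvPolynomial (Option (Fin r)) ℤ} (hh : P.IsHomogeneous d)
    {s : Option (Fin r) →₀ ℕ} (hs : s ∈ P.support) : s none + ∑ i, s (some i) = d := by
  have h1 := hh (MvPolynomial.mem_support_iff.1 hs)
  rw [← h1, Finsupp.weight_apply, Finsupp.sum_fintype _ _ (by simp), Fintype.sum_option]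
  simp

lemma coeff_PV {R : Type} [CommRing R] (P : MvPolynomial (Option (Fin r)) ℤ) (v : Fin r → R) (k : ℕ) :
    (PV P v).coeff k = ∑ s ∈ P.support.filter (fun s => s none = k),
      ((MvPolynomial.coeff s P : ℤ) : R) * ∏ i, v i ^ (s (some i)) := by
  rw [PV_eq, finsetSum_coeff, Finset.sum_filter]
  apply Finset.sum_congr rfl
  intro s _
  rw [coeff_C_mul_X_pow]
  split_ifs with h1 h2 h2
  · rfl
  · exact absurd h1.symm h2
  · exact absurd h2.symm h1
  · rfl

lemma coeff_top (hr : 1 ≤ r) {P : MvPolynomial (Option (Fin r)) ℤ}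
    (hP : MvPolynomial.expand 2 P = pf r) (hh : P.IsHomogeneous (2 ^ (r - 1)))
    {R : Type} [CommRing R] (v : Fin r → R) : (PV P v).coeff (2 ^ (r - 1)) = 1 := by
  have key : ∀ {R : Type} [CommRing R] (v : Fin r → R), (PV P v).coeff (2 ^ (r - 1)) =
      ∑ s ∈ P.support.filter (fun s => s none = 2 ^ (r - 1)), ((MvPolynomial.coeff s P : ℤ) : R) := by
    intro R _ v
    rw [coeff_PV]
    apply Finset.sum_congr rfl
    intro s hs
    rw [Finset.mem_filter] at hs
    have h1 := hom_sum hh hs.1
    have h2 : ∀ i, s (some i) = 0 := by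
      have : ∑ i, s (some i) = 0 := by omega
      intro i
      exact (Finset.sum_eq_zero_iff.1 this) i (Finset.mem_univ i)
    simp [h2]
  have h0 : (PV P (fun _ : Fin r => (0 : ℤ))).coeff (2 ^ (r - 1)) = 1 := by
    have h1 := PV_sq hr hP (fun _ : Fin r => (0 : ℤ))
    have h2 : (fun i : Fin r => (fun _ : Fin r => (0 : ℤ)) i ^ 2) = fun _ : Fin r => (0 : ℤ) := by
      funext i; simp
    rw [h2] at h1
    rw [h1]
    have h3 : ∀ ε : Fin r → Bool, ss ε (fun _ : Fin r => (0 : ℤ)) = 0 := by
      intro ε; simp [ss]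
    simp only [h3]
    rw [Finset.prod_const, card_half]
    simp
  rw [key] at h0
  rw [key]
  have := congrArg (Int.cast : ℤ → R) h0
  push_cast at this
  simpa using this

lemma PV_monic (hr : 1 ≤ r) {P : MvPolynomial (Option (Fin r)) ℤ}
    (hP : MvPolynomial.expand 2 P = pf r) (hh : P.IsHomogeneous (2 ^ (r - 1)))
    {R : Type} [CommRing R] [Nontrivial R] (v : Fin r → R) :
    (PV P v).Monic ∧ (PV P v).natDegree = 2 ^ (r - 1) := by
  have hle : (PV P v).natDegree ≤ 2 ^ (r - 1) := by
    rw [natDegree_le_iff_coeff_eq_zero]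
    intro k hk
    rw [coeff_PV]
    apply Finset.sum_eq_zero
    intro s hs
    rw [Finset.mem_filter] at hs
    have h1 := hom_sum hh hs.1
    omega
  have h1 := coeff_top hr hP hh v
  have hm : (PV P v).Monic := monic_of_natDegree_le_of_coeff_eq_one _ hle h1
  refine ⟨hm, le_antisymm hle ?_⟩
  apply le_natDegree_of_ne_zero
  rw [h1]
  exact one_ne_zero

end Pool.Agent.H49TB
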