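import Pool.Agent.H49TB.GP

/-!
The polynomials `G_m (ξ, W) = P (W; c(θ_i) (ξ - m θ_i))`.
-/

set_option autoImplicit false

namespace Pool.Agent.H49TB

open Polynomial Finset
open Pool.Agent.H322R2

variable {r : ℕ}

lemma prod_top {K : Type} [Field K] (γ μ : Fin r → K) (s : Fin r → ℕ) (t : Finset (Fin r)) :
    (∏ i ∈ t, (C (γ i) * (X - C (μ i))) ^ s i).natDegree ≤ ∑ i ∈ t, s i ∧
    (∏ i ∈ t, (C (γ i) * (X - C (μ i))) ^ s i).coeff (∑ i ∈ t, s i) = ∏ i ∈ t, γ i ^ s i := by
  classical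
  induction t using Finset.induction_on with
  | empty => simp
  | insert a t ha ih =>
    rw [Finset.prod_insert ha, Finset.sum_insert ha, Finset.prod_insert ha]
    have h1 : (C (γ a) * (X - C (μ a))).natDegree ≤ 1 := by
      refine (natDegree_C_mul_le _ _).trans ?_
      rw [natDegree_X_sub_C]
    have h2 : ((C (γ a) * (X - C (μ a))) ^ s a).natDegree ≤ s a := by
      have := natDegree_pow_le_of_le (s a) h1
      rwa [mul_one] at this
    have h3 : ((C (γ a) * (X - C (μ a))) ^ s a).coeff (s a) = γ a ^ s a := by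
      have := coeff_pow_of_natDegree_le (m := s a) h1
      rw [mul_one] at this
      rw [this]
      simp [coeff_X]
    refine ⟨natDegree_mul_le_of_le h2 ih.1, ?_⟩
    rw [coeff_mul_add_eq_of_natDegree_le h2 ih.1, h3, ih.2]

lemma io_inj : Function.Injective io := by
  apply Polynomial.map_injective
  apply Polynomial.map_injective
  exact Int.cast_injective

theorem G_props (hr : 1 ≤ r) {P : MvPolynomial (Option (Fin r)) ℤ}
    (hP : MvPolynomial.expand 2 P = pf r) (hh : P.IsHomogeneous (2 ^ (r - 1)))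
    (hs : ∀ e : Equiv.Perm (Fin r), MvPolynomial.rename (Option.map e) P = P)
    (h : ℤ[X]) (θ : Fin r → ℂ)
    (hθ : h.map (Int.castRingHom ℂ) = ∏ t, (X - C (θ t))) (c : ℤ[X]) (m : ℤ) :
    ∃ G : ℤ[X][X], io G = PV P (fun i => C (aeval (θ i) c) * (X - C (m * θ i))) ∧ G.Monic ∧
      G.natDegree = 2 ^ (r - 1) ∧ TD (2 ^ (r - 1)) G ∧
      (lead (2 ^ (r - 1)) G).map (Int.castRingHom ℂ) = PV P (fun i => aeval (θ i) c) := by
  obtain ⟨G, hG⟩ := exists_G h θ hθ P hs c m
  have hG' : io G = PV P (fun i => C (aeval (θ i) c) * (X - C (m * θ i))) := hG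
  obtain ⟨hm, hd⟩ := PV_monic hr hP hh (fun i => C (aeval (θ i) c) * (X - C (m * θ i)) : Fin r → ℂ[X])
  rw [← hG'] at hm hd
  have hinj : Function.Injective (Polynomial.mapRingHom (Int.castRingHom ℂ)) :=
    Polynomial.map_injective _ Int.cast_injective
  have hGm : G.Monic := monic_of_injective hinj hm
  have hGd : G.natDegree = 2 ^ (r - 1) := by
    rw [← hd]
    exact (natDegree_map_eq_of_injective hinj G).symm
  have hco : ∀ j, (G.coeff j).map (Int.castRingHom ℂ) = (io G).coeff j := by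
    intro j
    rw [io, coe_mapRingHom, coeff_map, coe_mapRingHom]
  have hcj : ∀ j, (G.coeff j).natDegree ≤ 2 ^ (r - 1) - j ∧
      ((((G.coeff j).coeff (2 ^ (r - 1) - j) : ℤ) : ℂ) = (PV P (fun i => aeval (θ i) c)).coeff j) := by
    intro j
    rw [← natDegree_map_eq_of_injective (f := Int.castRingHom ℂ) Int.cast_injective (G.coeff j)]
    have h1 : (((G.coeff j).coeff (2 ^ (r - 1) - j) : ℤ) : ℂ) =
      ((G.coeff j).map (Int.castRingHom ℂ)).coeff (2 ^ (r - 1) - j) := by
      rw [coeff_map]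
      rfl
    rw [h1, hco, hG', coeff_PV, coeff_PV, finsetSum_coeff]
    constructor
    · apply natDegree_sum_le_of_forall_le
      intro s hs'
      rw [Finset.mem_filter] at hs'
      have h2 := hom_sum hh hs'.1
      have h3 := (prod_top (fun i => aeval (θ i) c) (fun i => m * θ i) (fun i => s (some i)) univ).1
      have h4 : (((MvPolynomial.coeff s P : ℤ) : ℂ[X])).natDegree ≤ 0 := by
        rw [natDegree_intCast]
      refine (natDegree_mul_le_of_le h4 h3).trans ?_
      omega
    · apply Finset.sum_congr rfl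
      intro s hs'
      rw [Finset.mem_filter] at hs'
      have h2 := hom_sum hh hs'.1
      have h3 := (prod_top (fun i => aeval (θ i) c) (fun i => m * θ i) (fun i => s (some i)) univ).2
      have h5 : 2 ^ (r - 1) - j = ∑ i, s (some i) := by omega
      have h6 : (((MvPolynomial.coeff s P : ℤ) : ℂ[X])) = C (((MvPolynomial.coeff s P : ℤ) : ℂ)) := by
        simp
      rw [h6, coeff_C_mul, h5, h3]
  refine ⟨G, hG', hGm, hGd, ⟨hGd.le, fun j => (hcj j).1⟩, ?_⟩
  obtain ⟨hm2, hd2⟩ := PV_monic hr hP hh (fun i => aeval (θ i) c : Fin r → ℂ)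
  ext j
  rw [coeff_map, coeff_lead]
  split_ifs with hj
  · exact (hcj j).2
  · rw [map_zero, coeff_eq_zero_of_natDegree_lt]
    omega

/-- integral points -/
theorem ev_zero (hr : 1 ≤ r) {P : MvPolynomial (Option (Fin r)) ℤ}
    (hP : MvPolynomial.expand 2 P = pf r) (θ : Fin r → ℂ) (c : ℤ[X]) (m : ℤ) (G : ℤ[X][X])
    (hG : io G = PV P (fun i => C (aeval (θ i) c) * (X - C (m * θ i))))
    (u : Fin r → ℂ) (x w : ℤ) (hu : ∀ i, u i ^ 2 = aeval (θ i) c * (x - m * θ i))
    (hw : (w : ℂ) = (∑ i, u i) ^ 2) : ev x w G = 0 := by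
  have h1 : ((ev x w G : ℤ) : ℂ) = ev (x : ℂ) (w : ℂ) G := by
    have := map_ev (Int.castRingHom ℂ) x w G
    simpa using this
  have h2 : ev (x : ℂ) (w : ℂ) G = ((io G).map (evalRingHom (x : ℂ))).eval (w : ℂ) := by
    rw [io, coe_mapRingHom, Polynomial.map_map, eval_map, ev_apply]
    congr 1
    apply Polynomial.ringHom_ext'
    · exact RingHom.ext_int _ _
    · simp [evf]
  have h3 : ((io G).map (evalRingHom (x : ℂ))) = PV P (fun i => u i ^ 2) := by
    rw [hG, PV_map]
    congr 1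
    funext i
    rw [hu]
    simp
  have h4 : ev (x : ℂ) (w : ℂ) G = 0 := by
    rw [h2, h3, PV_sq hr hP, eval_prod]
    apply Finset.prod_eq_zero (i := fun _ => true)
    · simp [half]
    · rw [eval_sub, eval_X, eval_C, hw]
      have h5 : ss (fun _ => true) u = ∑ i, u i := by simp [ss, sg]
      rw [h5, sub_self]
  rw [← h1] at h4
  exact_mod_cast h4

end Pool.Agent.H49TB
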