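import Pool.Agent.H49TB.GP2

/-!
The size of the polynomials `G_m` and the separability of the leading forms.
-/

set_option autoImplicit false

namespace Pool.Agent.H49TB

open Polynomial Finset
open Pool.Agent.H322R2

variable {r : ℕ}

/-- the absolute value -/
noncomputable def cn : RingSeminorm ℂ where
  toFun := fun z => ‖z‖
  map_zero' := norm_zero
  add_le' := norm_add_le
  neg' := norm_neg
  mul_le' := fun a b => (norm_mul a b).le

lemma cn_apply (z : ℂ) : cn z = ‖z‖ := rfl

lemma pn_map {A B : Type} [CommRing A] [CommRing B] (M : RingSeminorm A) (N : RingSeminorm B)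
    (f : A →+* B) (hf : ∀ a, N (f a) = M a) (p : A[X]) : pn N (p.map f) = pn M p := by
  rw [pn_eq_range N _ (n := p.natDegree + 1) (lt_of_le_of_lt natDegree_map_le (Nat.lt_succ_self _)),
    pn_eq_range M _ (n := p.natDegree + 1) (Nat.lt_succ_self _)]
  apply Finset.sum_congr rfl
  intro i _
  rw [coeff_map, hf]

lemma pn_io (G : ℤ[X][X]) : pn (pn cn) (io G) = pn (pn zn) G := by
  rw [io, coe_mapRingHom]
  apply pn_map
  intro p
  rw [coe_mapRingHom]
  apply pn_map
  intro a
  simp [cn_apply]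

lemma pn_PV (P : MvPolynomial (Option (Fin r)) ℤ) {d : ℕ} (hh : P.IsHomogeneous d)
    (Y : Fin r → ℂ[X]) (B : ℝ) (hB : 1 ≤ B) (hY : ∀ i, pn cn (Y i) ≤ B) :
    pn (pn cn) (PV P Y) ≤ (∑ s ∈ P.support, |((MvPolynomial.coeff s P : ℤ) : ℝ)|) * B ^ d := by
  rw [PV_eq, Finset.sum_mul]
  refine (seminorm_sum_le _ _ _).trans ?_
  apply Finset.sum_le_sum
  intro s hs
  have h1 := hom_sum hh hs
  have hc1 : (cn 1) ≤ 1 := by rw [cn_apply, norm_one]
  have hp1 : (pn cn (1 : ℂ[X])) ≤ 1 := by rw [pn_one]; exact hc1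
  have hpp1 : (pn (pn cn) (1 : ℂ[X][X])) ≤ 1 := by rw [pn_one]; exact hp1
  refine (map_mul_le_mul _ _ _).trans ?_
  rw [pn_C]
  have h2 : pn (pn cn) ((X : ℂ[X][X]) ^ (s none)) ≤ 1 := by
    refine (seminorm_pow_le _ hpp1 _ _).trans ?_
    rw [pn_X]
    exact pow_le_one₀ (apply_nonneg _ _) hp1
  have h3 : pn cn (((MvPolynomial.coeff s P : ℤ) : ℂ[X]) * ∏ i, Y i ^ (s (some i))) ≤
      |((MvPolynomial.coeff s P : ℤ) : ℝ)| * B ^ d := by
    refine (map_mul_le_mul _ _ _).trans ?_
    have h4 : pn cn ((MvPolynomial.coeff s P : ℤ) : ℂ[X]) = |((MvPolynomial.coeff s P : ℤ) : ℝ)| := by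
      rw [← C_eq_intCast (R := ℂ)]
      rw [pn_C, cn_apply]
      simp
    rw [h4]
    apply mul_le_mul_of_nonneg_left _ (abs_nonneg _)
    refine (seminorm_prod_le _ hp1 _ _).trans ?_
    have h5 : ∏ i, pn cn (Y i ^ (s (some i))) ≤ ∏ i, B ^ (s (some i)) := by
      apply Finset.prod_le_prod (fun i _ => apply_nonneg _ _)
      intro i _
      refine (seminorm_pow_le _ hp1 _ _).trans ?_
      exact pow_le_pow_left₀ (apply_nonneg _ _) (hY i) _
    refine h5.trans ?_
    rw [Finset.prod_pow_eq_pow_sum]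
    exact pow_le_pow_right₀ hB (by omega)
  calc _ ≤ (|((MvPolynomial.coeff s P : ℤ) : ℝ)| * B ^ d) * 1 :=
        mul_le_mul h3 h2 (apply_nonneg _ _) (by positivity)
    _ = _ := mul_one _

lemma pn_lin (γ μ : ℂ) : pn cn (C γ * (X - C μ)) ≤ ‖γ‖ * (1 + ‖μ‖) := by
  refine (map_mul_le_mul _ _ _).trans ?_
  rw [pn_C, cn_apply]
  apply mul_le_mul_of_nonneg_left _ (norm_nonneg _)
  have h1 : pn cn (X - C μ) ≤ pn cn X + pn cn (C μ) := by
    rw [sub_eq_add_neg]
    refine (map_add_le_add _ _ _).trans ?_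
    rw [map_neg_eq_map]
  refine h1.trans ?_
  rw [pn_C, pn_X, cn_apply, cn_apply, norm_one]

/-- distinct squares of signed sums -/
lemma ss_inj {K : Type} [Field K] [CharZero K] (hr : 1 ≤ r) (u : Fin r → K)
    (hu : ∀ T : Finset (Fin r), T.Nonempty → ∀ ε : Fin r → Bool, ∑ i ∈ T, (sg (ε i) : K) * u i ≠ 0)
    (ε ε' : Fin r → Bool) (he : ε ∈ half hr) (he' : ε' ∈ half hr)
    (hss : (ss ε u) ^ 2 = (ss ε' u) ^ 2) : ε = ε' := by
  classical
  by_contra hne
  simp only [half, Finset.mem_filter, Finset.mem_univ, true_and] at he he'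
  have h2 : (2 : K) ≠ 0 := two_ne_zero
  rcases sq_eq_sq_iff_eq_or_eq_neg.1 hss with h | h
  · have h3 : 2 * ∑ i ∈ univ.filter (fun i => ε i ≠ ε' i), (sg (ε i) : K) * u i = 0 := by
      have h4 : ss ε u - ss ε' u = 0 := sub_eq_zero.2 h
      unfold ss at h4
      rw [← Finset.sum_sub_distrib] at h4
      rw [Finset.mul_sum, Finset.sum_filter]
      refine Eq.trans (Finset.sum_congr rfl ?_) h4
      intro i _
      by_cases hi : ε i = ε' i
      · simp [hi]
      · rw [if_pos hi]
        have : ε' i = !(ε i) := by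
          cases h5 : ε i <;> cases h6 : ε' i <;> simp_all
        rw [this, sg_not]
        push_cast
        ring
    rcases mul_eq_zero.1 h3 with h4 | h4
    · exact h2 h4
    · refine hu _ ?_ ε h4
      by_contra hemp
      rw [Finset.not_nonempty_iff_eq_empty, Finset.filter_eq_empty_iff] at hemp
      apply hne
      funext i
      have := hemp (Finset.mem_univ i)
      simpa using this
  · have h3 : 2 * ∑ i ∈ univ.filter (fun i => ε i = ε' i), (sg (ε i) : K) * u i = 0 := by
      have h4 : ss ε u + ss ε' u = 0 := by rw [h]; ring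
      unfold ss at h4
      rw [← Finset.sum_add_distrib] at h4
      rw [Finset.mul_sum, Finset.sum_filter]
      refine Eq.trans (Finset.sum_congr rfl ?_) h4
      intro i _
      by_cases hi : ε i = ε' i
      · rw [if_pos hi, hi]
        ring
      · rw [if_neg hi]
        have : ε' i = !(ε i) := by
          cases h5 : ε i <;> cases h6 : ε' i <;> simp_all
        rw [this, sg_not]
        push_cast
        ring
    rcases mul_eq_zero.1 h3 with h4 | h4
    · exact h2 h4
    · refine hu _ ?_ ε h4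
      exact ⟨⟨0, hr⟩, by simp [he, he']⟩

/-- the leading form is separable -/
theorem lead_coprime (hr : 1 ≤ r) {P : MvPolynomial (Option (Fin r)) ℤ}
    (hP : MvPolynomial.expand 2 P = pf r) (δ : Fin r → ℂ)
    (hδ : ∀ T : Finset (Fin r), T.Nonempty → ∀ ε : Fin r → Bool, ∑ i ∈ T, (sg (ε i) : ℂ) * δ i ≠ 0)
    (L : ℤ[X]) (hL : L.map (Int.castRingHom ℂ) = PV P (fun i => δ i ^ 2)) :
    IsCoprime (L.map (Int.castRingHom ℚ)) ((derivative L).map (Int.castRingHom ℚ)) := by
  rw [← derivative_map]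
  have h1 : (L.map (Int.castRingHom ℚ)).Separable := by
    rw [← separable_map (algebraMap ℚ ℂ), Polynomial.map_map]
    have h2 : (algebraMap ℚ ℂ).comp (Int.castRingHom ℚ) = Int.castRingHom ℂ := RingHom.ext_int _ _
    rw [h2, hL, PV_sq hr hP]
    rw [separable_prod_X_sub_C_iff' (f := fun ε : Fin r → Bool => (ss ε δ) ^ 2)]
    intro ε he ε' he' hss
    exact ss_inj hr δ hδ ε ε' he he' hss
  exact h1

end Pool.Agent.H49TB
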