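import Mathlib

/-!
The gap principle for two points of one class.
-/

set_option autoImplicit false

namespace Pool.Agent.H49TB

open Polynomial Finset

variable {r : ℕ}

/-- the resultant -/
theorem exists_adj (h : ℤ[X]) (hm : h.Monic) (hd : h.natDegree = r) (hr : 1 ≤ r) (θ : Fin r → ℂ)
    (hθ : h.map (Int.castRingHom ℂ) = ∏ t, (X - C (θ t))) (a : ℤ[X]) :
    ∃ (A : ℤ[X]) (D : ℤ), (D : ℂ) = ∏ i, aeval (θ i) a ∧ ∀ i, aeval (θ i) A * aeval (θ i) a = D := by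
  obtain ⟨p, q, -, -, hpq⟩ := exists_mul_add_mul_eq_C_resultant (m := r) (n := a.natDegree) h a hd.le
    le_rfl (Or.inl (by omega))
  have haev : ∀ (g : ℤ[X]) (z : ℂ), aeval z g = (g.map (Int.castRingHom ℂ)).eval z := by
    intro g z
    rw [aeval_def, eval₂_eq_eval_map]
    rfl
  have hroot : ∀ i, aeval (θ i) h = 0 := by
    intro i
    rw [haev, hθ, eval_prod]
    apply Finset.prod_eq_zero (Finset.mem_univ i)
    simp
  refine ⟨q, h.resultant a r a.natDegree, ?_, ?_⟩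
  · have h1 : ((h.resultant a r a.natDegree : ℤ) : ℂ) =
        resultant (h.map (Int.castRingHom ℂ)) (a.map (Int.castRingHom ℂ)) r a.natDegree := by
      rw [resultant_map_map]
      rfl
    rw [h1, hθ]
    have h2 := resultant_prod_left (R := ℂ) univ (fun t => X - C (θ t)) (a.map (Int.castRingHom ℂ)) a.natDegree
      (by simp) natDegree_map_le
    have h3 : (∏ i, (X - C (θ i))).natDegree = r := by
      rw [← hθ, natDegree_map_eq_of_injective Int.cast_injective, hd]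
    rw [h3] at h2
    rw [h2]
    apply Finset.prod_congr rfl
    intro i _
    rw [natDegree_X_sub_C, resultant_X_sub_C_left _ _ _ natDegree_map_le, haev]
  · intro i
    have h4 := congrArg (aeval (θ i)) hpq
    rw [map_add, map_mul, map_mul, hroot, zero_mul, zero_add, aeval_C] at h4
    rw [mul_comm, h4]
    simp

/-- the inverse of the Vandermonde matrix -/
theorem exists_vand (θ : Fin r → ℂ) (hθ : Function.Injective θ) :
    ∃ V : Fin r → Fin r → ℂ, ∀ k j : Fin r, ∑ i, V k i * θ i ^ (j : ℕ) = if k = j then 1 else 0 := by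
  have h1 : IsUnit (Matrix.vandermonde θ).det := (Matrix.det_vandermonde_ne_zero_iff.2 hθ).isUnit
  have h2 := Matrix.nonsing_inv_mul _ h1
  refine ⟨fun k i => (Matrix.vandermonde θ)⁻¹ k i, fun k j => ?_⟩
  have h3 := congrFun (congrFun h2 k) j
  rw [Matrix.mul_apply, Matrix.one_apply] at h3
  exact h3

lemma vand_coeff {θ : Fin r → ℂ} {V : Fin r → Fin r → ℂ}
    (hV : ∀ k j : Fin r, ∑ i, V k i * θ i ^ (j : ℕ) = if k = j then 1 else 0) (B : ℤ[X])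
    (hB : B.natDegree < r) (k : Fin r) : ∑ i, V k i * aeval (θ i) B = ((B.coeff k : ℤ) : ℂ) := by
  have h1 : ∀ z : ℂ, aeval z B = ∑ j : Fin r, ((B.coeff j : ℤ) : ℂ) * z ^ (j : ℕ) := by
    intro z
    rw [aeval_eq_sum_range' hB, Finset.sum_range]
    apply Finset.sum_congr rfl
    intro j _
    rw [zsmul_eq_mul]
  simp only [h1, Finset.mul_sum]
  rw [Finset.sum_comm]
  have h2 : ∀ j : Fin r, ∑ i, V k i * (((B.coeff j : ℤ) : ℂ) * θ i ^ (j : ℕ)) =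
      ((B.coeff j : ℤ) : ℂ) * (if k = j then 1 else 0) := by
    intro j
    rw [← hV k j, Finset.mul_sum]
    apply Finset.sum_congr rfl
    intro i _
    ring
  simp only [h2, mul_ite, mul_one, mul_zero]
  rw [Finset.sum_ite_eq]
  simp

/-- a square root near `1` -/
theorem exists_phi (z : ℂ) (hz : ‖z‖ ≤ 1 / 2) :
    ∃ φ : ℂ, φ ^ 2 = 1 - z ∧ ‖φ - (1 - z / 2)‖ ≤ ‖z‖ ^ 2 := by
  obtain ⟨w, hw⟩ := IsAlgClosed.exists_pow_nat_eq (1 - z) (n := 2) (by norm_num)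
  have h1 : ∃ φ : ℂ, φ ^ 2 = 1 - z ∧ 0 ≤ φ.re := by
    rcases le_total 0 w.re with h | h
    · exact ⟨w, hw, h⟩
    · refine ⟨-w, by rw [neg_sq, hw], ?_⟩
      simp only [Complex.neg_re]
      linarith
  obtain ⟨φ, hφ, hre⟩ := h1
  refine ⟨φ, hφ, ?_⟩
  have h2 : (φ - (1 - z / 2)) * (φ + (1 - z / 2)) = -(z ^ 2 / 4) := by
    linear_combination hφ
  have h3 : 3 / 4 ≤ ‖φ + (1 - z / 2)‖ := by
    have h4 : (φ + (1 - z / 2)).re ≤ ‖φ + (1 - z / 2)‖ := Complex.re_le_norm _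
    have h5 : (φ + (1 - z / 2)).re = φ.re + 1 - z.re / 2 := by
      simp
      ring
    have h6 : z.re ≤ ‖z‖ := Complex.re_le_norm _
    rw [h5] at h4
    linarith
  have h7 : ‖φ - (1 - z / 2)‖ * ‖φ + (1 - z / 2)‖ = ‖z‖ ^ 2 / 4 := by
    rw [← norm_mul, h2, norm_neg, norm_div, norm_pow]
    norm_num
  have h8 : 0 ≤ ‖φ - (1 - z / 2)‖ := norm_nonneg _
  nlinarith [norm_nonneg z, mul_le_mul_of_nonneg_left h3 h8]

lemma phi_mul {z z' φ φ' : ℂ} {t : ℝ} (ht : t ≤ 1 / 2) (hz : ‖z‖ ≤ t) (hz' : ‖z'‖ ≤ t)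
    (h : ‖φ - (1 - z / 2)‖ ≤ ‖z‖ ^ 2) (h' : ‖φ' - (1 - z' / 2)‖ ≤ ‖z'‖ ^ 2) :
    ‖φ * φ' - (1 - (z + z') / 2)‖ ≤ 4 * t ^ 2 := by
  have ht0 : 0 ≤ t := (norm_nonneg z).trans hz
  obtain ⟨e, he⟩ : ∃ e, e = φ - (1 - z / 2) := ⟨_, rfl⟩
  obtain ⟨e', he'⟩ : ∃ e', e' = φ' - (1 - z' / 2) := ⟨_, rfl⟩
  rw [← he] at h
  rw [← he'] at h'
  have hsq : ‖z‖ ^ 2 ≤ t ^ 2 := pow_le_pow_left₀ (norm_nonneg _) hz 2
  have hsq' : ‖z'‖ ^ 2 ≤ t ^ 2 := pow_le_pow_left₀ (norm_nonneg _) hz' 2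
  have h1 : φ * φ' - (1 - (z + z') / 2) = z * z' / 4 + e + e' - e * z' / 2 - e' * z / 2 + e * e' := by
    rw [he, he']
    ring
  rw [h1]
  have n1 : ‖z * z' / 4‖ ≤ t ^ 2 / 4 := by
    rw [norm_div, norm_mul]
    have : ‖z‖ * ‖z'‖ ≤ t * t := mul_le_mul hz hz' (norm_nonneg _) ht0
    norm_num
    nlinarith
  have n2 : ‖e‖ ≤ t ^ 2 := h.trans hsq
  have n3 : ‖e'‖ ≤ t ^ 2 := h'.trans hsq'
  have n4 : ‖e * z' / 2‖ ≤ t ^ 2 / 4 := by
    rw [norm_div, norm_mul]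
    have : ‖e‖ * ‖z'‖ ≤ t ^ 2 * t := mul_le_mul n2 hz' (norm_nonneg _) (by positivity)
    norm_num
    nlinarith [sq_nonneg t]
  have n5 : ‖e' * z / 2‖ ≤ t ^ 2 / 4 := by
    rw [norm_div, norm_mul]
    have : ‖e'‖ * ‖z‖ ≤ t ^ 2 * t := mul_le_mul n3 hz (norm_nonneg _) (by positivity)
    norm_num
    nlinarith [sq_nonneg t]
  have n6 : ‖e * e'‖ ≤ t ^ 2 / 4 := by
    rw [norm_mul]
    have h2 : ‖e‖ * ‖e'‖ ≤ t ^ 2 * t ^ 2 := mul_le_mul n2 n3 (norm_nonneg _) (by positivity)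
    have h3 : t ^ 2 ≤ 1 / 4 := by nlinarith
    nlinarith [sq_nonneg t]
  calc ‖z * z' / 4 + e + e' - e * z' / 2 - e' * z / 2 + e * e'‖
      ≤ ‖z * z' / 4‖ + ‖e‖ + ‖e'‖ + ‖e * z' / 2‖ + ‖e' * z / 2‖ + ‖e * e'‖ := by
        refine (norm_add_le _ _).trans ?_
        gcongr
        refine (norm_sub_le _ _).trans ?_
        gcongr
        refine (norm_sub_le _ _).trans ?_
        gcongr
        refine (norm_add_le _ _).trans ?_
        gcongr
        exact norm_add_le _ _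
    _ ≤ 4 * t ^ 2 := by nlinarith [sq_nonneg t]

end Pool.Agent.H49TB
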