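import Pool.Agent.H49TB.Even

/-!
All polynomials of degree at least five; rational points whose `x`-coordinate has a denominator
dividing a fixed multiple of `D`.
-/

set_option autoImplicit false

open Polynomial Filter Topology

namespace Pool.Agent.H49TB

open Pool.Agent.H49SH Pool.Agent.H49TW

theorem hom_cast (f : ℤ[X]) {z d : ℤ} {x : ℚ} (h : (d : ℚ) * x = z) :
    ((hom f z d : ℤ) : ℚ) = (d : ℚ) ^ f.natDegree * (f.map (Int.castRingHom ℚ)).eval x := by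
  rw [hom_eq_sum, eval_map, eval₂_eq_sum_range, Finset.mul_sum]
  push_cast
  refine Finset.sum_congr rfl fun i hi => ?_
  have hi' : i ≤ f.natDegree := by
    have := Finset.mem_range.1 hi
    omega
  rw [← h, mul_pow]
  have e : (d : ℚ) ^ f.natDegree = d ^ (f.natDegree - i) * d ^ i := by
    rw [← pow_add]
    congr 1
    omega
  rw [e]
  simp only [eq_intCast]
  ring

theorem dvd_hom_sub' (f : ℤ[X]) (x z : ℤ) : z ∣ hom f x z - f.leadingCoeff * x ^ f.natDegree := by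
  rw [hom_eq_sum, Finset.sum_range_succ, Nat.sub_self, pow_zero, mul_one]
  simp only [coeff_natDegree, add_sub_cancel_right]
  refine Finset.dvd_sum fun i hi => ?_
  have h1 : f.natDegree - i = f.natDegree - i - 1 + 1 := by
    have := Finset.mem_range.1 hi
    omega
  rw [h1, pow_succ]
  exact ⟨f.coeff i * z ^ (f.natDegree - i - 1) * x ^ i, by ring⟩

theorem int_odd (f : ℤ[X]) (hodd : Odd f.natDegree) (h5 : 5 ≤ f.natDegree)
    (hsq : Squarefree (f.map (Int.castRingHom ℚ))) :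
    ∀ ε : ℝ, 0 < ε → ∃ N₀ : ℕ, ∀ N : ℕ, N₀ ≤ N → ∀ S : Finset ℤ,
      (∀ D ∈ S, |D| ≤ N ∧ Squarefree D ∧ ∃ x y : ℚ, y ≠ 0 ∧
        D * y ^ 2 = (f.map (Int.castRingHom ℚ)).eval x ∧ ∃ z : ℤ, D * x = z) →
      (S.card : ℝ) ≤ ε * N := by
  intro ε hε
  obtain ⟨N₀, hN₀⟩ := all_fin f.natDegree hodd h5 f rfl hsq ε hε
  refine ⟨N₀, fun N hN S hS => hN₀ N hN S fun D hD => ?_⟩
  obtain ⟨h1, h2, x, y, hy, hxy, z, hz⟩ := hS D hD
  have hD0 : (D : ℚ) ≠ 0 := by exact_mod_cast h2.ne_zero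
  obtain ⟨k, hk⟩ := hodd
  have h3 : ((hom f z D : ℤ) : ℚ) = ((D : ℚ) ^ (k + 1) * y) * (D ^ (k + 1) * y) := by
    rw [hom_cast f hz, ← hxy, hk]
    ring
  obtain ⟨r, hr⟩ := Rat.isSquare_intCast_iff.1 ⟨_, h3⟩
  refine ⟨h1, h2, z, r, ?_, by rw [hr]; ring⟩
  rintro rfl
  rw [hr] at h3
  have h4 : (D : ℚ) ^ (k + 1) * y ≠ 0 := mul_ne_zero (pow_ne_zero _ hD0) hy
  have h5 := mul_ne_zero h4 h4
  rw [← h3] at h5
  simp at h5

/-- reduction of one point in even degree -/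
theorem even_step {f : ℤ[X]} (heven : Even f.natDegree) (h5 : 5 ≤ f.natDegree) {D : ℤ}
    (hD : Squarefree D) {x y : ℚ} (hy : y ≠ 0)
    (hxy : D * y ^ 2 = (f.map (Int.castRingHom ℚ)).eval x) {z : ℤ} (hz : D * x = z) :
    ∃ D' b X w : ℤ, Squarefree D' ∧ b ≠ 0 ∧ D' * b ^ 2 = f.leadingCoeff * D ∧ w ≠ 0 ∧
      D' * f.integralNormalization.eval X = w ^ 2 := by
  have hD0 : D ≠ 0 := hD.ne_zero
  have hDq : (D : ℚ) ≠ 0 := by exact_mod_cast hD0
  have hf1 : 1 ≤ f.natDegree := by omega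
  have hf0 : f ≠ 0 := by
    rintro rfl
    simp at hf1
  set a := f.leadingCoeff with ha'
  have ha : a ≠ 0 := by
    rw [ha', Ne, leadingCoeff_eq_zero]
    exact hf0
  obtain ⟨k, hk⟩ := heven
  set K := hom f z D with hK
  have h3 : ((D * K : ℤ) : ℚ) = ((D : ℚ) ^ (k + 1) * y) * (D ^ (k + 1) * y) := by
    push_cast
    rw [hK, hom_cast f hz, ← hxy, hk]
    ring
  obtain ⟨r, hr⟩ := Rat.isSquare_intCast_iff.1 ⟨_, h3⟩
  have hr0 : r ≠ 0 := by
    rintro rfl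
    rw [hr] at h3
    have h4 : (D : ℚ) ^ (k + 1) * y ≠ 0 := mul_ne_zero (pow_ne_zero _ hDq) hy
    have h5 := mul_ne_zero h4 h4
    rw [← h3] at h5
    simp at h5
  have hDr : D ∣ r := by
    have h4 : D ∣ r ^ 2 := ⟨K, by rw [hr]; ring⟩
    exact (hD.dvd_pow_iff_dvd two_ne_zero).1 h4
  obtain ⟨s, hs⟩ := hDr
  have hKs : K = D * s ^ 2 := by
    apply mul_left_cancel₀ hD0
    rw [hr, hs]
    ring
  have hs0 : s ≠ 0 := by
    rintro rfl
    exact hr0 (by rw [hs, mul_zero])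
  have hDaz : D ∣ a * z := by
    have h4 := dvd_hom_sub' f z D
    rw [← hK] at h4
    have h6 : D ∣ K := ⟨s ^ 2, hKs⟩
    have h7 : D ∣ a * z ^ f.natDegree := by
      have := dvd_sub h6 h4
      rwa [sub_sub_cancel] at this
    have h8 : D ∣ (a * z) ^ f.natDegree := by
      have e : (a * z) ^ f.natDegree = a ^ (f.natDegree - 1) * (a * z ^ f.natDegree) := by
        have e1 : a ^ f.natDegree = a ^ (f.natDegree - 1) * a := by
          rw [← pow_succ]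
          congr 1
          omega
        rw [mul_pow, e1]
        ring
      rw [e]
      exact h7.mul_left _
    exact (hD.dvd_pow_iff_dvd (by omega)).1 h8
  obtain ⟨X, hX⟩ := hDaz
  have h4 := hom_integralNormalization hf1 z D
  rw [← ha', hX, ← hK] at h4
  have h6 := hom_smul f.integralNormalization D X 1
  rw [mul_one, hom_one_right, h4, natDegree_integralNormalization] at h6
  -- `a^(n-1) K = D^n F(X)`
  have h7 : (a * D * f.integralNormalization.eval X) * (D ^ k) ^ 2 = (a ^ k * D * s) ^ 2 := by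
    have e1 : (D ^ k) ^ 2 = D ^ f.natDegree := by
      rw [hk, ← pow_mul]
      congr 1
      ring
    have e2 : a * a ^ (f.natDegree - 1) = (a ^ k) ^ 2 := by
      rw [← pow_succ', ← pow_mul]
      congr 1
      omega
    calc (a * D * f.integralNormalization.eval X) * (D ^ k) ^ 2
        = a * D * (D ^ f.natDegree * f.integralNormalization.eval X) := by rw [e1]; ring
      _ = a * D * (a ^ (f.natDegree - 1) * K) := by rw [← h6]
      _ = (a * a ^ (f.natDegree - 1)) * (D ^ 2 * s ^ 2) := by rw [hKs]; ring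
      _ = _ := by rw [e2]; ring
  obtain ⟨t, ht⟩ : D ^ k ∣ a ^ k * D * s :=
    (Int.pow_dvd_pow_iff two_ne_zero).1 ⟨a * D * f.integralNormalization.eval X, by rw [← h7]; ring⟩
  have hDk : D ^ k ≠ 0 := pow_ne_zero _ hD0
  have h8 : a * D * f.integralNormalization.eval X = t ^ 2 := by
    apply mul_right_cancel₀ (pow_ne_zero 2 hDk)
    rw [h7, ht]
    ring
  have ht0 : t ≠ 0 := by
    rintro rfl
    rw [mul_zero] at ht
    exact mul_ne_zero (mul_ne_zero (pow_ne_zero _ ha) hD0) hs0 ht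
  obtain ⟨c, b, hcb, hc⟩ := Nat.sq_mul_squarefree (a * D).natAbs
  have haD : a * D ≠ 0 := mul_ne_zero ha hD0
  obtain ⟨D', hD', hD'sq⟩ : ∃ D' : ℤ, D' * (b : ℤ) ^ 2 = a * D ∧ Squarefree D' := by
    rcases lt_or_gt_of_ne haD with h9 | h9
    · refine ⟨-c, ?_, ?_⟩
      · have h10 : ((b ^ 2 * c : ℕ) : ℤ) = |a * D| := by rw [hcb, Int.natCast_natAbs]
        rw [abs_of_neg h9] at h10
        push_cast at h10
        linarith
      · exact Int.squarefree_natAbs.1 (by rw [Int.natAbs_neg, Int.natAbs_natCast]; exact hc)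
    · refine ⟨c, ?_, Int.squarefree_natCast.2 hc⟩
      have h10 : ((b ^ 2 * c : ℕ) : ℤ) = |a * D| := by rw [hcb, Int.natCast_natAbs]
      rw [abs_of_pos h9] at h10
      push_cast at h10
      linarith
  have hb0 : (b : ℤ) ≠ 0 := by
    intro h9
    rw [h9] at hD'
    apply haD
    rw [← hD']
    ring
  obtain ⟨w, hw⟩ : (b : ℤ) ∣ t := by
    apply (Int.pow_dvd_pow_iff two_ne_zero).1
    rw [← h8, ← hD']
    exact ⟨D' * f.integralNormalization.eval X, by ring⟩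
  refine ⟨D', b, X, w, hD'sq, hb0, hD', ?_, ?_⟩
  · rintro rfl
    exact ht0 (by rw [hw, mul_zero])
  · apply mul_right_cancel₀ (pow_ne_zero 2 hb0)
    calc D' * f.integralNormalization.eval X * (b : ℤ) ^ 2
        = (D' * (b : ℤ) ^ 2) * f.integralNormalization.eval X := by ring
      _ = t ^ 2 := by rw [hD', h8]
      _ = w ^ 2 * (b : ℤ) ^ 2 := by rw [hw]; ring

theorem int_even (f : ℤ[X]) (heven : Even f.natDegree) (h5 : 5 ≤ f.natDegree)
    (hsq : Squarefree (f.map (Int.castRingHom ℚ))) :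
    ∀ ε : ℝ, 0 < ε → ∃ N₀ : ℕ, ∀ N : ℕ, N₀ ≤ N → ∀ S : Finset ℤ,
      (∀ D ∈ S, |D| ≤ N ∧ Squarefree D ∧ ∃ x y : ℚ, y ≠ 0 ∧
        D * y ^ 2 = (f.map (Int.castRingHom ℚ)).eval x ∧ ∃ z : ℤ, D * x = z) →
      (S.card : ℝ) ≤ ε * N := by
  classical
  intro ε hε
  have hf1 : 1 ≤ f.natDegree := by omega
  have hf0 : f ≠ 0 := by
    rintro rfl
    simp at hf1
  have ha : f.leadingCoeff ≠ 0 := by
    rw [Ne, leadingCoeff_eq_zero]
    exact hf0
  have har : 0 < (f.leadingCoeff.natAbs : ℝ) := by exact_mod_cast Int.natAbs_pos.2 ha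
  obtain ⟨N₀, hN₀⟩ := even_monic f.natDegree heven h5 f.integralNormalization
    (monic_integralNormalization hf0) natDegree_integralNormalization
    (sep_integralNormalization hf1 hsq) (ε / f.leadingCoeff.natAbs) (by positivity)
  refine ⟨N₀, fun N hN S hS => ?_⟩
  have hstep : ∀ D ∈ S, ∃ D' b X w : ℤ, Squarefree D' ∧ b ≠ 0 ∧ D' * b ^ 2 = f.leadingCoeff * D ∧
      w ≠ 0 ∧ D' * f.integralNormalization.eval X = w ^ 2 := by
    intro D hD
    obtain ⟨h1, h2, x, y, hy, hxy, z, hz⟩ := hS D hD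
    exact even_step heven h5 h2 hy hxy hz
  choose! D' b X w hD'sq hb0 hD' hw0 hw using hstep
  have hinj : Set.InjOn D' S := by
    intro D₁ h1 D₂ h2 h12
    have e1 : D₁ * (f.leadingCoeff * D' D₁) = (D' D₁ * b D₁) ^ 2 := by
      have := hD' D₁ h1
      linear_combination (-D' D₁) * this
    have e2 : D₂ * (f.leadingCoeff * D' D₁) = (D' D₂ * b D₂) ^ 2 := by
      have := hD' D₂ h2
      rw [h12]
      linear_combination (-D' D₂) * this
    exact sqf_eq (hS D₁ h1).2.1 (hS D₂ h2).2.1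
      (mul_ne_zero (hD'sq D₁ h1).ne_zero (hb0 D₁ h1)) (mul_ne_zero (hD'sq D₂ h2).ne_zero (hb0 D₂ h2)) e1 e2
  rw [← Finset.card_image_of_injOn hinj]
  have hN' : N₀ ≤ f.leadingCoeff.natAbs * N :=
    hN.trans (Nat.le_mul_of_pos_left _ (Int.natAbs_pos.2 ha))
  have h1 := hN₀ (f.leadingCoeff.natAbs * N) hN' (S.image D') (fun E hE => by
    obtain ⟨D, hD, rfl⟩ := Finset.mem_image.1 hE
    refine ⟨?_, hD'sq D hD, X D, w D, hw0 D hD, hw D hD⟩
    have h2 := (hS D hD).1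
    have h3 := hD' D hD
    have h4 : |D' D| * b D ^ 2 = |f.leadingCoeff| * |D| := by
      rw [← abs_mul, ← h3, abs_mul, abs_pow, sq_abs]
    have h5 : 1 ≤ b D ^ 2 := by
      have := hb0 D hD
      have h6 : 0 < b D ^ 2 := by positivity
      omega
    have h6 : |D' D| ≤ |f.leadingCoeff| * |D| := by
      rw [← h4]
      exact le_mul_of_one_le_right (abs_nonneg _) h5
    push_cast
    exact h6.trans (mul_le_mul_of_nonneg_left h2 (abs_nonneg _)))
  refine h1.trans (le_of_eq ?_)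
  push_cast
  field_simp

/-- all degrees at least five -/
theorem int_all (f : ℤ[X]) (h5 : 5 ≤ f.natDegree) (hsq : Squarefree (f.map (Int.castRingHom ℚ))) :
    ∀ ε : ℝ, 0 < ε → ∃ N₀ : ℕ, ∀ N : ℕ, N₀ ≤ N → ∀ S : Finset ℤ,
      (∀ D ∈ S, |D| ≤ N ∧ Squarefree D ∧ ∃ x y : ℚ, y ≠ 0 ∧
        D * y ^ 2 = (f.map (Int.castRingHom ℚ)).eval x ∧ ∃ z : ℤ, D * x = z) →
      (S.card : ℝ) ≤ ε * N := by
  rcases Nat.even_or_odd f.natDegree with h | h
  · exact int_even f h h5 hsq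
  · exact int_odd f h h5 hsq

/-- rational coefficients, denominators dividing `M D` -/
theorem rat_all (f : ℚ[X]) (h5 : 5 ≤ f.natDegree) (hsq : Squarefree f) (M : ℕ) (hM : 0 < M) :
    ∀ ε : ℝ, 0 < ε → ∃ N₀ : ℕ, ∀ N : ℕ, N₀ ≤ N → ∀ S : Finset ℤ,
      (∀ D ∈ S, |D| ≤ N ∧ Squarefree D ∧ ∃ x y : ℚ, y ≠ 0 ∧ D * y ^ 2 = f.eval x ∧
        ∃ z : ℤ, M * D * x = z) → (S.card : ℝ) ≤ ε * N := by
  have hMq : (M : ℚ) ≠ 0 := by exact_mod_cast hM.ne'
  obtain ⟨q, hq, hq2⟩ := IsLocalization.integerNormalization_spec (nonZeroDivisors ℤ) f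
  have hq0 : q ≠ 0 := nonZeroDivisors.ne_zero hq
  have hqq : (q : ℚ) ≠ 0 := by exact_mod_cast hq0
  set f₀ := IsLocalization.integerNormalization (nonZeroDivisors ℤ) f
  have hf₀ : f₀.map (Int.castRingHom ℚ) = C (q : ℚ) * f := by
    have h1 : f₀.map (Int.castRingHom ℚ) = q • f := hq2
    rw [h1, zsmul_eq_mul]
    simp
  set f₁ : ℤ[X] := C q * f₀ with hf₁
  have hf₁m : f₁.map (Int.castRingHom ℚ) = C ((q : ℚ) ^ 2) * f := by
    rw [hf₁, Polynomial.map_mul, map_C, hf₀, ← mul_assoc, ← C_mul]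
    simp only [eq_intCast]
    rw [sq]
  have hf0 : f ≠ 0 := hsq.ne_zero
  have hf₁0 : f₁ ≠ 0 := by
    intro h
    rw [h, Polynomial.map_zero] at hf₁m
    exact mul_ne_zero (C_ne_zero.2 (pow_ne_zero 2 hqq)) hf0 hf₁m.symm
  set f₂ : ℤ[X] := f₁.scaleRoots ((M : ℤ) ^ 2) with hf₂
  have hf₂m : f₂.map (Int.castRingHom ℚ) = (C ((q : ℚ) ^ 2) * f).scaleRoots ((M : ℚ) ^ 2) := by
    rw [hf₂, map_scaleRoots _ _ _ (by simpa using hf₁0), hf₁m]
    simp
  have hdeg1 : (C ((q : ℚ) ^ 2) * f).natDegree = f.natDegree :=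
    natDegree_C_mul (pow_ne_zero 2 hqq)
  have hdeg : f₂.natDegree = f.natDegree := by
    rw [← natDegree_map_eq_of_injective (RingHom.injective_int (Int.castRingHom ℚ)) f₂, hf₂m,
      natDegree_scaleRoots, hdeg1]
  have hsq2 : Squarefree (f₂.map (Int.castRingHom ℚ)) := by
    rw [hf₂m]
    refine squarefree_scaleRoots ?_ (pow_ne_zero 2 hMq)
    have hu : IsUnit (C ((q : ℚ) ^ 2) : ℚ[X]) := isUnit_C.2 (isUnit_iff_ne_zero.2 (pow_ne_zero 2 hqq))
    exact hsq.squarefree_of_dvd ((hu.dvd_mul_left.1 dvd_rfl))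
  intro ε hε
  obtain ⟨N₀, hN₀⟩ := int_all f₂ (by rw [hdeg]; exact h5) hsq2 ε hε
  refine ⟨N₀, fun N hN S hS => hN₀ N hN S fun D hD => ?_⟩
  obtain ⟨h1, h2, x, y, hy, hxy, z, hz⟩ := hS D hD
  refine ⟨h1, h2, (M : ℚ) ^ 2 * x, (M : ℚ) ^ f.natDegree * q * y,
    mul_ne_zero (mul_ne_zero (pow_ne_zero _ hMq) hqq) hy, ?_, M * z, ?_⟩
  · rw [hf₂m, scaleRoots_eval_mul, hdeg1, eval_mul, eval_C, ← hxy]
    ring
  · push_cast
    rw [← hz]
    ring

/-- **Theorem.** -/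
theorem final (f : ℚ[X]) (h5 : 5 ≤ f.natDegree) (hsq : Squarefree f) (M : ℕ) (hM : 0 < M) :
    Tendsto (fun N : ℕ => (({D : ℤ | |D| ≤ N ∧ Squarefree D ∧ ∃ x y : ℚ, y ≠ 0 ∧
      D * y ^ 2 = f.eval x ∧ ∃ z : ℤ, M * D * x = z}.ncard : ℕ) : ℝ) / N) atTop (𝓝 0) := by
  rw [Metric.tendsto_atTop]
  intro ε hε
  obtain ⟨N₀, hN₀⟩ := rat_all f h5 hsq M hM (ε / 2) (by positivity)
  refine ⟨N₀ + 1, fun N hN => ?_⟩
  set S : Set ℤ := {D : ℤ | |D| ≤ N ∧ Squarefree D ∧ ∃ x y : ℚ, y ≠ 0 ∧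
      D * y ^ 2 = f.eval x ∧ ∃ z : ℤ, M * D * x = z} with hS
  have hfin : S.Finite := (Set.finite_Icc (-(N : ℤ)) N).subset fun D hD => abs_le.1 hD.1
  have h1 := hN₀ N (by omega) hfin.toFinset (fun D hD => by
    rw [Set.Finite.mem_toFinset] at hD
    exact hD)
  rw [← Set.ncard_eq_toFinset_card S hfin] at h1
  have hN1 : (0 : ℝ) < N := by
    have : 0 < N := by omega
    exact_mod_cast this
  rw [Real.dist_eq, sub_zero, abs_of_nonneg (by positivity), div_lt_iff₀ hN1]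
  nlinarith

end Pool.Agent.H49TB
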