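import Mathlib

/-!
Ideals of bounded norm, units modulo squares, elements whose ideal is a square up to a bounded factor.
-/

set_option autoImplicit false

open NumberField Filter
open scoped nonZeroDivisors

namespace Pool.Agent.H49TB

variable (K : Type) [Field K] [NumberField K]

/-- the number of ideals of bounded norm (copied from `H57R3.VJ.C`, in terms of a finset) -/
theorem ideals_card : ∃ C : ℝ, 0 < C ∧ ∀ Y : ℝ, 1 ≤ Y →
    ∃ S : Finset (Ideal (𝓞 K)), (∀ I, I ∈ S ↔ (Ideal.absNorm I : ℝ) ≤ Y) ∧ (S.card : ℝ) ≤ C * Y := by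
  classical
  have hfin : ∀ s : ℝ, {I : Ideal (𝓞 K) | (Ideal.absNorm I : ℝ) ≤ s}.Finite := by
    intro s
    refine (Ideal.finite_setOfPred_absNorm_le (S := 𝓞 K) ⌊s⌋₊).subset ?_
    intro I hI
    exact Nat.le_floor hI
  have h := NumberField.Ideal.tendsto_norm_le_div_atTop K
  set c := ((2 ^ InfinitePlace.nrRealPlaces K * (2 * Real.pi) ^ InfinitePlace.nrComplexPlaces K *
    Units.regulator K * classNumber K) / (Units.torsionOrder K * Real.sqrt |discr K|) : ℝ) with hc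
  have h2 : ∀ᶠ s : ℝ in atTop, (Nat.card {I : Ideal (𝓞 K) // (Ideal.absNorm I : ℝ) ≤ s} : ℝ) / s ≤ |c| + 1 := by
    filter_upwards [h.eventually_lt_const (show c < |c| + 1 by linarith [le_abs_self c])] with s hs
    exact hs.le
  obtain ⟨s0, hs0⟩ := eventually_atTop.1 h2
  set t := max s0 1 with ht
  have key : ∀ Y : ℝ, 1 ≤ Y →
      (Nat.card {I : Ideal (𝓞 K) // (Ideal.absNorm I : ℝ) ≤ Y} : ℝ) ≤ (|c| + 1) * t * Y := by
    intro Y hY
    have ht1 : 1 ≤ t := le_max_right _ _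
    have hc1 : 0 < |c| + 1 := by positivity
    rcases le_total t Y with hYt | hYt
    · have h3 := hs0 Y ((le_max_left _ _).trans hYt)
      rw [div_le_iff₀ (by linarith)] at h3
      refine h3.trans ?_
      have : (|c| + 1) * 1 ≤ (|c| + 1) * t := mul_le_mul_of_nonneg_left ht1 hc1.le
      nlinarith
    · have h3 := hs0 t (le_max_left _ _)
      rw [div_le_iff₀ (by linarith)] at h3
      have h4 : Nat.card {I : Ideal (𝓞 K) // (Ideal.absNorm I : ℝ) ≤ Y} ≤
          Nat.card {I : Ideal (𝓞 K) // (Ideal.absNorm I : ℝ) ≤ t} := by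
        haveI : Finite {I : Ideal (𝓞 K) // (Ideal.absNorm I : ℝ) ≤ t} := hfin t
        exact Nat.card_le_card_of_injective (fun I => ⟨I.1, I.2.trans hYt⟩) (fun I J h => Subtype.ext (by
          simpa using h))
      calc (Nat.card {I : Ideal (𝓞 K) // (Ideal.absNorm I : ℝ) ≤ Y} : ℝ) ≤
          Nat.card {I : Ideal (𝓞 K) // (Ideal.absNorm I : ℝ) ≤ t} := by exact_mod_cast h4
        _ ≤ (|c| + 1) * t := h3
        _ ≤ (|c| + 1) * t * Y := le_mul_of_one_le_right (by positivity) hY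
  have ht1 : 1 ≤ t := le_max_right _ _
  refine ⟨(|c| + 1) * t, by positivity, fun Y hY => ⟨(hfin Y).toFinset, fun I => by simp, ?_⟩⟩
  have h5 := key Y hY
  have h6 : Nat.card {I : Ideal (𝓞 K) // (Ideal.absNorm I : ℝ) ≤ Y} = (hfin Y).toFinset.card :=
    Nat.card_eq_card_finite_toFinset (hfin Y)
  rwa [h6] at h5

/-- finiteness of units modulo squares -/
theorem units_sq : ∃ T : Finset (𝓞 K)ˣ, ∀ u : (𝓞 K)ˣ, ∃ t ∈ T, ∃ w : (𝓞 K)ˣ, u = t * w ^ 2 := by
  classical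
  have : Group.FG (𝓞 K)ˣ := Group.fg_iff_monoid_fg.mpr inferInstance
  have h := Subgroup.finiteIndex_range_powMonoidHom_of_fg (𝓞 K)ˣ (n := 2) two_ne_zero
  have : Finite ((𝓞 K)ˣ ⧸ (powMonoidHom (α := (𝓞 K)ˣ) 2).range) :=
    Subgroup.finite_quotient_of_finiteIndex
  have := Fintype.ofFinite ((𝓞 K)ˣ ⧸ (powMonoidHom (α := (𝓞 K)ˣ) 2).range)
  refine ⟨Finset.univ.image (fun q : (𝓞 K)ˣ ⧸ (powMonoidHom (α := (𝓞 K)ˣ) 2).range => q.out),
    fun u => ?_⟩
  refine ⟨(QuotientGroup.mk (s := (powMonoidHom (α := (𝓞 K)ˣ) 2).range) u).out,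
    Finset.mem_image_of_mem _ (Finset.mem_univ _), ?_⟩
  have h1 : QuotientGroup.mk (s := (powMonoidHom (α := (𝓞 K)ˣ) 2).range)
      (QuotientGroup.mk (s := (powMonoidHom (α := (𝓞 K)ˣ) 2).range) u).out =
      QuotientGroup.mk u := QuotientGroup.out_eq' _
  rw [QuotientGroup.eq] at h1
  obtain ⟨w, hw⟩ := h1
  refine ⟨w, ?_⟩
  rw [powMonoidHom_apply] at hw
  rw [hw, mul_inv_cancel_left]

/-- elements whose ideal is a square up to a factor of bounded norm -/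
theorem fin_rep (B : ℕ) : ∃ T : Finset (𝓞 K), (∀ t ∈ T, t ≠ 0) ∧ ∀ a : 𝓞 K, a ≠ 0 →
    ∀ c J : Ideal (𝓞 K), Ideal.span {a} = c * J ^ 2 → Ideal.absNorm c ≤ B →
      ∃ t ∈ T, ∃ d : 𝓞 K, d ^ 2 = a * t := by
  classical
  have hfin := Ideal.finite_setOfPred_absNorm_le (S := 𝓞 K) B
  set D : Finset (Ideal (𝓞 K)) := hfin.toFinset with hD
  obtain ⟨U, hU⟩ := units_sq K
  let Rel : Ideal (𝓞 K) × ClassGroup (𝓞 K) → 𝓞 K → Prop := fun c a =>
    a ≠ 0 ∧ ∃ J : (Ideal (𝓞 K))⁰, Ideal.span {a} = (J : Ideal (𝓞 K)) ^ 2 * c.1 ∧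
      ClassGroup.mk0 J = c.2
  let rep : Ideal (𝓞 K) × ClassGroup (𝓞 K) → 𝓞 K := fun c =>
    if h : ∃ a, Rel c a then Classical.choose h else 1
  have hrep0 : ∀ c, rep c ≠ 0 := by
    intro c
    simp only [rep]
    split_ifs with h
    · exact (Classical.choose_spec h).1
    · exact one_ne_zero
  let T : Finset (𝓞 K) := ((D ×ˢ (Finset.univ : Finset (ClassGroup (𝓞 K)))) ×ˢ U).image
    (fun c => rep c.1 * (c.2 : 𝓞 K))
  refine ⟨T, ?_, ?_⟩
  · intro t ht
    simp only [T, Finset.mem_image] at ht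
    obtain ⟨c, -, rfl⟩ := ht
    exact mul_ne_zero (hrep0 _) (Units.ne_zero _)
  · intro a ha d J hIJ hdB
    have hI : Ideal.span {a} ≠ (0 : Ideal (𝓞 K)) := by simpa using ha
    have hd : d ∈ D := by
      rw [hD, Set.Finite.mem_toFinset]
      exact hdB
    have hJ : J ≠ 0 := by
      rintro rfl
      rw [zero_pow two_ne_zero, mul_zero] at hIJ
      exact hI hIJ
    rw [mul_comm] at hIJ
    set J' : (Ideal (𝓞 K))⁰ := ⟨J, mem_nonZeroDivisors_iff_ne_zero.mpr hJ⟩ with hJ'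
    have hR : Rel (d, ClassGroup.mk0 J') a := ⟨ha, J', hIJ, rfl⟩
    have hex : ∃ a, Rel (d, ClassGroup.mk0 J') a := ⟨a, hR⟩
    have hrepe : rep (d, ClassGroup.mk0 J') = Classical.choose hex := by
      simp only [rep]
      rw [dif_pos hex]
    obtain ⟨hb0, J2, hJ2, hcl⟩ := Classical.choose_spec hex
    rw [← hrepe] at hb0 hJ2
    set b := rep (d, ClassGroup.mk0 J') with hb
    obtain ⟨x, y, hx, hy, hxy⟩ := ClassGroup.mk0_eq_mk0_iff.mp hcl
    have h1 : Ideal.span {y ^ 2 * a} = Ideal.span {x ^ 2 * b} := by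
      rw [← Ideal.span_singleton_mul_span_singleton, ← Ideal.span_singleton_mul_span_singleton,
        ← Ideal.span_singleton_pow, ← Ideal.span_singleton_pow, hIJ, hJ2]
      have h2 : (Ideal.span {y} * (J' : Ideal (𝓞 K))) = Ideal.span {x} * (J2 : Ideal (𝓞 K)) :=
        hxy.symm
      calc Ideal.span {y} ^ 2 * (J ^ 2 * d) = (Ideal.span {y} * J) ^ 2 * d := by
            rw [mul_pow, mul_assoc]
        _ = (Ideal.span {x} * (J2 : Ideal (𝓞 K))) ^ 2 * d := by rw [← h2]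
        _ = _ := by rw [mul_pow, mul_assoc]
    rw [Ideal.span_singleton_eq_span_singleton] at h1
    obtain ⟨u, hu⟩ := h1.symm
    obtain ⟨t, ht, w, hw⟩ := hU u
    -- `y² a = x² b u`, `u = t w²`
    have hT : b * (t : 𝓞 K) ∈ T := by
      simp only [T, Finset.mem_image]
      refine ⟨((d, ClassGroup.mk0 J'), t), ?_, rfl⟩
      simp only [Finset.mem_product, Finset.mem_univ, and_true]
      exact ⟨hd, ht⟩
    have h3 : y ^ 2 * (a * (b * (t : 𝓞 K))) = (x * b * (t : 𝓞 K) * (w : 𝓞 K)) ^ 2 := by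
      have h4 : x ^ 2 * b * ((t : 𝓞 K) * (w : 𝓞 K) ^ 2) = y ^ 2 * a := by
        rw [← hu, hw]
        push_cast
        ring
      calc y ^ 2 * (a * (b * (t : 𝓞 K))) = (y ^ 2 * a) * (b * t) := by ring
        _ = _ := by rw [← h4]; ring
    have h5 : y ^ 2 ∣ (x * b * (t : 𝓞 K) * (w : 𝓞 K)) ^ 2 := ⟨_, h3.symm⟩
    rw [IsIntegrallyClosed.pow_dvd_pow_iff two_ne_zero] at h5
    obtain ⟨e, he⟩ := h5
    refine ⟨b * (t : 𝓞 K), hT, e, ?_⟩
    rw [he, mul_pow] at h3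
    exact (mul_left_cancel₀ (pow_ne_zero _ hy) h3).symm

end Pool.Agent.H49TB
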