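import Pool.Agent.H49TB.Fld

/-!
Small elements of ideals.
-/

set_option autoImplicit false

open Polynomial NumberField

namespace Pool.Agent.H49TB

open Pool.Agent.H49SH

variable {K : Type} [Field K] [NumberField K] {h : ℤ[X]}

theorem Gen.norm_le (G : Gen K h) : ∃ C : ℝ, 1 ≤ C ∧ ∀ a : ℤ[X], a.natDegree < h.natDegree →
    ∀ T : ℝ, 0 ≤ T → (∀ k, |(a.coeff k : ℝ)| ≤ T) →
    ((Algebra.norm ℤ (aeval G.θ a)).natAbs : ℝ) ≤ C * T ^ h.natDegree := by
  classical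
  set r := h.natDegree with hr
  let M : (K →ₐ[ℚ] ℂ) → ℝ := fun σ => ∑ k ∈ Finset.range r, ‖σ (G.θ : K)‖ ^ k
  have hM : ∀ σ, 0 ≤ M σ := fun σ => Finset.sum_nonneg fun k _ => by positivity
  refine ⟨max 1 (∏ σ, M σ), le_max_left _ _, fun a ha T hT haT => ?_⟩
  have h1 : ((Algebra.norm ℤ (aeval G.θ a)).natAbs : ℝ) = ∏ σ : K →ₐ[ℚ] ℂ, ‖σ ((aeval G.θ a : 𝓞 K) : K)‖ := by
    have h2 := Algebra.norm_eq_prod_embeddings ℚ ℂ ((aeval G.θ a : 𝓞 K) : K)
    rw [← Algebra.coe_norm_int] at h2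
    have h3 := congrArg norm h2
    rw [norm_prod] at h3
    rw [← h3]
    simp [Nat.cast_natAbs]
  have h4 : ∀ σ : K →ₐ[ℚ] ℂ, ‖σ ((aeval G.θ a : 𝓞 K) : K)‖ ≤ T * M σ := by
    intro σ
    have h5 : ((aeval G.θ a : 𝓞 K) : K) = aeval (G.θ : K) a := (aeval_algebraMap_apply K G.θ a).symm
    rw [h5, aeval_eq_sum_range' ha, map_sum]
    refine (norm_sum_le _ _).trans ?_
    rw [Finset.mul_sum]
    refine Finset.sum_le_sum fun k _ => ?_
    rw [zsmul_eq_mul, map_mul, map_pow, map_intCast, norm_mul, norm_pow, Complex.norm_intCast]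
    exact mul_le_mul_of_nonneg_right (haT k) (by positivity)
  rw [h1]
  calc ∏ σ : K →ₐ[ℚ] ℂ, ‖σ ((aeval G.θ a : 𝓞 K) : K)‖ ≤ ∏ σ : K →ₐ[ℚ] ℂ, (T * M σ) :=
        Finset.prod_le_prod (fun _ _ => norm_nonneg _) (fun σ _ => h4 σ)
    _ = T ^ r * ∏ σ, M σ := by
        rw [Finset.prod_mul_distrib, Finset.prod_const, Finset.card_univ, AlgHom.card, G.hrk]
    _ ≤ T ^ r * max 1 (∏ σ, M σ) := mul_le_mul_of_nonneg_left (le_max_right _ _) (by positivity)
    _ = _ := mul_comm _ _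

theorem Gen.ne_zero_of_lt (G : Gen K h) {a : ℤ[X]} (ha : a.natDegree < h.natDegree) (ha0 : a ≠ 0) :
    aeval G.θ a ≠ 0 := by
  rw [Ne, G.hz]
  intro hd
  exact ha0 (eq_zero_of_dvd_of_natDegree_lt hd ha)

/-- the integer part of an `r`-th root -/
theorem exists_root {N r : ℕ} (hr : 0 < r) : ∃ T : ℕ, T ^ r ≤ N ∧ N < (T + 1) ^ r := by
  classical
  have hex : ∃ T : ℕ, N < (T + 1) ^ r := ⟨N, by
    calc N < N + 1 := Nat.lt_succ_self N
      _ = (N + 1) ^ 1 := (pow_one _).symm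
      _ ≤ (N + 1) ^ r := Nat.pow_le_pow_right (Nat.succ_pos _) hr⟩
  refine ⟨Nat.find hex, ?_, Nat.find_spec hex⟩
  rcases Nat.eq_zero_or_pos (Nat.find hex) with h0 | h0
  · rw [h0, zero_pow hr.ne']
    exact Nat.zero_le _
  · have h1 := Nat.find_min hex (m := Nat.find hex - 1) (by omega)
    have h2 : Nat.find hex - 1 + 1 = Nat.find hex := by omega
    rw [h2] at h1
    exact not_lt.1 h1

/-- small elements of an ideal -/
theorem Gen.small (G : Gen K h) (hr : 0 < h.natDegree) : ∃ C : ℝ, 1 ≤ C ∧ ∀ I : Ideal (𝓞 K), I ≠ ⊥ →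
    ∃ a : ℤ[X], a.natDegree < h.natDegree ∧ (∀ k, |(a.coeff k : ℝ)| ≤ Ideal.absNorm I) ∧
      aeval G.θ a ≠ 0 ∧ ∃ c : Ideal (𝓞 K), Ideal.span {aeval G.θ a} = I * c ∧
        (Ideal.absNorm c : ℝ) ≤ C := by
  classical
  obtain ⟨B, hC, hCn⟩ := G.norm_le
  refine ⟨B, hC, fun I hI => ?_⟩
  set r := h.natDegree with hrdef
  set N := Ideal.absNorm I with hN
  have hN0 : N ≠ 0 := by
    rw [hN, Ne, Ideal.absNorm_eq_zero_iff]
    exact hI
  obtain ⟨T, hT1, hT2⟩ := exists_root (N := N) hr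
  have hTN : T ≤ N := by
    rcases Nat.eq_zero_or_pos T with h0 | h0
    · omega
    · exact (Nat.le_self_pow hr.ne' T).trans hT1
  have hfin : Finite (𝓞 K ⧸ I) := Ideal.finiteQuotientOfFreeOfNeBot I hI
  have := Fintype.ofFinite (𝓞 K ⧸ I)
  have hcard : Fintype.card (𝓞 K ⧸ I) = N := by
    rw [← Nat.card_eq_fintype_card, hN, Ideal.absNorm_apply, Submodule.cardQuot_apply]
  let P : (Fin r → Fin (T + 1)) → ℤ[X] := fun v => ∑ k, C ((v k : ℕ) : ℤ) * X ^ (k : ℕ)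
  have hlt : Fintype.card (𝓞 K ⧸ I) < Fintype.card (Fin r → Fin (T + 1)) := by
    rw [hcard, Fintype.card_fun, Fintype.card_fin, Fintype.card_fin]
    exact hT2
  obtain ⟨v, w, hvw, hq⟩ := Fintype.exists_ne_map_eq_of_card_lt
    (fun v => Ideal.Quotient.mk I (aeval G.θ (P v))) hlt
  have hcoef : ∀ v : Fin r → Fin (T + 1), ∀ k : ℕ, (P v).coeff k =
      if hk : k < r then ((v ⟨k, hk⟩ : ℕ) : ℤ) else 0 := by
    intro v k
    simp only [P, finsetSum_coeff, coeff_C_mul, coeff_X_pow]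
    split_ifs with hk
    · rw [Finset.sum_eq_single ⟨k, hk⟩]
      · simp
      · intro i _ hi
        rw [if_neg, mul_zero]
        rintro rfl
        exact hi rfl
      · intro h; exact absurd (Finset.mem_univ _) h
    · refine Finset.sum_eq_zero fun i _ => ?_
      rw [if_neg, mul_zero]
      have := i.2
      omega
  set a := P v - P w with ha
  have hac : ∀ k, |(a.coeff k : ℝ)| ≤ T := by
    intro k
    rw [ha, coeff_sub, hcoef, hcoef]
    split_ifs with hk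
    · have h1 := (v ⟨k, hk⟩).2
      have h2 := (w ⟨k, hk⟩).2
      have h3 : |(((v ⟨k, hk⟩ : ℕ) : ℤ) - ((w ⟨k, hk⟩ : ℕ) : ℤ))| ≤ (T : ℤ) := by
        rw [abs_le]
        constructor <;> omega
      exact_mod_cast h3
    · simp
  have hadeg : a.natDegree < r := by
    have h1 : a.natDegree ≤ r - 1 := by
      rw [natDegree_le_iff_coeff_eq_zero]
      intro k hk
      have hk' : ¬ k < r := by omega
      rw [ha, coeff_sub, hcoef, hcoef, dif_neg hk', dif_neg hk', sub_zero]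
    omega
  have ha0 : a ≠ 0 := by
    intro h0
    apply hvw
    funext k
    have h1 : a.coeff (k : ℕ) = 0 := by rw [h0, coeff_zero]
    rw [ha, coeff_sub, hcoef, hcoef, dif_pos k.2, dif_pos k.2] at h1
    have h2 : ((v ⟨k, k.2⟩ : ℕ) : ℤ) = ((w ⟨k, k.2⟩ : ℕ) : ℤ) := by linarith
    exact Fin.ext (by exact_mod_cast h2)
  have hmem : aeval G.θ a ∈ I := by
    rw [ha, map_sub]
    exact Ideal.Quotient.eq.1 hq
  have hne := G.ne_zero_of_lt hadeg ha0
  refine ⟨a, hadeg, fun k => (hac k).trans (by exact_mod_cast hTN), hne, ?_⟩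
  obtain ⟨c, hc⟩ := (Ideal.dvd_span_singleton).2 hmem
  refine ⟨c, hc, ?_⟩
  have h1 := hCn a hadeg T (by positivity) hac
  have h2 : (Algebra.norm ℤ (aeval G.θ a)).natAbs = N * Ideal.absNorm c := by
    rw [← Ideal.absNorm_span_singleton, hc, map_mul]
  rw [h2] at h1
  have h3 : ((T : ℝ) ^ r) ≤ N := by exact_mod_cast hT1
  have h4 : (N : ℝ) * Ideal.absNorm c ≤ B * N := by
    push_cast at h1
    exact h1.trans (mul_le_mul_of_nonneg_left h3 (by linarith))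
  have h5 : (0 : ℝ) < N := by positivity
  nlinarith
end Pool.Agent.H49TB
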