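import Pool.Agent.H49TB.Fld

/-!
The ideal of `ξ - m θ`: a squarefree ideal times a square, and the norm of the squarefree part.
-/

set_option autoImplicit false

open Polynomial NumberField

namespace Pool.Agent.H49TB

open Pool.Agent.H49SH

/-- a nonzero ideal is a squarefree ideal times a square -/
theorem sq_decomp {K : Type} [Field K] [NumberField K] : ∀ (N : ℕ) (I : Ideal (𝓞 K)), I ≠ ⊥ →
    Ideal.absNorm I = N → ∃ a b : Ideal (𝓞 K), Squarefree a ∧ I = a * b ^ 2 := by
  intro N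
  induction N using Nat.strong_induction_on with
  | _ N ih =>
    intro I hI hN
    by_cases hsq : Squarefree I
    · exact ⟨I, 1, hsq, by rw [one_pow, mul_one]⟩
    · unfold Squarefree at hsq
      push Not at hsq
      obtain ⟨x, ⟨J, hJ⟩, hx⟩ := hsq
      have hJ0 : J ≠ ⊥ := by
        rintro rfl
        apply hI
        rw [hJ, Ideal.mul_bot]
      have hx0 : x ≠ ⊥ := by
        rintro rfl
        apply hI
        rw [hJ, Ideal.mul_bot, Ideal.bot_mul]
      have hN2 : N = Ideal.absNorm x * Ideal.absNorm x * Ideal.absNorm J := by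
        rw [← hN, hJ, map_mul, map_mul]
      have hx1 : 1 < Ideal.absNorm x := by
        have h1 : Ideal.absNorm x ≠ 1 := by
          rw [Ne, Ideal.absNorm_eq_one_iff]
          intro h2
          exact hx (Ideal.isUnit_iff.2 h2)
        have h2 : Ideal.absNorm x ≠ 0 := by
          rw [Ne, Ideal.absNorm_eq_zero_iff]; exact hx0
        omega
      have hJ1 : 0 < Ideal.absNorm J := by
        have h2 : Ideal.absNorm J ≠ 0 := by
          rw [Ne, Ideal.absNorm_eq_zero_iff]; exact hJ0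
        omega
      have hlt : Ideal.absNorm J < N := by
        rw [hN2]
        nlinarith [Nat.mul_le_mul hx1.le hx1.le]
      obtain ⟨a, b, ha, hab⟩ := ih _ hlt J hJ0 rfl
      exact ⟨a, x * b, ha, by rw [hJ, hab]; ring⟩

variable {K : Type} [Field K] [NumberField K] {h : ℤ[X]}

/-- the squarefree part of the ideal of `ξ - m θ` -/
theorem Gen.decomp (G : Gen K h) {ξ m : ℤ} (hc : IsCoprime ξ m) (h0 : hom h ξ m ≠ 0) :
    ∃ a b : Ideal (𝓞 K), Ideal.span {(ξ : 𝓞 K) - m * G.θ} = a * b ^ 2 ∧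
      ∃ n e : ℕ, Squarefree n ∧ Ideal.absNorm a = n * e ∧ e ∣ G.f ^ h.natDegree ∧
        ∀ p : ℕ, p.Prime → p ∣ n → ¬ p ∣ G.f → Odd (padicValNat p (hom h ξ m).natAbs) := by
  classical
  set β : 𝓞 K := (ξ : 𝓞 K) - m * G.θ with hβ
  have hnorm : Ideal.absNorm (Ideal.span {β}) = (hom h ξ m).natAbs := by
    rw [Ideal.absNorm_span_singleton, hβ, G.norm_lin]
  have hβ0 : Ideal.span {β} ≠ ⊥ := by
    intro h1
    rw [h1, Ideal.absNorm_bot] at hnorm
    exact h0 (Int.natAbs_eq_zero.1 hnorm.symm)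
  obtain ⟨a, b, ha, hab⟩ := sq_decomp _ _ hβ0 rfl
  have ha0 : a ≠ ⊥ := by
    rintro rfl
    apply hβ0
    rw [hab, Ideal.bot_mul]
  have hb0 : b ≠ ⊥ := by
    rintro rfl
    apply hβ0
    rw [hab, Ideal.bot_pow two_ne_zero, Ideal.mul_bot]
  have hβa : β ∈ a := by
    rw [← Ideal.dvd_span_singleton, hab]
    exact dvd_mul_right _ _
  -- the smallest positive integer in `a`
  have hex : ∃ n : ℕ, 0 < n ∧ (n : 𝓞 K) ∈ a := by
    refine ⟨Ideal.absNorm a, Nat.pos_of_ne_zero ?_, Ideal.absNorm_mem a⟩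
    rw [Ne, Ideal.absNorm_eq_zero_iff]
    exact ha0
  set n := Nat.find hex with hn
  obtain ⟨hn0, hna⟩ := Nat.find_spec hex
  rw [← hn] at hn0 hna
  have hmem : ∀ k : ℤ, (k : 𝓞 K) ∈ a ↔ (n : ℤ) ∣ k := by
    intro k
    constructor
    · intro hk
      have h1 : ((k % n : ℤ) : 𝓞 K) ∈ a := by
        have h2 : ((k % n : ℤ) : 𝓞 K) = (k : 𝓞 K) - (n : 𝓞 K) * ((k / n : ℤ) : 𝓞 K) := by
          rw [Int.emod_def]
          push_cast
          ring
        rw [h2]
        exact a.sub_mem hk (a.mul_mem_right _ hna)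
      by_contra hnd
      have h3 : 0 < k % n := by
        have h4 := Int.emod_nonneg k (show (n : ℤ) ≠ 0 by positivity)
        have h5 : k % n ≠ 0 := fun h6 => hnd (Int.dvd_of_emod_eq_zero h6)
        omega
      have h4 : k % n < n := Int.emod_lt_of_pos k (by positivity)
      have h5 : (k % n).toNat < n := by omega
      refine Nat.find_min hex h5 ⟨by omega, ?_⟩
      have h6 : (((k % n).toNat : ℕ) : 𝓞 K) = ((k % n : ℤ) : 𝓞 K) := by
        have h7 : (((k % n).toNat : ℕ) : ℤ) = k % n := Int.toNat_of_nonneg h3.le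
        rw [← h7]
        push_cast
        rfl
      rw [h6]
      exact h1
    · rintro ⟨c, rfl⟩
      push_cast
      exact a.mul_mem_right _ hna
  -- `n` is squarefree
  have hnsq : Squarefree n := by
    intro d hd
    obtain ⟨e, he⟩ := hd
    have h1 : ((d * e : ℕ) : 𝓞 K) ∈ a := by
      have h2 : a ∣ Ideal.span {((d * e : ℕ) : 𝓞 K)} ^ 2 := by
        rw [Ideal.span_singleton_pow, Ideal.dvd_span_singleton]
        have h3 : ((d * e : ℕ) : 𝓞 K) ^ 2 = (n : 𝓞 K) * (e : 𝓞 K) := by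
          rw [he]; push_cast; ring
        rw [h3]
        exact a.mul_mem_right _ hna
      have h4 : IsRadical a := ha.isRadical
      exact Ideal.dvd_span_singleton.1 (h4 2 _ h2)
    have h5 : (n : ℤ) ∣ ((d * e : ℕ) : ℤ) := (hmem _).1 (by exact_mod_cast h1)
    have h6 : n ∣ d * e := by exact_mod_cast h5
    have hde : 0 < d * e := by
      rcases Nat.eq_zero_or_pos (d * e) with h7 | h7
      · rw [he, mul_assoc, h7, mul_zero] at hn0
        omega
      · exact h7
    have h7 := Nat.le_of_dvd hde h6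
    rw [he, mul_assoc] at h7
    have h8 : d ≤ 1 := by
      by_contra h9
      push Not at h9
      nlinarith
    have h9 : d ≠ 0 := by
      rintro rfl
      simp at hde
    rw [Nat.isUnit_iff]
    omega
  -- `gcd(m, n) = 1`
  have hmn : IsCoprime m (n : ℤ) := by
    rw [Int.isCoprime_iff_gcd_eq_one]
    by_contra hg
    obtain ⟨p, hp, hpg⟩ := Nat.exists_prime_and_dvd hg
    have hpm : (p : ℤ) ∣ m := (Int.natCast_dvd_natCast.2 hpg).trans (Int.gcd_dvd_left _ _)
    have hpn : (p : ℤ) ∣ n := (Int.natCast_dvd_natCast.2 hpg).trans (Int.gcd_dvd_right _ _)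
    obtain ⟨m', hm'⟩ := hpm
    have hpn' : p ∣ n := by exact_mod_cast hpn
    obtain ⟨n', hn'⟩ := hpn'
    -- `n' ξ ∈ a`
    have h1 : ((n' * ξ : ℤ) : 𝓞 K) ∈ a := by
      have h2 : ((n' * ξ : ℤ) : 𝓞 K) = (n' : 𝓞 K) * β + (n : 𝓞 K) * ((m' : 𝓞 K) * G.θ) := by
        rw [hβ, hm', hn']
        push_cast
        ring
      rw [h2]
      exact a.add_mem (a.mul_mem_left _ hβa) (a.mul_mem_right _ hna)
    have h3 := (hmem _).1 h1
    rw [hn'] at h3
    push_cast at h3
    have hn'0 : (n' : ℤ) ≠ 0 := by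
      rintro h4
      have : n' = 0 := by exact_mod_cast h4
      rw [this, mul_zero] at hn'
      omega
    rw [mul_comm (p : ℤ)] at h3
    have h4 : (p : ℤ) ∣ ξ := (mul_dvd_mul_iff_left hn'0).1 h3
    have h5 : (p : ℤ) ∣ m := ⟨m', hm'⟩
    have h6 := hc.isUnit_of_dvd' h4 h5
    rw [Int.isUnit_iff] at h6
    have := hp.two_le
    omega
  obtain ⟨u, v, huv⟩ := hmn
  -- `θ ≡ u ξ`
  have hθ : G.θ - ((u * ξ : ℤ) : 𝓞 K) ∈ a := by
    have h1 : G.θ - ((u * ξ : ℤ) : 𝓞 K) = (n : 𝓞 K) * ((v : 𝓞 K) * G.θ) - (u : 𝓞 K) * β := by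
      have h2 : (u : 𝓞 K) * m + v * n = 1 := by
        have := congrArg (fun t : ℤ => (t : 𝓞 K)) huv
        push_cast at this
        exact this
      rw [hβ]
      push_cast
      linear_combination (-G.θ) * h2
    rw [h1]
    exact a.sub_mem (a.mul_mem_right _ hna) (a.mul_mem_left _ hβa)
  have hpol : ∀ p : ℤ[X], aeval G.θ p - ((p.eval (u * ξ) : ℤ) : 𝓞 K) ∈ a := by
    intro p
    have h1 := sub_dvd_eval_sub G.θ ((u * ξ : ℤ) : 𝓞 K) (p.map (Int.castRingHom (𝓞 K)))
    have h2 : (p.map (Int.castRingHom (𝓞 K))).eval G.θ = aeval G.θ p := by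
      rw [eval_map, aeval_def]
      rfl
    have h3 : (p.map (Int.castRingHom (𝓞 K))).eval ((u * ξ : ℤ) : 𝓞 K) = ((p.eval (u * ξ) : ℤ) : 𝓞 K) := by
      have h4 := eval₂_at_apply (p := p) (Int.castRingHom (𝓞 K)) (u * ξ)
      rw [eval_map]
      simpa using h4
    rw [h2, h3] at h1
    obtain ⟨w, hw⟩ := h1
    rw [hw]
    exact a.mul_mem_right _ hθ
  -- indices
  let A : AddSubgroup (𝓞 K) := a.toAddSubgroup
  let φ : ℤ →+ 𝓞 K := (Int.castRingHom (𝓞 K)).toAddMonoidHom
  let H : AddSubgroup (𝓞 K) := φ.range ⊔ A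
  have hA : A.index = Ideal.absNorm a := by
    rw [Ideal.absNorm_apply, Submodule.cardQuot_apply]
    rfl
  have h1 : A.relIndex H = n := by
    have h2 : A.relIndex H = A.relIndex φ.range := by
      show A.relIndex (φ.range ⊔ A) = _
      rw [sup_comm]
      exact AddSubgroup.relIndex_sup_left _ _
    rw [h2, ← AddSubgroup.index_comap]
    have h3 : A.comap φ = AddSubgroup.zmultiples (n : ℤ) := by
      ext k
      rw [AddSubgroup.mem_comap, Int.mem_zmultiples_iff]
      exact hmem k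
    rw [h3, Int.index_zmultiples]
    simp
  have h2 : A.index = n * H.index := by
    rw [← h1]
    exact (AddSubgroup.relIndex_mul_index le_sup_right).symm
  have h3 : H.index ∣ G.f ^ h.natDegree := by
    let F : AddSubgroup (𝓞 K) := (Ideal.span {(G.f : 𝓞 K)}).toAddSubgroup
    have hF : F.index = G.f ^ h.natDegree := by
      have h4 : F.index = Ideal.absNorm (Ideal.span {(G.f : 𝓞 K)}) := by
        rw [Ideal.absNorm_apply, Submodule.cardQuot_apply]
        rfl
      rw [h4, Ideal.absNorm_span_natCast, ← G.hrk]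
      congr 1
      exact RingOfIntegers.rank K
    rw [← hF]
    refine AddSubgroup.index_dvd_of_le ?_
    intro x hx
    have hx' : x ∈ Ideal.span {(G.f : 𝓞 K)} := hx
    rw [Ideal.mem_span_singleton] at hx'
    obtain ⟨α, rfl⟩ := hx'
    obtain ⟨p, hp⟩ := G.hf α
    rw [hp]
    have h5 : aeval G.θ p = ((p.eval (u * ξ) : ℤ) : 𝓞 K) + (aeval G.θ p - ((p.eval (u * ξ) : ℤ) : 𝓞 K)) := by
      ring
    rw [h5]
    refine AddSubgroup.add_mem_sup ?_ (hpol p)
    exact ⟨p.eval (u * ξ), rfl⟩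
  refine ⟨a, b, hab, n, H.index, hnsq, by rw [← hA, h2], h3, ?_⟩
  intro p hp hpn hpf
  have hb1 : Ideal.absNorm b ≠ 0 := by
    rw [Ne, Ideal.absNorm_eq_zero_iff]; exact hb0
  have hH0 : H.index ≠ 0 := by
    intro h4
    rw [h4, mul_zero, hA, Ideal.absNorm_eq_zero_iff] at h2
    exact ha0 h2
  have hfac : Fact p.Prime := ⟨hp⟩
  have h4 : (hom h ξ m).natAbs = (n * H.index) * Ideal.absNorm b ^ 2 := by
    rw [← hnorm, hab, map_mul, map_pow, ← hA, h2]
  rw [h4, padicValNat.mul (mul_ne_zero hn0.ne' hH0) (pow_ne_zero _ hb1), padicValNat.mul hn0.ne' hH0,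
    padicValNat.pow]
  have h5 : padicValNat p H.index = 0 := by
    refine padicValNat.eq_zero_of_not_dvd fun h6 => hpf ?_
    exact hp.dvd_of_dvd_pow (h6.trans h3)
  have h6 : padicValNat p n = 1 := by
    have h7 := hnsq.natFactorization_le_one p
    rw [Nat.factorization_def n hp] at h7
    have h8 := one_le_padicValNat_of_dvd hn0.ne' hpn
    omega
  rw [h5, h6]
  exact ⟨padicValNat p (Ideal.absNorm b), by ring⟩

end Pool.Agent.H49TB
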