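import Pool.Agent.H49TB.Idl1
import Pool.Agent.H49TB.Idl2
import Pool.Agent.H49TB.Idl3

/-!
The class polynomials: for every `X` there are `O(X)` polynomials `a` such that `a(θ)(ξ - mθ)` is a
square for all coprime `ξ, m` with squarefree part of norm at most `X`.
-/

set_option autoImplicit false

open Polynomial NumberField

namespace Pool.Agent.H49TB

open Pool.Agent.H49SH

/-- coefficients of a multiple modulo `h` -/
theorem mod_bound (h : ℤ[X]) (hm : h.Monic) (q : ℤ[X]) : ∃ B : ℝ, 1 ≤ B ∧ ∀ (a : ℤ[X]) (T : ℝ),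
    a.natDegree < h.natDegree → (∀ k, |(a.coeff k : ℝ)| ≤ T) →
    ∀ k, |(((q * a) %ₘ h).coeff k : ℝ)| ≤ B * T := by
  classical
  let M : ℕ → ℝ := fun i => ∑ k ∈ Finset.range h.natDegree, |((((q * X ^ i) %ₘ h).coeff k : ℤ) : ℝ)|
  have hM : ∀ i, 0 ≤ M i := fun i => Finset.sum_nonneg fun k _ => abs_nonneg _
  have hMk : ∀ i k, |((((q * X ^ i) %ₘ h).coeff k : ℤ) : ℝ)| ≤ M i := by
    intro i k
    by_cases hk : k < h.natDegree
    · exact Finset.single_le_sum (f := fun k => |((((q * X ^ i) %ₘ h).coeff k : ℤ) : ℝ)|)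
        (fun _ _ => abs_nonneg _) (Finset.mem_range.2 hk)
    · rcases eq_or_ne h 1 with h1 | h1
      · rw [h1, modByMonic_one, coeff_zero]
        simpa using hM i
      · rw [coeff_eq_zero_of_natDegree_lt]
        · simpa using hM i
        · exact (natDegree_modByMonic_lt _ hm h1).trans_le (not_lt.1 hk)
  refine ⟨1 + ∑ i ∈ Finset.range h.natDegree, M i, by
    have := Finset.sum_nonneg (s := Finset.range h.natDegree) fun i _ => hM i
    linarith, fun a T ha hT k => ?_⟩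
  have hT0 : 0 ≤ T := (abs_nonneg _).trans (hT 0)
  have h1 : (q * a) %ₘ h = ∑ i ∈ Finset.range h.natDegree, C (a.coeff i) * ((q * X ^ i) %ₘ h) := by
    conv_lhs => rw [a.as_sum_range_C_mul_X_pow' ha]
    rw [Finset.mul_sum]
    have h2 := map_sum (modByMonicHom h) (fun i => q * (C (a.coeff i) * X ^ i)) (Finset.range h.natDegree)
    simp only [modByMonicHom_apply] at h2
    rw [h2]
    refine Finset.sum_congr rfl fun i _ => ?_
    rw [← smul_eq_C_mul, ← smul_eq_C_mul, ← smul_modByMonic, mul_smul_comm]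
  rw [h1, finsetSum_coeff]
  push_cast
  refine (Finset.abs_sum_le_sum_abs _ _).trans ?_
  calc ∑ i ∈ Finset.range h.natDegree, |(((C (a.coeff i) * ((q * X ^ i) %ₘ h)).coeff k : ℤ) : ℝ)|
      ≤ ∑ i ∈ Finset.range h.natDegree, T * M i := by
        refine Finset.sum_le_sum fun i _ => ?_
        rw [coeff_C_mul]
        push_cast
        rw [abs_mul]
        exact mul_le_mul (hT i) (hMk i k) (abs_nonneg _) hT0
    _ = (∑ i ∈ Finset.range h.natDegree, M i) * T := by rw [← Finset.mul_sum, mul_comm]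
    _ ≤ _ := by nlinarith

variable {K : Type} [Field K] [NumberField K] {h : ℤ[X]}

theorem Gen.idl (G : Gen K h) (hr : 0 < h.natDegree) : ∃ (B : ℝ) (A : ℝ → Finset ℤ[X]), 1 ≤ B ∧
    (∀ T : ℝ, 1 ≤ T → ((A T).card : ℝ) ≤ B * T ∧ ∀ a ∈ A T, a.natDegree < h.natDegree ∧
      (∀ k, |(a.coeff k : ℝ)| ≤ B * T) ∧ a ≠ 0) ∧
    ∀ ξ m : ℤ, IsCoprime ξ m → hom h ξ m ≠ 0 → ∃ n : ℕ, Squarefree n ∧
      (∀ p : ℕ, p.Prime → p ∣ n → ¬ p ∣ G.f → Odd (padicValNat p (hom h ξ m).natAbs)) ∧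
      ∀ T : ℝ, 1 ≤ T → (n : ℝ) ≤ T → ∃ a ∈ A T, ∃ b : ℤ[X], h ∣ b ^ 2 - a * (C ξ - C m * X) := by
  classical
  obtain ⟨B₁, hB₁, hI⟩ := ideals_card K
  obtain ⟨B₂, hB₂, hS⟩ := G.small hr
  obtain ⟨Γ, hΓ0, hΓ⟩ := fin_rep K ⌊B₂⌋₊
  choose g hg using G.hf
  choose! sm hsm using hS
  choose M hM1 hM2 using fun t : 𝓞 K => mod_bound h G.hm (C (G.f : ℤ) * g t)
  set F : ℝ := (G.f : ℝ) ^ h.natDegree with hF
  have hfr : (1 : ℝ) ≤ G.f := by exact_mod_cast G.fpos
  have hF1 : 1 ≤ F := one_le_pow₀ hfr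
  have hmod1 : h ≠ 1 := by
    rintro rfl
    simp at hr
  choose! S hS1 hS2 using hI
  let pol : Ideal (𝓞 K) × 𝓞 K → ℤ[X] := fun q => (C (G.f : ℤ) * g q.2 * sm q.1) %ₘ h
  let A : ℝ → Finset ℤ[X] := fun T => (((S (F * T)).filter (fun I => I ≠ ⊥)) ×ˢ Γ).image pol
  have hpol : ∀ q : Ideal (𝓞 K) × 𝓞 K, aeval G.θ (pol q) =
      (G.f : 𝓞 K) * ((G.f : 𝓞 K) * q.2) * aeval G.θ (sm q.1) := by
    intro q
    have h1 : aeval G.θ (pol q) = aeval G.θ (C (G.f : ℤ) * g q.2 * sm q.1) := by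
      rw [← sub_eq_zero, ← map_sub, G.hz]
      have h2 := modByMonic_add_div (C (G.f : ℤ) * g q.2 * sm q.1) h
      refine ⟨-((C (G.f : ℤ) * g q.2 * sm q.1) /ₘ h), ?_⟩
      simp only [pol]
      linear_combination h2
    rw [h1, map_mul, map_mul, ← hg, aeval_C]
    simp
  set MM : ℝ := ∑ t ∈ Γ, M t with hMM
  have hM0 : ∀ t, 0 ≤ M t := fun t => zero_le_one.trans (hM1 t)
  refine ⟨max 1 (max (B₁ * F * Γ.card) (MM * F)), A, le_max_left _ _, ?_, ?_⟩
  · intro T hT
    have hFT : 1 ≤ F * T := by nlinarith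
    constructor
    · have h1 : ((A T).card : ℝ) ≤ (S (F * T)).card * Γ.card := by
        have h2 : (A T).card ≤ (S (F * T)).card * Γ.card := by
          refine Finset.card_image_le.trans ?_
          rw [Finset.card_product]
          exact Nat.mul_le_mul_right _ (Finset.card_filter_le _ _)
        exact_mod_cast h2
      calc ((A T).card : ℝ) ≤ (S (F * T)).card * Γ.card := h1
        _ ≤ (B₁ * (F * T)) * Γ.card := mul_le_mul_of_nonneg_right (hS2 _ hFT) (by positivity)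
        _ = (B₁ * F * Γ.card) * T := by ring
        _ ≤ _ := mul_le_mul_of_nonneg_right ((le_max_left _ _).trans (le_max_right _ _)) (by linarith)
    · intro a ha
      obtain ⟨⟨I, t⟩, hIt, rfl⟩ := Finset.mem_image.1 ha
      rw [Finset.mem_product, Finset.mem_filter, hS1 _ hFT] at hIt
      obtain ⟨⟨hI1, hI2⟩, ht⟩ := hIt
      obtain ⟨hs1, hs2, hs3, -⟩ := hsm I hI2
      simp only at hI1 hI2 ht hs1 hs2 hs3
      refine ⟨natDegree_modByMonic_lt _ G.hm hmod1, ?_, ?_⟩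
      · intro k
        have h1 := hM2 t (sm I) (F * T) hs1 (fun k => (hs2 k).trans hI1) k
        refine h1.trans ?_
        have h2 : M t ≤ MM := Finset.single_le_sum (f := M) (fun _ _ => hM0 _) ht
        calc M t * (F * T) ≤ MM * (F * T) := mul_le_mul_of_nonneg_right h2 (by linarith)
          _ = (MM * F) * T := by ring
          _ ≤ _ := mul_le_mul_of_nonneg_right ((le_max_right _ _).trans (le_max_right _ _)) (by linarith)
      · intro h0
        have h1 := hpol (I, t)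
        rw [h0, map_zero] at h1
        have h2 : (G.f : 𝓞 K) ≠ 0 := by
          have := G.fpos
          exact_mod_cast this.ne'
        exact (mul_ne_zero (mul_ne_zero h2 (mul_ne_zero h2 (hΓ0 t ht))) hs3) h1.symm
  · intro ξ m hc h0
    obtain ⟨a, b, hab, n, e, hn, hne, he, hodd⟩ := G.decomp hc h0
    refine ⟨n, hn, hodd, fun T hT hnT => ?_⟩
    have hFT : 1 ≤ F * T := by nlinarith
    set β : 𝓞 K := (ξ : 𝓞 K) - m * G.θ with hβ
    have hβ0 : β ≠ 0 := by
      intro h1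
      have h2 := G.norm_lin ξ m
      rw [← hβ, h1, Algebra.norm_zero] at h2
      exact h0 h2.symm
    have ha0 : a ≠ ⊥ := by
      rintro rfl
      rw [Ideal.bot_mul, Ideal.span_singleton_eq_bot] at hab
      exact hβ0 hab
    have haS : a ∈ (S (F * T)).filter (fun I => I ≠ ⊥) := by
      rw [Finset.mem_filter, hS1 _ hFT]
      refine ⟨?_, ha0⟩
      rw [hne]
      have he1 : (e : ℝ) ≤ F := by
        have := Nat.le_of_dvd (pow_pos G.fpos _) he
        rw [hF]
        exact_mod_cast this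
      push_cast
      nlinarith [Nat.cast_nonneg (α := ℝ) n, Nat.cast_nonneg (α := ℝ) e]
    obtain ⟨hs1, hs2, hs3, c, hc1, hc2⟩ := hsm a ha0
    have h1 : Ideal.span {aeval G.θ (sm a) * β} = c * (a * b) ^ 2 := by
      rw [← Ideal.span_singleton_mul_span_singleton, hc1, hab]
      ring
    obtain ⟨t, ht, d, hd⟩ := hΓ _ (mul_ne_zero hs3 hβ0) c (a * b) h1 (Nat.le_floor hc2)
    refine ⟨pol (a, t), Finset.mem_image_of_mem _ (Finset.mem_product.2 ⟨haS, ht⟩), g d, ?_⟩
    rw [← G.hz, map_sub, map_mul, map_pow, ← hg, hpol, map_sub, map_mul, aeval_C, aeval_C, aeval_X]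
    have h2 : (algebraMap ℤ (𝓞 K)) ξ - (algebraMap ℤ (𝓞 K)) m * G.θ = β := by
      rw [hβ]; simp
    rw [h2]
    linear_combination (G.f : 𝓞 K) ^ 2 * hd

end Pool.Agent.H49TB
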