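import Mathlib

/-!
Independence of square roots, and sign changes.
-/

set_option autoImplicit false

namespace Pool.Agent.H49TB

open IntermediateField

/-- adjoining the square root of an element: elements are `p + q u` -/
lemma mem_adjoin_sqrt {L Ω : Type} [Field L] [Field Ω] [Algebra L Ω] (u : Ω)
    (hu : u ^ 2 ∈ (algebraMap L Ω).range) (w : Ω) (hw : w ∈ L⟮u⟯) :
    ∃ p q : L, w = algebraMap L Ω p + algebraMap L Ω q * u := by
  obtain ⟨a, ha⟩ := hu
  have hint : IsIntegral L u := by
    refine ⟨Polynomial.X ^ 2 - Polynomial.C a, Polynomial.monic_X_pow_sub_C a (by norm_num), ?_⟩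
    rw [Polynomial.eval₂_sub, Polynomial.eval₂_X_pow, Polynomial.eval₂_C, ha, sub_self]
  have h1 : w ∈ Algebra.adjoin L {u} := by
    have := IntermediateField.adjoin_simple_toSubalgebra_of_isAlgebraic hint.isAlgebraic
    rw [← this]
    exact hw
  induction h1 using Algebra.adjoin_induction with
  | mem x hx =>
    rw [Set.mem_singleton_iff.1 hx]
    exact ⟨0, 1, by simp⟩
  | algebraMap x => exact ⟨x, 0, by simp⟩
  | add x y hx hy h1 h2 =>
    have hx' : x ∈ L⟮u⟯ := by
      have := IntermediateField.adjoin_simple_toSubalgebra_of_isAlgebraic hint.isAlgebraic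
      rw [← this] at hx
      exact hx
    have hy' : y ∈ L⟮u⟯ := by
      have := IntermediateField.adjoin_simple_toSubalgebra_of_isAlgebraic hint.isAlgebraic
      rw [← this] at hy
      exact hy
    obtain ⟨p, q, e1⟩ := h1 hx'
    obtain ⟨p', q', e2⟩ := h2 hy'
    refine ⟨p + p', q + q', ?_⟩
    rw [e1, e2, map_add, map_add]
    ring
  | mul x y hx hy h1 h2 =>
    have hx' : x ∈ L⟮u⟯ := by
      have := IntermediateField.adjoin_simple_toSubalgebra_of_isAlgebraic hint.isAlgebraic
      rw [← this] at hx
      exact hx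
    have hy' : y ∈ L⟮u⟯ := by
      have := IntermediateField.adjoin_simple_toSubalgebra_of_isAlgebraic hint.isAlgebraic
      rw [← this] at hy
      exact hy
    obtain ⟨p, q, e1⟩ := h1 hx'
    obtain ⟨p', q', e2⟩ := h2 hy'
    refine ⟨p * p' + q * q' * a, p * q' + p' * q, ?_⟩
    rw [e1, e2]
    simp only [map_add, map_mul, ha]
    ring

/-- independence of square roots -/
theorem sqrt_notMem {F Ω : Type} [Field F] [CharZero F] [Field Ω] [Algebra F Ω] {ι : Type}
    [DecidableEq ι] (u : ι → Ω) (a : ι → F) (hu : ∀ i, u i ^ 2 = algebraMap F Ω (a i))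
    (S : Finset ι) : ∀ b : F, (∀ T ⊆ S, ¬ IsSquare (b * ∏ i ∈ T, a i)) →
    ∀ w : Ω, w ^ 2 = algebraMap F Ω b → w ∉ IntermediateField.adjoin F (u '' (S : Set ι)) := by
  induction S using Finset.induction_on with
  | empty =>
    intro b hb w hw hmem
    rw [Finset.coe_empty, Set.image_empty, IntermediateField.adjoin_empty, IntermediateField.mem_bot] at hmem
    obtain ⟨x, rfl⟩ := hmem
    refine hb ∅ (le_refl _) ⟨x, ?_⟩
    rw [Finset.prod_empty, mul_one]
    apply (algebraMap F Ω).injective
    rw [← hw, map_mul, sq]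
  | insert k S hk ih =>
    intro b hb w hw hmem
    obtain ⟨L, hL⟩ : ∃ L : IntermediateField F Ω, L = IntermediateField.adjoin F (u '' (S : Set ι)) :=
      ⟨_, rfl⟩
    have hb' : ∀ T ⊆ S, ¬ IsSquare (b * ∏ i ∈ T, a i) := fun T hT =>
      hb T (hT.trans (Finset.subset_insert k S))
    have hbk : ∀ T ⊆ S, ¬ IsSquare ((b * a k) * ∏ i ∈ T, a i) := by
      intro T hT
      have h1 := hb (insert k T) (Finset.insert_subset_insert k hT)
      rw [Finset.prod_insert (fun h => hk (hT h)), ← mul_assoc] at h1
      exact h1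
    have hw1 : w ∉ L := by rw [hL]; exact ih b hb' w hw
    have hwk : w * u k ∉ L := by
      rw [hL]
      refine ih (b * a k) hbk (w * u k) ?_
      rw [mul_pow, hw, hu, map_mul]
    rw [Finset.coe_insert, Set.image_insert_eq] at hmem
    have h3 : IntermediateField.adjoin F (insert (u k) (u '' (S : Set ι))) =
        (IntermediateField.adjoin L {u k}).restrictScalars F := by
      rw [Set.insert_eq, Set.union_comm, ← IntermediateField.adjoin_adjoin_left, ← hL]
    rw [h3, IntermediateField.mem_restrictScalars] at hmem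
    have hak : u k ^ 2 ∈ (algebraMap L Ω).range := by
      refine ⟨algebraMap F L (a k), ?_⟩
      rw [← IsScalarTower.algebraMap_apply, hu]
    obtain ⟨p, q, hpq⟩ := mem_adjoin_sqrt (u k) hak w hmem
    have hp : algebraMap L Ω p = (p : Ω) := rfl
    have hq : algebraMap L Ω q = (q : Ω) := rfl
    rw [hp, hq] at hpq
    by_cases hukL : u k ∈ L
    · apply hw1
      rw [hpq]
      exact L.add_mem p.2 (L.mul_mem q.2 hukL)
    · have h4 : 2 * (p : Ω) * q * u k ∈ L := by
        have h5 : 2 * (p : Ω) * q * u k = algebraMap F Ω b - (p : Ω) ^ 2 - (q : Ω) ^ 2 * algebraMap F Ω (a k) := by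
          rw [← hw, ← hu, hpq]
          ring
        rw [h5]
        exact L.sub_mem (L.sub_mem (L.algebraMap_mem b) (pow_mem p.2 2))
          (L.mul_mem (pow_mem q.2 2) (L.algebraMap_mem _))
      have : CharZero Ω := charZero_of_injective_algebraMap (algebraMap F Ω).injective
      have h6 : (p : Ω) = 0 ∨ (q : Ω) = 0 := by
        by_contra hcon
        push Not at hcon
        apply hukL
        have h7 : u k = (2 * (p : Ω) * q)⁻¹ * (2 * (p : Ω) * q * u k) := by
          have : (2 : Ω) ≠ 0 := two_ne_zero
          obtain ⟨hp0, hq0⟩ := hcon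
          field_simp
        rw [h7]
        refine L.mul_mem (L.inv_mem (L.mul_mem (L.mul_mem ?_ p.2) q.2)) h4
        exact_mod_cast L.natCast_mem 2
      rcases h6 with h6 | h6
      · apply hwk
        rw [hpq, h6, zero_add, mul_assoc, ← sq, hu]
        exact L.mul_mem q.2 (L.algebraMap_mem _)
      · apply hw1
        rw [hpq, h6, zero_mul, add_zero]
        exact p.2

/-- sign changes -/
theorem exists_sign {F Ω : Type} [Field F] [CharZero F] [Field Ω] [Algebra F Ω] [IsAlgClosed Ω]
    [Algebra.IsAlgebraic F Ω] {r : ℕ} (u : Fin r → Ω) (a : Fin r → F)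
    (hu : ∀ i, u i ^ 2 = algebraMap F Ω (a i))
    (hind : ∀ k, u k ∉ IntermediateField.adjoin F (u '' {i | i ≠ k})) (ε : Fin r → Bool) :
    ∃ σ : Ω ≃ₐ[F] Ω, ∀ i, σ (u i) = if ε i then u i else -u i := by
  have h1 : ∀ k, ∃ σ : Ω ≃ₐ[F] Ω, σ (u k) = -u k ∧ ∀ i, i ≠ k → σ (u i) = u i := by
    intro k
    obtain ⟨L, hL⟩ : ∃ L : IntermediateField F Ω, L = IntermediateField.adjoin F (u '' {i | i ≠ k}) :=
      ⟨_, rfl⟩
    have hk := hind k
    rw [← hL] at hk
    have hconj : IsConjRoot L (u k) (-(u k)) := by
      have hint : IsIntegral L (u k) := Algebra.IsIntegral.isIntegral _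
      have h2 : minpoly L (u k) = Polynomial.X ^ 2 - Polynomial.C (algebraMap F L (a k)) := by
        symm
        apply minpoly.unique' L (u k) (Polynomial.monic_X_pow_sub_C _ (by norm_num))
        · rw [map_sub, map_pow, Polynomial.aeval_X, Polynomial.aeval_C,
            ← IsScalarTower.algebraMap_apply, hu, sub_self]
        · intro q hq
          rw [or_iff_not_imp_left]
          intro hq0 hroot
          rw [Polynomial.degree_X_pow_sub_C (by norm_num)] at hq
          have hd : q.natDegree < 2 := by
            rw [Polynomial.natDegree_lt_iff_degree_lt hq0]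
            exact hq
          have hd' : q.natDegree = 0 ∨ q.natDegree = 1 := by omega
          rcases hd' with hd' | hd'
          · obtain ⟨c, hc⟩ := Polynomial.natDegree_eq_zero.1 hd'
            rw [← hc, Polynomial.aeval_C] at hroot
            apply hq0
            rw [← hc, (map_eq_zero_iff _ (algebraMap L Ω).injective).1 hroot, Polynomial.C_0]
          · obtain ⟨c, hc0, d, hcd⟩ := Polynomial.natDegree_eq_one.1 hd'
            rw [← hcd, map_add, map_mul, Polynomial.aeval_C, Polynomial.aeval_X, Polynomial.aeval_C] at hroot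
            apply hk
            have hc1 : algebraMap L Ω c ≠ 0 := by
              rw [Ne, map_eq_zero_iff _ (algebraMap L Ω).injective]
              exact hc0
            have h3 : u k = algebraMap L Ω (-d / c) := by
              rw [map_div₀, map_neg]
              field_simp
              linear_combination hroot
            rw [h3]
            exact (-d / c).2
      rw [isConjRoot_iff_aeval_eq_zero hint, h2, map_sub, map_pow, Polynomial.aeval_X,
        Polynomial.aeval_C, ← IsScalarTower.algebraMap_apply, neg_sq, hu, sub_self]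
    have : Algebra.IsAlgebraic L Ω := Algebra.IsAlgebraic.tower_top (K := F) L
    have : IsAlgClosure L Ω := ⟨inferInstance, inferInstance⟩
    have : Normal L Ω := IsAlgClosure.normal L Ω
    obtain ⟨σ, hσ⟩ := (isConjRoot_iff_exists_algEquiv).1 hconj
    refine ⟨(AlgEquiv.restrictScalars F σ).symm, ?_, ?_⟩
    · rw [AlgEquiv.symm_apply_eq]
      exact hσ.symm
    · intro i hi
      rw [AlgEquiv.symm_apply_eq]
      change _ = σ _
      have h4 : u i ∈ L := by
        rw [hL]
        exact IntermediateField.subset_adjoin F _ ⟨i, hi, rfl⟩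
      exact (σ.commutes ⟨u i, h4⟩).symm
  choose τ hτ1 hτ2 using h1
  have h2 : ∀ S : Finset (Fin r), ∃ σ : Ω ≃ₐ[F] Ω, ∀ i, σ (u i) = if i ∈ S then -u i else u i := by
    intro S
    induction S using Finset.induction_on with
    | empty => exact ⟨AlgEquiv.refl, fun i => by simp⟩
    | insert k S hk ih =>
      obtain ⟨σ, hσ⟩ := ih
      refine ⟨σ.trans (τ k), fun i => ?_⟩
      rw [AlgEquiv.trans_apply, hσ]
      by_cases hik : i = k
      · subst hik
        rw [if_neg hk, hτ1, if_pos (Finset.mem_insert_self _ _)]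
      · by_cases hiS : i ∈ S
        · rw [if_pos hiS, if_pos (Finset.mem_insert_of_mem hiS), map_neg, hτ2 k i hik]
        · rw [if_neg hiS, if_neg (by rw [Finset.mem_insert]; push Not; exact ⟨hik, hiS⟩), hτ2 k i hik]
  obtain ⟨σ, hσ⟩ := h2 (Finset.univ.filter (fun i => ε i = false))
  refine ⟨σ, fun i => ?_⟩
  rw [hσ]
  cases h : ε i <;> simp [h]

end Pool.Agent.H49TB
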