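import Pool.Agent.H49TB.GP3
import Pool.Agent.H49TB.Kum

/-!
The polynomials `G_m` are irreducible.
-/

set_option autoImplicit false

namespace Pool.Agent.H49TB

open Polynomial Finset

variable {r : ℕ}

lemma not_square (γ μ : Fin r → ℂ) (hγ : ∀ i, γ i ≠ 0) (hμ : Function.Injective μ)
    (T : Finset (Fin r)) (hT : T.Nonempty) :
    ¬ IsSquare (∏ i ∈ T, algebraMap ℂ[X] (FractionRing ℂ[X]) (C (γ i) * (X - C (μ i)))) := by
  rintro ⟨z, hz⟩
  rw [← map_prod] at hz
  have hint : IsIntegral ℂ[X] z := by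
    refine ⟨X ^ 2 - C (∏ i ∈ T, (C (γ i) * (X - C (μ i)))), monic_X_pow_sub_C _ (by norm_num), ?_⟩
    rw [eval₂_sub, eval₂_X_pow, eval₂_C, hz, sq, sub_self]
  obtain ⟨g, rfl⟩ := IsIntegrallyClosed.isIntegral_iff.1 hint
  rw [← map_mul] at hz
  have h1 : ∏ i ∈ T, (C (γ i) * (X - C (μ i))) = g * g :=
    IsFractionRing.injective ℂ[X] (FractionRing ℂ[X]) hz
  rw [Finset.prod_mul_distrib] at h1
  have h2 : IsUnit (∏ i ∈ T, (C (γ i) : ℂ[X])) := by
    rw [← map_prod, isUnit_C]
    exact (Finset.prod_ne_zero_iff.2 (fun i _ => hγ i)).isUnit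
  have hsep : (∏ i ∈ T, (X - C (μ i))).Separable :=
    separable_prod_X_sub_C_iff'.2 (fun x _ y _ h => hμ h)
  have h3 : g * g ∣ ∏ i ∈ T, (X - C (μ i)) := by
    obtain ⟨v, hv⟩ := h2
    refine ⟨((v⁻¹ : ℂ[X]ˣ) : ℂ[X]), ?_⟩
    rw [← h1, ← hv]
    have := v.mul_inv
    linear_combination (-(∏ i ∈ T, (X - C (μ i)))) * this
  have h4 : IsUnit g := hsep.squarefree g h3
  have h5 : IsUnit (∏ i ∈ T, (X - C (μ i))) := by
    have h6 : IsUnit (g * g) := h4.mul h4
    rw [← h1] at h6
    exact isUnit_of_mul_isUnit_right h6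
  obtain ⟨k, hk⟩ := hT
  have h7 : IsUnit (X - C (μ k)) := isUnit_of_dvd_unit (Finset.dvd_prod_of_mem (fun i => X - C (μ i)) hk) h5
  exact not_isUnit_X_sub_C _ h7

/-- the polynomials are irreducible over the field of rational functions -/
theorem irr_PV (hr : 1 ≤ r) {P : MvPolynomial (Option (Fin r)) ℤ}
    (hP : MvPolynomial.expand 2 P = pf r) (hh : P.IsHomogeneous (2 ^ (r - 1)))
    (γ μ : Fin r → ℂ) (hγ : ∀ i, γ i ≠ 0) (hμ : Function.Injective μ) :
    Irreducible (PV P (fun i => algebraMap ℂ[X] (FractionRing ℂ[X]) (C (γ i) * (X - C (μ i))))) := by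
  classical
  obtain ⟨F, hF⟩ : ∃ F : Type, F = FractionRing ℂ[X] := ⟨_, rfl⟩
  obtain ⟨a, ha⟩ : ∃ a : Fin r → FractionRing ℂ[X],
    a = fun i => algebraMap ℂ[X] (FractionRing ℂ[X]) (C (γ i) * (X - C (μ i))) := ⟨_, rfl⟩
  rw [← ha]
  have : CharZero (FractionRing ℂ[X]) :=
    charZero_of_injective_algebraMap (IsFractionRing.injective ℂ[X] (FractionRing ℂ[X]))
  have hex : ∀ i, ∃ z : AlgebraicClosure (FractionRing ℂ[X]), z ^ 2 = algebraMap _ _ (a i) :=
    fun i => IsAlgClosed.exists_pow_nat_eq _ (by norm_num)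
  choose u hu using hex
  have hns : ∀ k, ∀ T ⊆ univ.erase k, ¬ IsSquare (a k * ∏ i ∈ T, a i) := by
    intro k T hT
    have hkT : k ∉ T := fun h => by
      have := hT h
      simp at this
    rw [← Finset.prod_insert hkT, ha]
    exact not_square γ μ hγ hμ _ (Finset.insert_nonempty _ _)
  have hind : ∀ k, u k ∉ IntermediateField.adjoin (FractionRing ℂ[X]) (u '' {i | i ≠ k}) := by
    intro k
    have h1 := sqrt_notMem u a hu (univ.erase k) (a k) (hns k) (u k) (hu k)
    have h2 : ((univ.erase k : Finset (Fin r)) : Set (Fin r)) = {i | i ≠ k} := by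
      ext i; simp
    rwa [h2] at h1
  have hsum : ∀ T : Finset (Fin r), T.Nonempty → ∀ ε : Fin r → Bool,
      ∑ i ∈ T, (sg (ε i) : AlgebraicClosure (FractionRing ℂ[X])) * u i ≠ 0 := by
    intro T hT ε h0
    obtain ⟨k, hk⟩ := hT
    apply hind k
    rw [← Finset.add_sum_erase _ _ hk] at h0
    have h3 : u k = -(sg (ε k) : AlgebraicClosure (FractionRing ℂ[X])) *
        ∑ i ∈ T.erase k, (sg (ε i) : AlgebraicClosure (FractionRing ℂ[X])) * u i := by
      have h4 : (sg (ε k) : AlgebraicClosure (FractionRing ℂ[X])) * sg (ε k) = 1 := by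
        exact_mod_cast congrArg (Int.cast : ℤ → AlgebraicClosure (FractionRing ℂ[X])) (sg_mul_self (ε k))
      linear_combination ((sg (ε k) : AlgebraicClosure (FractionRing ℂ[X]))) * h0 - (u k) * h4
    rw [h3]
    apply IntermediateField.mul_mem
    · apply IntermediateField.neg_mem
      exact IntermediateField.intCast_mem _ _
    · apply IntermediateField.sum_mem
      intro i hi
      apply IntermediateField.mul_mem
      · exact IntermediateField.intCast_mem _ _
      · exact IntermediateField.subset_adjoin _ _ ⟨i, Finset.ne_of_mem_erase hi, rfl⟩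
  obtain ⟨w, hw⟩ : ∃ w, w = (ss (fun _ => true) u) ^ 2 := ⟨_, rfl⟩
  obtain ⟨hm, hd⟩ := PV_monic hr hP hh a
  have hmap : (PV P a).map (algebraMap (FractionRing ℂ[X]) (AlgebraicClosure (FractionRing ℂ[X]))) =
      ∏ ε ∈ half hr, (X - C ((ss ε u) ^ 2)) := by
    rw [PV_map, ← PV_sq hr hP]
    congr 1
    funext i
    exact (hu i).symm
  have hmem : (fun _ => true) ∈ half (r := r) hr := by simp [half]
  have hroot : aeval w (PV P a) = 0 := by
    rw [← eval_map_algebraMap, hmap, eval_prod]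
    apply Finset.prod_eq_zero hmem
    rw [eval_sub, eval_X, eval_C, hw, sub_self]
  have hint : IsIntegral (FractionRing ℂ[X]) w := ⟨PV P a, hm, hroot⟩
  have hdvd : minpoly (FractionRing ℂ[X]) w ∣ PV P a := minpoly.dvd _ _ hroot
  have hroots : ∀ ε ∈ half hr, aeval ((ss ε u) ^ 2) (minpoly (FractionRing ℂ[X]) w) = 0 := by
    intro ε _
    obtain ⟨σ, hσ⟩ := exists_sign u a hu hind ε
    have h1 : σ w = (ss ε u) ^ 2 := by
      rw [hw, map_pow]
      congr 1
      unfold ss
      rw [map_sum]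
      apply Finset.sum_congr rfl
      intro i _
      rw [map_mul, hσ, map_intCast]
      cases h : ε i <;> simp [sg]
    rw [← h1]
    have := aeval_algHom_apply σ w (minpoly (FractionRing ℂ[X]) w)
    rw [this, minpoly.aeval, map_zero]
  have hcard : 2 ^ (r - 1) ≤ (minpoly (FractionRing ℂ[X]) w).natDegree := by
    have h1 : (half hr).image (fun ε => (ss ε u) ^ 2) ⊆
        ((minpoly (FractionRing ℂ[X]) w).map (algebraMap _ (AlgebraicClosure (FractionRing ℂ[X])))).roots.toFinset := by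
      intro z hz
      obtain ⟨ε, hε, rfl⟩ := Finset.mem_image.1 hz
      rw [Multiset.mem_toFinset, mem_roots', IsRoot.def, eval_map_algebraMap]
      refine ⟨?_, hroots ε hε⟩
      exact ((minpoly.monic hint).map _).ne_zero
    have h2 := Finset.card_le_card h1
    rw [Finset.card_image_of_injOn, card_half] at h2
    · refine h2.trans ((Multiset.toFinset_card_le _).trans ?_)
      exact (card_roots' _).trans natDegree_map_le
    · intro ε he ε' he' h
      exact ss_inj hr u hsum ε ε' he he' h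
  have heq : minpoly (FractionRing ℂ[X]) w = PV P a := by
    symm
    apply eq_of_monic_of_dvd_of_natDegree_le (minpoly.monic hint) hm hdvd
    rw [hd]
    exact hcard
  rw [← heq]
  exact minpoly.irreducible hint

/-- the polynomials `G_m` are prime -/
theorem G_prime (hr : 1 ≤ r) {P : MvPolynomial (Option (Fin r)) ℤ}
    (hP : MvPolynomial.expand 2 P = pf r) (hh : P.IsHomogeneous (2 ^ (r - 1)))
    (γ μ : Fin r → ℂ) (hγ : ∀ i, γ i ≠ 0) (hμ : Function.Injective μ)
    (G : ℤ[X][X]) (hG : io G = PV P (fun i => C (γ i) * (X - C (μ i)))) (hm : G.Monic) : Prime G := by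
  apply Irreducible.prime
  apply hm.irreducible_of_irreducible_map
    ((algebraMap ℂ[X] (FractionRing ℂ[X])).comp (Polynomial.mapRingHom (Int.castRingHom ℂ)))
  rw [← Polynomial.map_map]
  have h1 : G.map (Polynomial.mapRingHom (Int.castRingHom ℂ)) = io G := rfl
  rw [h1, hG, PV_map]
  exact irr_PV hr hP hh γ μ hγ hμ

end Pool.Agent.H49TB
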