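import Pool.Agent.H49TB.Small
import Pool.Agent.H49TB.Asm4

/-!
Points of polynomial size: polynomials with an irreducible factor of degree at least three.
-/

set_option autoImplicit false

open Polynomial

namespace Pool.Agent.H49TB

open Pool.Agent.H49SH Pool.Agent.H49TW

theorem Pd.g_mul {f : ℤ[X]} {D ξ m : ℤ} {g : ℕ} (h : Pd f D ξ m g) {N : ℝ} (hN : |(D : ℝ)| ≤ N) :
    (g : ℝ) * |(m : ℝ)| ≤ N := by
  have h4 : |(D : ℝ)| = g * |(m : ℝ)| := by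
    rw [h.hD]; push_cast; rw [abs_mul, Nat.abs_cast]
  rwa [h4] at hN

theorem Pd.m_one {f : ℤ[X]} {D ξ m : ℤ} {g : ℕ} (h : Pd f D ξ m g) : (1 : ℝ) ≤ |(m : ℝ)| := by
  exact_mod_cast Int.one_le_abs h.m0

/-- the points whose class has large norm -/
theorem local_part {f h h' : ℤ[X]} (hf : f = h * h') (hm : h.Monic)
    (hirr : Irreducible (h.map (Int.castRingHom ℚ))) (hr : 2 ≤ h.natDegree) {f₀ c : ℕ} (hf0 : 0 < f₀)
    (hc0 : 0 < c) (hc : ∀ ξ m : ℤ, IsCoprime ξ m → ∀ p : ℕ, p.Prime → (p : ℤ) ∣ hom h ξ m →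
      (p : ℤ) ∣ hom h' ξ m → p ∣ c) {n : ℤ → ℤ → ℕ}
    (hsq : ∀ ξ m : ℤ, IsCoprime ξ m → hom h ξ m ≠ 0 → Squarefree (n ξ m))
    (hodd : ∀ ξ m : ℤ, IsCoprime ξ m → hom h ξ m ≠ 0 → ∀ p : ℕ, p.Prime → p ∣ n ξ m → ¬ p ∣ f₀ →
      Odd (padicValNat p (hom h ξ m).natAbs)) (δ ε : ℝ) (hδ0 : 0 < δ) (hε : 0 < ε) :
    ∃ N₀ : ℕ, ∀ N : ℕ, N₀ ≤ N → ∀ S : Finset ℤ,
      (∀ D ∈ S, |(D : ℝ)| ≤ N ∧ ∃ (ξ m : ℤ) (g : ℕ), Pd f D ξ m g ∧ δ * N < n ξ m) →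
      (S.card : ℝ) ≤ ε * N := by
  classical
  have hB0 : 0 < f₀ * c := Nat.mul_pos hf0 hc0
  set M : ℕ := ⌈((f₀ * c : ℕ) : ℝ) / δ⌉₊ with hM
  obtain ⟨N₁, hN₁⟩ := sieve (P := {p | NR h p}) (fun p hp => hp.1)
    (nr_diverges h hm hr hirr) (ε / (2 * M + 1)) (by positivity)
  refine ⟨N₁ + 1, fun N hN S hS => ?_⟩
  have hN1 : N₁ ≤ N := by omega
  have hNpos : 1 ≤ N := by omega
  have hNr : (1 : ℝ) ≤ N := by exact_mod_cast hNpos
  let G : Finset ℕ := (Finset.Icc 1 N).filter (fun d => ∀ p ∈ {p | NR h p}, ¬ p ∣ d)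
  have hG : (G.card : ℝ) ≤ ε / (2 * M + 1) * N := hN₁ N hN1 G fun d hd => by
    simp only [G, Finset.mem_filter, Finset.mem_Icc] at hd
    exact ⟨by omega, hd.1.2, hd.2⟩
  have hsub : S ⊆ ((Finset.Icc (-(M : ℤ)) M) ×ˢ G).image (fun q => q.1 * (q.2 : ℤ)) := by
    intro D hDS
    obtain ⟨hDN, ξ, m, g, hpd, hn⟩ := hS D hDS
    have h0 := hpd.hom0
    rw [hf, hom_mul] at h0
    have h1 : hom h ξ m ≠ 0 := fun h2 => h0 (by rw [h2, zero_mul])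
    have hsq' := hsq ξ m hpd.cop h1
    obtain ⟨d, hd1, hd2, hd3⟩ := split_t hsq' hB0.ne'
    have hdt : d ∣ n ξ m := ⟨Nat.gcd (n ξ m) (f₀ * c), by rw [mul_comm]; exact hd1⟩
    obtain ⟨hdg, hdp⟩ := part_dvd hf hc hpd (hodd ξ m hpd.cop h1) hdt hd2 hd3
    obtain ⟨e, he⟩ := hdg
    have hd0 : 0 < d := Nat.pos_of_ne_zero hd2.ne_zero
    have he0 : 0 < e := by
      have := hpd.g0
      rw [he] at this
      rcases Nat.eq_zero_or_pos e with h5 | h5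
      · rw [h5, mul_zero] at this; omega
      · exact h5
    have hDd : D = (e * m) * (d : ℤ) := by
      rw [hpd.hD, he]; push_cast; ring
    have hm0 := hpd.m0
    -- size of `d`
    have hdlow : δ * N / (f₀ * c : ℕ) < d := by
      rw [div_lt_iff₀ (by exact_mod_cast hB0)]
      have h5 : n ξ m ≤ d * (f₀ * c) := by
        conv_lhs => rw [hd1]
        rw [mul_comm]
        exact Nat.mul_le_mul_left _ (Nat.gcd_le_right _ hB0)
      calc δ * N < n ξ m := hn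
        _ ≤ _ := by exact_mod_cast h5
    have habs : |(D : ℝ)| = |((e * m : ℤ) : ℝ)| * d := by
      rw [hDd]; push_cast; rw [abs_mul, Nat.abs_cast]
    have hk : |((e * m : ℤ) : ℝ)| ≤ M := by
      have h6 : |((e * m : ℤ) : ℝ)| * d ≤ N := by rw [← habs]; exact hDN
      have h7 : |((e * m : ℤ) : ℝ)| * (δ * N / (f₀ * c : ℕ)) ≤ N :=
        (mul_le_mul_of_nonneg_left hdlow.le (abs_nonneg _)).trans h6
      have h8 : |((e * m : ℤ) : ℝ)| ≤ ((f₀ * c : ℕ) : ℝ) / δ := by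
        rw [le_div_iff₀ hδ0]
        have hB0r : (0 : ℝ) < (f₀ * c : ℕ) := by exact_mod_cast hB0
        rw [mul_div_assoc', div_le_iff₀ hB0r] at h7
        have h9 : |((e * m : ℤ) : ℝ)| * δ * N ≤ ((f₀ * c : ℕ) : ℝ) * N := by linarith
        exact le_of_mul_le_mul_right h9 (by linarith)
      exact h8.trans (Nat.le_ceil _)
    have hdN : d ≤ N := by
      have h6 : (1 : ℝ) ≤ |((e * m : ℤ) : ℝ)| := by
        have h7 : (e * m : ℤ) ≠ 0 := mul_ne_zero (by positivity) hm0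
        exact_mod_cast Int.one_le_abs h7
      have h8 : (d : ℝ) ≤ N := by
        have : |((e * m : ℤ) : ℝ)| * d ≤ N := by rw [← habs]; exact hDN
        nlinarith [Nat.cast_nonneg (α := ℝ) d]
      exact_mod_cast h8
    refine Finset.mem_image.2 ⟨(e * m, d), ?_, hDd.symm⟩
    rw [Finset.mem_product, Finset.mem_Icc]
    constructor
    · have h6 : |(e * m : ℤ)| ≤ (M : ℤ) := by exact_mod_cast hk
      exact abs_le.1 h6
    · simp only [G, Finset.mem_filter, Finset.mem_Icc]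
      refine ⟨⟨hd0, hdN⟩, fun p hp hpd' => ?_⟩
      obtain ⟨z, hz⟩ := exists_z hm hpd.cop hp.1 (hdp p hp.1 hpd').1
      exact hp.2 z (hz h (hdp p hp.1 hpd').1)
  have h1 : (S.card : ℝ) ≤ (2 * M + 1) * G.card := by
    have h2 := (Finset.card_le_card hsub).trans Finset.card_image_le
    rw [Finset.card_product, Int.card_Icc] at h2
    have h3 : ((M : ℤ) + 1 - -(M : ℤ)).toNat = 2 * M + 1 := by omega
    rw [h3] at h2
    exact_mod_cast h2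
  calc (S.card : ℝ) ≤ (2 * M + 1) * G.card := h1
    _ ≤ (2 * M + 1) * (ε / (2 * M + 1) * N) := mul_le_mul_of_nonneg_left hG (by positivity)
    _ = _ := by field_simp

/-- the very small points -/
theorem tiny (f : ℤ[X]) (ε : ℝ) (hε : 0 < ε) : ∃ N₀ : ℕ, ∀ N : ℕ, N₀ ≤ N → ∃ Y : ℕ, 2 ≤ Y ∧
    (∀ κ : ℕ, N ^ κ ≤ Y ^ 2 ^ (8 * κ)) ∧ ∀ S : Finset ℤ,
      (∀ D ∈ S, ∃ (ξ m : ℤ) (g : ℕ), Pd f D ξ m g ∧ ξ.natAbs ≤ Y ∧ m.natAbs ≤ Y) →
      (S.card : ℝ) ≤ ε * N := by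
  classical
  set y₀ : ℕ := ⌈9 / ε⌉₊ + 2 with hy₀
  refine ⟨(y₀ + 1) ^ 4, fun N hN => ?_⟩
  obtain ⟨Y, hY1, hY2⟩ := exists_root (N := N) (r := 4) (by norm_num)
  have hYy : y₀ ≤ Y := by
    have h1 : (y₀ + 1) ^ 4 < (Y + 1) ^ 4 := lt_of_le_of_lt hN hY2
    have h2 := lt_of_pow_lt_pow_left₀ 4 (Nat.zero_le _) h1
    omega
  have hY : 2 ≤ Y := by omega
  refine ⟨Y, hY, fun κ => ?_, fun S hS => ?_⟩
  · have h1 : N ≤ Y ^ 8 := by
      have h2 : Y + 1 ≤ 2 * Y := by omega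
      have h3 : (Y + 1) ^ 4 ≤ (2 * Y) ^ 4 := Nat.pow_le_pow_left h2 4
      have h4 : 16 ≤ Y ^ 4 := by
        calc 16 = 2 ^ 4 := by norm_num
          _ ≤ Y ^ 4 := Nat.pow_le_pow_left hY 4
      nlinarith
    have h5 : 8 * κ ≤ 2 ^ (8 * κ) := (Nat.lt_two_pow_self).le
    calc N ^ κ ≤ (Y ^ 8) ^ κ := Nat.pow_le_pow_left h1 κ
      _ = Y ^ (8 * κ) := (pow_mul _ _ _).symm
      _ ≤ _ := Nat.pow_le_pow_right (by omega) h5
  · choose! ξ m g hpd hξ hmY using hS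
    have hinj : Set.InjOn (fun D => (ξ D, m D)) (S : Set ℤ) := by
      intro D hD D' hD' he
      simp only [Prod.mk.injEq] at he
      have h1 := hpd D hD
      have h2 := hpd D' hD'
      rw [he.1, he.2] at h1
      exact h1.unique h2
    have h1 : S.card ≤ (2 * Y + 1) * (2 * Y + 1) := by
      rw [← Finset.card_image_of_injOn hinj]
      have hsub : S.image (fun D => (ξ D, m D)) ⊆ (Finset.Icc (-(Y : ℤ)) Y) ×ˢ (Finset.Icc (-(Y : ℤ)) Y) := by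
        intro p hp
        obtain ⟨D, hD, rfl⟩ := Finset.mem_image.1 hp
        have h2 := hξ D hD
        have h3 := hmY D hD
        rw [Finset.mem_product, Finset.mem_Icc, Finset.mem_Icc]
        constructor <;> constructor <;> simp only <;> omega
      refine (Finset.card_le_card hsub).trans ?_
      rw [Finset.card_product, Int.card_Icc]
      have h3 : ((Y : ℤ) + 1 - -(Y : ℤ)).toNat = 2 * Y + 1 := by omega
      rw [h3]
    have hYr : (2 : ℝ) ≤ Y := by exact_mod_cast hY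
    have h2 : (S.card : ℝ) ≤ 9 * (Y : ℝ) ^ 2 := by
      have h3 : (S.card : ℝ) ≤ (2 * Y + 1) * (2 * Y + 1) := by exact_mod_cast h1
      nlinarith
    have h4 : 9 / ε ≤ Y := by
      have h5 : 9 / ε ≤ ⌈9 / ε⌉₊ := Nat.le_ceil _
      have h6 : (⌈9 / ε⌉₊ : ℝ) ≤ Y := by
        have : ⌈9 / ε⌉₊ ≤ Y := by omega
        exact_mod_cast this
      linarith
    rw [div_le_iff₀ hε] at h4
    have h5 : (Y : ℝ) ^ 4 ≤ N := by exact_mod_cast hY1
    have h6 : 9 * (Y : ℝ) ^ 2 ≤ ε * (Y : ℝ) ^ 4 := by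
      have h7 : (9 : ℝ) ≤ ε * (Y : ℝ) ^ 2 := by nlinarith
      have h8 : 0 ≤ (Y : ℝ) ^ 2 := by positivity
      calc 9 * (Y : ℝ) ^ 2 ≤ (ε * (Y : ℝ) ^ 2) * (Y : ℝ) ^ 2 := mul_le_mul_of_nonneg_right h7 h8
        _ = _ := by ring
    calc (S.card : ℝ) ≤ 9 * (Y : ℝ) ^ 2 := h2
      _ ≤ ε * (Y : ℝ) ^ 4 := h6
      _ ≤ _ := mul_le_mul_of_nonneg_left h5 hε.le

end Pool.Agent.H49TB
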