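import Pool.Agent.H49TB.Mid1

/-!
Points of polynomial size: conclusion for polynomials with an irreducible factor of degree at least
three.
-/

set_option autoImplicit false

open Polynomial

namespace Pool.Agent.H49TB

open Pool.Agent.H49SH Pool.Agent.H49TW

theorem geom_le (J : ℕ) : ∑ j ∈ Finset.range J, (1 / (2 : ℝ) ^ j) ≤ 2 := by
  have h : ∀ J : ℕ, ∑ j ∈ Finset.range J, (1 / (2 : ℝ) ^ j) = 2 - 2 / 2 ^ J := by
    intro J
    induction J with
    | zero => simp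
    | succ J ih =>
      rw [Finset.sum_range_succ, ih, pow_succ]
      field_simp
      ring
  rw [h]
  have : 0 ≤ 2 / (2 : ℝ) ^ J := by positivity
  linarith

theorem caseI_mid {f h h' : ℤ[X]} (hf : f = h * h') (hm : h.Monic)
    (hirr : Irreducible (h.map (Int.castRingHom ℚ))) (hr : 3 ≤ h.natDegree)
    (hcop : IsCoprime (h.map (Int.castRingHom ℚ)) (h'.map (Int.castRingHom ℚ))) (κ : ℕ) :
    ∀ ε : ℝ, 0 < ε → ∃ N₀ : ℕ, ∀ N : ℕ, N₀ ≤ N → ∀ S : Finset ℤ,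
      (∀ D ∈ S, |(D : ℝ)| ≤ N ∧ ∃ (ξ m : ℤ) (g : ℕ), Pd f D ξ m g ∧ ξ.natAbs ≤ N ^ κ) →
      (S.card : ℝ) ≤ ε * N := by
  classical
  obtain ⟨c, hc0, hc⟩ := exists_res hm hcop
  have hnc : ∀ i j : Unit, i ≠ j → IsCoprime (((fun _ : Unit => h) i).map (Int.castRingHom ℚ))
      (((fun _ : Unit => h) j).map (Int.castRingHom ℚ)) := fun i j hij => absurd (Subsingleton.elim i j) hij
  obtain ⟨f₀, B, A, n, hA⟩ := exists_clsN (fun _ : Unit => h) (fun _ => hm) (fun _ => hirr)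
    (fun _ => by omega) hnc ⟨()⟩
  have hprod : (∏ _i : Unit, h) = h := by simp
  obtain ⟨C₃, hC₃, hcount⟩ := count_mid hA (fun _ => hm) (fun _ => hirr) hnc (f := f)
    (by rw [hprod]; exact hr) (by rw [hprod]; exact ⟨h', hf⟩) (8 * κ)
  intro ε hε
  have hB0 : 0 < f₀ * c := Nat.mul_pos hA.f0 hc0
  set B₀ : ℕ := f₀ * c with hB₀
  have hB0r : (1 : ℝ) ≤ B₀ := by exact_mod_cast hB0
  obtain ⟨v₀, hv₀⟩ := exists_nat_ge (B₀ + 8 * C₃ * B₀ / (ε / 3))
  have hq : 0 ≤ 8 * C₃ * B₀ / (ε / 3) := by positivity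
  have hvB : (B₀ : ℝ) ≤ v₀ := by linarith
  have hv1r : (1 : ℝ) ≤ v₀ := by linarith
  have hv1 : 1 ≤ v₀ := by exact_mod_cast hv1r
  have hvC : 8 * C₃ * B₀ / v₀ ≤ ε / 3 := by
    rw [div_le_iff₀ (by linarith)]
    have h1 : 8 * C₃ * B₀ / (ε / 3) ≤ v₀ := by linarith
    rw [div_le_iff₀ (by positivity)] at h1
    linarith
  set δ : ℝ := B₀ / (v₀ : ℝ) ^ 3 with hδ
  have hδ0 : 0 < δ := by positivity
  have hδ1 : δ ≤ 1 := by
    rw [hδ, div_le_one (by positivity)]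
    exact hvB.trans (le_self_pow₀ hv1r (by norm_num))
  obtain ⟨N₁, hN₁⟩ := local_part hf hm hirr (by omega) hA.f0 hc0 hc (n := n ())
    (fun ξ m h1 h2 => hA.sqf () ξ m h1 h2) (fun ξ m h1 h2 => hA.odd () ξ m h1 h2) δ (ε / 3) hδ0
    (by positivity)
  obtain ⟨N₂, hN₂⟩ := tiny f (ε / 3) (by positivity)
  refine ⟨max N₁ N₂ + 1, fun N hN S hS => ?_⟩
  have hNN1 : N₁ ≤ N := by have := le_max_left N₁ N₂; omega
  have hNN2 : N₂ ≤ N := by have := le_max_right N₁ N₂; omega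
  have hNpos : 1 ≤ N := by omega
  have hNr : (1 : ℝ) ≤ N := by exact_mod_cast hNpos
  obtain ⟨Y, hY2, hYκ, hYS⟩ := hN₂ N hNN2
  -- the three kinds of points
  let QL : ℤ → Prop := fun D => ∃ (ξ m : ℤ) (g : ℕ), Pd f D ξ m g ∧ δ * N < n () ξ m
  let QT : ℤ → Prop := fun D => ∃ (ξ m : ℤ) (g : ℕ), Pd f D ξ m g ∧ ξ.natAbs ≤ Y ∧ m.natAbs ≤ Y
  let QJ : ℕ → ℤ → Prop := fun j D => ∃ (ξ m : ℤ) (g : ℕ), Pd f D ξ m g ∧
    |(m : ℝ)| ≤ ((2 ^ (j + 1) * v₀ : ℕ) : ℝ) ^ 3 ∧ ξ.natAbs ≤ Y ^ 2 ^ (8 * κ) ∧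
    (|(ξ : ℝ)| ≤ ((2 ^ (j + 1) * v₀ : ℕ) : ℝ) ^ 3 ∨ Y ≤ ξ.natAbs) ∧ (n () ξ m : ℝ) ≤ δ * N / 8 ^ j ∧
    1 ≤ n () ξ m
  have hL : ((S.filter QL).card : ℝ) ≤ ε / 3 * N := hN₁ N hNN1 _ fun D hD => by
    obtain ⟨hD1, hD2⟩ := Finset.mem_filter.1 hD
    exact ⟨(hS D hD1).1, hD2⟩
  have hT : ((S.filter QT).card : ℝ) ≤ ε / 3 * N := hYS _ fun D hD => (Finset.mem_filter.1 hD).2
  have hJ : ∀ j, ((S.filter (QJ j)).card : ℝ) ≤ (4 * C₃ * B₀ / v₀) * N * (1 / 2 ^ j) := by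
    intro j
    have hrhs : 0 ≤ (4 * C₃ * B₀ / v₀) * N * (1 / 2 ^ j) := by positivity
    by_cases hT1 : 1 ≤ δ * N / 8 ^ j
    · have h1 := hcount (fun _ => δ * N / 8 ^ j) (fun _ => hT1) (2 ^ (j + 1) * v₀)
        (Nat.one_le_iff_ne_zero.2 (by positivity)) Y hY2 (S.filter (QJ j)) (fun D hD => by
          obtain ⟨-, ξ, m, g, h1, h2, h3, h4, h5, -⟩ := Finset.mem_filter.1 hD
          exact ⟨ξ, m, g, h1, h2, h3, h4, fun _ => h5⟩)
      simp only [Finset.univ_unique, Finset.prod_const, Finset.card_singleton, pow_one] at h1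
      refine h1.trans (le_of_eq ?_)
      rw [hδ]
      push_cast
      have e8 : (8 : ℝ) ^ j = 2 ^ j * (2 ^ j * 2 ^ j) := by
        rw [← pow_add, ← pow_add, show (8 : ℝ) = 2 ^ 3 by norm_num, ← pow_mul]
        congr 1
        ring
      rw [e8, pow_succ]
      field_simp
      ring
    · have h1 : S.filter (QJ j) = ∅ := by
        rw [Finset.filter_eq_empty_iff]
        rintro D - ⟨ξ, m, g, -, -, -, -, h5, h6⟩
        apply hT1
        refine le_trans ?_ h5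
        exact_mod_cast h6
      rw [h1, Finset.card_empty, Nat.cast_zero]
      exact hrhs
  -- the covering
  have hcov : S ⊆ S.filter QL ∪ (S.filter QT ∪ (Finset.range (N + 1)).biUnion (fun j => S.filter (QJ j))) := by
    intro D hD
    obtain ⟨hDN, ξ, m, g, hpd, hξ⟩ := hS D hD
    rw [Finset.mem_union, Finset.mem_union, Finset.mem_biUnion]
    simp only [Finset.mem_filter, hD, true_and]
    by_cases hL' : δ * N < n () ξ m
    · exact Or.inl ⟨ξ, m, g, hpd, hL'⟩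
    right
    rw [not_lt] at hL'
    have h0 := hpd.hom0
    rw [hf, hom_mul] at h0
    have h1 : hom h ξ m ≠ 0 := fun h2 => h0 (by rw [h2, zero_mul])
    have hsq := hA.sqf () ξ m hpd.cop h1
    have hn1 : 1 ≤ n () ξ m := Nat.pos_of_ne_zero hsq.ne_zero
    have hn1r : (1 : ℝ) ≤ n () ξ m := by exact_mod_cast hn1
    -- the scale
    have hex : ∃ j : ℕ, δ * N / 8 ^ (j + 1) < n () ξ m := by
      refine ⟨N, lt_of_lt_of_le ?_ hn1r⟩
      rw [div_lt_one (by positivity)]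
      have h2 : (N : ℝ) < 8 ^ (N + 1) := by
        have h3 : N < 8 ^ N := Nat.lt_pow_self (by norm_num)
        have h4 : 8 ^ N ≤ 8 ^ (N + 1) := Nat.pow_le_pow_right (by norm_num) (Nat.le_succ N)
        have h5 : N < 8 ^ (N + 1) := lt_of_lt_of_le h3 h4
        exact_mod_cast h5
      nlinarith
    set j := Nat.find hex with hj
    have hj1 : δ * N / 8 ^ (j + 1) < n () ξ m := Nat.find_spec hex
    have hj2 : (n () ξ m : ℝ) ≤ δ * N / 8 ^ j := by
      rcases Nat.eq_zero_or_pos j with h2 | h2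
      · rw [h2, pow_zero, div_one]; exact hL'
      · have h3 := Nat.find_min hex (m := j - 1) (by omega)
        rw [not_lt] at h3
        rwa [Nat.sub_add_cancel h2] at h3
    have hjN : j ∈ Finset.range (N + 1) := by
      rw [Finset.mem_range]
      by_contra hcon
      have h2 : N + 1 ≤ j := by omega
      have h3 : (1 : ℝ) ≤ δ * N / 8 ^ j := hn1r.trans hj2
      rw [le_div_iff₀ (by positivity), one_mul] at h3
      have h4 : (N : ℝ) < 8 ^ j := by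
        have h5 : N < 8 ^ N := Nat.lt_pow_self (by norm_num)
        have h6 : 8 ^ N ≤ 8 ^ j := Nat.pow_le_pow_right (by norm_num) (by omega)
        have h7 : N < 8 ^ j := lt_of_lt_of_le h5 h6
        exact_mod_cast h7
      nlinarith
    -- the size of `m`
    obtain ⟨d, hd1, hd2, hd3⟩ := split_t hsq hB0.ne'
    have hdt : d ∣ n () ξ m := ⟨Nat.gcd (n () ξ m) B₀, by rw [mul_comm]; exact hd1⟩
    obtain ⟨hdg, -⟩ := part_dvd hf hc hpd (hA.odd () ξ m hpd.cop h1) hdt hd2 hd3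
    have hng : n () ξ m ≤ B₀ * g := by
      calc n () ξ m = Nat.gcd (n () ξ m) B₀ * d := hd1
        _ ≤ B₀ * g := Nat.mul_le_mul (Nat.gcd_le_right _ hB0) (Nat.le_of_dvd hpd.g0 hdg)
    have hgm := hpd.g_mul hDN
    have hmv : |(m : ℝ)| ≤ ((2 ^ (j + 1) * v₀ : ℕ) : ℝ) ^ 3 := by
      have h2 : (n () ξ m : ℝ) * |(m : ℝ)| ≤ B₀ * N := by
        calc (n () ξ m : ℝ) * |(m : ℝ)| ≤ (B₀ * g) * |(m : ℝ)| :=
              mul_le_mul_of_nonneg_right (by exact_mod_cast hng) (abs_nonneg _)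
          _ = B₀ * (g * |(m : ℝ)|) := by ring
          _ ≤ _ := mul_le_mul_of_nonneg_left hgm (by linarith)
      have h3 : δ * N / 8 ^ (j + 1) * |(m : ℝ)| ≤ B₀ * N :=
        (mul_le_mul_of_nonneg_right hj1.le (abs_nonneg _)).trans h2
      have e1 : δ * N / 8 ^ (j + 1) * |(m : ℝ)| = (B₀ * N) * (|(m : ℝ)| / (8 ^ (j + 1) * (v₀ : ℝ) ^ 3)) := by
        rw [hδ]; field_simp
      rw [e1] at h3
      have h4 : |(m : ℝ)| / (8 ^ (j + 1) * (v₀ : ℝ) ^ 3) ≤ 1 := by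
        have h5 : (0 : ℝ) < B₀ * N := by positivity
        by_contra hcon
        push Not at hcon
        nlinarith
      rw [div_le_one (by positivity)] at h4
      refine h4.trans (le_of_eq ?_)
      push_cast
      rw [mul_pow, ← pow_mul, mul_comm (j + 1) 3, pow_mul]
      norm_num
    by_cases hcase : |(ξ : ℝ)| ≤ ((2 ^ (j + 1) * v₀ : ℕ) : ℝ) ^ 3 ∨ Y ≤ ξ.natAbs
    · right
      exact ⟨j, hjN, ξ, m, g, hpd, hmv, hξ.trans (hYκ κ), hcase, hj2, hn1⟩
    · left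
      push Not at hcase
      refine ⟨ξ, m, g, hpd, hcase.2.le, ?_⟩
      have h2 : |(m : ℝ)| ≤ |(ξ : ℝ)| := hmv.trans hcase.1.le
      have h3 : |m| ≤ |ξ| := by exact_mod_cast h2
      rw [Int.abs_eq_natAbs, Int.abs_eq_natAbs] at h3
      have := hcase.2
      omega
  have hcard : (S.card : ℝ) ≤ (S.filter QL).card + ((S.filter QT).card +
      ∑ j ∈ Finset.range (N + 1), ((S.filter (QJ j)).card : ℝ)) := by
    have h1 := Finset.card_le_card hcov
    have h2 := Finset.card_union_le (S.filter QL) (S.filter QT ∪ (Finset.range (N + 1)).biUnion (fun j => S.filter (QJ j)))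
    have h3 := Finset.card_union_le (S.filter QT) ((Finset.range (N + 1)).biUnion (fun j => S.filter (QJ j)))
    have h4 := Finset.card_biUnion_le (s := Finset.range (N + 1)) (t := fun j => S.filter (QJ j))
    have h5 : S.card ≤ (S.filter QL).card + ((S.filter QT).card +
      ∑ j ∈ Finset.range (N + 1), (S.filter (QJ j)).card) := by omega
    exact_mod_cast h5
  have hsum : ∑ j ∈ Finset.range (N + 1), ((S.filter (QJ j)).card : ℝ) ≤ ε / 3 * N := by
    calc ∑ j ∈ Finset.range (N + 1), ((S.filter (QJ j)).card : ℝ)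
        ≤ ∑ j ∈ Finset.range (N + 1), (4 * C₃ * B₀ / v₀) * N * (1 / 2 ^ j) :=
          Finset.sum_le_sum fun j _ => hJ j
      _ = (4 * C₃ * B₀ / v₀) * N * ∑ j ∈ Finset.range (N + 1), (1 / (2 : ℝ) ^ j) := by
          rw [Finset.mul_sum]
      _ ≤ (4 * C₃ * B₀ / v₀) * N * 2 := mul_le_mul_of_nonneg_left (geom_le _) (by positivity)
      _ = (8 * C₃ * B₀ / v₀) * N := by ring
      _ ≤ _ := mul_le_mul_of_nonneg_right hvC (by linarith)
  linarith

end Pool.Agent.H49TB
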