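import Pool.Agent.H49TB.Mid2
import Pool.Agent.H49TB.Asm5

/-!
Points of polynomial size: conclusion for polynomials with several factors.
-/

set_option autoImplicit false

open Polynomial

namespace Pool.Agent.H49TB

open Pool.Agent.H49SH Pool.Agent.H49TW

/-- the optimisation of the parameters in one cell -/
theorem cell_opt {k L : ℕ} (hk : 0 < k) (hL : L = 3 * k + 2) {C₀ u A M : ℝ} (hC : 1 ≤ C₀) (hu : 1 ≤ u)
    (hA0 : 0 < A) (hM : M * A = C₀ * u ^ (k * L) * (C₀ * u) ^ (k - 1)) (hM1 : 1 ≤ M)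
    (hA : A ≤ C₀ ^ k * u ^ ((k - 1) * (L + 1))) :
    ∃ v : ℕ, 1 ≤ v ∧ M ≤ (v : ℝ) ^ 3 ∧ (v : ℝ) ^ 2 * A * u ≤ 4 * (C₀ ^ k * u ^ (k * L)) := by
  set w : ℝ := M ^ ((1 : ℝ) / 3) with hw
  have hw3 : w ^ 3 = M := by
    rw [hw, ← Real.rpow_natCast, ← Real.rpow_mul (by linarith)]
    norm_num
  have hw1 : 1 ≤ w := Real.one_le_rpow hM1 (by norm_num)
  have hv1 : w ≤ ⌈w⌉₊ := Nat.le_ceil w
  have hv2 : (⌈w⌉₊ : ℝ) ≤ 2 * w := by
    have := Nat.ceil_lt_add_one (zero_le_one.trans hw1)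
    linarith
  refine ⟨⌈w⌉₊, Nat.one_le_iff_ne_zero.2 ?_, ?_, ?_⟩
  · intro h0
    rw [h0, Nat.cast_zero] at hv1
    linarith
  · rw [← hw3]
    exact pow_le_pow_left₀ (by linarith) hv1 3
  · obtain ⟨l, rfl⟩ : ∃ l, k = l + 1 := ⟨k - 1, by omega⟩
    simp only [Nat.add_sub_cancel] at hM hA
    have h1 : (w ^ 2 * A * u) ^ 3 ≤ (C₀ ^ (l + 1) * u ^ ((l + 1) * L)) ^ 3 := by
      have e1 : (w ^ 2 * A * u) ^ 3 = (M * A) ^ 2 * A * u ^ 3 := by
        rw [← hw3]; ring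
      rw [e1, hM]
      have h2 : (C₀ * u ^ ((l + 1) * L) * (C₀ * u) ^ l) ^ 2 * A * u ^ 3 ≤
          (C₀ * u ^ ((l + 1) * L) * (C₀ * u) ^ l) ^ 2 * (C₀ ^ (l + 1) * u ^ (l * (L + 1))) * u ^ 3 := by
        gcongr
      refine h2.trans ?_
      have e2 : (C₀ * u ^ ((l + 1) * L) * (C₀ * u) ^ l) ^ 2 * (C₀ ^ (l + 1) * u ^ (l * (L + 1))) * u ^ 3 =
          C₀ ^ (3 * (l + 1)) * u ^ (2 * ((l + 1) * L) + 2 * l + l * (L + 1) + 3) := by
        ring
      have e3 : (C₀ ^ (l + 1) * u ^ ((l + 1) * L)) ^ 3 = C₀ ^ (3 * (l + 1)) * u ^ (3 * ((l + 1) * L)) := by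
        ring
      rw [e2, e3]
      refine mul_le_mul_of_nonneg_left (pow_le_pow_right₀ hu ?_) (by positivity)
      rw [hL]
      nlinarith
    have h2 : w ^ 2 * A * u ≤ C₀ ^ (l + 1) * u ^ ((l + 1) * L) :=
      (pow_le_pow_iff_left₀ (by positivity) (by positivity) (by norm_num : (3 : ℕ) ≠ 0)).1 h1
    calc (⌈w⌉₊ : ℝ) ^ 2 * A * u ≤ (2 * w) ^ 2 * A * u := by gcongr
      _ = 4 * (w ^ 2 * A * u) := by ring
      _ ≤ _ := by linarith

theorem caseII_mid {k : ℕ} (hk : 0 < k) {h : Fin k → ℤ[X]} (hm : ∀ i, (h i).Monic)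
    (hirr : ∀ i, Irreducible ((h i).map (Int.castRingHom ℚ))) (hr : ∀ i, 0 < (h i).natDegree)
    (hc : ∀ i j, i ≠ j → IsCoprime ((h i).map (Int.castRingHom ℚ)) ((h j).map (Int.castRingHom ℚ)))
    (h3 : ∀ j, 3 ≤ (∏ i ∈ Finset.univ.erase j, h i).natDegree) (κ : ℕ) :
    ∀ ε : ℝ, 0 < ε → ∃ N₀ : ℕ, ∀ N : ℕ, N₀ ≤ N → ∀ S : Finset ℤ,
      (∀ D ∈ S, |(D : ℝ)| ≤ N ∧ ∃ (ξ m : ℤ) (g : ℕ), Pd (∏ i, h i) D ξ m g ∧
        ξ.natAbs ≤ N ^ κ) → (S.card : ℝ) ≤ ε * N := by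
  classical
  choose f₀ B A n hA using fun i => exists_cls1 (h i) (hm i) (hirr i) (hr i)
  have hco : ∀ i, IsCoprime ((h i).map (Int.castRingHom ℚ))
      ((∏ j ∈ Finset.univ.erase i, h j).map (Int.castRingHom ℚ)) := by
    intro i
    rw [Polynomial.map_prod]
    exact IsCoprime.prod_right fun j hj => hc i j (Finset.ne_of_mem_erase hj).symm
  choose c hc0 hcp using fun i => exists_res (hm i) (hco i)
  set B₀ : ℕ := (∏ i, f₀ i) * ∏ i, c i with hB₀
  have hB0 : 0 < B₀ := Nat.mul_pos (Finset.prod_pos fun i _ => (hA i).f0) (Finset.prod_pos fun i _ => hc0 i)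
  set C₀ : ℝ := (B₀ : ℝ) ^ k with hC₀
  have hB0r : (1 : ℝ) ≤ B₀ := by exact_mod_cast hB0
  have hC01 : 1 ≤ C₀ := one_le_pow₀ hB0r
  have hne : ∀ j : Fin k, Nonempty {i : Fin k // i ≠ j} := by
    intro j
    by_contra hcon
    rw [not_nonempty_iff] at hcon
    have h1 := h3 j
    rw [← prod_sub j h, Finset.univ_eq_empty, Finset.prod_empty, natDegree_one] at h1
    omega
  choose B' A' hA' using fun j : Fin k => clsN_of_cls1 (fun i : {i : Fin k // i ≠ j} => h i.1)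
    (fun i => hm i.1) (fun i => hirr i.1) (fun i => hr i.1)
    (fun i i' hii => hc i.1 i'.1 (fun he => hii (Subtype.ext he))) (hne j) (fun i => hA i.1)
  have hC₀k : 1 ≤ C₀ ^ k := one_le_pow₀ hC01
  choose C₃ hC₃ hcount using fun j : Fin k => count_mid (hA' j) (fun i => hm i.1) (fun i => hirr i.1)
    (fun i i' hii => hc i.1 i'.1 (fun he => hii (Subtype.ext he)))
    (by rw [prod_sub j h]; exact h3 j) (f := ∏ i, h i)
    (by rw [prod_sub j h]; exact Finset.prod_dvd_prod_of_subset _ _ _ (Finset.erase_subset _ _)) (8 * κ)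
  intro ε hε
  set L : ℕ := 3 * k + 2 with hLdef
  set K : ℕ := k * L with hK
  have hK0 : K ≠ 0 := by rw [hK, hLdef]; positivity
  set W : ℝ := ∑ j : Fin k, ∑ _τ : Fin k → Fin (K + 1), 4 * C₃ j with hW
  have hW0 : 0 ≤ W := Finset.sum_nonneg fun j _ => Finset.sum_nonneg fun _ _ =>
    mul_nonneg (by norm_num) (hC₃ j)
  set N₁ : ℕ := ⌈(W * C₀ ^ k / (ε / 2)) ^ K⌉₊ with hN₁
  obtain ⟨N₂, hN₂⟩ := tiny (∏ i, h i) (ε / 2) (by positivity)
  refine ⟨max N₁ N₂ + 1, fun N hN S hS => ?_⟩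
  have hNN1 : N₁ ≤ N := by have := le_max_left N₁ N₂; omega
  have hNN2 : N₂ ≤ N := by have := le_max_right N₁ N₂; omega
  have hNr : (1 : ℝ) ≤ N := by
    have : 1 ≤ N := by omega
    exact_mod_cast this
  obtain ⟨Y, hY2, hYκ, hYS⟩ := hN₂ N hNN2
  -- the root
  set u : ℝ := (N : ℝ) ^ ((1 : ℝ) / K) with hu
  have huN : u ^ K = N := by
    rw [hu, ← Real.rpow_natCast, ← Real.rpow_mul (by linarith)]
    rw [one_div, inv_mul_cancel₀ (by exact_mod_cast hK0), Real.rpow_one]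
  have hu1 : 1 ≤ u := Real.one_le_rpow hNr (by positivity)
  have huW : W * C₀ ^ k / (ε / 2) ≤ u := by
    have h1 : (W * C₀ ^ k / (ε / 2)) ^ K ≤ u ^ K := by
      rw [huN]
      refine (Nat.le_ceil _).trans ?_
      exact_mod_cast hNN1
    exact (pow_le_pow_iff_left₀ (by positivity) (by linarith) hK0).1 h1
  let Tt : (Fin k → Fin (K + 1)) → Fin k → ℝ := fun τ i => C₀ * u ^ (τ i : ℕ)
  have hTt : ∀ τ i, 1 ≤ Tt τ i := fun τ i => by
    have h1 : 1 ≤ u ^ (τ i : ℕ) := one_le_pow₀ hu1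
    simp only [Tt]
    nlinarith
  let AA : Fin k → (Fin k → Fin (K + 1)) → ℝ := fun j τ => ∏ i ∈ Finset.univ.erase j, Tt τ i
  have hAA : ∀ j τ, 0 < AA j τ := fun j τ => Finset.prod_pos fun i _ => by linarith [hTt τ i]
  let MM : Fin k → (Fin k → Fin (K + 1)) → ℝ := fun j τ => C₀ * u ^ K * (C₀ * u) ^ (k - 1) / AA j τ
  have hMA : ∀ j τ, MM j τ * AA j τ = C₀ * u ^ K * (C₀ * u) ^ (k - 1) := fun j τ =>
    div_mul_cancel₀ _ (hAA j τ).ne'
  have hvex : ∀ j τ, ∃ v : ℕ, 1 ≤ v ∧ (1 ≤ MM j τ → AA j τ ≤ C₀ ^ k * u ^ ((k - 1) * (L + 1)) →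
      MM j τ ≤ (v : ℝ) ^ 3 ∧ (v : ℝ) ^ 2 * AA j τ * u ≤ 4 * (C₀ ^ k * u ^ K)) := by
    intro j τ
    by_cases h1 : 1 ≤ MM j τ ∧ AA j τ ≤ C₀ ^ k * u ^ ((k - 1) * (L + 1))
    · obtain ⟨v, hv1, hv2, hv3⟩ := cell_opt hk hLdef hC01 hu1 (hAA j τ) (hMA j τ) h1.1 h1.2
      exact ⟨v, hv1, fun _ _ => ⟨hv2, hv3⟩⟩
    · exact ⟨1, le_refl _, fun h2 h3 => absurd ⟨h2, h3⟩ h1⟩
  choose v hv1 hv2 using hvex
  let QT : ℤ → Prop := fun D => ∃ (ξ m : ℤ) (g : ℕ), Pd (∏ i, h i) D ξ m g ∧ ξ.natAbs ≤ Y ∧ m.natAbs ≤ Y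
  let Q : Fin k → (Fin k → Fin (K + 1)) → ℤ → Prop := fun j τ D =>
    AA j τ ≤ C₀ ^ k * u ^ ((k - 1) * (L + 1)) ∧ 1 ≤ MM j τ ∧
      ∃ (ξ m : ℤ) (g : ℕ), Pd (∏ i, h i) D ξ m g ∧ |(m : ℝ)| ≤ ((v j τ : ℕ) : ℝ) ^ 3 ∧
      ξ.natAbs ≤ Y ^ 2 ^ (8 * κ) ∧ (|(ξ : ℝ)| ≤ ((v j τ : ℕ) : ℝ) ^ 3 ∨ Y ≤ ξ.natAbs) ∧
      ∀ i, i ≠ j → (n i ξ m : ℝ) ≤ Tt τ i
  have hT : ((S.filter QT).card : ℝ) ≤ ε / 2 * N := hYS _ fun D hD => (Finset.mem_filter.1 hD).2
  -- the pieces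
  have hpiece : ∀ j τ, ((S.filter (Q j τ)).card : ℝ) * u ≤ 4 * C₃ j * (C₀ ^ k * u ^ K) := by
    intro j τ
    by_cases hτ : AA j τ ≤ C₀ ^ k * u ^ ((k - 1) * (L + 1)) ∧ 1 ≤ MM j τ
    · have h1 := hcount j (fun i => Tt τ i.1) (fun i => hTt τ i.1) (v j τ) (hv1 j τ) Y hY2
        (S.filter (Q j τ)) (fun D hD => by
          rw [Finset.mem_filter] at hD
          obtain ⟨hDS, -, -, ξ, m, g, h1, h2, h4, h5, h6⟩ := hD
          exact ⟨ξ, m, g, h1, h2, h4, h5, fun i => h6 i.1 i.2⟩)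
      rw [prod_sub j (Tt τ)] at h1
      have h2 := (hv2 j τ hτ.2 hτ.1).2
      calc ((S.filter (Q j τ)).card : ℝ) * u
          ≤ (C₃ j * (v j τ : ℝ) ^ 2 * AA j τ) * u := mul_le_mul_of_nonneg_right h1 (by linarith)
        _ = C₃ j * ((v j τ : ℝ) ^ 2 * AA j τ * u) := by ring
        _ ≤ C₃ j * (4 * (C₀ ^ k * u ^ K)) := mul_le_mul_of_nonneg_left h2 (hC₃ j)
        _ = _ := by ring
    · have h1 : S.filter (Q j τ) = ∅ := by
        rw [Finset.filter_eq_empty_iff]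
        intro D _ hQ
        exact hτ ⟨hQ.1, hQ.2.1⟩
      rw [h1, Finset.card_empty, Nat.cast_zero, zero_mul]
      exact mul_nonneg (mul_nonneg (by norm_num) (hC₃ j)) (by positivity)
  -- the covering
  have hcov : S ⊆ S.filter QT ∪ (Finset.univ.biUnion fun j : Fin k =>
      Finset.univ.biUnion fun τ : Fin k → Fin (K + 1) => S.filter (Q j τ)) := by
    intro D hD
    obtain ⟨hDN, ξ, m, g, hpd, hξ⟩ := hS D hD
    have h0 := hpd.hom0
    rw [hom_prod] at h0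
    have hh : ∀ i, hom (h i) ξ m ≠ 0 := fun i => Finset.prod_ne_zero_iff.1 h0 i (Finset.mem_univ i)
    set t : Fin k → ℕ := fun i => n i ξ m with ht
    have hsq : ∀ i, Squarefree (t i) := fun i => (hA i).sqf ξ m hpd.cop (hh i)
    choose d hd1 hd2 hd3 using fun i => split_t (hsq i) hB0.ne'
    have hdt : ∀ i, d i ∣ t i := fun i => ⟨Nat.gcd (t i) B₀, by rw [mul_comm]; exact hd1 i⟩
    have hprodi : ∀ i, ∏ j, h j = h i * ∏ j ∈ Finset.univ.erase i, h j := fun i =>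
      (Finset.mul_prod_erase Finset.univ h (Finset.mem_univ i)).symm
    have hpart := fun i => part_dvd (f₀ := f₀ i) (hprodi i) (hcp i) hpd
      ((hA i).odd ξ m hpd.cop (hh i)) (hdt i) (hd2 i) (fun p hp hpd' h4 => hd3 i p hp hpd' (h4.trans
        (by
          rw [hB₀]
          exact mul_dvd_mul (Finset.dvd_prod_of_mem f₀ (Finset.mem_univ i))
            (Finset.dvd_prod_of_mem c (Finset.mem_univ i)))))
    have hdcop : ∀ i j, i ≠ j → Nat.Coprime (d i) (d j) := by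
      intro i j hij
      by_contra hnc
      obtain ⟨p, hp, hpi, hpj⟩ := Nat.Prime.not_coprime_iff_dvd.1 hnc
      have h4 := ((hpart i).2 p hp hpi).1
      have h5 := ((hpart j).2 p hp hpj).2
      apply h5
      obtain ⟨q, hq⟩ := Finset.dvd_prod_of_mem h (Finset.mem_erase.2 ⟨hij, Finset.mem_univ i⟩)
      rw [hq, hom_mul]
      exact h4.mul_right _
    have hdg : (∏ i, d i) ∣ g := by
      have h4 : (∏ i, ((d i : ℕ) : ℤ)) ∣ (g : ℤ) :=
        Fintype.prod_dvd_of_coprime (fun i j hij => Nat.isCoprime_iff_coprime.2 (hdcop i j hij))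
          (fun i => by exact_mod_cast (hpart i).1)
      exact_mod_cast h4
    have hgmN := hpd.g_mul hDN
    have hm1 := hpd.m_one
    have htprod : ((∏ i, t i : ℕ) : ℝ) * |(m : ℝ)| ≤ C₀ * N := by
      have h4 : ∏ i, t i ≤ B₀ ^ k * g := by
        calc ∏ i, t i ≤ ∏ i, (B₀ * d i) := Finset.prod_le_prod' fun i _ => by
              conv_lhs => rw [hd1 i]
              exact Nat.mul_le_mul_right _ (Nat.gcd_le_right _ hB0)
          _ = B₀ ^ k * ∏ i, d i := by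
              rw [Finset.prod_mul_distrib, Finset.prod_const, Finset.card_univ, Fintype.card_fin]
          _ ≤ _ := Nat.mul_le_mul_left _ (Nat.le_of_dvd hpd.g0 hdg)
      have h5 : ((∏ i, t i : ℕ) : ℝ) ≤ C₀ * g := by
        calc ((∏ i, t i : ℕ) : ℝ) ≤ ((B₀ ^ k * g : ℕ) : ℝ) := by exact_mod_cast h4
          _ = C₀ * g := by rw [hC₀]; push_cast; ring
      calc ((∏ i, t i : ℕ) : ℝ) * |(m : ℝ)| ≤ C₀ * g * |(m : ℝ)| :=
            mul_le_mul_of_nonneg_right h5 (abs_nonneg _)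
        _ = C₀ * (g * |(m : ℝ)|) := by ring
        _ ≤ _ := mul_le_mul_of_nonneg_left hgmN (by linarith)
    -- the largest
    obtain ⟨j, hj⟩ : ∃ j : Fin k, ∀ i, t i ≤ t j := by
      have : Nonempty (Fin k) := ⟨⟨0, hk⟩⟩
      exact Finite.exists_max t
    have ht1 : ∀ i, 1 ≤ t i := fun i => Nat.pos_of_ne_zero (hsq i).ne_zero
    have htprod1 : ((∏ i, t i : ℕ) : ℝ) ≤ C₀ * N := by
      have h4 : (0 : ℝ) ≤ ((∏ i, t i : ℕ) : ℝ) := Nat.cast_nonneg _
      nlinarith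
    have hti : ∀ i, (t i : ℝ) ≤ C₀ * u ^ K := by
      intro i
      rw [huN]
      refine le_trans ?_ htprod1
      have h4 : t i ≤ ∏ i, t i := Nat.le_of_dvd (Finset.prod_pos fun i _ => ht1 i)
        (Finset.dvd_prod_of_mem t (Finset.mem_univ i))
      exact_mod_cast h4
    -- exponents
    have hτex : ∀ i, ∃ e : ℕ, e < K + 1 ∧ (t i : ℝ) ≤ C₀ * u ^ e ∧ C₀ * u ^ e ≤ (C₀ * u) * t i := by
      intro i
      have hex : ∃ e : ℕ, (t i : ℝ) ≤ C₀ * u ^ e := ⟨K, hti i⟩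
      have htr : (1 : ℝ) ≤ t i := by exact_mod_cast ht1 i
      refine ⟨Nat.find hex, Nat.lt_succ_of_le (Nat.find_min' hex (hti i)), Nat.find_spec hex, ?_⟩
      rcases Nat.eq_zero_or_pos (Nat.find hex) with h4 | h4
      · rw [h4, pow_zero, mul_one]
        have h5 : C₀ ≤ C₀ * u := by nlinarith
        nlinarith
      · have h5 := Nat.find_min hex (m := Nat.find hex - 1) (by omega)
        have h6 : Nat.find hex = (Nat.find hex - 1) + 1 := by omega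
        rw [not_le] at h5
        rw [h6, pow_succ]
        have h7 : (t i : ℝ) * u ≤ C₀ * u * t i := by
          have h8 : 0 ≤ (t i : ℝ) * u := by positivity
          nlinarith
        calc C₀ * (u ^ (Nat.find hex - 1) * u) = (C₀ * u ^ (Nat.find hex - 1)) * u := by ring
          _ ≤ t i * u := mul_le_mul_of_nonneg_right h5.le (by linarith)
          _ ≤ _ := h7
    choose e he1 he2 he3 using hτex
    let τ : Fin k → Fin (K + 1) := fun i => ⟨e i, he1 i⟩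
    set P : ℕ := ∏ i ∈ Finset.univ.erase j, t i with hPdef
    have h4 : AA j τ ≤ (C₀ * u) ^ (k - 1) * P := by
      calc AA j τ ≤ ∏ i ∈ Finset.univ.erase j, ((C₀ * u) * (t i : ℝ)) :=
            Finset.prod_le_prod (fun i _ => zero_le_one.trans (hTt τ i)) fun i _ => he3 i
        _ = (C₀ * u) ^ (k - 1) * P := by
            rw [Finset.prod_mul_distrib, Finset.prod_const,
              Finset.card_erase_of_mem (Finset.mem_univ j), Finset.card_univ, Fintype.card_fin, hPdef]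
            push_cast
            rfl
    have hP : AA j τ ≤ C₀ ^ k * u ^ ((k - 1) * (L + 1)) := by
      have h5 : (P : ℝ) ≤ C₀ * u ^ (L * (k - 1)) := by
        have h6 := prod_erase_pow t j hj
        have h7 : (P : ℝ) ^ k ≤ (C₀ * N) ^ (k - 1) := by
          calc (P : ℝ) ^ k ≤ ((∏ i, t i : ℕ) : ℝ) ^ (k - 1) := by exact_mod_cast h6
            _ ≤ _ := pow_le_pow_left₀ (by positivity) htprod1 _
        have h8 : (C₀ * (N : ℝ)) ^ (k - 1) ≤ (C₀ * u ^ (L * (k - 1))) ^ k := by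
          have e1 : (u ^ K) ^ (k - 1) = (u ^ (L * (k - 1))) ^ k := by
            rw [← pow_mul, ← pow_mul, hK]
            congr 1
            ring
          rw [mul_pow, mul_pow, ← huN, e1]
          exact mul_le_mul_of_nonneg_right (pow_le_pow_right₀ hC01 (Nat.sub_le _ _)) (by positivity)
        exact (pow_le_pow_iff_left₀ (by positivity) (by positivity) hk.ne').1 (h7.trans h8)
      refine h4.trans ?_
      calc (C₀ * u) ^ (k - 1) * P ≤ (C₀ * u) ^ (k - 1) * (C₀ * u ^ (L * (k - 1))) :=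
            mul_le_mul_of_nonneg_left h5 (by positivity)
        _ = C₀ ^ ((k - 1) + 1) * u ^ ((k - 1) * (L + 1)) := by ring
        _ = C₀ ^ k * u ^ ((k - 1) * (L + 1)) := by rw [Nat.sub_add_cancel hk]
    have hmM : |(m : ℝ)| ≤ MM j τ := by
      have h5 : (P : ℝ) ≤ ((∏ i, t i : ℕ) : ℝ) := by
        have h6 : P ≤ ∏ i, t i := by
          rw [hPdef, ← Finset.mul_prod_erase Finset.univ t (Finset.mem_univ j)]
          exact Nat.le_mul_of_pos_left _ (ht1 j)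
        exact_mod_cast h6
      have h6 : (P : ℝ) * |(m : ℝ)| ≤ C₀ * u ^ K := by
        rw [huN]
        exact (mul_le_mul_of_nonneg_right h5 (abs_nonneg _)).trans htprod
      show |(m : ℝ)| ≤ C₀ * u ^ K * (C₀ * u) ^ (k - 1) / AA j τ
      rw [le_div_iff₀ (hAA j τ)]
      calc |(m : ℝ)| * AA j τ ≤ |(m : ℝ)| * ((C₀ * u) ^ (k - 1) * P) :=
            mul_le_mul_of_nonneg_left h4 (abs_nonneg _)
        _ = (P * |(m : ℝ)|) * (C₀ * u) ^ (k - 1) := by ring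
        _ ≤ _ := mul_le_mul_of_nonneg_right h6 (by positivity)
    have hM1 : 1 ≤ MM j τ := hm1.trans hmM
    have hmv : |(m : ℝ)| ≤ ((v j τ : ℕ) : ℝ) ^ 3 := hmM.trans (hv2 j τ hM1 hP).1
    rw [Finset.mem_union]
    by_cases hcase : |(ξ : ℝ)| ≤ ((v j τ : ℕ) : ℝ) ^ 3 ∨ Y ≤ ξ.natAbs
    · right
      rw [Finset.mem_biUnion]
      refine ⟨j, Finset.mem_univ _, ?_⟩
      rw [Finset.mem_biUnion]
      refine ⟨τ, Finset.mem_univ _, ?_⟩
      rw [Finset.mem_filter]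
      exact ⟨hD, hP, hM1, ξ, m, g, hpd, hmv, hξ.trans (hYκ κ), hcase, fun i _ => he2 i⟩
    · left
      push Not at hcase
      rw [Finset.mem_filter]
      refine ⟨hD, ξ, m, g, hpd, hcase.2.le, ?_⟩
      have h2 : |(m : ℝ)| ≤ |(ξ : ℝ)| := hmv.trans hcase.1.le
      have h3 : |m| ≤ |ξ| := by exact_mod_cast h2
      rw [Int.abs_eq_natAbs, Int.abs_eq_natAbs] at h3
      have := hcase.2
      omega
  set R : Finset ℤ := Finset.univ.biUnion fun j : Fin k =>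
      Finset.univ.biUnion fun τ : Fin k → Fin (K + 1) => S.filter (Q j τ) with hR
  have hR1 : (R.card : ℝ) * u ≤ W * (C₀ ^ k * u ^ K) := by
    have h2 : R.card ≤ ∑ j : Fin k, ∑ τ : Fin k → Fin (K + 1), (S.filter (Q j τ)).card :=
      Finset.card_biUnion_le.trans (Finset.sum_le_sum fun j _ => Finset.card_biUnion_le)
    calc (R.card : ℝ) * u ≤ (∑ j : Fin k, ∑ τ : Fin k → Fin (K + 1), ((S.filter (Q j τ)).card : ℝ)) * u := by
          refine mul_le_mul_of_nonneg_right ?_ (by linarith)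
          exact_mod_cast h2
      _ = ∑ j : Fin k, ∑ τ : Fin k → Fin (K + 1), ((S.filter (Q j τ)).card : ℝ) * u := by
          rw [Finset.sum_mul]
          exact Finset.sum_congr rfl fun j _ => Finset.sum_mul _ _ _
      _ ≤ ∑ j : Fin k, ∑ _τ : Fin k → Fin (K + 1), 4 * C₃ j * (C₀ ^ k * u ^ K) :=
          Finset.sum_le_sum fun j _ => Finset.sum_le_sum fun τ _ => hpiece j τ
      _ = _ := by
          rw [hW, Finset.sum_mul]
          refine Finset.sum_congr rfl fun j _ => ?_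
          rw [Finset.sum_mul]
  have hR2 : (R.card : ℝ) ≤ ε / 2 * N := by
    rw [div_le_iff₀ (by positivity)] at huW
    have h2 : (R.card : ℝ) * u ≤ (ε / 2 * N) * u := by
      calc (R.card : ℝ) * u ≤ W * (C₀ ^ k * u ^ K) := hR1
        _ = (W * C₀ ^ k) * N := by rw [huN]; ring
        _ ≤ (u * (ε / 2)) * N := mul_le_mul_of_nonneg_right huW (by linarith)
        _ = _ := by ring
    exact le_of_mul_le_mul_right h2 (by linarith)
  have hcard : (S.card : ℝ) ≤ (S.filter QT).card + R.card := by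
    have h1 := (Finset.card_le_card hcov).trans (Finset.card_union_le _ _)
    exact_mod_cast h1
  linarith

end Pool.Agent.H49TB
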