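import Pool.Agent.H49TB.Cell
import Pool.Agent.H49SH.Gap

/-!
The number of points of one class in the different ranges.
-/

set_option autoImplicit false

namespace Pool.Agent.H49TB

open Polynomial Finset

variable {r : ℕ}

lemma sg_abs {x : ℝ} {s : Bool} (hx : x ≠ 0) (hs : decide (0 < x) = s) : (sg s : ℝ) * |x| = x := by
  rcases lt_or_gt_of_ne hx with h | h
  · have : s = false := by rw [← hs]; exact decide_eq_false (not_lt.2 h.le)
    rw [this, abs_of_neg h]; simp [sg]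
  · have : s = true := by rw [← hs]; exact decide_eq_true h
    rw [this, abs_of_pos h]; simp [sg]

lemma sg_sq (s : Bool) : ((sg s : ℤ) : ℂ) * (sg s : ℤ) = 1 := by
  exact_mod_cast congrArg (Int.cast : ℤ → ℂ) (sg_mul_self s)

lemma norm_sg (s : Bool) : ‖((sg s : ℤ) : ℂ)‖ = 1 := by
  rw [Complex.norm_intCast]; cases s <;> simp [sg]

/-- the normalised value -/
lemma nz {x : ℝ} (hx : x ≠ 0) {s : Bool} (hs : decide (0 < x) = s) (z : ℂ) (w : ℂ)
    (hw : w = x * z) : (((Real.sqrt |x|)⁻¹ : ℝ) : ℂ) ^ 2 * w = (sg s : ℂ) * z := by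
  have h1 : (((Real.sqrt |x|)⁻¹ : ℝ) : ℂ) ^ 2 = ((|x|⁻¹ : ℝ) : ℂ) := by
    rw [← Complex.ofReal_pow, inv_pow, Real.sq_sqrt (abs_nonneg x)]
  have h2 : (x : ℂ) = (sg s : ℂ) * ((|x| : ℝ) : ℂ) := by
    have := congrArg (fun t : ℝ => (t : ℂ)) (sg_abs hx hs)
    push_cast at this
    exact this.symm
  have h3 : ((|x| : ℝ) : ℂ) ≠ 0 := by
    have : |x| ≠ 0 := abs_ne_zero.2 hx
    exact_mod_cast this
  rw [h1, hw, h2]
  push_cast
  field_simp

lemma nz1 {ξ m : ℤ} (hξ : ξ ≠ 0) {s : Bool} (hs : decide (0 < (ξ : ℝ)) = s) (z : ℂ) :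
    (((Real.sqrt |(ξ : ℝ)|)⁻¹ : ℝ) : ℂ) ^ 2 * ((ξ : ℂ) - m * z) =
      (sg s : ℂ) * (1 - (((m : ℝ) / ξ : ℝ) : ℂ) * z) := by
  have h1 : (ξ : ℝ) ≠ 0 := by exact_mod_cast hξ
  have h2 : (ξ : ℂ) ≠ 0 := by exact_mod_cast hξ
  refine nz h1 hs _ _ ?_
  push_cast
  field_simp

lemma nz2 {ξ m : ℤ} (hm : m ≠ 0) {s : Bool} (hs : decide (0 < (m : ℝ)) = s) (z : ℂ) :
    (((Real.sqrt |(m : ℝ)|)⁻¹ : ℝ) : ℂ) ^ 2 * ((ξ : ℂ) - m * z) =
      (sg s : ℂ) * ((((ξ : ℝ) / m : ℝ) : ℂ) - z) := by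
  have h1 : (m : ℝ) ≠ 0 := by exact_mod_cast hm
  have h2 : (m : ℂ) ≠ 0 := by exact_mod_cast hm
  refine nz h1 hs _ _ ?_
  push_cast
  field_simp

lemma floor_close {t ℓ : ℝ} (hℓ : 0 < ℓ) {j : ℤ} (hj : ⌊t / ℓ⌋ = j) : |t - j * ℓ| ≤ ℓ := by
  have h1 := Int.floor_le (t / ℓ)
  have h2 := Int.lt_floor_add_one (t / ℓ)
  rw [hj] at h1 h2
  rw [le_div_iff₀ hℓ] at h1
  rw [div_lt_iff₀ hℓ] at h2
  rw [abs_le]
  constructor <;> nlinarith

/-- points close to infinity -/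
theorem range1 {θ : Fin r → ℂ} {κ₁ : ℝ} (hκ : 0 < κ₁) (hκ1 : κ₁ ≤ 1) (hsep : Sep θ κ₁) {M : ℝ}
    (hM : 1 ≤ M) (hθM : ∀ i, ‖θ i‖ ≤ M) : ∃ C : ℝ, 0 ≤ C ∧ ∀ a : ℤ[X], (∀ i, aeval (θ i) a ≠ 0) →
    ∀ S : Finset (ℤ × ℤ), (∀ p ∈ S, Cp θ a p) → ∀ U w : ℝ, 0 ≤ U → 1 ≤ w →
    (∀ p ∈ S, p.1 ≠ 0 ∧ 4 * M * |(p.2 : ℝ)| ≤ |(p.1 : ℝ)| ∧ |(p.2 : ℝ)| ≤ U * |(p.1 : ℝ)| ∧
      |(p.1 : ℝ)| ≤ w ^ 2) → (S.card : ℝ) ≤ C * (1 + U * w) := by
  classical
  set c₁ : ℝ := κ₁ / (4 * M) with hc₁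
  have hc0 : 0 < c₁ := by positivity
  have hc1 : c₁ ≤ 1 / (4 * M) := div_le_div_of_nonneg_right hκ1 (by positivity)
  refine ⟨2 * 2 ^ r * (2 / c₁ + 2), by positivity, fun a ha0 S hS U w hU hw hp => ?_⟩
  set ℓ : ℝ := c₁ / w with hℓ
  have hw0 : 0 < w := by linarith
  have hℓ0 : 0 < ℓ := by positivity
  have hℓc : ℓ ≤ c₁ := div_le_self hc0.le hw
  have hcard := cells S (fun p => (p.2 : ℝ) / p.1) (fun p => decide (0 < (p.1 : ℝ))) ℓ 0 U hℓ0 hU
    (by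
      intro p hpS
      obtain ⟨h0, -, h1, -⟩ := hp p hpS
      have h2 : 0 < |(p.1 : ℝ)| := by
        have : (p.1 : ℝ) ≠ 0 := by exact_mod_cast h0
        positivity
      rw [sub_zero, abs_div, div_le_iff₀ h2]
      exact h1) (2 ^ r) (by
      intro s j
      refine cell hκ hsep a ha0 _ (fun p hp' => hS p (Finset.mem_filter.1 hp').1)
        (fun p => (Real.sqrt |(p.1 : ℝ)|)⁻¹) (1 / w) (by positivity) ?_
        (fun i => (sg s : ℂ) * (1 - ((j * ℓ : ℝ) : ℂ) * θ i)) (2 * ℓ ^ 2 * M ^ 2) (by positivity) ?_ ?_ ?_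
      · intro p hp'
        obtain ⟨h0, -, -, h1⟩ := hp p (Finset.mem_filter.1 hp').1
        have h2 : 0 < |(p.1 : ℝ)| := by
          have : (p.1 : ℝ) ≠ 0 := by exact_mod_cast h0
          positivity
        rw [one_div]
        apply inv_anti₀ (Real.sqrt_pos.2 h2)
        rw [Real.sqrt_le_left hw0.le]
        exact h1
      · have e1 : 4 * (2 * ℓ ^ 2 * M ^ 2) = κ₁ ^ 2 / (2 * w ^ 2) := by
          rw [hℓ, hc₁]; field_simp; ring
        rw [e1, div_pow, one_pow, mul_one_div, div_lt_div_iff₀ (by positivity) (by positivity)]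
        have h3 : κ₁ ^ 2 ≤ κ₁ := by nlinarith
        have h4 : 0 < κ₁ * w ^ 2 := by positivity
        nlinarith [mul_le_mul_of_nonneg_right h3 (sq_nonneg w)]
      · intro p hp' i
        obtain ⟨hpS, hsj⟩ := Finset.mem_filter.1 hp'
        obtain ⟨h0, h1, h2, h3⟩ := hp p hpS
        right
        rw [nz1 h0 hsj.1]
        have h4 := floor_close hℓ0 hsj.2
        have hξ0 : 0 < |(p.1 : ℝ)| := by
          have : (p.1 : ℝ) ≠ 0 := by exact_mod_cast h0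
          positivity
        have hu : |(p.2 : ℝ) / p.1| ≤ 1 / (4 * M) := by
          rw [abs_div, div_le_div_iff₀ hξ0 (by positivity)]
          linarith
        have e1 : (sg s : ℂ) * (1 - (((p.2 : ℝ) / p.1 : ℝ) : ℂ) * θ i) -
            (sg s : ℂ) * (1 - ((j * ℓ : ℝ) : ℂ) * θ i) =
            -((sg s : ℂ) * (((p.2 : ℝ) / p.1 - j * ℓ : ℝ) : ℂ) * θ i) := by
          push_cast; ring
        rw [e1, norm_neg, norm_mul, norm_mul, norm_sg, one_mul, Complex.norm_real, Real.norm_eq_abs,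
          norm_mul, norm_sg, one_mul]
        have h5 : |(p.2 : ℝ) / p.1 - j * ℓ| * ‖θ i‖ ≤ ℓ * M :=
          mul_le_mul h4 (hθM i) (norm_nonneg _) hℓ0.le
        have h6 : |j * ℓ| ≤ 1 / (2 * M) := by
          have h7 : |j * ℓ| ≤ |(p.2 : ℝ) / p.1| + |(p.2 : ℝ) / p.1 - j * ℓ| := by
            have := abs_sub_abs_le_abs_sub (j * ℓ) ((p.2 : ℝ) / p.1)
            rw [abs_sub_comm] at this
            linarith
          have e2 : 1 / (2 * M) = 1 / (4 * M) + 1 / (4 * M) := by field_simp; ring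
          rw [e2]
          linarith
        have h8 : 1 / 2 ≤ ‖(1 : ℂ) - ((j * ℓ : ℝ) : ℂ) * θ i‖ := by
          have h9 := norm_sub_norm_le (1 : ℂ) (((j * ℓ : ℝ) : ℂ) * θ i)
          rw [norm_one, norm_mul, Complex.norm_real, Real.norm_eq_abs] at h9
          have h10 : |j * ℓ| * ‖θ i‖ ≤ 1 / (2 * M) * M :=
            mul_le_mul h6 (hθM i) (norm_nonneg _) (by positivity)
          have e3 : 1 / (2 * M) * M = 1 / 2 := by field_simp
          rw [e3] at h10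
          linarith
        calc (|(p.2 : ℝ) / p.1 - j * ℓ| * ‖θ i‖) ^ 2 ≤ (ℓ * M) ^ 2 :=
              pow_le_pow_left₀ (by positivity) h5 2
          _ = 2 * ℓ ^ 2 * M ^ 2 * (1 / 2) := by ring
          _ ≤ _ := mul_le_mul_of_nonneg_left h8 (by positivity)
      · intro p hp' p' hp'' he _
        obtain ⟨hpS, hsj⟩ := Finset.mem_filter.1 hp'
        obtain ⟨hpS', hsj'⟩ := Finset.mem_filter.1 hp''
        have h0 := (hp p hpS).1
        have h1 : decide (0 < (p.1 : ℝ)) = decide (0 < (p'.1 : ℝ)) := hsj.1.trans hsj'.1.symm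
        rw [he, decide_eq_decide] at h1
        push_cast at h1
        have h2 : (0 : ℝ) < p.1 ↔ (p.1 : ℝ) < 0 := by rw [h1]; constructor <;> intro h <;> linarith
        have h3 : (p.1 : ℝ) ≠ 0 := by exact_mod_cast h0
        rcases lt_or_gt_of_ne h3 with h4 | h4
        · exact absurd (h2.2 h4) (by linarith)
        · exact absurd (h2.1 h4) (by linarith))
  refine hcard.trans ?_
  push_cast
  have e1 : 2 * U / ℓ = 2 / c₁ * (U * w) := by rw [hℓ]; field_simp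
  rw [e1]
  have h1 : 0 ≤ U * w := by positivity
  have h2 : 0 ≤ 2 / c₁ := by positivity
  have h3 : 2 / c₁ * (U * w) + 2 ≤ (2 / c₁ + 2) * (1 + U * w) := by nlinarith
  calc 2 * 2 ^ r * (2 / c₁ * (U * w) + 2) ≤ 2 * 2 ^ r * ((2 / c₁ + 2) * (1 + U * w)) :=
        mul_le_mul_of_nonneg_left h3 (by positivity)
    _ = _ := by ring

end Pool.Agent.H49TB
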