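import Pool.Agent.H49TB.Rng

/-!
The number of points of one class in the different ranges: the other ranges.
-/

set_option autoImplicit false

namespace Pool.Agent.H49TB

open Polynomial Finset

variable {r : ℕ}

lemma not_neg_sign {x y : ℝ} (hx : x ≠ 0) (hy : y = -x) (h : decide (0 < x) = decide (0 < y)) : False := by
  rw [hy, decide_eq_decide] at h
  rcases lt_or_gt_of_ne hx with h4 | h4
  · have := h.2 (by linarith); linarith
  · have := h.1 h4; linarith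

/-- points away from infinity: a cell division -/
theorem range2_aux {θ : Fin r → ℂ} {κ₁ : ℝ} (hκ : 0 < κ₁) (hsep : Sep θ κ₁) (a : ℤ[X])
    (ha0 : ∀ i, aeval (θ i) a ≠ 0) (S : Finset (ℤ × ℤ)) (hS : ∀ p ∈ S, Cp θ a p) (v : ℕ) (hv : 1 ≤ v)
    (hp : ∀ p ∈ S, p.2 ≠ 0 ∧ |(p.2 : ℝ)| ≤ (v : ℝ) ^ 3) (x₀ R' ℓ q : ℝ) (hR : 0 ≤ R') (hℓ : 0 < ℓ)
    (hx₀ : ∀ p ∈ S, |(p.1 : ℝ) / p.2 - x₀| ≤ R') (hq0 : 0 ≤ q) (hq : 4 * q < κ₁ / (v : ℝ) ^ 3)
    (hz : (ℓ ≤ q) ∨ (∀ p ∈ S, ∀ i, ℓ ^ 2 ≤ q * (‖((((p.1 : ℝ) / p.2 : ℝ)) : ℂ) - θ i‖ - ℓ))) :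
    (S.card : ℝ) ≤ 2 * 2 ^ r * (2 * R' / ℓ + 2) := by
  classical
  have hv0 : (0 : ℝ) < v := by exact_mod_cast hv
  have hcard := cells S (fun p => (p.1 : ℝ) / p.2) (fun p => decide (0 < (p.2 : ℝ))) ℓ x₀ R' hℓ hR
    hx₀ (2 ^ r) (by
      intro s j
      refine cell hκ hsep a ha0 _ (fun p hp' => hS p (Finset.mem_filter.1 hp').1)
        (fun p => (Real.sqrt |(p.2 : ℝ)|)⁻¹) (Real.sqrt ((v : ℝ) ^ 3))⁻¹
        (inv_pos.2 (Real.sqrt_pos.2 (by positivity))) ?_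
        (fun i => (sg s : ℂ) * (((j * ℓ : ℝ) : ℂ) - θ i)) q hq0 ?_ ?_ ?_
      · intro p hp'
        obtain ⟨h0, h1⟩ := hp p (Finset.mem_filter.1 hp').1
        have h2 : 0 < |(p.2 : ℝ)| := by
          have : (p.2 : ℝ) ≠ 0 := by exact_mod_cast h0
          positivity
        exact inv_anti₀ (Real.sqrt_pos.2 h2) (Real.sqrt_le_sqrt h1)
      · rw [inv_pow, Real.sq_sqrt (by positivity)]
        exact hq
      · intro p hp' i
        obtain ⟨hpS, hsj⟩ := Finset.mem_filter.1 hp'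
        obtain ⟨h0, h1⟩ := hp p hpS
        rw [nz2 h0 hsj.1]
        have h4 := floor_close hℓ hsj.2
        have e1 : (sg s : ℂ) * ((((p.1 : ℝ) / p.2 : ℝ) : ℂ) - θ i) -
            (sg s : ℂ) * (((j * ℓ : ℝ) : ℂ) - θ i) =
            (sg s : ℂ) * (((p.1 : ℝ) / p.2 - j * ℓ : ℝ) : ℂ) := by
          push_cast; ring
        rw [e1, norm_mul, norm_sg, one_mul, Complex.norm_real, Real.norm_eq_abs, norm_mul, norm_sg, one_mul]
        rcases hz with hz | hz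
        · left
          exact h4.trans hz
        · right
          have h5 := hz p hpS i
          have h6 : ‖((((p.1 : ℝ) / p.2 : ℝ)) : ℂ) - θ i‖ - ℓ ≤ ‖((j * ℓ : ℝ) : ℂ) - θ i‖ := by
            have e2 : ((((p.1 : ℝ) / p.2 : ℝ)) : ℂ) - θ i = (((j * ℓ : ℝ) : ℂ) - θ i) +
                (((p.1 : ℝ) / p.2 - j * ℓ : ℝ) : ℂ) := by push_cast; ring
            have h7 := norm_add_le (((j * ℓ : ℝ) : ℂ) - θ i) (((p.1 : ℝ) / p.2 - j * ℓ : ℝ) : ℂ)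
            rw [← e2, Complex.norm_real, Real.norm_eq_abs] at h7
            linarith
          calc |(p.1 : ℝ) / p.2 - j * ℓ| ^ 2 ≤ ℓ ^ 2 := pow_le_pow_left₀ (abs_nonneg _) h4 2
            _ ≤ _ := h5
            _ ≤ _ := mul_le_mul_of_nonneg_left h6 hq0
      · intro p hp' p' hp'' _ he
        obtain ⟨hpS, hsj⟩ := Finset.mem_filter.1 hp'
        obtain ⟨hpS', hsj'⟩ := Finset.mem_filter.1 hp''
        have h0 : (p.2 : ℝ) ≠ 0 := by exact_mod_cast (hp p hpS).1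
        exact not_neg_sign h0 (by rw [he]; push_cast; rfl) (hsj.1.trans hsj'.1.symm))
  refine hcard.trans (le_of_eq ?_)
  push_cast
  ring

theorem range2 {θ : Fin r → ℂ} {κ₁ : ℝ} (hκ : 0 < κ₁) (hκ1 : κ₁ ≤ 1) (hsep : Sep θ κ₁) {M : ℝ}
    (hM : 1 ≤ M) : ∃ C : ℝ, 0 ≤ C ∧ ∀ a : ℤ[X], (∀ i, aeval (θ i) a ≠ 0) →
    ∀ S : Finset (ℤ × ℤ), (∀ p ∈ S, Cp θ a p) → ∀ v : ℕ, 1 ≤ v →
    (∀ p ∈ S, p.2 ≠ 0 ∧ |(p.2 : ℝ)| ≤ (v : ℝ) ^ 3 ∧ |(p.1 : ℝ)| ≤ 4 * M * |(p.2 : ℝ)|) →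
    (S.card : ℝ) ≤ C * (v : ℝ) ^ 2 := by
  classical
  refine ⟨2 * 2 ^ r * (32 * M / κ₁ + 2) + r * (2 * 2 ^ r * (10 / κ₁ + 2)), by positivity,
    fun a ha0 S hS v hv hp => ?_⟩
  have hv0 : (0 : ℝ) < v := by exact_mod_cast hv
  have hv1 : (1 : ℝ) ≤ v := by exact_mod_cast hv
  have hv2 : (1 : ℝ) ≤ (v : ℝ) ^ 2 := one_le_pow₀ hv1
  let Q : Fin r → ℤ × ℤ → Prop := fun i p => ‖((((p.1 : ℝ) / p.2 : ℝ)) : ℂ) - θ i‖ ≤ 1 / v
  -- near
  have hnear : ∀ i, ((S.filter (Q i)).card : ℝ) ≤ 2 * 2 ^ r * (10 / κ₁ + 2) * (v : ℝ) ^ 2 := by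
    intro i
    have h1 := range2_aux hκ hsep a ha0 (S.filter (Q i)) (fun p hp' => hS p (Finset.mem_filter.1 hp').1) v hv
      (fun p hp' => ⟨(hp p (Finset.mem_filter.1 hp').1).1, (hp p (Finset.mem_filter.1 hp').1).2.1⟩)
      (θ i).re (1 / v) (κ₁ / 5 / (v : ℝ) ^ 3) (κ₁ / 5 / (v : ℝ) ^ 3) (by positivity) (by positivity)
      (by
        intro p hp'
        have h2 := (Finset.mem_filter.1 hp').2
        have h3 := Complex.abs_re_le_norm (((((p.1 : ℝ) / p.2 : ℝ)) : ℂ) - θ i)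
        rw [Complex.sub_re, Complex.ofReal_re] at h3
        exact h3.trans h2) (by positivity)
      (by
        rw [← mul_div_assoc, div_lt_div_iff_of_pos_right (by positivity)]
        linarith) (Or.inl le_rfl)
    refine h1.trans ?_
    have e1 : 2 * (1 / (v : ℝ)) / (κ₁ / 5 / (v : ℝ) ^ 3) = 10 / κ₁ * (v : ℝ) ^ 2 := by
      field_simp; ring
    rw [e1]
    have h5 : 10 / κ₁ * (v : ℝ) ^ 2 + 2 ≤ (10 / κ₁ + 2) * (v : ℝ) ^ 2 := by nlinarith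
    calc 2 * 2 ^ r * (10 / κ₁ * (v : ℝ) ^ 2 + 2) ≤ 2 * 2 ^ r * ((10 / κ₁ + 2) * (v : ℝ) ^ 2) :=
          mul_le_mul_of_nonneg_left h5 (by positivity)
      _ = _ := by ring
  -- far
  have hfar : ((S.filter (fun p => ∀ i, ¬ Q i p)).card : ℝ) ≤ 2 * 2 ^ r * (32 * M / κ₁ + 2) * (v : ℝ) ^ 2 := by
    have h1 := range2_aux hκ hsep a ha0 (S.filter (fun p => ∀ i, ¬ Q i p))
      (fun p hp' => hS p (Finset.mem_filter.1 hp').1) v hv
      (fun p hp' => ⟨(hp p (Finset.mem_filter.1 hp').1).1, (hp p (Finset.mem_filter.1 hp').1).2.1⟩)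
      0 (4 * M) (κ₁ / 4 / (v : ℝ) ^ 2) (2 * v * (κ₁ / 4 / (v : ℝ) ^ 2) ^ 2) (by positivity) (by positivity)
      (by
        intro p hp'
        obtain ⟨h0, -, h2⟩ := hp p (Finset.mem_filter.1 hp').1
        have h3 : 0 < |(p.2 : ℝ)| := by
          have : (p.2 : ℝ) ≠ 0 := by exact_mod_cast h0
          positivity
        rw [sub_zero, abs_div, div_le_iff₀ h3]
        exact h2) (by positivity)
      (by
        have e1 : 4 * (2 * (v : ℝ) * (κ₁ / 4 / (v : ℝ) ^ 2) ^ 2) = κ₁ ^ 2 / 2 / (v : ℝ) ^ 3 := by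
          field_simp; ring
        rw [e1, div_lt_div_iff_of_pos_right (by positivity)]
        nlinarith) (Or.inr (by
        intro p hp' i
        have h2 := (Finset.mem_filter.1 hp').2 i
        simp only [Q, not_le] at h2
        have h3 : κ₁ / 4 / (v : ℝ) ^ 2 ≤ 1 / (2 * v) := by
          rw [div_div, div_le_div_iff₀ (by positivity) (by positivity)]
          nlinarith
        have e2 : 1 / (v : ℝ) - 1 / (2 * v) = 1 / (2 * v) := by field_simp; ring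
        have h4 : 1 / (2 * (v : ℝ)) ≤ ‖((((p.1 : ℝ) / p.2 : ℝ)) : ℂ) - θ i‖ - κ₁ / 4 / (v : ℝ) ^ 2 := by
          linarith
        calc (κ₁ / 4 / (v : ℝ) ^ 2) ^ 2 = 2 * v * (κ₁ / 4 / (v : ℝ) ^ 2) ^ 2 * (1 / (2 * v)) := by
              field_simp
          _ ≤ _ := mul_le_mul_of_nonneg_left h4 (by positivity)))
    refine h1.trans ?_
    have e1 : 2 * (4 * M) / (κ₁ / 4 / (v : ℝ) ^ 2) = 32 * M / κ₁ * (v : ℝ) ^ 2 := by
      field_simp; ring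
    rw [e1]
    have h5 : 32 * M / κ₁ * (v : ℝ) ^ 2 + 2 ≤ (32 * M / κ₁ + 2) * (v : ℝ) ^ 2 := by nlinarith
    calc 2 * 2 ^ r * (32 * M / κ₁ * (v : ℝ) ^ 2 + 2) ≤ 2 * 2 ^ r * ((32 * M / κ₁ + 2) * (v : ℝ) ^ 2) :=
          mul_le_mul_of_nonneg_left h5 (by positivity)
      _ = _ := by ring
  have hsub : S ⊆ (S.filter (fun p => ∀ i, ¬ Q i p)) ∪ Finset.univ.biUnion (fun i => S.filter (Q i)) := by
    intro p hp'
    rw [Finset.mem_union, Finset.mem_filter, Finset.mem_biUnion]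
    by_cases h : ∀ i, ¬ Q i p
    · exact Or.inl ⟨hp', h⟩
    · push Not at h
      obtain ⟨i, hi⟩ := h
      exact Or.inr ⟨i, Finset.mem_univ _, Finset.mem_filter.2 ⟨hp', hi⟩⟩
  have h1 : (S.card : ℝ) ≤ (S.filter (fun p => ∀ i, ¬ Q i p)).card + ∑ i, ((S.filter (Q i)).card : ℝ) := by
    have h2 := (Finset.card_le_card hsub).trans (Finset.card_union_le _ _)
    have h3 := h2.trans (Nat.add_le_add_left Finset.card_biUnion_le _)
    exact_mod_cast h3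
  refine h1.trans ?_
  have h2 : ∑ i, ((S.filter (Q i)).card : ℝ) ≤ r * (2 * 2 ^ r * (10 / κ₁ + 2) * (v : ℝ) ^ 2) := by
    refine (Finset.sum_le_sum fun i _ => hnear i).trans ?_
    rw [Finset.sum_const, Finset.card_univ, Fintype.card_fin, nsmul_eq_mul]
  rw [add_mul]
  refine add_le_add hfar (h2.trans (le_of_eq (by ring)))

/-- the gap regime -/
theorem range3 {θ : Fin r → ℂ} {κ₁ : ℝ} (hκ : 0 < κ₁) (hsep : Sep θ κ₁) {M : ℝ}
    (hM : 1 ≤ M) (hθM : ∀ i, ‖θ i‖ ≤ M) (k : ℕ) (a : ℤ[X]) (ha0 : ∀ i, aeval (θ i) a ≠ 0)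
    (S : Finset (ℤ × ℤ)) (hS : ∀ p ∈ S, Cp θ a p) (v : ℕ) (hv : 1 ≤ v) (Y : ℕ) (hY : 2 ≤ Y)
    (hp : ∀ p ∈ S, |(p.2 : ℝ)| ≤ (v : ℝ) ^ 3 ∧ 16 * M ^ 4 / κ₁ ^ 2 * (v : ℝ) ^ 12 ≤ |(p.1 : ℝ)| ∧
      Y ≤ p.1.natAbs ∧ p.1.natAbs ≤ Y ^ 2 ^ k) : S.card ≤ 2 * 2 ^ r * (k + 1) := by
  classical
  have hv0 : (0 : ℝ) < v := by exact_mod_cast hv
  choose s hs using fun i => IsAlgClosed.exists_pow_nat_eq (aeval (θ i) a) (n := 2) (by norm_num)
  choose w hw using fun e : Bool => IsAlgClosed.exists_pow_nat_eq ((sg e : ℂ)) (n := 2) (by norm_num)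
  have hs0 : ∀ i, s i ≠ 0 := by
    intro i h0
    have := hs i
    rw [h0] at this
    exact ha0 i (by rw [← this]; norm_num)
  choose! hcop b hb using hS
  have hne : ∀ p ∈ S, p.1 ≠ 0 := by
    intro p hpS h0
    have := (hp p hpS).2.2.1
    rw [h0] at this
    simp at this
    omega
  have habs : ∀ p ∈ S, 0 < |(p.1 : ℝ)| := by
    intro p hpS
    have : (p.1 : ℝ) ≠ 0 := by exact_mod_cast hne p hpS
    positivity
  have hex : ∀ p ∈ S, ∃ e : Fin r → Bool, ∀ i,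
      ‖(((Real.sqrt |(p.1 : ℝ)|)⁻¹ : ℝ) : ℂ) * (aeval (θ i) (b p) / s i) -
        (sg (e i) : ℂ) * w (decide (0 < (p.1 : ℝ)))‖ ^ 2 ≤ ((v : ℝ) ^ 3 / |(p.1 : ℝ)| * M) ^ 2 := by
    intro p hpS
    have h1 : ∀ i, ∃ e : Bool, ‖(((Real.sqrt |(p.1 : ℝ)|)⁻¹ : ℝ) : ℂ) * (aeval (θ i) (b p) / s i) -
        (sg e : ℂ) * w (decide (0 < (p.1 : ℝ)))‖ ^ 2 ≤ ((v : ℝ) ^ 3 / |(p.1 : ℝ)| * M) ^ 2 := by
      intro i
      refine sign_near (by positivity) (Or.inr ?_)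
      rw [mul_pow, div_pow, hb p hpS, ← hs, mul_div_cancel_left₀ _ (pow_ne_zero _ (hs0 i)), hw,
        nz1 (hne p hpS) rfl, norm_sg, mul_one]
      have e1 : (sg (decide (0 < (p.1 : ℝ))) : ℂ) * (1 - (((p.2 : ℝ) / p.1 : ℝ) : ℂ) * θ i) -
          (sg (decide (0 < (p.1 : ℝ))) : ℂ) =
          -((sg (decide (0 < (p.1 : ℝ))) : ℂ) * (((p.2 : ℝ) / p.1 : ℝ) : ℂ) * θ i) := by
        ring
      rw [e1, norm_neg, norm_mul, norm_mul, norm_sg, one_mul, Complex.norm_real, Real.norm_eq_abs,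
        abs_div]
      refine pow_le_pow_left₀ (by positivity) ?_ 2
      refine mul_le_mul ?_ (hθM i) (norm_nonneg _) (by positivity)
      exact div_le_div_of_nonneg_right (hp p hpS).1 (abs_nonneg _)
    choose e he using h1
    exact ⟨e, he⟩
  choose! e he using hex
  -- the classes
  have hfib : ∀ x ∈ (Finset.univ : Finset (Bool × (Fin r → Bool))),
      (S.filter (fun p => (decide (0 < (p.1 : ℝ)), e p) = x)).card ≤ k + 1 := by
    intro x _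
    set S' := S.filter (fun p => (decide (0 < (p.1 : ℝ)), e p) = x) with hS'
    have hgap : ∀ p ∈ S', ∀ p' ∈ S', p ≠ p' → p.1.natAbs ≤ p'.1.natAbs →
        p.1.natAbs ^ 2 ≤ p'.1.natAbs := by
      intro p hpS p' hpS' hpp hle
      obtain ⟨hpS, hx⟩ := Finset.mem_filter.1 hpS
      obtain ⟨hpS', hx'⟩ := Finset.mem_filter.1 hpS'
      by_contra hcon
      push Not at hcon
      have hxx := hx.trans hx'.symm
      have hsgn : decide (0 < (p.1 : ℝ)) = decide (0 < (p'.1 : ℝ)) := congrArg Prod.fst hxx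
      have hee : e p = e p' := congrArg Prod.snd hxx
      have n1 : ((p.1.natAbs : ℕ) : ℝ) = |(p.1 : ℝ)| := by rw [Nat.cast_natAbs]; push_cast; rfl
      have n2 : ((p'.1.natAbs : ℕ) : ℝ) = |(p'.1 : ℝ)| := by rw [Nat.cast_natAbs]; push_cast; rfl
      have hleR : |(p.1 : ℝ)| ≤ |(p'.1 : ℝ)| := by rw [← n1, ← n2]; exact_mod_cast hle
      have hltR : |(p'.1 : ℝ)| < |(p.1 : ℝ)| ^ 2 := by rw [← n1, ← n2]; exact_mod_cast hcon
      set x1 := |(p.1 : ℝ)| with hx1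
      set x2 := |(p'.1 : ℝ)| with hx2
      have p1 : 0 < x1 := habs p hpS
      have p2 : 0 < x2 := habs p' hpS'
      have hlow := (hp p hpS).2.1
      rw [← hx1] at hlow
      have hdist : ∀ i, ‖(((Real.sqrt x1)⁻¹ : ℝ) : ℂ) * (aeval (θ i) (b p) / s i) -
          (((Real.sqrt x2)⁻¹ : ℝ) : ℂ) * (aeval (θ i) (b p') / s i)‖ ^ 2 <
          κ₁ * ((Real.sqrt x1)⁻¹ * (Real.sqrt x2)⁻¹) := by
        intro i
        have h1 := he p hpS i
        have h2 := he p' hpS' i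
        rw [← hee, ← hsgn, ← hx2] at h2
        rw [← hx1] at h1
        obtain ⟨x, hx⟩ : ∃ x, x = (((Real.sqrt x1)⁻¹ : ℝ) : ℂ) * (aeval (θ i) (b p) / s i) -
          (sg (e p i) : ℂ) * w (decide (0 < (p.1 : ℝ))) := ⟨_, rfl⟩
        obtain ⟨y, hy⟩ : ∃ y, y = (((Real.sqrt x2)⁻¹ : ℝ) : ℂ) * (aeval (θ i) (b p') / s i) -
          (sg (e p i) : ℂ) * w (decide (0 < (p.1 : ℝ))) := ⟨_, rfl⟩
        rw [← hx] at h1
        rw [← hy] at h2
        have e1 : (((Real.sqrt x1)⁻¹ : ℝ) : ℂ) * (aeval (θ i) (b p) / s i) -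
          (((Real.sqrt x2)⁻¹ : ℝ) : ℂ) * (aeval (θ i) (b p') / s i) = x - y := by
          rw [hx, hy]; ring
        rw [e1]
        have g1 : ‖x‖ ≤ (v : ℝ) ^ 3 / x1 * M := by
          exact (pow_le_pow_iff_left₀ (norm_nonneg _) (by positivity) two_ne_zero).1 h1
        have g2 : ‖y‖ ≤ (v : ℝ) ^ 3 / x1 * M := by
          refine ((pow_le_pow_iff_left₀ (norm_nonneg _) (by positivity) two_ne_zero).1 h2).trans ?_
          refine mul_le_mul_of_nonneg_right ?_ (by linarith)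
          exact div_le_div_of_nonneg_left (by positivity) p1 hleR
        have h3 : ‖x - y‖ ^ 2 ≤ (2 * ((v : ℝ) ^ 3 / x1 * M)) ^ 2 := by
          refine pow_le_pow_left₀ (norm_nonneg _) ((norm_sub_le x y).trans ?_) 2
          linarith
        refine lt_of_le_of_lt h3 ?_
        -- compare the squares
        have q1 : 0 < Real.sqrt x1 := Real.sqrt_pos.2 p1
        have q2 : 0 < Real.sqrt x2 := Real.sqrt_pos.2 p2
        rw [← mul_inv, ← Real.sqrt_mul p1.le, ← div_eq_mul_inv, lt_div_iff₀ (Real.sqrt_pos.2 (by positivity))]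
        have h4 : Real.sqrt (x1 * x2) < κ₁ * x1 ^ 2 / (4 * (v : ℝ) ^ 6 * M ^ 2) := by
          rw [Real.sqrt_lt' (by positivity)]
          have h5 : x1 * x2 < x1 ^ 3 := by nlinarith
          refine lt_of_lt_of_le h5 ?_
          rw [div_pow, le_div_iff₀ (by positivity)]
          have h6 : 16 * M ^ 4 * (v : ℝ) ^ 12 ≤ κ₁ ^ 2 * x1 := by
            rw [div_mul_eq_mul_div, div_le_iff₀ (by positivity)] at hlow
            linarith
          calc x1 ^ 3 * (4 * (v : ℝ) ^ 6 * M ^ 2) ^ 2 = x1 ^ 3 * (16 * M ^ 4 * (v : ℝ) ^ 12) := by ring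
            _ ≤ x1 ^ 3 * (κ₁ ^ 2 * x1) := mul_le_mul_of_nonneg_left h6 (by positivity)
            _ = _ := by ring
        calc (2 * ((v : ℝ) ^ 3 / x1 * M)) ^ 2 * Real.sqrt (x1 * x2)
            < (2 * ((v : ℝ) ^ 3 / x1 * M)) ^ 2 * (κ₁ * x1 ^ 2 / (4 * (v : ℝ) ^ 6 * M ^ 2)) :=
              mul_lt_mul_of_pos_left h4 (by positivity)
          _ = κ₁ := by field_simp; ring
      have h0 := hsep a (b p) (b p') s hs hs0 p.1 p.2 p'.1 p'.2 (hb p hpS) (hb p' hpS') _ _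
        (inv_pos.2 (Real.sqrt_pos.2 p1)) (inv_pos.2 (Real.sqrt_pos.2 p2)) hdist
      rcases prop_eq (hcop p hpS) (hcop p' hpS') h0 with ⟨h1, h2⟩ | ⟨h1, h2⟩
      · exact hpp (Prod.ext h1.symm h2.symm)
      · refine not_neg_sign (x := (p.1 : ℝ)) (by exact_mod_cast hne p hpS) ?_ hsgn
        rw [h1]; push_cast; rfl
    have hinj : Set.InjOn (fun p : ℤ × ℤ => p.1.natAbs) (S' : Set (ℤ × ℤ)) := by
      intro p hpS p' hpS' he'
      by_contra hpp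
      have h1 := hgap p hpS p' hpS' hpp he'.le
      simp only at he'
      rw [← he'] at h1
      have h2 := (hp p (Finset.mem_filter.1 hpS).1).2.2.1
      nlinarith
    rw [← Finset.card_image_of_injOn hinj]
    refine Pool.Agent.H49SH.card_gap k Y _ hY ?_ ?_
    · intro t ht
      obtain ⟨p, hpS, rfl⟩ := Finset.mem_image.1 ht
      exact (hp p (Finset.mem_filter.1 hpS).1).2.2
    · intro t ht t' ht' hlt
      obtain ⟨p, hpS, rfl⟩ := Finset.mem_image.1 ht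
      obtain ⟨p', hpS', rfl⟩ := Finset.mem_image.1 ht'
      exact hgap p hpS p' hpS' (by rintro rfl; exact lt_irrefl _ hlt) hlt.le
  have h1 := Finset.card_le_mul_card_image_of_maps_to (s := S)
    (f := fun p : ℤ × ℤ => (decide (0 < (p.1 : ℝ)), e p)) (t := Finset.univ)
    (fun p _ => Finset.mem_univ _) (k + 1) hfib
  rw [Finset.card_univ, Fintype.card_prod, Fintype.card_bool, Fintype.card_fun, Fintype.card_bool,
    Fintype.card_fin] at h1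
  linarith

end Pool.Agent.H49TB
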