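import Pool.Agent.H49TB.Gap

/-!
Separation of the points of one class.
-/

set_option autoImplicit false

namespace Pool.Agent.H49TB

open Polynomial Finset

variable {r : ℕ}

/-- the inverse of the Vandermonde matrix of algebraic integers, up to a common denominator -/
theorem exists_vand_int (θ : Fin r → ℂ) (hθ : Function.Injective θ) (hi : ∀ i, IsIntegral ℤ (θ i)) :
    ∃ (V : Fin r → Fin r → ℂ) (n : ℤ), n ≠ 0 ∧
      (∀ k j : Fin r, ∑ i, V k i * θ i ^ (j : ℕ) = if k = j then 1 else 0) ∧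
      ∀ k i, IsIntegral ℤ ((n : ℂ) * V k i) := by
  classical
  have h1 : IsUnit (Matrix.vandermonde θ).det := (Matrix.det_vandermonde_ne_zero_iff.2 hθ).isUnit
  have h2 := Matrix.nonsing_inv_mul _ h1
  have hVi : ∀ i j, IsIntegral ℤ (Matrix.vandermonde θ i j) := fun i j => by
    rw [Matrix.vandermonde_apply]
    exact (hi i).pow _
  have hdet : IsIntegral ℤ (Matrix.vandermonde θ).det := IsIntegral.det hVi
  have halg : IsAlgebraic ℤ ((Matrix.vandermonde θ).det)⁻¹ := (hdet.isAlgebraic).inv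
  obtain ⟨n, hn0, hn⟩ := halg.exists_integral_multiple
  refine ⟨fun k i => (Matrix.vandermonde θ)⁻¹ k i, n, hn0, fun k j => ?_, fun k i => ?_⟩
  · have h3 := congrFun (congrFun h2 k) j
    rw [Matrix.mul_apply, Matrix.one_apply] at h3
    exact h3
  · show IsIntegral ℤ ((n : ℂ) * (Matrix.vandermonde θ)⁻¹ k i)
    rw [Matrix.inv_def, Matrix.smul_apply, smul_eq_mul, Ring.inverse_eq_inv', ← mul_assoc]
    refine IsIntegral.mul ?_ ?_
    · simpa using hn
    · rw [Matrix.adjugate_apply]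
      refine IsIntegral.det fun i' j' => ?_
      rw [Matrix.updateRow_apply]
      split_ifs
      · rw [Pi.single_apply]
        split_ifs
        · exact isIntegral_one
        · exact isIntegral_zero
      · exact hVi _ _

/-- the conclusion of the gap principle -/
theorem lin_concl (hr : 3 ≤ r) (θ : Fin r → ℂ) (hinj : Function.Injective θ) (B : ℤ[X])
    (hBd : B.natDegree < r) (hck : ∀ k : Fin r, 2 ≤ (k : ℕ) → B.coeff k = 0) (D : ℤ) (hD0 : D ≠ 0)
    (ξ m ξ' m' : ℤ)
    (hB : ∀ i, aeval (θ i) B ^ 2 = (D : ℂ) ^ 2 * ((ξ - m * θ i) * (ξ' - m' * θ i))) :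
    ξ * m' - ξ' * m = 0 := by
  have haev : ∀ (g : ℤ[X]) (z : ℂ), aeval z g = (g.map (Int.castRingHom ℂ)).eval z := by
    intro g z
    rw [aeval_def, eval₂_eq_eval_map]
    rfl
  obtain ⟨c0, hc0⟩ : ∃ c0, c0 = B.coeff 0 := ⟨_, rfl⟩
  obtain ⟨c1, hc1⟩ : ∃ c1, c1 = B.coeff 1 := ⟨_, rfl⟩
  have hBe : B = C c0 + C c1 * X := by
    ext k
    rcases Nat.lt_or_ge k r with hk | hk
    · rcases Nat.lt_or_ge k 2 with hk2 | hk2
      · interval_cases k
        · simp [hc0]
        · rw [coeff_add, coeff_C_mul, coeff_X_one, mul_one, coeff_C, if_neg one_ne_zero, zero_add, hc1]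
      · rw [hck ⟨k, hk⟩ hk2]
        simp only [coeff_add, coeff_C_mul, coeff_X, coeff_C]
        rw [if_neg (by omega), if_neg (by omega)]
        simp
    · rw [coeff_eq_zero_of_natDegree_lt (lt_of_lt_of_le hBd hk)]
      simp only [coeff_add, coeff_C_mul, coeff_X, coeff_C]
      rw [if_neg (by omega), if_neg (by omega)]
      simp
  obtain ⟨E, hEd⟩ : ∃ E : ℤ[X], E = B ^ 2 - C (D ^ 2) * ((C ξ - C m * X) * (C ξ' - C m' * X)) := ⟨_, rfl⟩
  have hE0 : E = 0 := by
    have e1 : E.natDegree ≤ 2 := by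
      have l1 : (C c0 + C c1 * X).natDegree ≤ 1 := by
        refine natDegree_add_le_of_degree_le (by rw [natDegree_C]; omega) ?_
        exact (natDegree_C_mul_le _ _).trans natDegree_X_le
      have l2 : ∀ x y : ℤ, (C x - C y * X).natDegree ≤ 1 := by
        intro x y
        refine (natDegree_sub_le _ _).trans (max_le (by rw [natDegree_C]; omega) ?_)
        exact (natDegree_C_mul_le _ _).trans natDegree_X_le
      rw [hEd, hBe]
      refine (natDegree_sub_le _ _).trans (max_le ?_ ?_)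
      · have := natDegree_pow_le_of_le 2 l1
        simpa using this
      · refine (natDegree_C_mul_le _ _).trans ?_
        exact natDegree_mul_le_of_le (l2 _ _) (l2 _ _)
    have e2 : E.map (Int.castRingHom ℂ) = 0 := by
      apply eq_zero_of_natDegree_lt_card_of_eval_eq_zero _ hinj
      · intro i
        rw [← haev, hEd]
        simp only [map_sub, map_mul, map_pow, aeval_C, aeval_X]
        rw [hB]
        simp
      · rw [Fintype.card_fin]
        exact lt_of_le_of_lt (natDegree_map_le.trans e1) (by omega)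
    exact (map_injective _ Int.cast_injective) (by rw [e2, Polynomial.map_zero])
  have f0 : c0 ^ 2 - D ^ 2 * (ξ * ξ') = 0 := by
    have := congrArg (eval 0) (hEd.symm.trans hE0)
    rw [hBe] at this
    simpa using this
  have f1 : (c0 + c1) ^ 2 - D ^ 2 * ((ξ - m) * (ξ' - m')) = 0 := by
    have := congrArg (eval 1) (hEd.symm.trans hE0)
    rw [hBe] at this
    simpa using this
  have f2 : (c0 - c1) ^ 2 - D ^ 2 * ((ξ + m) * (ξ' + m')) = 0 := by
    have := congrArg (eval (-1)) (hEd.symm.trans hE0)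
    rw [hBe] at this
    simp only [eval_sub, eval_pow, eval_add, eval_C, eval_mul, eval_X, eval_zero] at this
    linear_combination this
  have f3 : D ^ 4 * (ξ * m' - ξ' * m) ^ 2 = 0 := by
    have g1 : 2 * (c0 * c1) = -(D ^ 2 * (ξ * m' + ξ' * m)) := by linarith
    have g2 : c1 ^ 2 = D ^ 2 * (m * m') := by linarith
    have g3 : c0 ^ 2 = D ^ 2 * (ξ * ξ') := by linarith
    have g4 : (2 * (c0 * c1)) ^ 2 = 4 * (c0 ^ 2 * c1 ^ 2) := by ring
    rw [g1, g2, g3] at g4
    linear_combination g4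
  rcases mul_eq_zero.1 f3 with h0 | h0
  · exact absurd (pow_eq_zero_iff (by norm_num) |>.1 h0) hD0
  · exact pow_eq_zero_iff two_ne_zero |>.1 h0

/-- an integral rational number is an integer -/
theorem int_of_integral {q : ℚ} (h : IsIntegral ℤ ((q : ℚ) : ℂ)) : ∃ z : ℤ, (z : ℚ) = q := by
  have h1 : IsIntegral ℤ q := by
    have h2 : IsIntegral ℤ (algebraMap ℚ ℂ q) := by simpa using h
    exact (isIntegral_algebraMap_iff (algebraMap ℚ ℂ).injective).1 h2
  obtain ⟨z, hz⟩ := IsIntegrallyClosed.isIntegral_iff.1 h1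
  exact ⟨z, by simpa using hz⟩

/-- **Separation.** -/
theorem separation (hr : 3 ≤ r) (h : ℤ[X]) (hm : h.Monic) (hd : h.natDegree = r) (θ : Fin r → ℂ)
    (hθ : h.map (Int.castRingHom ℂ) = ∏ t, (X - C (θ t))) (hinj : Function.Injective θ) :
    ∃ κ₁ : ℝ, 0 < κ₁ ∧ κ₁ ≤ 1 ∧ ∀ (a b b' : ℤ[X]) (s : Fin r → ℂ), (∀ i, s i ^ 2 = aeval (θ i) a) →
      (∀ i, s i ≠ 0) → ∀ ξ m ξ' m' : ℤ,
      (∀ i, aeval (θ i) b ^ 2 = aeval (θ i) a * (ξ - m * θ i)) →
      (∀ i, aeval (θ i) b' ^ 2 = aeval (θ i) a * (ξ' - m' * θ i)) →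
      ∀ l l' : ℝ, 0 < l → 0 < l' →
      (∀ i, ‖(l : ℂ) * (aeval (θ i) b / s i) - l' * (aeval (θ i) b' / s i)‖ ^ 2 < κ₁ * (l * l')) →
      ξ * m' - ξ' * m = 0 := by
  classical
  have haev : ∀ (g : ℤ[X]) (z : ℂ), aeval z g = (g.map (Int.castRingHom ℂ)).eval z := by
    intro g z
    rw [aeval_def, eval₂_eq_eval_map]
    rfl
  have hroot : ∀ i, aeval (θ i) h = 0 := by
    intro i
    rw [haev, hθ, eval_prod]
    apply Finset.prod_eq_zero (Finset.mem_univ i)
    simp
  have hint : ∀ i, IsIntegral ℤ (θ i) := fun i => ⟨h, hm, by rw [← aeval_def]; exact hroot i⟩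
  obtain ⟨V, n, hn0, hV, hVi⟩ := exists_vand_int θ hinj hint
  have hh1 : h ≠ 1 := by
    rintro rfl
    rw [natDegree_one] at hd
    omega
  set K : ℝ := ∑ k, ∑ i, ‖V k i‖ with hK
  have hK0 : 0 ≤ K := Finset.sum_nonneg fun k _ => Finset.sum_nonneg fun i _ => norm_nonneg _
  have hKk : ∀ k, ∑ i, ‖V k i‖ ≤ K := fun k =>
    Finset.single_le_sum (f := fun k => ∑ i, ‖V k i‖)
      (fun k _ => Finset.sum_nonneg fun i _ => norm_nonneg _) (Finset.mem_univ k)
  have hn1 : (1 : ℝ) ≤ |(n : ℝ)| := by exact_mod_cast Int.one_le_abs hn0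
  refine ⟨1 / (|(n : ℝ)| * K + 1), by positivity, by
    rw [div_le_one (by positivity)]
    nlinarith [mul_nonneg (abs_nonneg (n : ℝ)) hK0], ?_⟩
  intro a b b' s hs hs0 ξ m ξ' m' hb hb' l l' hl hl' hlt
  obtain ⟨A, D, hD, hAD⟩ := exists_adj h hm hd (by omega) θ hθ a
  have hD0 : D ≠ 0 := by
    intro h0
    rw [h0, Int.cast_zero, eq_comm, Finset.prod_eq_zero_iff] at hD
    obtain ⟨i, -, hi⟩ := hD
    rw [← hs i] at hi
    exact hs0 i (pow_eq_zero_iff two_ne_zero |>.1 hi)
  have hDc : (D : ℂ) ≠ 0 := by exact_mod_cast hD0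
  obtain ⟨B, hB⟩ : ∃ B, B = (A * b * b') %ₘ h := ⟨_, rfl⟩
  have hBd : B.natDegree < r := by
    rw [hB, ← hd]
    exact natDegree_modByMonic_lt _ hm hh1
  obtain ⟨ρ, hρ⟩ : ∃ ρ : Fin r → ℂ, ρ = fun i => aeval (θ i) b / s i := ⟨_, rfl⟩
  obtain ⟨ρ', hρ'⟩ : ∃ ρ' : Fin r → ℂ, ρ' = fun i => aeval (θ i) b' / s i := ⟨_, rfl⟩
  have hρ2 : ∀ i, ρ i ^ 2 = ξ - m * θ i := by
    intro i
    have h0 := hs0 i
    rw [hρ]
    simp only
    rw [div_pow, hb, ← hs, mul_div_cancel_left₀ _ (pow_ne_zero _ h0)]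
  have hρ2' : ∀ i, ρ' i ^ 2 = ξ' - m' * θ i := by
    intro i
    have h0 := hs0 i
    rw [hρ']
    simp only
    rw [div_pow, hb', ← hs, mul_div_cancel_left₀ _ (pow_ne_zero _ h0)]
  have hBv : ∀ i, aeval (θ i) B = D * (ρ i * ρ' i) := by
    intro i
    have h3 : aeval (θ i) B = aeval (θ i) (A * b * b') := by
      have h4 := modByMonic_add_div (A * b * b') h
      rw [← hB] at h4
      have h5 := congrArg (aeval (θ i)) h4
      rw [map_add, map_mul, hroot, zero_mul, add_zero] at h5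
      exact h5
    have h0 := hs0 i
    have e1 : aeval (θ i) b = s i * ρ i := by rw [hρ]; field_simp
    have e2 : aeval (θ i) b' = s i * ρ' i := by rw [hρ']; field_simp
    rw [h3, map_mul, map_mul, ← hAD i, ← hs i, e1, e2]
    ring
  -- the coefficients
  have hck : ∀ k : Fin r, 2 ≤ (k : ℕ) → B.coeff k = 0 := by
    intro k hk
    have e1 := vand_coeff hV B hBd k
    have e3 : ∑ i, V k i = 0 := by
      have := hV k ⟨0, by omega⟩
      rw [if_neg (by
        intro h0
        rw [h0] at hk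
        simp at hk)] at this
      simpa using this
    have e4 : ∑ i, V k i * θ i = 0 := by
      have := hV k ⟨1, by omega⟩
      rw [if_neg (by
        intro h0
        rw [h0] at hk
        simp at hk)] at this
      simpa using this
    -- the integer `n B_k / D`
    have e5 : ∑ i, V k i * (ρ i * ρ' i) = (B.coeff k : ℂ) / D := by
      rw [eq_div_iff hDc, ← e1, Finset.sum_mul]
      refine Finset.sum_congr rfl fun i _ => ?_
      rw [hBv]; ring
    have e6 : IsIntegral ℤ ((((n : ℚ) * (B.coeff k) / D : ℚ)) : ℂ) := by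
      have e7 : ((((n : ℚ) * (B.coeff k) / D : ℚ)) : ℂ) = ∑ i, ((n : ℂ) * V k i) * (ρ i * ρ' i) := by
        push_cast
        rw [mul_div_assoc, ← e5, Finset.mul_sum]
        refine Finset.sum_congr rfl fun i _ => ?_
        ring
      rw [e7]
      refine IsIntegral.sum _ fun i _ => (hVi k i).mul ?_
      refine IsIntegral.mul ?_ ?_
      · refine IsIntegral.of_pow (n := 2) (by norm_num) ?_
        rw [hρ2]
        exact (isIntegral_algebraMap (x := ξ)).sub ((isIntegral_algebraMap (x := m)).mul (hint i))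
      · refine IsIntegral.of_pow (n := 2) (by norm_num) ?_
        rw [hρ2']
        exact (isIntegral_algebraMap (x := ξ')).sub ((isIntegral_algebraMap (x := m')).mul (hint i))
    obtain ⟨z, hz⟩ := int_of_integral e6
    -- the bound
    have e8 : ∀ i, ρ i * ρ' i = ((l : ℂ) ^ 2 * (ξ - m * θ i) + (l' : ℂ) ^ 2 * (ξ' - m' * θ i)) / (2 * l * l')
        - ((l : ℂ) * ρ i - l' * ρ' i) ^ 2 / (2 * l * l') := by
      intro i
      have hlc : (l : ℂ) ≠ 0 := by exact_mod_cast hl.ne'
      have hlc' : (l' : ℂ) ≠ 0 := by exact_mod_cast hl'.ne'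
      rw [← hρ2, ← hρ2']
      field_simp
      ring
    have e9 : ∑ i, V k i * (ρ i * ρ' i) = - ∑ i, V k i * (((l : ℂ) * ρ i - l' * ρ' i) ^ 2 / (2 * l * l')) := by
      have e10 : ∀ i, V k i * (ρ i * ρ' i) = (((l : ℂ) ^ 2 * ξ + (l' : ℂ) ^ 2 * ξ') / (2 * l * l')) * V k i
          - (((l : ℂ) ^ 2 * m + (l' : ℂ) ^ 2 * m') / (2 * l * l')) * (V k i * θ i)
          - V k i * (((l : ℂ) * ρ i - l' * ρ' i) ^ 2 / (2 * l * l')) := by
        intro i
        rw [e8]
        ring
      rw [Finset.sum_congr rfl fun i _ => e10 i, Finset.sum_sub_distrib, Finset.sum_sub_distrib,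
        ← Finset.mul_sum, ← Finset.mul_sum, e3, e4]
      ring
    have e11 : ‖∑ i, V k i * (ρ i * ρ' i)‖ ≤ K * (1 / (|(n : ℝ)| * K + 1) / 2) := by
      rw [e9, norm_neg]
      refine (norm_sum_le _ _).trans ?_
      calc ∑ i, ‖V k i * (((l : ℂ) * ρ i - l' * ρ' i) ^ 2 / (2 * l * l'))‖
          ≤ ∑ i, ‖V k i‖ * (1 / (|(n : ℝ)| * K + 1) / 2) := by
            refine Finset.sum_le_sum fun i _ => ?_
            rw [norm_mul]
            refine mul_le_mul_of_nonneg_left ?_ (norm_nonneg _)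
            rw [norm_div, norm_pow, norm_mul, norm_mul, Complex.norm_real, Complex.norm_real,
              Real.norm_of_nonneg hl.le, Real.norm_of_nonneg hl'.le, Complex.norm_ofNat]
            rw [div_le_iff₀ (by positivity)]
            have h5 := (hlt i).le
            rw [hρ, hρ']
            refine h5.trans (le_of_eq ?_)
            ring
        _ = (∑ i, ‖V k i‖) * (1 / (|(n : ℝ)| * K + 1) / 2) := by rw [Finset.sum_mul]
        _ ≤ _ := mul_le_mul_of_nonneg_right (hKk k) (by positivity)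
    have e12 : |(z : ℝ)| < 1 := by
      have e13 : ((z : ℝ) : ℂ) = (n : ℂ) * ∑ i, V k i * (ρ i * ρ' i) := by
        rw [e5]
        have := congrArg (fun q : ℚ => (q : ℂ)) hz
        push_cast at this
        push_cast
        rw [this]
        ring
      have e14 : |(z : ℝ)| = |(n : ℝ)| * ‖∑ i, V k i * (ρ i * ρ' i)‖ := by
        rw [← Real.norm_eq_abs, ← Complex.norm_real, e13, norm_mul, Complex.norm_intCast]
      rw [e14]
      calc |(n : ℝ)| * ‖∑ i, V k i * (ρ i * ρ' i)‖ ≤ |(n : ℝ)| * (K * (1 / (|(n : ℝ)| * K + 1) / 2)) :=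
            mul_le_mul_of_nonneg_left e11 (abs_nonneg _)
        _ = (|(n : ℝ)| * K) / (|(n : ℝ)| * K + 1) / 2 := by ring
        _ < 1 := by
          have h6 : 0 ≤ |(n : ℝ)| * K := by positivity
          have h7 : (|(n : ℝ)| * K) / (|(n : ℝ)| * K + 1) ≤ 1 := by
            rw [div_le_one (by positivity)]; linarith
          linarith
    have e15 : z = 0 := by
      have : |z| < 1 := by exact_mod_cast e12
      exact Int.abs_lt_one_iff.1 this
    rw [e15, Int.cast_zero, eq_comm, div_eq_zero_iff, mul_eq_zero] at hz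
    rcases hz with (h5 | h5) | h5
    · exact absurd (by exact_mod_cast h5) hn0
    · exact_mod_cast h5
    · exact absurd (by exact_mod_cast h5) hD0
  refine lin_concl hr θ hinj B hBd hck D hD0 ξ m ξ' m' fun i => ?_
  rw [hBv, ← hρ2, ← hρ2']
  ring

end Pool.Agent.H49TB
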