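import Pool.Agent.H49TB.Rng2
import Pool.Agent.H49TB.Asm3

/-!
The number of points of bounded size of one class.
-/

set_option autoImplicit false

namespace Pool.Agent.H49TB

open Polynomial Finset
open Pool.Agent.H49SH

/-- the number of points of polynomial size of one class -/
theorem small_cls (r : ℕ) (hr : 3 ≤ r) (h : ℤ[X]) (hm : h.Monic) (hd : h.natDegree = r)
    (hsepa : (h.map (Int.castRingHom ℚ)).Separable) (k : ℕ) : ∃ C : ℝ, 0 ≤ C ∧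
      ∀ a : ℤ[X], IsCoprime (h.map (Int.castRingHom ℚ)) (a.map (Int.castRingHom ℚ)) →
      ∀ v : ℕ, 1 ≤ v → ∀ Y : ℕ, 2 ≤ Y →
      ∀ S : Finset (ℤ × ℤ), (∀ p ∈ S, IsCoprime p.1 p.2 ∧ p.2 ≠ 0 ∧ |(p.2 : ℝ)| ≤ (v : ℝ) ^ 3 ∧
        p.1.natAbs ≤ Y ^ 2 ^ k ∧ (|(p.1 : ℝ)| ≤ (v : ℝ) ^ 3 ∨ Y ≤ p.1.natAbs) ∧
        ∃ b : ℤ[X], h ∣ b ^ 2 - a * (Polynomial.C p.1 - Polynomial.C p.2 * X)) →
      (S.card : ℝ) ≤ C * (v : ℝ) ^ 2 := by
  classical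
  obtain ⟨θ, hθ⟩ := Pool.Agent.N302.SP.exists_roots (h.map (Int.castRingHom ℂ)) (hm.map _)
    (r := r) (by rw [natDegree_map_eq_of_injective Int.cast_injective, hd])
  have hcomp : (algebraMap ℚ ℂ).comp (Int.castRingHom ℚ) = Int.castRingHom ℂ := RingHom.ext_int _ _
  have hinj : Function.Injective θ := by
    have h1 : (h.map (Int.castRingHom ℂ)).Separable := by
      rw [← hcomp, ← Polynomial.map_map]
      exact hsepa.map
    rw [hθ] at h1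
    exact separable_prod_X_sub_C_iff.1 h1
  obtain ⟨M, hM⟩ : ∃ M : ℝ, M = 1 + ∑ i, ‖θ i‖ := ⟨_, rfl⟩
  have hM1 : 1 ≤ M := by
    rw [hM]
    have : 0 ≤ ∑ i, ‖θ i‖ := Finset.sum_nonneg (fun _ _ => norm_nonneg _)
    linarith
  have hθM : ∀ i, ‖θ i‖ ≤ M := by
    intro i
    rw [hM]
    have := Finset.single_le_sum (f := fun i => ‖θ i‖) (fun _ _ => norm_nonneg _) (Finset.mem_univ i)
    linarith
  obtain ⟨κ₁, hκ, hκ1, hsep'⟩ := separation hr h hm hd θ hθ hinj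
  have hsep : Sep θ κ₁ := hsep'
  obtain ⟨C₁, hC₁, h1⟩ := range1 hκ hκ1 hsep hM1 hθM
  obtain ⟨C₂, hC₂, h2⟩ := range2 hκ hκ1 hsep hM1
  set L : ℝ := 16 * M ^ 4 / κ₁ ^ 2 with hL
  have hL1 : 1 ≤ L := by
    rw [hL, le_div_iff₀ (by positivity)]
    have e1 : κ₁ ^ 2 ≤ 1 := pow_le_one₀ hκ.le hκ1
    have e2 : 1 ≤ M ^ 4 := one_le_pow₀ hM1
    nlinarith
  have hL4 : 4 * M ≤ L := by
    rw [hL, le_div_iff₀ (by positivity)]
    have e1 : κ₁ ^ 2 ≤ 1 := pow_le_one₀ hκ.le hκ1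
    have e2 : M ≤ M ^ 4 := le_self_pow₀ hM1 (by norm_num)
    nlinarith
  refine ⟨C₂ + 2 * C₁ + 2 * C₁ + 2 * C₁ + C₁ * (1 + L) + 2 * 2 ^ r * (k + 1), by positivity, ?_⟩
  intro a hcop v hv Y hY S hS
  have haev : ∀ (g : ℤ[X]) (z : ℂ), aeval z g = (g.map (Int.castRingHom ℂ)).eval z := by
    intro g z
    rw [aeval_def, eval₂_eq_eval_map]
    rfl
  have hroot : ∀ i, aeval (θ i) h = 0 := by
    intro i
    rw [haev, hθ, eval_prod]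
    apply Finset.prod_eq_zero (Finset.mem_univ i)
    simp
  have ha0 : ∀ i, aeval (θ i) a ≠ 0 := by
    intro i h0
    obtain ⟨u, v, huv⟩ := hcop
    have h1 := congrArg (fun p => (p.map (algebraMap ℚ ℂ)).eval (θ i)) huv
    simp only [Polynomial.map_add, Polynomial.map_mul, Polynomial.map_map, hcomp, eval_add, eval_mul,
      ← haev, hroot, h0, mul_zero, add_zero, Polynomial.map_one, eval_one] at h1
    exact zero_ne_one h1
  have hCp : ∀ p ∈ S, Cp θ a p := by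
    intro p hp
    obtain ⟨hc, -, -, -, -, b, c, hb⟩ := hS p hp
    refine ⟨hc, b, fun i => ?_⟩
    have h3 := congrArg (aeval (θ i)) hb
    rw [map_mul, hroot, zero_mul, map_sub, map_mul, map_pow, sub_eq_zero] at h3
    rw [h3]
    simp
  have hv0 : (0 : ℝ) < v := by exact_mod_cast hv
  have hv1 : (1 : ℝ) ≤ v := by exact_mod_cast hv
  have hv2 : (1 : ℝ) ≤ (v : ℝ) ^ 2 := one_le_pow₀ hv1
  -- the pieces
  let Q0 : ℤ × ℤ → Prop := fun p => |(p.1 : ℝ)| ≤ 4 * M * |(p.2 : ℝ)|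
  let Q1 : ℤ × ℤ → Prop := fun p => ¬ Q0 p ∧ |(p.1 : ℝ)| ≤ (v : ℝ) ^ 4
  let Q2 : ℤ × ℤ → Prop := fun p => ¬ Q0 p ∧ (v : ℝ) ^ 4 ≤ |(p.1 : ℝ)| ∧ |(p.1 : ℝ)| ≤ (v : ℝ) ^ 6
  let Q3 : ℤ × ℤ → Prop := fun p => ¬ Q0 p ∧ (v : ℝ) ^ 6 ≤ |(p.1 : ℝ)| ∧ |(p.1 : ℝ)| ≤ (v : ℝ) ^ 10
  let Q4 : ℤ × ℤ → Prop := fun p => ¬ Q0 p ∧ (v : ℝ) ^ 10 ≤ |(p.1 : ℝ)| ∧ |(p.1 : ℝ)| ≤ L * (v : ℝ) ^ 12
  let Q5 : ℤ × ℤ → Prop := fun p => L * (v : ℝ) ^ 12 < |(p.1 : ℝ)|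
  have hq0 : ((S.filter Q0).card : ℝ) ≤ C₂ * (v : ℝ) ^ 2 :=
    h2 a ha0 _ (fun p hp => hCp p (Finset.mem_filter.1 hp).1) v hv (fun p hp => by
      obtain ⟨hp1, hp2⟩ := Finset.mem_filter.1 hp
      exact ⟨(hS p hp1).2.1, (hS p hp1).2.2.1, hp2⟩)
  -- a general range
  have hgen : ∀ (Q : ℤ × ℤ → Prop) [DecidablePred Q] (U w : ℝ), 0 ≤ U → 1 ≤ w → (∀ p, Q p → ¬ Q0 p) →
      (∀ p ∈ S, Q p → |(p.2 : ℝ)| ≤ U * |(p.1 : ℝ)|) → (∀ p ∈ S, Q p → |(p.1 : ℝ)| ≤ w ^ 2) →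
      ((S.filter Q).card : ℝ) ≤ C₁ * (1 + U * w) := by
    intro Q _ U w hU hw hQ0 hQU hQw
    refine h1 a ha0 _ (fun p hp => hCp p (Finset.mem_filter.1 hp).1) U w hU hw fun p hp => ?_
    obtain ⟨hp1, hp2⟩ := Finset.mem_filter.1 hp
    have h3 := hQ0 p hp2
    simp only [Q0, not_le] at h3
    refine ⟨?_, h3.le, hQU p hp1 hp2, hQw p hp1 hp2⟩
    intro h0
    rw [h0, Int.cast_zero, abs_zero] at h3
    have : 0 ≤ 4 * M * |(p.2 : ℝ)| := by positivity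
    linarith
  have hmU : ∀ (j : ℕ) (p : ℤ × ℤ), p ∈ S → (v : ℝ) ^ (3 + j) ≤ |(p.1 : ℝ)| →
      |(p.2 : ℝ)| ≤ 1 / (v : ℝ) ^ j * |(p.1 : ℝ)| := by
    intro j p hp hj
    have h3 := (hS p hp).2.2.1
    rw [one_div, ← div_eq_inv_mul, le_div_iff₀ (by positivity)]
    calc |(p.2 : ℝ)| * (v : ℝ) ^ j ≤ (v : ℝ) ^ 3 * (v : ℝ) ^ j :=
          mul_le_mul_of_nonneg_right h3 (by positivity)
      _ = (v : ℝ) ^ (3 + j) := (pow_add _ _ _).symm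
      _ ≤ _ := hj
  have hq1 : ((S.filter Q1).card : ℝ) ≤ 2 * C₁ * (v : ℝ) ^ 2 := by
    have h3 := hgen Q1 1 ((v : ℝ) ^ 2) zero_le_one hv2 (fun p hp => hp.1) (fun p hp hQ => by
      have h4 := hQ.1
      simp only [Q0, not_le] at h4
      have : 0 ≤ |(p.2 : ℝ)| := abs_nonneg _
      nlinarith) (fun p hp hQ => by
      have := hQ.2
      rw [← pow_mul]
      exact this)
    refine h3.trans ?_
    have h4 : 1 + 1 * (v : ℝ) ^ 2 ≤ 2 * (v : ℝ) ^ 2 := by linarith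
    calc C₁ * (1 + 1 * (v : ℝ) ^ 2) ≤ C₁ * (2 * (v : ℝ) ^ 2) := mul_le_mul_of_nonneg_left h4 hC₁
      _ = _ := by ring
  have hq2 : ((S.filter Q2).card : ℝ) ≤ 2 * C₁ * (v : ℝ) ^ 2 := by
    have h3 := hgen Q2 (1 / (v : ℝ) ^ 1) ((v : ℝ) ^ 3) (by positivity) (one_le_pow₀ hv1)
      (fun p hp => hp.1) (fun p hp hQ => hmU 1 p hp hQ.2.1) (fun p hp hQ => by
      have := hQ.2.2
      rw [← pow_mul]
      exact this)
    refine h3.trans ?_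
    have e1 : 1 / (v : ℝ) ^ 1 * (v : ℝ) ^ 3 = (v : ℝ) ^ 2 := by field_simp
    rw [e1]
    have h4 : 1 + (v : ℝ) ^ 2 ≤ 2 * (v : ℝ) ^ 2 := by linarith
    calc C₁ * (1 + (v : ℝ) ^ 2) ≤ C₁ * (2 * (v : ℝ) ^ 2) := mul_le_mul_of_nonneg_left h4 hC₁
      _ = _ := by ring
  have hq3 : ((S.filter Q3).card : ℝ) ≤ 2 * C₁ * (v : ℝ) ^ 2 := by
    have h3 := hgen Q3 (1 / (v : ℝ) ^ 3) ((v : ℝ) ^ 5) (by positivity) (one_le_pow₀ hv1)
      (fun p hp => hp.1) (fun p hp hQ => hmU 3 p hp hQ.2.1) (fun p hp hQ => by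
      have := hQ.2.2
      rw [← pow_mul]
      exact this)
    refine h3.trans ?_
    have e1 : 1 / (v : ℝ) ^ 3 * (v : ℝ) ^ 5 = (v : ℝ) ^ 2 := by field_simp
    rw [e1]
    have h4 : 1 + (v : ℝ) ^ 2 ≤ 2 * (v : ℝ) ^ 2 := by linarith
    calc C₁ * (1 + (v : ℝ) ^ 2) ≤ C₁ * (2 * (v : ℝ) ^ 2) := mul_le_mul_of_nonneg_left h4 hC₁
      _ = _ := by ring
  have hq4 : ((S.filter Q4).card : ℝ) ≤ C₁ * (1 + L) * (v : ℝ) ^ 2 := by
    have h3 := hgen Q4 (1 / (v : ℝ) ^ 7) (L * (v : ℝ) ^ 6) (by positivity)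
      (by
        have : (1 : ℝ) ≤ (v : ℝ) ^ 6 := one_le_pow₀ hv1
        nlinarith)
      (fun p hp => hp.1) (fun p hp hQ => hmU 7 p hp hQ.2.1) (fun p hp hQ => by
      refine hQ.2.2.trans ?_
      rw [mul_pow, ← pow_mul]
      exact mul_le_mul_of_nonneg_right (le_self_pow₀ hL1 two_ne_zero) (by positivity))
    refine h3.trans ?_
    have e1 : 1 / (v : ℝ) ^ 7 * (L * (v : ℝ) ^ 6) = L / v := by field_simp
    rw [e1]
    have h4 : L / v ≤ L := div_le_self (by linarith) hv1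
    have h5 : 1 + L / v ≤ (1 + L) * (v : ℝ) ^ 2 := by nlinarith
    calc C₁ * (1 + L / v) ≤ C₁ * ((1 + L) * (v : ℝ) ^ 2) := mul_le_mul_of_nonneg_left h5 hC₁
      _ = _ := by ring
  have hq5 : ((S.filter Q5).card : ℝ) ≤ 2 * 2 ^ r * (k + 1) * (v : ℝ) ^ 2 := by
    have h3 := range3 hκ hsep hM1 hθM k a ha0 (S.filter Q5)
      (fun p hp => hCp p (Finset.mem_filter.1 hp).1) v hv Y hY (fun p hp => by
        obtain ⟨hp1, hp2⟩ := Finset.mem_filter.1 hp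
        obtain ⟨-, -, h4, h5, h6, -⟩ := hS p hp1
        refine ⟨h4, hp2.le, ?_, h5⟩
        rcases h6 with h6 | h6
        · exfalso
          have h7 : (v : ℝ) ^ 3 ≤ (v : ℝ) ^ 12 := pow_le_pow_right₀ hv1 (by norm_num)
          have h8 : (v : ℝ) ^ 12 ≤ L * (v : ℝ) ^ 12 := le_mul_of_one_le_left (by positivity) hL1
          simp only [Q5] at hp2
          linarith
        · exact h6)
    calc ((S.filter Q5).card : ℝ) ≤ ((2 * 2 ^ r * (k + 1) : ℕ) : ℝ) := by exact_mod_cast h3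
      _ = 2 * 2 ^ r * (k + 1) := by push_cast; ring
      _ ≤ _ := le_mul_of_one_le_right (by positivity) hv2
  have hsub : S ⊆ S.filter Q0 ∪ (S.filter Q1 ∪ (S.filter Q2 ∪ (S.filter Q3 ∪ (S.filter Q4 ∪ S.filter Q5)))) := by
    intro p hp
    simp only [Finset.mem_union, Finset.mem_filter, hp, true_and]
    by_cases h0 : Q0 p
    · exact Or.inl h0
    right
    rcases le_total |(p.1 : ℝ)| ((v : ℝ) ^ 4) with h3 | h3
    · exact Or.inl ⟨h0, h3⟩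
    right
    rcases le_total |(p.1 : ℝ)| ((v : ℝ) ^ 6) with h4 | h4
    · exact Or.inl ⟨h0, h3, h4⟩
    right
    rcases le_total |(p.1 : ℝ)| ((v : ℝ) ^ 10) with h5 | h5
    · exact Or.inl ⟨h0, h4, h5⟩
    right
    rcases le_or_gt |(p.1 : ℝ)| (L * (v : ℝ) ^ 12) with h6 | h6
    · exact Or.inl ⟨h0, h5, h6⟩
    · exact Or.inr h6
  have hcard : (S.card : ℝ) ≤ (S.filter Q0).card + ((S.filter Q1).card + ((S.filter Q2).card +
      ((S.filter Q3).card + ((S.filter Q4).card + (S.filter Q5).card)))) := by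
    have h3 := Finset.card_le_card hsub
    have h4 := Finset.card_union_le (S.filter Q0) (S.filter Q1 ∪ (S.filter Q2 ∪ (S.filter Q3 ∪ (S.filter Q4 ∪ S.filter Q5))))
    have h5 := Finset.card_union_le (S.filter Q1) (S.filter Q2 ∪ (S.filter Q3 ∪ (S.filter Q4 ∪ S.filter Q5)))
    have h6 := Finset.card_union_le (S.filter Q2) (S.filter Q3 ∪ (S.filter Q4 ∪ S.filter Q5))
    have h7 := Finset.card_union_le (S.filter Q3) (S.filter Q4 ∪ S.filter Q5)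
    have h8 := Finset.card_union_le (S.filter Q4) (S.filter Q5)
    have h9 : S.card ≤ (S.filter Q0).card + ((S.filter Q1).card + ((S.filter Q2).card +
      ((S.filter Q3).card + ((S.filter Q4).card + (S.filter Q5).card)))) := by omega
    exact_mod_cast h9
  refine hcard.trans ?_
  nlinarith

/-- the number of the `D` with a point of polynomial size in given classes -/
theorem count_mid {ι : Type} [Fintype ι] {h : ι → ℤ[X]} {f₀ : ℕ} {B : ℝ} {A : (ι → ℝ) → Finset ℤ[X]}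
    {n : ι → ℤ → ℤ → ℕ} (hA : ClsN h f₀ B A n) (hm : ∀ i, (h i).Monic)
    (hirr : ∀ i, Irreducible ((h i).map (Int.castRingHom ℚ)))
    (hc : ∀ i j, i ≠ j → IsCoprime ((h i).map (Int.castRingHom ℚ)) ((h j).map (Int.castRingHom ℚ)))
    (hr : 3 ≤ (∏ i, h i).natDegree) {f : ℤ[X]} (hf : (∏ i, h i) ∣ f) (k : ℕ) :
    ∃ C₃ : ℝ, 0 ≤ C₃ ∧ ∀ T : ι → ℝ, (∀ i, 1 ≤ T i) → ∀ v : ℕ, 1 ≤ v → ∀ Y : ℕ, 2 ≤ Y →
      ∀ S : Finset ℤ, (∀ D ∈ S, ∃ (ξ m : ℤ) (g : ℕ), Pd f D ξ m g ∧ |(m : ℝ)| ≤ (v : ℝ) ^ 3 ∧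
        ξ.natAbs ≤ Y ^ 2 ^ k ∧ (|(ξ : ℝ)| ≤ (v : ℝ) ^ 3 ∨ Y ≤ ξ.natAbs) ∧ ∀ i, (n i ξ m : ℝ) ≤ T i) →
      (S.card : ℝ) ≤ C₃ * (v : ℝ) ^ 2 * ∏ i, T i := by
  classical
  obtain ⟨C, hC, hcls⟩ := small_cls _ hr (∏ i, h i) (monic_prod_of_monic _ _ fun i _ => hm i) rfl
    (sep_prod hirr hc) k
  have hB := hA.hB
  refine ⟨C * B, by nlinarith, ?_⟩
  intro T hT v hv Y hY S hS
  choose! ξ m g hpd hmN hξ hξ2 hn using hS
  have hex : ∀ D ∈ S, ∃ a ∈ A T, ∃ b : ℤ[X], (∏ i, h i) ∣ b ^ 2 - a * (Polynomial.C (ξ D) - Polynomial.C (m D) * X) := by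
    intro D hD
    refine hA.cls _ _ (hpd D hD).cop (fun i h0 => ?_) T hT (hn D hD)
    obtain ⟨f', hf'⟩ := (Finset.dvd_prod_of_mem h (Finset.mem_univ i)).trans hf
    apply (hpd D hD).hom0
    rw [hf', hom_mul, h0, zero_mul]
  choose! a ha b hb using hex
  have hfib : ∀ α ∈ A T, ((S.filter (fun D => a D = α)).card : ℝ) ≤ C * (v : ℝ) ^ 2 := by
    intro α hα
    have hinj : Set.InjOn (fun D => (ξ D, m D)) (S.filter (fun D => a D = α) : Set ℤ) := by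
      intro D hD D' hD' he
      rw [Finset.mem_coe, Finset.mem_filter] at hD hD'
      simp only [Prod.mk.injEq] at he
      have h1 := hpd D hD.1
      have h2 := hpd D' hD'.1
      rw [he.1, he.2] at h1
      exact h1.unique h2
    rw [← Finset.card_image_of_injOn hinj]
    refine hcls α (hA.cop T hT α hα) v hv Y hY _ fun p hp => ?_
    obtain ⟨D, hD, rfl⟩ := Finset.mem_image.1 hp
    rw [Finset.mem_filter] at hD
    refine ⟨(hpd D hD.1).cop, (hpd D hD.1).m0, hmN D hD.1, hξ D hD.1, hξ2 D hD.1, b D, ?_⟩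
    rw [← hD.2]
    exact hb D hD.1
  have h1 : (S.card : ℝ) = ∑ α ∈ A T, ((S.filter (fun D => a D = α)).card : ℝ) := by
    exact_mod_cast Finset.card_eq_sum_card_fiberwise (f := a) (t := A T) (fun D hD => ha D hD)
  rw [h1]
  calc ∑ α ∈ A T, ((S.filter (fun D => a D = α)).card : ℝ) ≤ ∑ _α ∈ A T, C * (v : ℝ) ^ 2 :=
        Finset.sum_le_sum hfib
    _ = ((A T).card : ℝ) * (C * (v : ℝ) ^ 2) := by rw [Finset.sum_const, nsmul_eq_mul]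
    _ ≤ (B * ∏ i, T i) * (C * (v : ℝ) ^ 2) := mul_le_mul_of_nonneg_right (hA.card T hT) (by positivity)
    _ = _ := by ring

end Pool.Agent.H49TB
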